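import Pool.Agent.RNK.FcD
import Pool.Agent.UNL.ADefs

/-!
# RNK.WDefs: closed weights and their Fourier transforms

`b : UNL.Par` with `A = 1`: `L = O = ℤ + ℤ τ`, `τ = α = UNI.om`, `de b d = d.1 + d.2 τ` and
`UNL.sm b d` is multiplication by `de b d` on `G N = (1/N) O / O`.
-/

namespace RNK

noncomputable section

/-- the same order as a `UNL.Par` -/
def toU (a : UNI.Par) : UNL.Par := ⟨1, a.t, a.n, one_pos, by have := a.h; linarith⟩

open Classical in
/-- the relation `k ↦ c (q k) - [k ∈ q G] c k` -/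
def Rl (b : UNL.Par) {N : ℕ} (q : ℤ × ℤ) (c : UNL.G N → ℚ) (k : UNL.G N) : ℚ :=
  c (UNL.sm b q k) - if ∃ m : UNL.G N, UNL.sm b q m = k then c k else 0

/-- the values `A_l(k) = W(k,l) - W(k,k+l)` -/
def Al {N : ℕ} (W : UNL.G N → UNL.G N → ℤ) (l k : UNL.G N) : ℚ := (W k l : ℚ) - W k (k + l)

/-- closed weights of level `N`. For each `l` the even part of `A_l` is a combination of the even
parts of the distribution relations for the elements `q_j` dividing `N`. -/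
structure CW (b : UNL.Par) (N : ℕ) [NeZero N] (W : UNL.G N → UNL.G N → ℤ) : Prop where
  ev : ∀ k l, W (-k) l = W k l
  anti : ∀ k l, W l k = -W k l
  row : ∀ l, ∑ k, W k l = 0
  supp : ∀ k l, W k l ≠ 0 → (N / 2) • k = 0
  inv : ∀ d : ℤ × ℤ, (∃ e z : ℤ × ℤ, UNL.de b d * UNL.de b e + N * UNL.de b z = 1) →
    ∀ k l, W (UNL.sm b d k) (UNL.sm b d l) = W k l
  cl : ∃ (J : ℕ) (q q' : Fin J → ℤ × ℤ) (c : Fin J → UNL.G N → UNL.G N → ℚ),
    (∀ j, UNL.de b (q j) * UNL.de b (q' j) = N) ∧ (∀ j l, c j l 0 = 0) ∧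
    ∀ l k, Al W l k + Al W l (-k) = ∑ j, (Rl b (q j) (c j l) k + Rl b (q j) (c j l) (-k))

/-- the character `z ↦ exp (κ (z - z̄))`, trivial on `O` -/
def ps (b : UNL.Par) (z : ℂ) : ℂ := Complex.exp (UNL.kap b * (z - (starRingEnd ℂ) z))

open Classical in
/-- the Fourier transform of a weight, on `O²` -/
def FT (D : OD) {N : ℕ} [NeZero N] (c : UNL.G N → UNL.G N → ℚ) (w : Vec) : ℂ :=
  if O2 D w then ∑ k : UNL.G N, ∑ l : UNL.G N,
    (c k l : ℂ) * (ps (toU D.a) (w.1 * UNL.tp (toU D.a) k) * ps (toU D.a) (w.2 * UNL.tp (toU D.a) l))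
  else 0

/-- invariance of a weight under the elements of `O` prime to `N` -/
def Inv (b : UNL.Par) {N : ℕ} (c : UNL.G N → UNL.G N → ℚ) : Prop :=
  ∀ d : ℤ × ℤ, (∃ e z : ℤ × ℤ, UNL.de b d * UNL.de b e + N * UNL.de b z = 1) →
    ∀ k l, c (UNL.sm b d k) (UNL.sm b d l) = c k l

end

end RNK
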