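import Pool.Agent.RNK.Wk
import Pool.Agent.RNK.WDefs

/-!
# RNK.Wc: closedness of `ξ(W)` for closed weights

`K_gen`: `Σ_k (W k l - W k (k+l)) gc k = 0` for every `l`. Put `g = gc hat` (even, `gc_neg`), `A = Al W l`.
1. `g` even: `2 Σ A(k) g(k) = Σ (A(k) + A(-k)) g(k) = 2 Σ_j Σ_k Rl q_j (c_j l) k g(k)` (rational scalars on `R`).
2. `Σ_k c(q k) g(k) = Σ_{m ∈ q G} c(m) Σ_{q k = m} g(k)`, for `m ≠ 0` the inner sum is `g(m) + C_q`
  (`UNL.dist_gc`, the constant is `Cst hat q` by its case `l = 0`), and `c(0) = 0`. So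
  `Σ_k Rl q c k g(k) = (Σ_{m ∈ q G} c(m)) C_q`.
3. `Σ_k Rl q c k = (N(q) - 1) Σ_{m ∈ q G} c(m)`, `N(q) = Nd b q` the size of the fibres of `q`. And
  `Σ_k A(k) = Σ_k W(k,l) - Σ_k W(k,k+l) = 0`.
4. `const_rel` with `e = (N, 0)`: `(N² - 1) C_{q_j} = (N(q_j) - 1) C_e`.
`closed_gen`: copy of the proof of `UNL.closed'`.
-/

namespace RNK

open UNI (sh)
open UNL (nz Lx av gc nz_mem gc_mem nz_sum)

noncomputable section

/-! ### multiplication by an element dividing `N` -/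

private theorem wc_lin (b : UNL.Par) {x y : ℤ} (h : (x : ℂ) + y * UNL.alp b = 0) :
    x = 0 ∧ y = 0 := by
  have h1 := congrArg (starRingEnd ℂ) h
  simp only [map_add, map_mul, map_intCast, map_zero] at h1
  have h2 : (y : ℂ) * (UNL.alp b - (starRingEnd ℂ) (UNL.alp b)) = 0 := by
    linear_combination h - h1
  have h3 : UNL.alp b - (starRingEnd ℂ) (UNL.alp b) ≠ 0 := by
    have h4 := UNL.alp_sub b
    rw [UNL.cj] at h4
    rw [h4]
    refine mul_ne_zero ?_ Complex.I_ne_zero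
    have h5 := UNL.sD_pos b
    exact_mod_cast h5.ne'
  have h4 : (y : ℂ) = 0 := (mul_eq_zero.1 h2).resolve_right h3
  rw [h4, zero_mul, add_zero] at h
  exact ⟨by exact_mod_cast h, by exact_mod_cast h4⟩

private theorem wc_eqs (b : UNL.Par) {N : ℕ} {d d' : ℤ × ℤ}
    (h : UNL.de b d * UNL.de b d' = N) :
    d.1 * d'.1 - b.A * b.C * (d.2 * d'.2) = N ∧
      d.1 * d'.2 + d.2 * d'.1 + b.B * (d.2 * d'.2) = 0 := by
  have h1 := UNL.alp_sq b
  have h2 : ((d.1 * d'.1 - b.A * b.C * (d.2 * d'.2) - N : ℤ) : ℂ) +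
      ((d.1 * d'.2 + d.2 * d'.1 + b.B * (d.2 * d'.2) : ℤ) : ℂ) * UNL.alp b = 0 := by
    simp only [UNL.de] at h
    push_cast at h1 ⊢
    linear_combination h - ((d.2 : ℂ) * d'.2) * h1
  obtain ⟨h3, h4⟩ := wc_lin b h2
  exact ⟨by linarith, h4⟩

/-- the matrix of the multiplication -/
private def wcM (b : UNL.Par) (d : ℤ × ℤ) : UNL.M2 :=
  ⟨d.1, -(b.C * d.2), b.A * d.2, d.1 + b.B * d.2⟩

private theorem wcM_az (b : UNL.Par) (d : ℤ × ℤ) {N : ℕ} (k : UNL.G N) :
    (wcM b d).az k = UNL.sm b d k := by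
  refine Prod.ext ?_ ?_
  · simp only [UNL.M2.az, wcM, UNL.sm]
    push_cast
    ring
  · simp only [UNL.M2.az, wcM, UNL.sm]
    push_cast
    ring

private theorem wcM_det (b : UNL.Par) (d : ℤ × ℤ) : (wcM b d).det = Nd b d := by
  simp only [UNL.M2.det, wcM, Nd]
  ring

private theorem wcM_comp (b : UNL.Par) {N : ℕ} {d d' : ℤ × ℤ}
    (h : UNL.de b d * UNL.de b d' = N) (j : ℤ × ℤ) :
    (wcM b d).ai ((wcM b d').ai j) = (N : ℤ) • j := by
  obtain ⟨h1, h2⟩ := wc_eqs b h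
  refine Prod.ext ?_ ?_
  · simp only [UNL.M2.ai, wcM, Prod.smul_fst, smul_eq_mul]
    linear_combination j.1 * h1 - b.C * j.2 * h2
  · simp only [UNL.M2.ai, wcM, Prod.smul_snd, smul_eq_mul]
    linear_combination j.2 * h1 + (b.A * j.1 + b.B * j.2) * h2

private theorem wc_Nd_pos (b : UNL.Par) {N : ℕ} [NeZero N] {d d' : ℤ × ℤ}
    (h : UNL.de b d * UNL.de b d' = N) : 0 < Nd b d := by
  have hD := b.hD
  have h1 : 4 * Nd b d = (2 * d.1 + b.B * d.2) ^ 2 + (4 * b.A * b.C - b.B ^ 2) * d.2 ^ 2 := by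
    simp only [Nd]
    ring
  by_contra hc
  have h2 : (2 * d.1 + b.B * d.2) ^ 2 + (4 * b.A * b.C - b.B ^ 2) * d.2 ^ 2 ≤ 0 := by
    rw [← h1]
    linarith
  have h3 : 0 < 4 * b.A * b.C - b.B ^ 2 := by linarith
  have h4 : d.2 = 0 := by
    by_contra h5
    have h6 : 0 < d.2 ^ 2 := by positivity
    have h7 := mul_pos h3 h6
    have h8 := sq_nonneg (2 * d.1 + b.B * d.2)
    linarith
  have h5 : d.1 = 0 := by
    rw [h4] at h2
    have h6 : (2 * d.1) ^ 2 ≤ 0 := by nlinarith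
    have h7 : (2 * d.1) ^ 2 = 0 := le_antisymm h6 (sq_nonneg _)
    have h8 := pow_eq_zero_iff (two_ne_zero) |>.1 h7
    linarith
  have h6 : UNL.de b d = 0 := by
    simp only [UNL.de, h4, h5]
    simp
  rw [h6, zero_mul] at h
  have h7 : (N : ℂ) ≠ 0 := Nat.cast_ne_zero.2 (NeZero.ne N)
  exact h7 h.symm

private theorem wc_card_ker {N : ℕ} [NeZero N] (m m' : UNL.M2) (h : m.det ≠ 0)
    (hm : ∀ j : ℤ × ℤ, m.ai (m'.ai j) = (N : ℤ) • j) :
    Nat.card (m.azh N).ker = m.det.natAbs := by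
  have h1 : Nat.card (m.azh N).ker * Nat.card (m.azh N).range = Nat.card (ZMod N × ZMod N) := by
    rw [← AddSubgroup.index_ker]
    exact AddSubgroup.card_mul_index _
  have h2 : Nat.card (m.azh N).range * (m.azh N).range.index = Nat.card (ZMod N × ZMod N) :=
    AddSubgroup.card_mul_index _
  have h3 : 0 < Nat.card (m.azh N).range := Nat.card_pos
  have h4 : Nat.card (m.azh N).ker = (m.azh N).range.index := by
    refine Nat.eq_of_mul_eq_mul_left h3 ?_
    rw [h2, ← h1, mul_comm]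
  rw [h4, ← m.index_range h, ← AddSubgroup.index_comap_of_surjective _ (UNL.M2.rd_surj N)]
  congr 1
  ext v
  constructor
  · rintro ⟨k, hk⟩
    obtain ⟨k', rfl⟩ := UNL.M2.rd_surj N k
    rw [UNL.M2.azh_apply, UNL.M2.az_rd] at hk
    have h5 : UNL.M2.rd N (v - m.ai k') = 0 := by rw [map_sub, hk, sub_self]
    obtain ⟨j, hj⟩ := UNL.M2.rd_eq_zero.1 h5
    refine ⟨k' + m'.ai j, ?_⟩
    have h6 : m.ai (k' + m'.ai j) = m.ai k' + m.ai (m'.ai j) :=
      m.ail.map_add _ _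
    rw [UNL.M2.ail_apply, h6, hm, ← hj]
    abel
  · rintro ⟨k, rfl⟩
    exact ⟨UNL.M2.rd N k, by rw [UNL.M2.azh_apply, UNL.M2.az_rd]; rfl⟩

private theorem wc_fib (b : UNL.Par) {N : ℕ} [NeZero N] {q q' : ℤ × ℤ}
    (hq : UNL.de b q * UNL.de b q' = N) {m : UNL.G N} (hm : ∃ k, UNL.sm b q k = m) :
    ((Finset.univ.filter (fun k : UNL.G N => UNL.sm b q k = m)).card : ℤ) = Nd b q := by
  obtain ⟨k0, hk0⟩ := hm
  have h3 : (Finset.univ.filter (fun k : UNL.G N => UNL.sm b q k = m)).card =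
      Nat.card ((wcM b q).azh N).ker := by
    rw [Nat.card_eq_fintype_card, ← Fintype.card_subtype]
    refine Fintype.card_congr ⟨fun k => ⟨k.1 - k0, ?_⟩, fun k => ⟨k.1 + k0, ?_⟩, ?_, ?_⟩
    · rw [AddMonoidHom.mem_ker, map_sub, UNL.M2.azh_apply, UNL.M2.azh_apply, wcM_az, wcM_az, k.2,
        hk0, sub_self]
    · have := (AddMonoidHom.mem_ker.1 k.2)
      rw [← wcM_az, ← UNL.M2.azh_apply, map_add, this, UNL.M2.azh_apply, wcM_az, hk0, zero_add]
    · intro k; simp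
    · intro k; simp
  have hp := wc_Nd_pos b hq
  rw [h3, wc_card_ker (wcM b q) (wcM b q') (by rw [wcM_det]; exact hp.ne') (wcM_comp b hq), wcM_det,
    Int.natAbs_of_nonneg hp.le]

/-! ### the sum of a relation against a function -/

open Classical in
private theorem wc_sum (b : UNL.Par) {N : ℕ} [NeZero N] {R : Type*} [AddCommGroup R] [Module ℚ R]
    (q : ℤ × ℤ) (c : UNL.G N → ℚ) (g : UNL.G N → R) :
    ∑ k : UNL.G N, Rl b q c k • g k =
      ∑ m ∈ Finset.univ.filter (fun m : UNL.G N => ∃ k, UNL.sm b q k = m),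
        c m • ((∑ k ∈ Finset.univ.filter (fun k : UNL.G N => UNL.sm b q k = m), g k) - g m) := by
  have h1 : ∑ k : UNL.G N, c (UNL.sm b q k) • g k =
      ∑ m ∈ Finset.univ.filter (fun m : UNL.G N => ∃ k, UNL.sm b q k = m),
        c m • ∑ k ∈ Finset.univ.filter (fun k : UNL.G N => UNL.sm b q k = m), g k := by
    rw [← Finset.sum_fiberwise Finset.univ (fun k : UNL.G N => UNL.sm b q k)
      (fun k => c (UNL.sm b q k) • g k)]
    rw [Finset.sum_filter]
    refine Finset.sum_congr rfl fun m _ => ?_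
    split_ifs with hm
    · rw [Finset.smul_sum]
      refine Finset.sum_congr rfl fun k hk => ?_
      rw [(Finset.mem_filter.1 hk).2]
    · refine Finset.sum_eq_zero fun k hk => ?_
      exact absurd ⟨k, (Finset.mem_filter.1 hk).2⟩ hm
  have h2 : ∑ k : UNL.G N, (if ∃ m : UNL.G N, UNL.sm b q m = k then c k else 0) • g k =
      ∑ m ∈ Finset.univ.filter (fun m : UNL.G N => ∃ k, UNL.sm b q k = m), c m • g m := by
    rw [Finset.sum_filter]
    refine Finset.sum_congr rfl fun m _ => ?_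
    split_ifs with hm
    · rfl
    · rw [zero_smul]
  simp only [Rl, sub_smul, Finset.sum_sub_distrib, smul_sub]
  rw [h1, ← h2]
  congr!

open Classical in
/-- the sum over the image -/
private def wcS (b : UNL.Par) {N : ℕ} [NeZero N] (q : ℤ × ℤ) (c : UNL.G N → ℚ) : ℚ :=
  ∑ m ∈ Finset.univ.filter (fun m : UNL.G N => ∃ k, UNL.sm b q k = m), c m

private theorem wc_relQ (b : UNL.Par) {N : ℕ} [NeZero N] {q q' : ℤ × ℤ}
    (hq : UNL.de b q * UNL.de b q' = N) (c : UNL.G N → ℚ) :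
    ∑ k : UNL.G N, Rl b q c k = ((Nd b q : ℤ) - 1 : ℚ) * wcS b q c := by
  classical
  have h := wc_sum b q c (fun _ : UNL.G N => (1 : ℚ))
  simp only [smul_eq_mul, mul_one] at h
  rw [h, wcS, Finset.mul_sum]
  refine Finset.sum_congr rfl fun m hm => ?_
  have h1 := wc_fib b hq (m := m) (by simpa using (Finset.mem_filter.1 hm).2)
  rw [Finset.sum_const, nsmul_eq_mul, mul_one]
  have h2 : ((Finset.univ.filter (fun k : UNL.G N => UNL.sm b q k = m)).card : ℚ) =
      ((Nd b q : ℤ) : ℚ) := by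
    rw [← h1]
    push_cast
    congr!
  rw [h2]
  ring

private theorem wc_relR (b : UNL.Par) {N : ℕ} [NeZero N] {R : Type*} [Ring R] [Algebra ℚ R]
    (hat : Additive (UNL.Gn b N → ℂˣ) →+ R) {q q' : ℤ × ℤ}
    (hq : UNL.de b q * UNL.de b q' = N) (c : UNL.G N → ℚ) (c0 : c 0 = 0) :
    ∑ k : UNL.G N, Rl b q c k • UNL.gc hat k = wcS b q c • Cst hat q := by
  classical
  obtain ⟨CA, hCA⟩ := UNL.dist_gc hat q q' hq
  have h0 := hCA 0 ⟨0, by simp [UNL.sm]⟩
  rw [UNL.gc_zero, zero_add, if_pos rfl] at h0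
  have hC : Cst hat q = CA := by
    rw [Cst]
    refine sub_eq_of_eq_add ?_
    convert h0
  rw [wc_sum b q c (fun k => UNL.gc hat k), wcS, Finset.sum_smul]
  refine Finset.sum_congr rfl fun m hm => ?_
  by_cases hm0 : m = 0
  · rw [hm0, c0, zero_smul, zero_smul]
  · have h1 := hCA m (by simpa using (Finset.mem_filter.1 hm).2)
    rw [if_neg hm0, add_zero] at h1
    have h2 : (∑ k ∈ Finset.univ.filter (fun k : UNL.G N => UNL.sm b q k = m), UNL.gc hat k) =
        UNL.gc hat m + CA := by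
      convert h1
    rw [h2, hC, add_sub_cancel_left]

/-! ### the total mass -/

private theorem wc_diag {b : UNL.Par} {N : ℕ} [NeZero N] {W : UNL.G N → UNL.G N → ℤ}
    (hW : CW b N W) (l : UNL.G N) : ∑ k : UNL.G N, W k (k + l) = 0 := by
  have ev2 : ∀ x y, W x (-y) = W x y := fun x y => by
    rw [hW.anti (-y) x, hW.ev, ← hW.anti y x]
  have h1 : ∑ k : UNL.G N, W k (k + l) = -∑ k : UNL.G N, W (k + l) k := by
    rw [← Finset.sum_neg_distrib]
    exact Finset.sum_congr rfl fun k _ => hW.anti (k + l) k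
  have h2 : ∑ k : UNL.G N, W (k + l) k = ∑ k : UNL.G N, W k (k + l) := by
    rw [← Equiv.sum_comp ((Equiv.neg (UNL.G N)).trans (Equiv.addRight (-l)))
      (fun k : UNL.G N => W (k + l) k)]
    refine Finset.sum_congr rfl fun k _ => ?_
    have e1 : ((Equiv.neg (UNL.G N)).trans (Equiv.addRight (-l))) k = -(k + l) := by
      simp
      abel
    rw [e1, ev2]
    have e2 : -(k + l) + l = -k := by abel
    rw [e2, hW.ev]
  rw [h2] at h1
  linarith

private theorem wc_Al {b : UNL.Par} {N : ℕ} [NeZero N] {W : UNL.G N → UNL.G N → ℤ}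
    (hW : CW b N W) (l : UNL.G N) : ∑ k : UNL.G N, Al W l k = 0 := by
  simp only [Al, Finset.sum_sub_distrib]
  have h1 := hW.row l
  have h2 := wc_diag hW l
  have h3 : ∑ k : UNL.G N, (W k l : ℚ) = 0 := by exact_mod_cast h1
  have h4 : ∑ k : UNL.G N, (W k (k + l) : ℚ) = 0 := by exact_mod_cast h2
  rw [h3, h4, sub_zero]

/-- the even part against an even function -/
private theorem wc_even {N : ℕ} [NeZero N] {R : Type*} [AddCommGroup R] [Module ℚ R]
    (A : UNL.G N → ℚ) {g : UNL.G N → R} (gn : ∀ k, g (-k) = g k) :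
    ∑ k : UNL.G N, (A k + A (-k)) • g k = (2 : ℚ) • ∑ k : UNL.G N, A k • g k := by
  have h : ∑ k : UNL.G N, A (-k) • g k = ∑ k : UNL.G N, A k • g k := by
    rw [← Equiv.sum_comp (Equiv.neg (UNL.G N)) (fun k => A k • g k)]
    exact Finset.sum_congr rfl fun k _ => by rw [Equiv.neg_apply, gn]
  simp only [add_smul, Finset.sum_add_distrib, h, two_smul]

private theorem wc_exp {b : UNL.Par} {N : ℕ} [NeZero N] {W : UNL.G N → UNL.G N → ℤ}
    {R : Type*} [AddCommGroup R] [Module ℚ R] {J : ℕ} {q : Fin J → ℤ × ℤ}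
    {c : Fin J → UNL.G N → UNL.G N → ℚ}
    (hA : ∀ l k, Al W l k + Al W l (-k) = ∑ j, (Rl b (q j) (c j l) k + Rl b (q j) (c j l) (-k)))
    {g : UNL.G N → R} (gn : ∀ k, g (-k) = g k) (l : UNL.G N) :
    ∑ k : UNL.G N, Al W l k • g k = ∑ j, ∑ k : UNL.G N, Rl b (q j) (c j l) k • g k := by
  have h1 : (2 : ℚ) • ∑ k : UNL.G N, Al W l k • g k =
      (2 : ℚ) • ∑ j, ∑ k : UNL.G N, Rl b (q j) (c j l) k • g k := by
    rw [← wc_even _ gn]
    simp only [hA, Finset.sum_smul]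
    rw [Finset.sum_comm, Finset.smul_sum]
    exact Finset.sum_congr rfl fun j _ => wc_even _ gn
  exact smul_right_injective R (two_ne_zero : (2 : ℚ) ≠ 0) h1

theorem K_gen {b : UNL.Par} {N : ℕ} [NeZero N] {W : UNL.G N → UNL.G N → ℤ} (hW : CW b N W)
    {R : Type*} [Ring R] [Algebra ℚ R] (hat : Additive (UNL.Gn b N → ℂˣ) →+ R)
    (l : UNL.G N) : ∑ k : UNL.G N, (W k l - W k (k + l)) • UNL.gc hat k = 0 := by
  have hN0 : 0 < N := Nat.pos_of_ne_zero (NeZero.ne N)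
  obtain ⟨J, q, q', c, hq, c0, hA⟩ := hW.cl
  have e0 : ∑ k : UNL.G N, (W k l - W k (k + l)) • gc hat k =
      ∑ k : UNL.G N, Al W l k • gc hat k := by
    refine Finset.sum_congr rfl fun k _ => ?_
    rw [Al, ← Int.cast_sub, Int.cast_smul_eq_zsmul]
  rw [e0]
  by_cases hN1 : N = 1
  · subst hN1
    refine Finset.sum_eq_zero fun k _ => ?_
    rw [Subsingleton.elim k 0, UNL.gc_zero, smul_zero]
  have h2N : 2 ≤ N := by omega
  have e1 := wc_exp hA (UNL.gc_neg hat hN0) l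
  have e2 := wc_exp (R := ℚ) hA (g := fun _ => 1) (fun _ => rfl) l
  simp only [smul_eq_mul, mul_one] at e2
  rw [wc_Al hW l] at e2
  have e3 : ∀ j, ∑ k : UNL.G N, Rl b (q j) (c j l) k • gc hat k =
      wcS b (q j) (c j l) • Cst hat (q j) := fun j => wc_relR b hat (hq j) _ (c0 j l)
  have e4 : ∀ j, ∑ k : UNL.G N, Rl b (q j) (c j l) k =
      ((Nd b (q j) : ℤ) - 1 : ℚ) * wcS b (q j) (c j l) := fun j => wc_relQ b (hq j) _
  simp only [e4] at e2
  rw [e1]
  simp only [e3]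
  have hE : UNL.de b ((N : ℤ), 0) * UNL.de b (1, 0) = (N : ℂ) := by
    simp [UNL.de]
  have h5 : ∀ j, (((N : ℚ) ^ 2 - 1)) • Cst hat (q j) =
      ((Nd b (q j) : ℤ) - 1 : ℚ) • Cst hat ((N : ℤ), 0) := by
    intro j
    have h6 := const_rel hat ((N : ℤ), 0) (1, 0) (q j) (q' j) hE (hq j)
    have h7 : Nd b ((N : ℤ), 0) = (N : ℤ) ^ 2 := by simp [Nd]
    rw [h7] at h6
    have h8 : (((N : ℤ) ^ 2 - 1 : ℤ) : ℚ) • Cst hat (q j) =
        ((Nd b (q j) - 1 : ℤ) : ℚ) • Cst hat ((N : ℤ), 0) := by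
      rw [Int.cast_smul_eq_zsmul, Int.cast_smul_eq_zsmul]
      exact h6
    push_cast at h8
    exact h8
  have h9 : ((N : ℚ) ^ 2 - 1) • ∑ j, wcS b (q j) (c j l) • Cst hat (q j) = 0 := by
    rw [Finset.smul_sum]
    have h10 : ∀ j, ((N : ℚ) ^ 2 - 1) • (wcS b (q j) (c j l) • Cst hat (q j)) =
        (((Nd b (q j) : ℤ) - 1 : ℚ) * wcS b (q j) (c j l)) • Cst hat ((N : ℤ), 0) := by
      intro j
      rw [smul_comm, h5 j, smul_smul, mul_comm]
    simp only [h10]
    rw [← Finset.sum_smul, ← e2, zero_smul]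
  have h11 : ((N : ℚ) ^ 2 - 1) ≠ 0 := by
    have h12 : (2 : ℚ) ≤ N := by exact_mod_cast h2N
    nlinarith
  exact (smul_eq_zero.1 h9).resolve_left h11

theorem closed_gen {b : UNL.Par} {N : ℕ} [NeZero N] (hN : Even N)
    {W : UNL.G N → UNL.G N → ℤ} (hW : CW b N W)
    (Φ : (Additive (UNL.Gn b N → ℂˣ)) [⋀^Fin 4]→ₗ[ℤ] ℂ) : UNL.bdry b W Φ = 0 := by
  obtain ⟨R, iR, iA, hat, lam, hsq, hlam⟩ := UNI.ext_ring Φ
  have hN0 : 0 < N := Nat.pos_of_ne_zero (NeZero.ne N)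
  have h1 : ∀ s t : UNL.G N, UNL.xi b (W : UNL.G N → UNL.G N → ℤ) (fun F g h =>
      Φ ![UNL.cl b N (UNL.tr b s t (fun u v => 1 - F u v)), UNL.cl b N (UNL.tr b s t F),
        UNL.cl b N (UNL.tr b s t g), UNL.cl b N (UNL.tr b s t h)]) =
      lam (UNI.dl W (sh (nz (Lx hat (fun u _ => u))) s) (sh (nz (Lx hat (fun _ v => v))) t)
      (sh (nz (Lx hat (fun u v => u - v))) (s - t)) (sh (nz (Lx hat (fun u v => u + v))) (s + t))
      (gc hat) (av (Lx hat (fun u v => u + v)) + av (Lx hat (fun u v => u - v)) -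
        2 * av (Lx hat (fun u _ => u)) - 2 * av (Lx hat (fun _ v => v)))) := by
    intro s t
    rw [← UNL.xi_dl hat hsq, ← UNL.xi_map]
    simp only [UNL.co, hlam]
  unfold UNL.bdry
  simp_rw [h1]
  simp only [← map_sum]
  have h2 : ∀ eps : R, ∑ s : UNL.G N, ∑ t : UNL.G N,
      UNI.dl W (sh (nz (Lx hat (fun u _ => u))) s) (sh (nz (Lx hat (fun _ v => v))) t)
      (sh (nz (Lx hat (fun u v => u - v))) (s - t)) (sh (nz (Lx hat (fun u v => u + v))) (s + t))
      (gc hat) eps = 0 := by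
    intro eps
    refine UNI.form (UNL.Lt hat).toAddSubgroup (fun x hx => UNL.Lt_sq hat hsq hx)
      _ _ _ _ _ (fun k => nz_mem hat _ k) (fun k => nz_mem hat _ k) (fun k => nz_mem hat _ k)
      (fun k => gc_mem hat k) eps (nz_sum _) (nz_sum _) (nz_sum _) (UNL.gc_neg hat hN0) W
      hW.ev hW.anti hW.row ?_ (K_gen hW hat)
    intro k l h
    have h2 := hW.supp k l h
    obtain ⟨M, hM⟩ := hN
    have key : ∀ x : ZMod N, ((N / 2 : ℕ) : ZMod N) * x = 0 → ∃ y : ZMod N, x = y + y := by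
      intro x hx
      have h3 : ((N / 2 * x.val : ℕ) : ZMod N) = 0 := by
        push_cast
        rw [ZMod.natCast_zmod_val]
        exact hx
      rw [ZMod.natCast_eq_zero_iff] at h3
      have h4 : N / 2 = M := by omega
      rw [h4] at h3
      have hM0 : 0 < M := by omega
      have h5 : M * 2 ∣ M * x.val := by
        have : M * 2 = N := by omega
        rw [this]
        exact h3
      obtain ⟨y, hy⟩ := (Nat.mul_dvd_mul_iff_left hM0).1 h5
      refine ⟨(y : ZMod N), ?_⟩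
      have h6 : x = ((x.val : ℕ) : ZMod N) := (ZMod.natCast_zmod_val x).symm
      rw [h6, hy]
      push_cast
      ring
    have e1 : ((N / 2 : ℕ) : ZMod N) * k.1 = 0 := by
      have := congrArg Prod.fst h2
      simpa using this
    have e2 : ((N / 2 : ℕ) : ZMod N) * k.2 = 0 := by
      have := congrArg Prod.snd h2
      simpa using this
    obtain ⟨y1, hy1⟩ := key _ e1
    obtain ⟨y2, hy2⟩ := key _ e2
    exact ⟨(y1, y2), Prod.ext hy1 hy2⟩
  rw [h2]
  exact map_zero lam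

end

end RNK
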