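import Pool.Agent.RNK.WDefs
import Pool.Agent.UNL.CBas

/-!
# RNK.Wr: Fourier transforms of invariant weights (stub; prove ALL sorries)

`b = toU D.a`, `A = 1`: `UNL.tau b = UNI.om D.a`, `UNL.xx b m = UNI.xx D.a m`, `UNL.de b d = UNI.xx D.a d`.
* `ps_O`: for `z = x + y τ ∈ O`: `κ (z - z̄) = κ 2 i y Im τ = 2 π i y` (`κ = π / Im τ`). `ps_add`: `exp`.
* `tp_sm`: `de b d * tp k - tp (sm b d k) ∈ O` (coordinates mod `N`; see `Pool.Agent.UNL.ADist`,
  private `ADist_tp_mul`), `tp_add`: `tp k + tp l - tp (k + l) ∈ O`.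
* `FT_Fn`: period: `N * tp k ∈ O`. `inv`: `x` prime to `N`, `x = de b d`; `k ↦ sm b d k` is a bijection
  of `G N` (inverse `sm b e`), `x w₁ tp k ≡ w₁ tp (sm b d k)` mod `O`; substitute.
  Values: `FT c w` is rational (`FT_rat`), and there are finitely many (periodicity on `O²`, `reps`).
* `FT_rat`: for an integer `u` prime to `N` `inv` for `d = (u, 0)` gives `FT c w = FT c (u w)`, and
  `ps (u z) = ps z ^ u`. For `z = w₁ tp k + w₂ tp l`, `N z ∈ O`, so `ps z = exp (2 π i j / N)`, `j ∈ ℤ`. Average over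
  the `u ∈ {1..N}` prime to `N`: `φ(N) FT c w = Σ c(k,l) Σ_u exp (2 π i j u / N)` and the Ramanujan sum
  `Σ_u exp (2 π i j u / N)` is an integer: `Σ_{d ∣ N} μ(d) Σ_{u ≤ N, d ∣ u} exp (2 π i j u/N)`, inner sum
  `N/d` or `0`. (Other proof: it is fixed by Galois; or induction.)
-/

namespace RNK

noncomputable section

variable {D : OD}

theorem tau_toU (a : UNI.Par) : UNL.tau (toU a) = UNI.om a := by
  simp [UNL.tau, UNI.om, toU, UNL.sD]

private theorem wr_alp (a : UNI.Par) : UNL.alp (toU a) = UNI.om a := by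
  have h : ((toU a).A : ℂ) = 1 := by simp [toU]
  rw [UNL.alp, h, one_mul, tau_toU]

theorem de_toU (a : UNI.Par) (d : ℤ × ℤ) : UNL.de (toU a) d = UNI.xx a d := by
  rw [UNL.de, UNI.xx, wr_alp]

private theorem wr_xx (a : UNI.Par) (d : ℤ × ℤ) : UNL.xx (toU a) d = UNI.xx a d := by
  rw [UNL.xx, UNI.xx, tau_toU]

theorem ps_add (b : UNL.Par) (z w : ℂ) : ps b (z + w) = ps b z * ps b w := by
  unfold ps
  rw [← Complex.exp_add]
  congr 1
  rw [map_add]
  ring

/-- `κ (z - z̄)` on `xx m / N` -/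
private theorem wr_ps (a : UNI.Par) (m : ℤ × ℤ) (N : ℂ) (hN : (starRingEnd ℂ) N = N) :
    ps (toU a) (UNI.xx a m / N) = Complex.exp (2 * Real.pi * Complex.I * m.2 / N) := by
  unfold ps
  congr 1
  have h1 := UNL.two_A_tau (toU a)
  have h2 := UNL.two_A_ctau (toU a)
  have hA : ((toU a).A : ℂ) = 1 := by simp [toU]
  have hAr : ((toU a).A : ℝ) = 1 := by simp [toU]
  have hs := UNL.sD_pos (toU a)
  have hs' : ((UNL.sD (toU a) : ℝ) : ℂ) ≠ 0 := by exact_mod_cast hs.ne'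
  rw [hA, mul_one] at h1 h2
  have h3 : UNL.tau (toU a) - UNL.cj (UNL.tau (toU a)) =
      (UNL.sD (toU a) : ℂ) * Complex.I := by
    linear_combination (1 / 2 : ℂ) * h1 - (1 / 2 : ℂ) * h2
  rw [← wr_xx]
  simp only [UNL.xx, map_div₀, map_add, map_mul, map_intCast, hN]
  have h4 : ((m.1 : ℂ) + m.2 * UNL.tau (toU a)) / N -
      ((m.1 : ℂ) + m.2 * (starRingEnd ℂ) (UNL.tau (toU a))) / N =
      m.2 * ((UNL.sD (toU a) : ℂ) * Complex.I) / N := by
    rw [← h3]
    ring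
  rw [h4]
  have h5 : ((UNL.kap (toU a) : ℝ) : ℂ) = 2 * Real.pi / (UNL.sD (toU a) : ℂ) := by
    rw [UNL.kap, hAr]
    push_cast
    ring
  rw [h5]
  field_simp

theorem ps_O {z : ℂ} (hz : z ∈ D.O) : ps (toU D.a) z = 1 := by
  obtain ⟨m, rfl⟩ := hz
  have h := wr_ps D.a m 1 (map_one _)
  rw [div_one, div_one] at h
  rw [h]
  have h2 := Complex.exp_int_mul_two_pi_mul_I m.2
  rw [← h2]
  congr 1
  ring

private theorem wr_N {N : ℕ} [NeZero N] : (N : ℂ) ≠ 0 := Nat.cast_ne_zero.2 (NeZero.ne N)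

private theorem wr_tp (a : UNI.Par) {N : ℕ} [NeZero N] (k : UNL.G N) :
    UNL.tp (toU a) k = UNI.xx a ((k.1.val : ℤ), (k.2.val : ℤ)) / N := by
  simp only [UNL.tp, UNI.xx, tau_toU]
  push_cast
  ring

private theorem wr_val {N : ℕ} [NeZero N] (m : ℤ) :
    (((m : ZMod N).val : ℕ) : ℂ) = (m : ℂ) - N * ((m / N : ℤ) : ℂ) := by
  have h := ZMod.val_intCast (n := N) m
  have h2 := Int.mul_ediv_add_emod m N
  have h3 : (((m : ZMod N).val : ℕ) : ℤ) = m - N * (m / N) := by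
    rw [h]
    linarith
  have h4 := congrArg (Int.cast : ℤ → ℂ) h3
  push_cast at h4
  rw [h4]

private theorem wr_cast (a : UNI.Par) {N : ℕ} [NeZero N] (m : ℤ × ℤ) :
    ∃ x : ℤ × ℤ, UNI.xx a m / N =
      UNL.tp (toU a) (((m.1 : ZMod N), (m.2 : ZMod N)) : UNL.G N) + UNI.xx a x := by
  refine ⟨(m.1 / N, m.2 / N), ?_⟩
  have hN : (N : ℂ) ≠ 0 := wr_N
  simp only [UNL.tp, UNI.xx, wr_val, tau_toU]
  field_simp
  ring

theorem tp_sm {N : ℕ} [NeZero N] (d : ℤ × ℤ) (k : UNL.G N) :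
    UNL.de (toU D.a) d * UNL.tp (toU D.a) k - UNL.tp (toU D.a) (UNL.sm (toU D.a) d k) ∈ D.O := by
  obtain ⟨x, hx⟩ := wr_cast D.a (N := N) (mulc D.a d ((k.1.val : ℤ), (k.2.val : ℤ)))
  refine ⟨x, ?_⟩
  rw [xx_mul, mul_div_assoc, ← wr_tp] at hx
  rw [de_toU, hx]
  have e : ((((mulc D.a d ((k.1.val : ℤ), (k.2.val : ℤ))).1 : ZMod N),
      ((mulc D.a d ((k.1.val : ℤ), (k.2.val : ℤ))).2 : ZMod N)) : UNL.G N) =
      UNL.sm (toU D.a) d k := by
    refine Prod.ext ?_ ?_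
    · simp [mulc, UNL.sm, toU]
    · simp [mulc, UNL.sm, toU]
      ring
  rw [e]
  ring

theorem tp_add {N : ℕ} [NeZero N] (k l : UNL.G N) :
    UNL.tp (toU D.a) k + UNL.tp (toU D.a) l - UNL.tp (toU D.a) (k + l) ∈ D.O := by
  obtain ⟨x, hx⟩ := wr_cast D.a (N := N)
    (((k.1.val : ℤ), (k.2.val : ℤ)) + ((l.1.val : ℤ), (l.2.val : ℤ)))
  refine ⟨x, ?_⟩
  rw [xx_add, add_div, ← wr_tp, ← wr_tp] at hx
  rw [hx]
  have e : ((((((k.1.val : ℤ), (k.2.val : ℤ)) + ((l.1.val : ℤ), (l.2.val : ℤ)) : ℤ × ℤ).1 :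
      ZMod N), ((((k.1.val : ℤ), (k.2.val : ℤ)) + ((l.1.val : ℤ), (l.2.val : ℤ)) : ℤ × ℤ).2 :
      ZMod N)) : UNL.G N) = k + l := by
    refine Prod.ext ?_ ?_
    · simp
    · simp
  rw [e]
  ring

theorem tp_N {N : ℕ} [NeZero N] (k : UNL.G N) : (N : ℂ) * UNL.tp (toU D.a) k ∈ D.O := by
  refine ⟨((k.1.val : ℤ), (k.2.val : ℤ)), ?_⟩
  have hN : (N : ℂ) ≠ 0 := wr_N
  rw [wr_tp]
  field_simp

private theorem wr_ps_sub {x y : ℂ} (h : x - y ∈ D.O) : ps (toU D.a) x = ps (toU D.a) y := by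
  have e : x = y + (x - y) := by ring
  rw [e, ps_add, ps_O h, mul_one]

/-- `ps` is `1` on all `x tp k` only for `x ∈ N O` -/
theorem ps_perfect {N : ℕ} [NeZero N] {x : ℂ} (hx : x ∈ D.O)
    (h : ∀ k : UNL.G N, ps (toU D.a) (x * UNL.tp (toU D.a) k) = 1) :
    ∃ y ∈ D.O, x = N * y := by
  have hN : (N : ℂ) ≠ 0 := wr_N
  have h1 : ∀ m : ℤ × ℤ, ps (toU D.a) (x * (UNI.xx D.a m / N)) = 1 := by
    intro m
    obtain ⟨j, hj⟩ := wr_cast D.a (N := N) m
    rw [hj, mul_add, ps_add, h, one_mul]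
    exact ps_O (D.O.mul_mem hx ⟨j, rfl⟩)
  obtain ⟨y, rfl⟩ := hx
  have h2 : ∀ m : ℤ × ℤ, ∃ q : ℤ, (mulc D.a y m).2 = N * q := by
    intro m
    have h3 := h1 m
    rw [← mul_div_assoc, ← xx_mul, wr_ps D.a _ N (map_natCast _ N), Complex.exp_eq_one_iff] at h3
    obtain ⟨q, hq⟩ := h3
    refine ⟨q, ?_⟩
    have h4 : ((mulc D.a y m).2 : ℂ) = N * q := by
      field_simp at hq
      exact hq
    exact_mod_cast h4
  obtain ⟨q1, hq1⟩ := h2 (1, 0)
  obtain ⟨q2, hq2⟩ := h2 (0, 1)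
  simp only [mulc] at hq1 hq2
  refine ⟨UNI.xx D.a (q2 - D.a.t * q1, q1), ⟨_, rfl⟩, ?_⟩
  have e1 : y.2 = N * q1 := by linarith
  have e2 : y.1 = N * (q2 - D.a.t * q1) := by
    have : y.1 + D.a.t * y.2 = N * q2 := by linarith
    rw [e1] at this
    linarith
  simp only [UNI.xx]
  rw [e1, e2]
  push_cast
  ring

/-! ### rationality -/

private theorem wr_gal {N : ℕ} [NeZero N] {ι : Type*} [Fintype ι] (c : ι → ℚ) (j : ι → ZMod N)
    (e : (ZMod N)ˣ → ι → ι) (he : ∀ u, Function.Bijective (e u)) (hc : ∀ u i, c (e u i) = c i)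
    (hj : ∀ (u : (ZMod N)ˣ) i, j (e u i) = u * j i)
    {z : ℂ} (hz : IsPrimitiveRoot z N) : ∃ r : ℚ, ∑ i, (c i : ℂ) * z ^ (j i).val = r := by
  let K := CyclotomicField N ℚ
  have hne : NeZero ((N : ℕ) : ℚ) := ⟨by exact_mod_cast NeZero.ne N⟩
  have hcyc : IsCyclotomicExtension {N} ℚ K := CyclotomicField.isCyclotomicExtension N ℚ
  have hfd : FiniteDimensional ℚ K := IsCyclotomicExtension.finiteDimensional {N} ℚ K
  have φ : K →ₐ[ℚ] ℂ := IsAlgClosed.lift
  have hN : 0 < N := Nat.pos_of_ne_zero (NeZero.ne N)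
  obtain ⟨ζ, hζ, hφ⟩ : ∃ ζ : K, IsPrimitiveRoot ζ N ∧ φ ζ = z := by
    have h0 : IsPrimitiveRoot (IsCyclotomicExtension.zeta N ℚ K) N :=
      IsCyclotomicExtension.zeta_spec N ℚ K
    have h1 : IsPrimitiveRoot (φ (IsCyclotomicExtension.zeta N ℚ K)) N :=
      h0.map_of_injective φ.injective
    obtain ⟨i, hi, hc, e⟩ := (h1.isPrimitiveRoot_iff).1 hz
    exact ⟨IsCyclotomicExtension.zeta N ℚ K ^ i, h0.pow_of_coprime i hc, by
      rw [map_pow, e]⟩
  let x : K := ∑ i, algebraMap ℚ K (c i) * ζ ^ (j i).val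
  have hG : IsGalois ℚ K := IsCyclotomicExtension.isGalois {N} ℚ K
  have hx : ∀ σ : K ≃ₐ[ℚ] K, σ x = x := by
    intro σ
    have hs := hζ.autToPow_spec ℚ σ
    set u := hζ.autToPow ℚ σ with hu
    have h1 : σ x = ∑ i, algebraMap ℚ K (c i) * (ζ ^ (u : ZMod N).val) ^ (j i).val := by
      simp only [x, map_sum, map_mul, map_pow, AlgEquiv.commutes]
      rw [hs]
    rw [h1]
    have h2 : ∀ i, (ζ ^ (u : ZMod N).val) ^ (j i).val = ζ ^ (j (e u i)).val := by
      intro i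
      rw [hj, ZMod.val_mul, ← pow_mul]
      exact pow_eq_pow_mod _ hζ.pow_eq_one
    have h3 : ∀ i, algebraMap ℚ K (c i) * (ζ ^ (u : ZMod N).val) ^ (j i).val =
        algebraMap ℚ K (c (e u i)) * ζ ^ (j (e u i)).val := by
      intro i
      rw [h2, hc]
    rw [Finset.sum_congr rfl fun i _ => h3 i]
    exact (he u).sum_comp fun i => algebraMap ℚ K (c i) * ζ ^ (j i).val
  have hb : x ∈ (⊥ : IntermediateField ℚ K) := (IsGalois.mem_bot_iff_fixed x).2 hx
  rw [IntermediateField.mem_bot] at hb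
  obtain ⟨r, hr⟩ := hb
  refine ⟨r, ?_⟩
  have h4 : φ x = ∑ i, (c i : ℂ) * z ^ (j i).val := by
    simp only [x, map_sum, map_mul, map_pow, AlgHom.commutes, hφ]
    rfl
  rw [← h4, ← hr, AlgHom.commutes]
  rfl

/-- the exponent -/
private def wrJ (a : UNI.Par) {N : ℕ} (x y : ℤ × ℤ) (k l : UNL.G N) : ZMod N :=
  x.1 * k.2 + x.2 * k.1 + a.t * x.2 * k.2 + (y.1 * l.2 + y.2 * l.1 + a.t * y.2 * l.2)

private theorem wr_pow (a : UNI.Par) {N : ℕ} [NeZero N] (m : ℤ × ℤ) :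
    ps (toU a) (UNI.xx a m / N) =
      Complex.exp (2 * Real.pi * Complex.I / N) ^ (m.2 : ZMod N).val := by
  have hN : (N : ℂ) ≠ 0 := wr_N
  rw [wr_ps a m N (map_natCast _ N), ← Complex.exp_nat_mul, wr_val,
    Complex.exp_eq_exp_iff_exists_int]
  refine ⟨m.2 / N, ?_⟩
  field_simp
  ring

private theorem wr_term (a : UNI.Par) {N : ℕ} [NeZero N] (x y : ℤ × ℤ) (k l : UNL.G N) :
    ps (toU a) (UNI.xx a x * UNL.tp (toU a) k) * ps (toU a) (UNI.xx a y * UNL.tp (toU a) l) =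
      Complex.exp (2 * Real.pi * Complex.I / N) ^ (wrJ a x y k l).val := by
  rw [← ps_add, wr_tp, wr_tp, ← mul_div_assoc, ← mul_div_assoc, ← xx_mul, ← xx_mul, ← add_div,
    ← xx_add, wr_pow]
  congr 2
  simp only [mulc, wrJ, Prod.snd_add]
  push_cast
  simp

private theorem wr_sm_int (a : UNI.Par) {N : ℕ} (u : ℤ) (k : UNL.G N) :
    UNL.sm (toU a) (u, 0) k = ((u : ZMod N) * k.1, (u : ZMod N) * k.2) := by
  refine Prod.ext ?_ ?_
  · simp [UNL.sm]
  · simp [UNL.sm]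

private theorem wr_FT {N : ℕ} [NeZero N] (c : UNL.G N → UNL.G N → ℚ) {w : Vec} (hw : O2 D w) :
    FT D c w = ∑ k : UNL.G N, ∑ l : UNL.G N,
      (c k l : ℂ) * (ps (toU D.a) (w.1 * UNL.tp (toU D.a) k) *
        ps (toU D.a) (w.2 * UNL.tp (toU D.a) l)) := by
  unfold FT
  rw [if_pos hw]

theorem FT_rat {N : ℕ} [NeZero N] {c : UNL.G N → UNL.G N → ℚ} (hc : Inv (toU D.a) c) (w : Vec) :
    ∃ r : ℚ, FT D c w = r := by
  by_cases hw : O2 D w
  · obtain ⟨⟨x, hx⟩, ⟨y, hy⟩⟩ := id hw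
    have hz := Complex.isPrimitiveRoot_exp N (NeZero.ne N)
    have hbij : ∀ u : (ZMod N)ˣ, Function.Bijective
        (fun i : UNL.G N × UNL.G N =>
          ((((u : ZMod N) * i.1.1, (u : ZMod N) * i.1.2),
            ((u : ZMod N) * i.2.1, (u : ZMod N) * i.2.2)) : UNL.G N × UNL.G N)) := by
      intro u
      refine Finite.injective_iff_bijective.1 ?_
      intro i i' h
      simp only [Prod.mk.injEq] at h
      obtain ⟨⟨h1, h2⟩, h3, h4⟩ := h
      have hu : ∀ s t : ZMod N, (u : ZMod N) * s = (u : ZMod N) * t → s = t := by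
        intro s t h
        have h5 := congrArg (fun r => ((u⁻¹ : (ZMod N)ˣ) : ZMod N) * r) h
        simpa using h5
      exact Prod.ext (Prod.ext (hu _ _ h1) (hu _ _ h2)) (Prod.ext (hu _ _ h3) (hu _ _ h4))
    have hinv : ∀ (u : (ZMod N)ˣ) (i : UNL.G N × UNL.G N),
        c ((u : ZMod N) * i.1.1, (u : ZMod N) * i.1.2)
          ((u : ZMod N) * i.2.1, (u : ZMod N) * i.2.2) = c i.1 i.2 := by
      intro u i
      have hcop := ZMod.val_coe_unit_coprime u
      have h1 : IsCoprime (((u : ZMod N).val : ℤ)) (N : ℤ) := by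
        exact Nat.isCoprime_iff_coprime.2 hcop
      obtain ⟨s, t, hst⟩ := h1
      have h2 := hc (((u : ZMod N).val : ℤ), 0) ⟨(s, 0), (t, 0), by
        rw [de_toU, de_toU, de_toU]
        simp only [UNI.xx]
        have h3 : ((s * ((u : ZMod N).val : ℤ) + t * (N : ℤ) : ℤ) : ℂ) = ((1 : ℤ) : ℂ) := by
          rw [hst]
        push_cast at h3 ⊢
        linear_combination h3⟩ i.1 i.2
      rw [wr_sm_int, wr_sm_int] at h2
      simpa using h2
    obtain ⟨r, hr⟩ := wr_gal (N := N) (ι := UNL.G N × UNL.G N) (fun i => c i.1 i.2)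
      (fun i => wrJ D.a x y i.1 i.2)
      (fun u i => (((u : ZMod N) * i.1.1, (u : ZMod N) * i.1.2),
        ((u : ZMod N) * i.2.1, (u : ZMod N) * i.2.2))) hbij hinv
      (fun u i => by simp only [wrJ]; ring) hz
    refine ⟨r, ?_⟩
    have h2 : ∑ i : UNL.G N × UNL.G N, (c i.1 i.2 : ℂ) *
        Complex.exp (2 * Real.pi * Complex.I / N) ^ (wrJ D.a x y i.1 i.2).val =
        ∑ k : UNL.G N, ∑ l : UNL.G N, (c k l : ℂ) *
          Complex.exp (2 * Real.pi * Complex.I / N) ^ (wrJ D.a x y k l).val :=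
      Fintype.sum_prod_type _
    rw [wr_FT c hw, ← hr, h2]
    refine Finset.sum_congr rfl fun k _ => Finset.sum_congr rfl fun l _ => ?_
    rw [hx, hy, wr_term]
  · refine ⟨0, ?_⟩
    unfold FT
    rw [if_neg hw]
    simp

/-! ### invariance -/

private theorem wr_xx0 (a : UNI.Par) {m : ℤ × ℤ} (h : UNI.xx a m = 0) : m = 0 := by
  have h1 := UNL.tau_im_pos (toU a)
  rw [tau_toU] at h1
  have h4 := congrArg Complex.im h
  have h6 : ((m.2 : ℂ)).im = 0 := Complex.intCast_im m.2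
  have h7 : ((m.2 : ℂ)).re = m.2 := Complex.intCast_re m.2
  simp only [UNI.xx, Complex.add_im, Complex.mul_im, h6, h7, Complex.zero_im, zero_mul,
    add_zero, Complex.intCast_im, zero_add] at h4
  have h8 : (m.2 : ℝ) = 0 := (mul_eq_zero.1 h4).resolve_right h1.ne'
  have h9 : m.2 = 0 := by exact_mod_cast h8
  have h10 : (m.1 : ℂ) = 0 := by
    have h := h
    simp only [UNI.xx, h9, Int.cast_zero, zero_mul, add_zero] at h
    exact h
  have h11 : m.1 = 0 := by exact_mod_cast h10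
  exact Prod.ext h11 h9

private theorem wr_sm_inj (a : UNI.Par) {N : ℕ} [NeZero N] {d e z : ℤ × ℤ}
    (h : UNI.xx a e * UNI.xx a d + UNI.xx a z * N = 1) :
    Function.Injective (UNL.sm (toU a) (N := N) d) := by
  have h1 : UNI.xx a (mulc a e d + ((N : ℤ) * z.1, (N : ℤ) * z.2) + (-1, 0)) = 0 := by
    rw [xx_add, xx_add, xx_mul]
    simp only [UNI.xx] at h ⊢
    push_cast
    linear_combination h
  have h2 := wr_xx0 a h1
  have h3 := congrArg Prod.fst h2
  have h4 := congrArg Prod.snd h2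
  simp only [mulc, Prod.fst_add, Prod.snd_add, Prod.fst_zero, Prod.snd_zero] at h3 h4
  have h5 := congrArg (Int.cast : ℤ → ZMod N) h3
  have h6 := congrArg (Int.cast : ℤ → ZMod N) h4
  push_cast at h5 h6
  rw [ZMod.natCast_self, zero_mul, add_zero] at h5 h6
  have key : ∀ k : UNL.G N, UNL.sm (toU a) e (UNL.sm (toU a) d k) = k := by
    intro k
    refine Prod.ext ?_ ?_
    · simp only [UNL.sm, toU]
      push_cast
      linear_combination k.1 * h5 - (a.n : ZMod N) * k.2 * h6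
    · simp only [UNL.sm, toU]
      push_cast
      linear_combination k.2 * h5 + (k.1 + a.t * k.2) * h6
  intro k k' hk
  rw [← key k, hk, key]

theorem FT_Fn {N : ℕ} [NeZero N] {c : UNL.G N → UNL.G N → ℚ} (hc : Inv (toU D.a) c) :
    ∃ V : Finset ℂ, (∀ v ∈ V, v ∈ D.K) ∧ Fn D N V (FT D c) := by
  classical
  have hper : ∀ w v, O2 D v → FT D c (w + (N : ℂ) • v) = FT D c w := by
    intro w v hv
    have hNv : O2 D ((N : ℂ) • v) := O2_smul (nat_O N) hv
    by_cases hw : O2 D w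
    · rw [wr_FT c hw, wr_FT c (O2_add hw hNv)]
      refine Finset.sum_congr rfl fun k _ => Finset.sum_congr rfl fun l _ => ?_
      have e1 : ps (toU D.a) ((w + (N : ℂ) • v).1 * UNL.tp (toU D.a) k) =
          ps (toU D.a) (w.1 * UNL.tp (toU D.a) k) := by
        apply wr_ps_sub
        have e : (w + (N : ℂ) • v).1 * UNL.tp (toU D.a) k - w.1 * UNL.tp (toU D.a) k =
            v.1 * ((N : ℂ) * UNL.tp (toU D.a) k) := by
          simp only [Prod.fst_add, Prod.smul_fst, smul_eq_mul]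
          ring
        rw [e]
        exact D.O.mul_mem hv.1 (tp_N k)
      have e2 : ps (toU D.a) ((w + (N : ℂ) • v).2 * UNL.tp (toU D.a) l) =
          ps (toU D.a) (w.2 * UNL.tp (toU D.a) l) := by
        apply wr_ps_sub
        have e : (w + (N : ℂ) • v).2 * UNL.tp (toU D.a) l - w.2 * UNL.tp (toU D.a) l =
            v.2 * ((N : ℂ) * UNL.tp (toU D.a) l) := by
          simp only [Prod.snd_add, Prod.smul_snd, smul_eq_mul]
          ring
        rw [e]
        exact D.O.mul_mem hv.2 (tp_N l)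
      rw [e1, e2]
    · have hw' : ¬ O2 D (w + (N : ℂ) • v) := by
        intro h
        apply hw
        have h1 := O2_sub h hNv
        rwa [add_sub_cancel_right] at h1
      unfold FT
      rw [if_neg hw, if_neg hw']
  obtain ⟨S, hS, hS'⟩ := reps D (Nat.pos_of_ne_zero (NeZero.ne N))
  refine ⟨(S ×ˢ S).image (FT D c), ?_, ?_, ?_, hper, ?_⟩
  · intro v hv
    obtain ⟨w, -, rfl⟩ := Finset.mem_image.1 hv
    obtain ⟨r, hr⟩ := FT_rat hc w
    rw [hr]
    exact SubfieldClass.ratCast_mem D.K r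
  · intro w hw
    have hO : O2 D w := by
      by_contra h
      apply hw
      unfold FT
      rw [if_neg h]
    obtain ⟨r1, hr1, y1, hy1, e1⟩ := hS' w.1 hO.1
    obtain ⟨r2, hr2, y2, hy2, e2⟩ := hS' w.2 hO.2
    have e3 : w = (r1, r2) + (N : ℂ) • (y1, y2) := Prod.ext e1 e2
    rw [Finset.mem_image]
    refine ⟨(r1, r2), Finset.mem_product.2 ⟨hr1, hr2⟩, ?_⟩
    rw [e3, hper _ _ ⟨hy1, hy2⟩]
  · intro w hw
    by_contra h
    apply hw
    unfold FT
    rw [if_neg h]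
  · intro x hx w hw
    obtain ⟨⟨d, rfl⟩, -, u, ⟨e, rfl⟩, v, ⟨z, rfl⟩, huv⟩ := hx
    have hd : UNI.xx D.a d ∈ D.O := ⟨d, rfl⟩
    have hinj := wr_sm_inj D.a (N := N) huv
    have hbij : Function.Bijective (UNL.sm (toU D.a) (N := N) d) :=
      Finite.injective_iff_bijective.1 hinj
    have hcd := hc d ⟨e, z, by
      rw [de_toU, de_toU, de_toU]
      linear_combination huv⟩
    have hps : ∀ (y : ℂ), y ∈ D.O → ∀ k : UNL.G N,
        ps (toU D.a) (UNI.xx D.a d * y * UNL.tp (toU D.a) k) =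
          ps (toU D.a) (y * UNL.tp (toU D.a) (UNL.sm (toU D.a) d k)) := by
      intro y hy k
      apply wr_ps_sub
      have h := tp_sm (D := D) d k
      rw [de_toU] at h
      have e : UNI.xx D.a d * y * UNL.tp (toU D.a) k -
          y * UNL.tp (toU D.a) (UNL.sm (toU D.a) d k) =
          y * (UNI.xx D.a d * UNL.tp (toU D.a) k -
            UNL.tp (toU D.a) (UNL.sm (toU D.a) d k)) := by ring
      rw [e]
      exact D.O.mul_mem hy h
    rw [wr_FT c hw, wr_FT c (O2_smul hd hw)]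
    have h1 : ∀ k l : UNL.G N,
        (c k l : ℂ) * (ps (toU D.a) ((UNI.xx D.a d • w).1 * UNL.tp (toU D.a) k) *
          ps (toU D.a) ((UNI.xx D.a d • w).2 * UNL.tp (toU D.a) l)) =
        (fun k' l' : UNL.G N => (c k' l' : ℂ) *
          (ps (toU D.a) (w.1 * UNL.tp (toU D.a) k') *
            ps (toU D.a) (w.2 * UNL.tp (toU D.a) l')))
          (UNL.sm (toU D.a) d k) (UNL.sm (toU D.a) d l) := by
      intro k l
      simp only [Prod.smul_fst, Prod.smul_snd, smul_eq_mul]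
      rw [hps _ hw.1, hps _ hw.2, hcd]
    rw [Finset.sum_congr rfl fun k _ => Finset.sum_congr rfl fun l _ => h1 k l]
    rw [hbij.sum_comp fun k' => ∑ l : UNL.G N,
      (fun k' l' : UNL.G N => (c k' l' : ℂ) *
          (ps (toU D.a) (w.1 * UNL.tp (toU D.a) k') *
            ps (toU D.a) (w.2 * UNL.tp (toU D.a) l'))) k' (UNL.sm (toU D.a) d l)]
    refine Finset.sum_congr rfl fun k' _ => ?_
    exact hbij.sum_comp fun l' => (c k' l' : ℂ) *
          (ps (toU D.a) (w.1 * UNL.tp (toU D.a) k') *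
            ps (toU D.a) (w.2 * UNL.tp (toU D.a) l'))

end

end RNK
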