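import Pool.Agent.RNK.WDefs
import Pool.Agent.UNL.AMain

/-!
# RNK.Wn: the weights of EveryNewform are closed weights (stub; prove ALL sorries)

`b.A = 1`, `A = sA b`, `B = sB b` (multiplication by `α`, `1 - α`), `A + B = 1`, `H = HH c`. `ev`, `anti`, `row`,
`supp`: `UNL.Wt_even`, `Wt_anti`, `Wt_row`, `Wt_supp` (see the end of `UNL.AMain`). `inv`: `d` commutes with
`A`, `B`, and `H (d k) (d l) = H k l` for `d` invertible mod `N` (the conditions `c k = 0`, `c l = 0`, `k = l = 0` and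
`x k + y l = 0` are equivalent).
`cl`: `J = 2`, `q = ![(0, 1), (1, -1)]` with the complementary elements of the proof of `UNL.K_zero`. For a
function `Φ` supported on `A G` put `RA Φ k = Φ (A k) - Φ k` (`= Rl b (0,1) Φ k`), the same for `B`. With the
support properties in the proof of `UNI.kd_zero` (`Pool/Agent/UNI/AKd.lean`; `H` symmetric, even,
`H k (k + l) = H k l`):
  `W(k,d) = RA (-H(·,Ad) + H(·,ABd)) k + RB (H(·,Ad) - H(A·,Ad) + H(A·,Bd) - H(·,ABd)) k`
  (`H(Bk,x) = RB(H(·,x)) k + H(k,x)`, `H(ABk,x) = RB(H(A·,x)) k + RA(H(·,x)) k + H(k,x)`, remainder `0`),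
  `W(k,k+d) = -RA Φ2 k + RB Φ3 k + RA Φ5 k - RB Φ6 k + (Φ5 k - Φ6 k)`, with
  `Φ2 l = H(Bl, l + Ad)`, `Φ3 l = H(Al, l + Bd)`, `Φ5 l = H(Bl + ABd, l)`, `Φ6 l = H(Al + ABd, l)`,
  and `Φ6 (-l) = Φ5 l` (`q1` in `kd_zero`), so `Φ5 - Φ6` is odd. So
  `c_A = -H(·,Ad) + H(·,ABd) + Φ2 - Φ5`, `c_B = H(·,Ad) - H(A·,Ad) + H(A·,Bd) - H(·,ABd) - Φ3 + Φ6`;
  both are `0` at `0`.
-/

namespace RNK

/-- `H` is invariant under injective endomorphisms -/
private theorem wn_HH {c N : ℕ} (φ : UNL.G N →+ UNL.G N) (hφ : Function.Injective φ)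
    (k l : UNL.G N) : UNL.HH c (φ k) (φ l) = UNL.HH c k l := by
  have h0 : ∀ x : UNL.G N, φ x = 0 ↔ x = 0 := fun x => map_eq_zero_iff φ hφ
  refine UNL.HH_congr ?_ ?_ ?_
  · rw [← map_nsmul, ← map_nsmul, h0, h0]
  · constructor
    · rintro ⟨x, y, h, he⟩
      refine ⟨x, y, h, ?_⟩
      rwa [← map_zsmul, ← map_zsmul, ← map_add, h0] at he
    · rintro ⟨x, y, h, he⟩
      refine ⟨x, y, h, ?_⟩
      rwa [← map_zsmul, ← map_zsmul, ← map_add, h0]
  · rw [h0, h0]

/-- multiplication by `d` as a homomorphism -/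
private def wn_sm (b : UNL.Par) (N : ℕ) (d : ℤ × ℤ) : UNL.G N →+ UNL.G N where
  toFun := UNL.sm b d
  map_zero' := by simp [UNL.sm]
  map_add' := fun k l => by
    refine Prod.ext ?_ ?_ <;> simp only [UNL.sm, Prod.fst_add, Prod.snd_add] <;> ring

private theorem wn_sm_apply (b : UNL.Par) (N : ℕ) (d : ℤ × ℤ) (k : UNL.G N) :
    wn_sm b N d k = UNL.sm b d k := rfl

private theorem wn_sm_sA (b : UNL.Par) {N : ℕ} (d : ℤ × ℤ) (k : UNL.G N) :
    UNL.sm b d (UNL.sA b k) = UNL.sA b (UNL.sm b d k) := by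
  refine Prod.ext ?_ ?_ <;> simp only [UNL.sm, UNL.sA] <;> ring

private theorem wn_sm_sB (b : UNL.Par) {N : ℕ} (d : ℤ × ℤ) (k : UNL.G N) :
    UNL.sm b d (UNL.sB b k) = UNL.sB b (UNL.sm b d k) := by
  rw [UNL.sB, UNL.sB, ← wn_sm_sA]
  exact map_sub (wn_sm b N d) _ _

/-- `1` and `α` are independent -/
private theorem wn_indep (b : UNL.Par) {x y : ℤ} (h : (x : ℂ) + y * UNL.alp b = 0) :
    x = 0 ∧ y = 0 := by
  have h1 := congrArg Complex.im h
  simp only [Complex.add_im, Complex.intCast_im, Complex.mul_im, Complex.intCast_re, zero_mul,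
    add_zero, zero_add, Complex.zero_im] at h1
  have h2 : (y : ℝ) = 0 := by
    rcases mul_eq_zero.1 h1 with h3 | h3
    · exact h3
    · exact absurd h3 (UNL.alp_im_pos b).ne'
  have hy : y = 0 := by exact_mod_cast h2
  subst hy
  refine ⟨?_, rfl⟩
  rw [Int.cast_zero, zero_mul, add_zero] at h
  exact_mod_cast h

private theorem wn_inj (b : UNL.Par) (hA : b.A = 1) {N : ℕ} (d e z : ℤ × ℤ)
    (h : UNL.de b d * UNL.de b e + N * UNL.de b z = 1) :
    Function.Injective (wn_sm b N d) := by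
  have hs := UNL.alp_sq b
  rw [hA] at hs
  push_cast at hs
  have h1 : ((d.1 * e.1 - b.C * d.2 * e.2 + N * z.1 - 1 : ℤ) : ℂ) +
      ((d.1 * e.2 + d.2 * e.1 + b.B * d.2 * e.2 + N * z.2 : ℤ) : ℂ) * UNL.alp b = 0 := by
    simp only [UNL.de] at h
    push_cast
    linear_combination h - (d.2 : ℂ) * e.2 * hs
  obtain ⟨h2, h3⟩ := wn_indep b h1
  have h4 : (d.1 : ZMod N) * e.1 - b.C * d.2 * e.2 = 1 := by
    have := congrArg (Int.cast : ℤ → ZMod N) h2
    push_cast at this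
    rw [ZMod.natCast_self] at this
    linear_combination this
  have h5 : (d.1 : ZMod N) * e.2 + d.2 * e.1 + b.B * d.2 * e.2 = 0 := by
    have := congrArg (Int.cast : ℤ → ZMod N) h3
    push_cast at this
    rw [ZMod.natCast_self] at this
    linear_combination this
  refine Function.LeftInverse.injective (g := wn_sm b N e) fun k => ?_
  simp only [wn_sm_apply, UNL.sm, hA, Int.cast_one, one_mul]
  refine Prod.ext ?_ ?_
  · show _ = k.1
    linear_combination k.1 * h4 - b.C * k.2 * h5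
  · show _ = k.2
    linear_combination (b.B * k.2 + k.1) * h5 + k.2 * h4

/-- the abstract form of the relation -/
private theorem wn_abs {Γ : Type*} [AddCommGroup Γ]
    (A B : Γ →+ Γ) (hAB : ∀ k, A k + B k = k) (H : Γ → Γ → ℤ)
    (hs : ∀ k l, H k l = H l k) (hn : ∀ k l, H (-k) l = H k l) (ha : ∀ k l, H k (k + l) = H k l)
    (hsupp : ∀ k l, H k l ≠ 0 → ∃ m, A (B m) = k)
    (W : Γ → Γ → ℤ) (hW : ∀ k l, W k l =
      (H (B k) (A l) - H (A (B k)) (A l) + H (A (B k)) (B l)) -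
      (H (B l) (A k) - H (A (B l)) (A k) + H (A (B l)) (B k))) :
    ∃ cA cB : Γ → Γ → ℤ, (∀ d, cA d 0 = 0) ∧ (∀ d, cB d 0 = 0) ∧
      (∀ d k, cA d k ≠ 0 → ∃ m, A m = k) ∧ (∀ d k, cB d k ≠ 0 → ∃ m, B m = k) ∧
      ∀ d k, (W k d - W k (k + d)) + (W (-k) d - W (-k) (-k + d)) =
        (cA d (A k) - cA d k + (cA d (A (-k)) - cA d (-k))) +
        (cB d (B k) - cB d k + (cB d (B (-k)) - cB d (-k))) := by
  have hB' : ∀ k, B k = k - A k := fun k => eq_sub_iff_add_eq'.2 (hAB k)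
  have hcom : ∀ k, B (A k) = A (B k) := by
    intro k
    rw [hB' (A k), hB' k, map_sub]
  have hn2 : ∀ k l, H k (-l) = H k l := fun k l => by rw [hs, hn, hs]
  have ha2 : ∀ k l, H k (l - k) = H k l := fun k l => by rw [← ha k (l - k), add_sub_cancel]
  -- supports
  have sA : ∀ k l, H k l ≠ 0 → ∃ m, A m = k := fun k l h => by
    obtain ⟨m, hm⟩ := hsupp k l h
    exact ⟨B m, hm⟩
  have sB : ∀ k l, H k l ≠ 0 → ∃ m, B m = k := fun k l h => by
    obtain ⟨m, hm⟩ := hsupp k l h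
    exact ⟨A m, by rw [hcom, hm]⟩
  have sAB : ∀ k l, H (A k) l ≠ 0 → ∃ m, B m = k := fun k l h => by
    obtain ⟨m, hm⟩ := hsupp _ l h
    have h0 : A (k - B m) = 0 := by rw [map_sub, hm, sub_self]
    have h1 := hAB (k - B m)
    rw [h0, zero_add] at h1
    refine ⟨k - B m + m, ?_⟩
    rw [map_add, h1, sub_add_cancel]
  have c1 : ∀ k d, H (B k) (A (k + d)) = H (B k) (k + A d) := by
    intro k d
    rw [← ha (B k) (A (k + d)), map_add, ← add_assoc, add_comm (B k) (A k), hAB]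
  have c4 : ∀ k d, H (B (k + d)) (A k) = H (A k) (k + B d) := by
    intro k d
    rw [hs, ← ha (A k) (B (k + d)), map_add, ← add_assoc, hAB]
  have q1 : ∀ l d, H (A (-l) + A (B d)) (-l) = H (B l + A (B d)) l := by
    intro l d
    rw [hn2, hs, map_neg, ← ha l (-A l + A (B d)), hs, hB' l]
    congr 1
    abel
  have e : ∀ k d, W k (k + d) = H (B k) (k + A d) - H (B (A k)) (A k + A d)
        + H (A (B k)) (B k + B d) - H (A k) (k + B d)
        + H (B (A k) + A (B d)) (A k) - H (A (B k) + A (B d)) (B k) := by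
    intro k d
    rw [hW, c1, c4, hcom k]
    simp only [map_add]
    ring
  refine ⟨fun d l => -H l (A d) + H l (A (B d)) + H (B l) (l + A d) - H (B l + A (B d)) l,
    fun d l => H l (A d) - H (A l) (A d) + H (A l) (B d) - H l (A (B d)) - H (A l) (l + B d)
      + H (A l + A (B d)) l, ?_, ?_, ?_, ?_, ?_⟩
  · intro d
    simp only [map_zero, zero_add]
    rw [hs (A (B d)) 0]
    ring
  · intro d
    simp only [map_zero, zero_add]
    rw [hs (A (B d)) 0]
    ring
  · intro d k h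
    by_contra hc
    apply h
    have z1 : ∀ x, H k x = 0 := fun x => by
      by_contra h1
      exact hc (sA k x h1)
    have z2 : H (B k) (k + A d) = 0 := by
      by_contra h1
      rw [hs] at h1
      obtain ⟨m, hm⟩ := sA _ _ h1
      exact hc ⟨m - d, by rw [map_sub, hm, add_sub_cancel_right]⟩
    have z3 : H (B k + A (B d)) k = 0 := by rw [hs, z1]
    simp only [z1, z2, z3]
    ring
  · intro d k h
    by_contra hc
    apply h
    have z1 : ∀ x, H k x = 0 := fun x => by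
      by_contra h1
      exact hc (sB k x h1)
    have z4 : ∀ x, H (A k) x = 0 := fun x => by
      by_contra h1
      exact hc (sAB k x h1)
    have z3 : H (A k + A (B d)) k = 0 := by rw [hs, z1]
    simp only [z1, z4, z3]
    ring
  · intro d k
    have p1 := q1 k d
    have p2 := q1 (-k) d
    rw [neg_neg] at p2
    rw [e, e, hW, hW]
    simp only [map_neg, hcom, hn, hn2] at p1 p2 ⊢
    have f1 : ∀ x y, H x (y) = H x y := fun x y => rfl
    have g1 := hs (B d) (A k)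
    have g2 := hs (A (B d)) (A k)
    have g3 := hs (A (B d)) (B k)
    linarith

private theorem wn_Rl (b : UNL.Par) {N : ℕ} (q : ℤ × ℤ) (c : UNL.G N → ℤ)
    (hc : ∀ k, c k ≠ 0 → ∃ m, UNL.sm b q m = k) (k : UNL.G N) :
    Rl b q (fun l => (c l : ℚ)) k = ((c (UNL.sm b q k) - c k : ℤ) : ℚ) := by
  unfold Rl
  by_cases h : c k = 0
  · simp only [h, Int.cast_zero, ite_self, sub_zero]
  · rw [if_pos (hc k h)]
    push_cast
    ring

theorem Wt_CW (b : UNL.Par) (hA : b.A = 1) (c : ℕ) (hc : c.Prime) (N : ℕ) [NeZero N]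
    (hN : (2 * c * UNL.nab b : ℤ) ∣ N) : CW b N (UNL.Wt b c) := by
  refine ⟨UNL.Wt_even b c, UNL.Wt_anti b c, UNL.Wt_row b c hc N hN, UNL.Wt_supp b c N hN, ?_, ?_⟩
  · rintro d ⟨e, z, h⟩ k l
    have hi := wn_inj b hA d e z h
    have hH : ∀ k l : UNL.G N, UNL.HH c (UNL.sm b d k) (UNL.sm b d l) = UNL.HH c k l :=
      fun k l => wn_HH (wn_sm b N d) hi k l
    simp only [UNL.Wt, UNL.Wh, ← wn_sm_sA, ← wn_sm_sB, hH]
  · -- complementary elements
    obtain ⟨M, hM⟩ : (b.A * b.C : ℤ) ∣ N :=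
      (Dvd.intro_left (2 * c * (1 - b.B + b.A * b.C)) (by rw [UNL.nab]; ring)).trans hN
    obtain ⟨M', hM'⟩ : (1 - b.B + b.A * b.C : ℤ) ∣ N :=
      (Dvd.intro_left (2 * c * (b.A * b.C)) (by rw [UNL.nab]; ring)).trans hN
    have hM1 : (N : ℂ) = (b.A * b.C : ℤ) * M := by exact_mod_cast hM
    have hM2 : (N : ℂ) = (1 - b.B + b.A * b.C : ℤ) * M' := by exact_mod_cast hM'
    have d1 : UNL.de b (0, 1) * UNL.de b (b.B * M, -M) = N := by
      rw [hM1]
      simp only [UNL.de]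
      push_cast
      have h := UNL.alp_sq b
      push_cast at h
      linear_combination (-(M : ℂ)) * h
    have d2 : UNL.de b (1, -1) * UNL.de b ((1 - b.B) * M', M') = N := by
      rw [hM2]
      simp only [UNL.de]
      push_cast
      have h := UNL.alp_sq b
      push_cast at h
      linear_combination (-(M' : ℂ)) * h
    obtain ⟨cA, cB, a1, a2, a3, a4, a5⟩ := wn_abs ((UNL.mA b).azh N) ((UNL.mB b).azh N)
      (by
        intro k
        simp only [UNL.M2.azh_apply, UNL.mA_az, UNL.mB_az]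
        rw [UNL.sB, add_sub_cancel]) (UNL.HH c) (UNL.HH_symm c) (UNL.HH_neg c) (UNL.HH_add c)
      (by
        intro k l h
        obtain ⟨m, hm⟩ := (UNL.mAB b).exists_pre (UNL.dvd_AB b hN) (UNL.HH_supp c h).1
        refine ⟨m, ?_⟩
        simp only [UNL.M2.azh_apply, UNL.mA_az, UNL.mB_az]
        rw [← UNL.mAB_az, hm]) (UNL.Wt b c)
      (by
        intro k l
        simp only [UNL.M2.azh_apply, UNL.mA_az, UNL.mB_az, UNL.Wt, UNL.Wh])
    simp only [UNL.M2.azh_apply, UNL.mA_az, UNL.mB_az, ← UNL.sm_al, ← UNL.sm_be] at a3 a4 a5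
    refine ⟨2, ![(0, 1), (1, -1)], ![(b.B * M, -M), ((1 - b.B) * M', M')],
      ![fun d k => (cA d k : ℚ), fun d k => (cB d k : ℚ)], ?_, ?_, ?_⟩
    · intro j
      fin_cases j
      · exact d1
      · exact d2
    · intro j l
      fin_cases j
      · simp [a1]
      · simp [a2]
    · intro l k
      rw [Fin.sum_univ_two]
      simp only [Matrix.cons_val_zero, Matrix.cons_val_one]
      rw [wn_Rl b (0, 1) (cA l) (a3 l), wn_Rl b (0, 1) (cA l) (a3 l),
        wn_Rl b (1, -1) (cB l) (a4 l), wn_Rl b (1, -1) (cB l) (a4 l)]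
      unfold Al
      exact_mod_cast a5 l k

end RNK
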