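import Pool.Agent.RNK.Wf
import Pool.Agent.RNK.Wc
import Pool.Agent.RNK.Wn
import Pool.Agent.UNL.Main
import Pool.Agent.UNL.All
import Pool.Agent.UNL.Real

/-!
# RNK.Wm: the closed element and its regulator integral
-/

open MeasureTheory UNL

namespace RNK

noncomputable section

theorem Xi_closed' {b : UNL.Par} {N : ℕ} [NeZero N] (hN : Even N)
    {W : UNL.G N → UNL.G N → ℤ} (hW : CW b N W)
    (Φ : (Additive (UNL.Gn b N → ℂˣ)) [⋀^Fin 4]→ₗ[ℤ] ℂ) :
    UNL.Gen.Xi b W (fun F g h =>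
      Φ ![UNL.cl b N (fun u v => 1 - F u v), UNL.cl b N F, UNL.cl b N g, UNL.cl b N h]) = 0 :=
  closed_gen hN hW Φ

variable {D : OD}

/-- the integral of the regulator form of the closed element -/
theorem int_XW {N : ℕ} [NeZero N] (hN : Even N) {W : UNL.G N → UNL.G N → ℤ}
    (hW : CW (toU D.a) N W) {L : ℂ → ℂ}
    (hd : deriv L (-1) = -(6 * (UNL.sD (toU D.a) / (2 * Real.pi)) ^ 5 : ℝ) *
      UNL.E42 (toU D.a)) :
    Integrable (fun q : UNL.E × UNL.E =>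
      UNL.Gen.XReg (toU D.a) W (UNL.cu (toU D.a) q.1) (UNL.cu (toU D.a) q.2)) ∧
    ∃ ρ ∈ D.K, ∫ q : UNL.E × UNL.E,
      UNL.Gen.XReg (toU D.a) W (UNL.cu (toU D.a) q.1) (UNL.cu (toU D.a) q.2) =
      (2 * Real.pi) ^ 3 * ρ * deriv L (-1) := by
  obtain ⟨h1, ρ, hρ, h2⟩ := reg_W (D := D) hN hW
  have h3 := fun s t : UNL.G N => UNL.Gen.int_tr (toU D.a) (UNL.Gen.Reg_per2 (toU D.a) W)
    (UNL.tp (toU D.a) s) (UNL.tp (toU D.a) t) h1
  simp only [UNL.Gen.XReg_eq]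
  constructor
  · exact integrable_finsetSum _ fun s _ => integrable_finsetSum _ fun t _ => (h3 s t).1
  · refine ⟨(N : ℂ) ^ 4 * ρ, D.K.mul_mem (D.K.pow_mem (O_sub_K (nat_O N)) 4) hρ, ?_⟩
    rw [integral_finsetSum _ fun s _ => integrable_finsetSum _ fun t _ => (h3 s t).1]
    have e : ∀ s : UNL.G N, ∫ q : UNL.E × UNL.E, ∑ t : UNL.G N,
        UNL.Reg (toU D.a) W (UNL.cu (toU D.a) q.1 + UNL.tp (toU D.a) s)
          (UNL.cu (toU D.a) q.2 + UNL.tp (toU D.a) t) =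
        (N : ℂ) ^ 2 * ∫ q : UNL.E × UNL.E,
          UNL.Reg (toU D.a) W (UNL.cu (toU D.a) q.1) (UNL.cu (toU D.a) q.2) := by
      intro s
      rw [integral_finsetSum _ fun t _ => (h3 s t).1]
      rw [Finset.sum_congr rfl fun t _ => (h3 s t).2]
      rw [Finset.sum_const, Finset.card_univ, Fintype.card_prod, ZMod.card, nsmul_eq_mul]
      push_cast
      ring
    rw [Finset.sum_congr rfl fun s _ => e s]
    rw [Finset.sum_const, Finset.card_univ, Fintype.card_prod, ZMod.card, nsmul_eq_mul, h2, hd]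
    push_cast
    ring

end

end RNK
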