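import Pool.Agent.RNK.RgP

/-!
# RNK.Px: infinitely many primes of degree one

`O = ℤ + ℤ ω`, `ω² = t ω - n`, norm form `x² + t x y + n y²` (`UNI.nm`), `n > 0`.
1. For every `P0` there are `m ∈ ℤ` and a prime `p > P0` with `p ∣ m² + t m + n`: take `m = n j`, `j` a positive
  multiple of `P0! ` (large): `m² + t m + n = n (n j² + t j + 1)`, and `n j² + t j + 1 > 1` is `1` mod `P0!`, so all
  its prime divisors are `> P0`.
2. `p` divides the norm of `m + ω` (`(m + ω)(m + ω̄) = m² + t m + n`). Let `w = gcd (p, m + ω)` in `O` (`bez`):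
  `w = u p + v (m + ω)`. Then `|w|²` divides `p²` (`p = w a`, norms) so it is `1`, `p` or `p²`. Not `1`: else
  `w` is a unit, `1 = u' p + v' (m + ω)`, multiply by `m + ω̄`: `m + ω̄ ∈ p O`, but its coordinates are
  `(m + t, -1)`. Not `p²`: else `a` is a unit and `p` divides `m + ω`, coordinates `(m, 1)`. So `w w̄ = p`.
3. `r : O → F_p`, `r (x + y ω) = x - m y` (for `z ∈ O` choose the coordinates; `UNI.xx` is injective; on
  `ℂ \ O` put `0`). It is additive, multiplicative (`m² + t m + n = 0` mod `p`), `r 1 = 1`, and `r w = 0`: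
  `r (p) = 0`, `r (m + ω) = 0`. Kernel: if `r z = 0`, `z = x + y ω`, `x ≡ m y mod p`, then
  `z = y (m + ω) + (x - m y) ∈ w O`. Conversely `r (w z) = 0`.
-/

namespace RNK

private theorem px_im_pos (a : UNI.Par) : 0 < (UNI.om a).im := by
  have h1 : (0 : ℝ) < 4 * a.n - a.t ^ 2 := by
    have h2 : ((a.t ^ 2 : ℤ) : ℝ) < ((4 * a.n : ℤ) : ℝ) := by exact_mod_cast a.h
    push_cast at h2
    linarith
  have h3 : (UNI.om a).im = Real.sqrt (4 * a.n - a.t ^ 2) / 2 := by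
    simp [UNI.om]
  rw [h3]
  have := Real.sqrt_pos.2 h1
  positivity

private theorem px_inj {a : UNI.Par} {m m' : ℤ × ℤ} (h : UNI.xx a m = UNI.xx a m') : m = m' := by
  have hp := px_im_pos a
  have h2 : (m.2 : ℝ) * (UNI.om a).im = m'.2 * (UNI.om a).im := by
    have := congrArg Complex.im h
    simpa [UNI.xx] using this
  have h3 : (m.2 : ℝ) = m'.2 := mul_right_cancel₀ hp.ne' h2
  have h4 : (m.1 : ℝ) + m.2 * (UNI.om a).re = m'.1 + m'.2 * (UNI.om a).re := by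
    have := congrArg Complex.re h
    simpa [UNI.xx] using this
  have h5 : (m.1 : ℝ) = m'.1 := by rw [h3] at h4; linarith
  exact Prod.ext (by exact_mod_cast h5) (by exact_mod_cast h3)

/-- primes dividing values of the norm form -/
private theorem px_prime (a : UNI.Par) (P0 : ℕ) :
    ∃ m : ℤ, ∃ p : ℕ, p.Prime ∧ P0 < p ∧ (p : ℤ) ∣ m ^ 2 + a.t * m + a.n := by
  have hn : 0 < a.n := by nlinarith [a.h, sq_nonneg a.t]
  set j : ℤ := (P0.factorial : ℤ) * (|a.t| + 1) with hj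
  have hf : (1 : ℤ) ≤ (P0.factorial : ℤ) := by exact_mod_cast Nat.factorial_pos P0
  have ht := abs_nonneg a.t
  have hj1 : |a.t| + 1 ≤ j := by rw [hj]; nlinarith
  have ht2 := neg_abs_le a.t
  have h1 : |a.t| + 1 ≤ a.n * j := by nlinarith
  set N : ℤ := a.n * j ^ 2 + a.t * j + 1 with hN
  have hN2 : 2 ≤ N := by
    have h2 : 1 ≤ a.n * j + a.t := by linarith
    have h3 : 1 ≤ j := by linarith
    have h4 : 1 ≤ j * (a.n * j + a.t) := by nlinarith
    rw [hN]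
    nlinarith
  have hNn : (N.natAbs : ℤ) = N := Int.natAbs_of_nonneg (by linarith)
  have hne : N.natAbs ≠ 1 := by
    intro h
    rw [h] at hNn
    push_cast at hNn
    linarith
  refine ⟨a.n * j, N.natAbs.minFac, Nat.minFac_prime hne, ?_, ?_⟩
  · by_contra hlt
    push Not at hlt
    have hp := Nat.minFac_prime hne
    have h3 : (N.natAbs.minFac : ℤ) ∣ (P0.factorial : ℤ) := by
      exact_mod_cast (Nat.Prime.dvd_factorial hp).2 hlt
    have h4 : (N.natAbs.minFac : ℤ) ∣ j := Dvd.dvd.mul_right h3 _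
    have h5 : (N.natAbs.minFac : ℤ) ∣ N := by
      rw [← hNn]
      exact_mod_cast Nat.minFac_dvd N.natAbs
    have h6 : (N.natAbs.minFac : ℤ) ∣ 1 := by
      have e : (1 : ℤ) = N - j * (a.n * j + a.t) := by rw [hN]; ring
      rw [e]
      exact dvd_sub h5 (Dvd.dvd.mul_right h4 _)
    have h7 : N.natAbs.minFac ∣ 1 := by exact_mod_cast h6
    exact hp.one_lt.ne' (Nat.dvd_one.1 h7)
  · have h5 : (N.natAbs.minFac : ℤ) ∣ N := by
      conv_rhs => rw [← hNn]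
      exact_mod_cast Nat.minFac_dvd N.natAbs
    have e : (a.n * j) ^ 2 + a.t * (a.n * j) + a.n = N * a.n := by rw [hN]; ring
    rw [e]
    exact Dvd.dvd.mul_right h5 _

open Classical in
/-- the residue map -/
private noncomputable def px_r (a : UNI.Par) (m : ℤ) (p : ℕ) (z : ℂ) : ZMod p :=
  if h : ∃ k : ℤ × ℤ, z = UNI.xx a k then ((h.choose.1 - m * h.choose.2 : ℤ) : ZMod p) else 0

private theorem px_r_xx (a : UNI.Par) (m : ℤ) (p : ℕ) (k : ℤ × ℤ) :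
    px_r a m p (UNI.xx a k) = ((k.1 - m * k.2 : ℤ) : ZMod p) := by
  have h : ∃ k' : ℤ × ℤ, UNI.xx a k = UNI.xx a k' := ⟨k, rfl⟩
  have e : h.choose = k := (px_inj h.choose_spec).symm
  unfold px_r
  rw [dif_pos h, e]

/-- the prime element -/
private theorem px_elt (D : OD) {m : ℤ} {p : ℕ} (hp : p.Prime)
    (hd : (p : ℤ) ∣ m ^ 2 + D.a.t * m + D.a.n) :
    ∃ w ∈ D.O, w * (starRingEnd ℂ) w = p ∧ (∃ u ∈ D.O, ∃ v ∈ D.O,
      w = u * p + v * UNI.xx D.a (m, 1)) ∧ (∃ x ∈ D.O, (p : ℂ) = w * x) ∧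
      (∃ y ∈ D.O, UNI.xx D.a (m, 1) = w * y) := by
  have hy0 : UNI.xx D.a (m, 1) ∈ D.O := ⟨_, rfl⟩
  obtain ⟨u, hu, v, hv, ⟨x, hx, ex⟩, ⟨y, hy, ey⟩⟩ := D.bez p (nat_O p) _ hy0
  set g : ℂ := u * p + v * UNI.xx D.a (m, 1) with hg
  have hgO : g ∈ D.O := D.O.add_mem (D.O.mul_mem hu (nat_O p)) (D.O.mul_mem hv hy0)
  obtain ⟨Ng, hNg⟩ := nrm_Ord hgO
  obtain ⟨Nx, hNx⟩ := nrm_Ord hx
  have hpp : Ng * Nx = p ^ 2 := by
    have h1 : ((Ng * Nx : ℕ) : ℂ) = ((p ^ 2 : ℕ) : ℂ) := by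
      push_cast
      rw [← hNg, ← hNx]
      have h2 : (starRingEnd ℂ) (p : ℂ) = (starRingEnd ℂ) g * (starRingEnd ℂ) x := by
        conv_lhs => rw [ex]
        rw [map_mul]
      rw [map_natCast] at h2
      calc g * (starRingEnd ℂ) g * (x * (starRingEnd ℂ) x)
          = (g * x) * ((starRingEnd ℂ) g * (starRingEnd ℂ) x) := by ring
        _ = (p : ℂ) ^ 2 := by rw [← ex, ← h2]; ring
    exact_mod_cast h1
  obtain ⟨i, hi, hi'⟩ := (Nat.dvd_prime_pow hp).1 (Dvd.intro _ hpp)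
  refine ⟨g, hgO, ?_, ⟨u, hu, v, hv, hg⟩, ⟨x, hx, ex⟩, ⟨y, hy, ey⟩⟩
  obtain ⟨q, hq⟩ := hd
  have hcj : (starRingEnd ℂ) (UNI.xx D.a (m, 1)) = UNI.xx D.a (m + D.a.t, -1) := by
    simp only [UNI.xx, map_add, map_mul, map_intCast, cj_om]
    push_cast
    ring
  have hff : UNI.xx D.a (m, 1) * UNI.xx D.a (m + D.a.t, -1) = (p : ℂ) * (q : ℂ) := by
    have h1 : ((m ^ 2 + D.a.t * m + D.a.n : ℤ) : ℂ) = ((p * q : ℤ) : ℂ) := by rw [hq]
    push_cast at h1
    rw [← h1]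
    simp only [UNI.xx]
    push_cast
    linear_combination (-1 : ℂ) * om_sq D.a
  interval_cases i
  · exfalso
    rw [pow_zero] at hi'
    rw [hi', Nat.cast_one] at hNg
    have hz : UNI.xx D.a (m + D.a.t, -1) =
        (p : ℂ) * ((starRingEnd ℂ) g * (u * UNI.xx D.a (m + D.a.t, -1) + v * q)) := by
      calc UNI.xx D.a (m + D.a.t, -1)
          = (g * (starRingEnd ℂ) g) * UNI.xx D.a (m + D.a.t, -1) := by rw [hNg, one_mul]
        _ = (starRingEnd ℂ) g * (u * p * UNI.xx D.a (m + D.a.t, -1) +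
            v * (UNI.xx D.a (m, 1) * UNI.xx D.a (m + D.a.t, -1))) := by
              conv_lhs => rw [hg]
              rw [← hg]
              ring
        _ = _ := by rw [hff]; ring
    have hmem : (starRingEnd ℂ) g * (u * UNI.xx D.a (m + D.a.t, -1) + v * q) ∈ D.O :=
      D.O.mul_mem (cj_Ord hgO) (D.O.add_mem (D.O.mul_mem hu ⟨_, rfl⟩)
        (D.O.mul_mem hv (int_O q)))
    obtain ⟨k, hk⟩ := hmem
    rw [hk] at hz
    have h3 : (p : ℂ) * UNI.xx D.a k = UNI.xx D.a (p * k.1, p * k.2) := by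
      simp only [UNI.xx]
      push_cast
      ring
    rw [h3] at hz
    have h4 := congrArg Prod.snd (px_inj hz)
    simp only at h4
    have h5 : (p : ℤ) ∣ 1 := ⟨-k.2, by linear_combination (-1 : ℤ) * h4⟩
    have h6 : p ∣ 1 := by exact_mod_cast h5
    exact hp.one_lt.ne' (Nat.dvd_one.1 h6)
  · rw [hNg, hi', pow_one]
  · exfalso
    have hNx1 : Nx = 1 := by
      rw [hi'] at hpp
      have h0 : 0 < p ^ 2 := pow_pos hp.pos 2
      exact Nat.eq_of_mul_eq_mul_left h0 (by rw [hpp, mul_one])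
    rw [hNx1, Nat.cast_one] at hNx
    have hz : UNI.xx D.a (m, 1) = (p : ℂ) * ((starRingEnd ℂ) x * y) := by
      calc UNI.xx D.a (m, 1) = g * y := ey
        _ = (g * x) * ((starRingEnd ℂ) x * y) := by linear_combination (-(g * y)) * hNx
        _ = _ := by rw [← ex]
    have hmem : (starRingEnd ℂ) x * y ∈ D.O := D.O.mul_mem (cj_Ord hx) hy
    obtain ⟨k, hk⟩ := hmem
    rw [hk] at hz
    have h3 : (p : ℂ) * UNI.xx D.a k = UNI.xx D.a (p * k.1, p * k.2) := by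
      simp only [UNI.xx]
      push_cast
      ring
    rw [h3] at hz
    have h4 := congrArg Prod.snd (px_inj hz)
    simp only at h4
    have h5 : (p : ℤ) ∣ 1 := ⟨k.2, h4⟩
    have h6 : p ∣ 1 := by exact_mod_cast h5
    exact hp.one_lt.ne' (Nat.dvd_one.1 h6)

theorem exists_PD (D : OD) (P0 : ℕ) : ∃ π : PD D, P0 < π.p := by
  obtain ⟨m, p, hp, hP, hd⟩ := px_prime D.a P0
  obtain ⟨w, hw, hn, ⟨u, hu, v, hv, ew⟩, ⟨x, hx, ex⟩, ⟨y, hy, ey⟩⟩ := px_elt D hp hd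
  have hadd : ∀ z ∈ D.O, ∀ z' ∈ D.O,
      px_r D.a m p (z + z') = px_r D.a m p z + px_r D.a m p z' := by
    rintro _ ⟨k, rfl⟩ _ ⟨l, rfl⟩
    rw [← xx_add, px_r_xx, px_r_xx, px_r_xx]
    simp only [Prod.fst_add, Prod.snd_add]
    push_cast
    ring
  have hq : (((m ^ 2 + D.a.t * m + D.a.n : ℤ)) : ZMod p) = 0 :=
    (ZMod.intCast_zmod_eq_zero_iff_dvd _ p).2 hd
  have hmul : ∀ z ∈ D.O, ∀ z' ∈ D.O,
      px_r D.a m p (z * z') = px_r D.a m p z * px_r D.a m p z' := by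
    rintro _ ⟨k, rfl⟩ _ ⟨l, rfl⟩
    rw [← xx_mul, px_r_xx, px_r_xx, px_r_xx]
    simp only [mulc]
    push_cast at hq ⊢
    linear_combination (-(k.2 : ZMod p) * l.2) * hq
  have h1 : px_r D.a m p 1 = 1 := by
    have e : (1 : ℂ) = UNI.xx D.a (1, 0) := by simp [UNI.xx]
    rw [e, px_r_xx]
    simp
  have hpz : px_r D.a m p (p : ℂ) = 0 := by
    have e : (p : ℂ) = UNI.xx D.a (p, 0) := by simp [UNI.xx]
    rw [e, px_r_xx]
    simp
  have hmz : px_r D.a m p (UNI.xx D.a (m, 1)) = 0 := by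
    rw [px_r_xx]
    simp
  have hy0 : UNI.xx D.a (m, 1) ∈ D.O := ⟨_, rfl⟩
  have hwz : px_r D.a m p w = 0 := by
    rw [ew, hadd _ (D.O.mul_mem hu (nat_O p)) _ (D.O.mul_mem hv hy0),
      hmul _ hu _ (nat_O p), hmul _ hv _ hy0, hpz, hmz]
    simp
  refine ⟨⟨p, hp, w, hw, hn, px_r D.a m p, hadd, hmul, h1, ?_⟩, hP⟩
  rintro _ ⟨k, rfl⟩
  constructor
  · intro h
    rw [px_r_xx] at h
    obtain ⟨q, hq'⟩ := (ZMod.intCast_zmod_eq_zero_iff_dvd _ p).1 h
    refine ⟨k.2 * y + q * x, D.O.add_mem (D.O.mul_mem (int_O _) hy)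
      (D.O.mul_mem (int_O _) hx), ?_⟩
    have h2 : UNI.xx D.a k = k.2 * UNI.xx D.a (m, 1) + ((k.1 - m * k.2 : ℤ) : ℂ) := by
      simp only [UNI.xx]
      push_cast
      ring
    rw [h2, hq', ey]
    push_cast
    linear_combination (q : ℂ) * ex
  · rintro ⟨z, hz, e⟩
    rw [e, hmul _ hw _ hz, hwz, zero_mul]

end RNK
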