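import Mathlib
import Pool.Agent.UNI.Par

/-!
# RNK: common definitions (MP_870c49_nt, closed theta type classes, rank one)

`O = ℤ + ℤ ω` an imaginary quadratic order in which every ideal generated by two elements is
principal, `K` its field, both inside `ℂ`. Vectors are pairs of complex numbers.
-/

namespace RNK

noncomputable section

/-- vectors -/
abbrev Vec : Type := ℂ × ℂ

/-! ### the ring and the field -/

theorem xx_add (a : UNI.Par) (x y : ℤ × ℤ) : UNI.xx a (x + y) = UNI.xx a x + UNI.xx a y := by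
  simp only [UNI.xx, Prod.fst_add, Prod.snd_add]
  push_cast
  ring

theorem xx_neg (a : UNI.Par) (x : ℤ × ℤ) : UNI.xx a (-x) = -UNI.xx a x := by
  simp only [UNI.xx, Prod.fst_neg, Prod.snd_neg]
  push_cast
  ring

theorem om_sq (a : UNI.Par) : UNI.om a ^ 2 = a.t * UNI.om a - a.n := by
  have h1 : (0 : ℝ) ≤ 4 * a.n - a.t ^ 2 := by
    have h2 : ((a.t ^ 2 : ℤ) : ℝ) < ((4 * a.n : ℤ) : ℝ) := by exact_mod_cast a.h
    push_cast at h2
    linarith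
  have h3 : ((Real.sqrt (4 * a.n - a.t ^ 2) : ℝ) : ℂ) ^ 2 = 4 * a.n - a.t ^ 2 := by
    rw [← Complex.ofReal_pow, Real.sq_sqrt h1]
    push_cast
    ring
  simp only [UNI.om]
  linear_combination (Complex.I ^ 2 / 4) * h3 + ((4 * a.n - a.t ^ 2 : ℂ) / 4) * Complex.I_sq

/-- multiplication on coordinates -/
def mulc (a : UNI.Par) (d m : ℤ × ℤ) : ℤ × ℤ :=
  (d.1 * m.1 - a.n * d.2 * m.2, d.1 * m.2 + d.2 * m.1 + a.t * d.2 * m.2)

theorem xx_mul (a : UNI.Par) (x y : ℤ × ℤ) :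
    UNI.xx a (mulc a x y) = UNI.xx a x * UNI.xx a y := by
  simp only [UNI.xx, mulc]
  push_cast
  linear_combination (-(x.2 : ℂ) * y.2) * om_sq a

/-- the order `O` -/
def Ord (a : UNI.Par) : Subring ℂ where
  carrier := {z | ∃ m : ℤ × ℤ, z = UNI.xx a m}
  mul_mem' := by
    rintro _ _ ⟨x, rfl⟩ ⟨y, rfl⟩
    exact ⟨mulc a x y, (xx_mul a x y).symm⟩
  one_mem' := ⟨(1, 0), by simp [UNI.xx]⟩
  add_mem' := by
    rintro _ _ ⟨x, rfl⟩ ⟨y, rfl⟩
    exact ⟨x + y, (xx_add a x y).symm⟩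
  zero_mem' := ⟨(0, 0), by simp [UNI.xx]⟩
  neg_mem' := by
    rintro _ ⟨x, rfl⟩
    exact ⟨-x, (xx_neg a x).symm⟩

theorem mem_Ord {a : UNI.Par} {z : ℂ} : z ∈ Ord a ↔ ∃ m : ℤ × ℤ, z = UNI.xx a m := Iff.rfl

theorem cj_om (a : UNI.Par) : (starRingEnd ℂ) (UNI.om a) = a.t - UNI.om a := by
  simp only [UNI.om, map_div₀, map_add, map_mul, Complex.conj_I, Complex.conj_ofReal,
    map_intCast, map_ofNat]
  ring

theorem cj_Ord {a : UNI.Par} {z : ℂ} (hz : z ∈ Ord a) : (starRingEnd ℂ) z ∈ Ord a := by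
  obtain ⟨m, rfl⟩ := hz
  refine ⟨(m.1 + a.t * m.2, -m.2), ?_⟩
  simp only [UNI.xx, map_add, map_mul, map_intCast, cj_om]
  push_cast
  ring

/-- norms are natural numbers -/
theorem nrm_Ord {a : UNI.Par} {z : ℂ} (hz : z ∈ Ord a) :
    ∃ n : ℕ, z * (starRingEnd ℂ) z = n := by
  obtain ⟨m, rfl⟩ := hz
  have h1 : UNI.xx a m * (starRingEnd ℂ) (UNI.xx a m) = (UNI.nm a m : ℤ) := by
    simp only [UNI.xx, map_add, map_mul, map_intCast, cj_om, UNI.nm]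
    push_cast
    linear_combination (-(m.2 : ℂ) ^ 2) * om_sq a
  have h2 : (0 : ℤ) ≤ UNI.nm a m := by
    have h3 : (0 : ℝ) ≤ ((UNI.nm a m : ℤ) : ℝ) := by
      have h4 : ((UNI.nm a m : ℤ) : ℝ) = Complex.normSq (UNI.xx a m) := by
        have h5 := h1.symm
        rw [Complex.mul_conj] at h5
        exact_mod_cast h5
      rw [h4]
      exact Complex.normSq_nonneg _
    exact_mod_cast h3
  obtain ⟨n, hn⟩ := Int.eq_ofNat_of_zero_le h2
  exact ⟨n, by rw [h1, hn]; simp⟩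

/-- the field `K` -/
def Fld (a : UNI.Par) : Subfield ℂ where
  carrier := {z | ∃ n : ℕ, 0 < n ∧ (n : ℂ) * z ∈ Ord a}
  mul_mem' := by
    rintro x y ⟨m, hm, hx⟩ ⟨n, hn, hy⟩
    refine ⟨m * n, Nat.mul_pos hm hn, ?_⟩
    have := (Ord a).mul_mem hx hy
    have e : ((m * n : ℕ) : ℂ) * (x * y) = (m * x) * (n * y) := by push_cast; ring
    rw [e]
    exact this
  one_mem' := ⟨1, one_pos, by simpa using (Ord a).one_mem⟩
  add_mem' := by
    rintro x y ⟨m, hm, hx⟩ ⟨n, hn, hy⟩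
    refine ⟨m * n, Nat.mul_pos hm hn, ?_⟩
    have e : ((m * n : ℕ) : ℂ) * (x + y) = (n : ℂ) * (m * x) + (m : ℂ) * (n * y) := by
      push_cast; ring
    rw [e]
    exact (Ord a).add_mem ((Ord a).mul_mem (natCast_mem _ n) hx)
      ((Ord a).mul_mem (natCast_mem _ m) hy)
  zero_mem' := ⟨1, one_pos, by simpa using (Ord a).zero_mem⟩
  neg_mem' := by
    rintro x ⟨m, hm, hx⟩
    refine ⟨m, hm, ?_⟩
    have := (Ord a).neg_mem hx
    rw [← mul_neg] at this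
    exact this
  inv_mem' := by
    rintro x ⟨m, hm, hx⟩
    by_cases h0 : x = 0
    · refine ⟨1, one_pos, ?_⟩
      rw [h0]
      simpa using (Ord a).zero_mem
    obtain ⟨n, hn⟩ := nrm_Ord hx
    have hm' : (m : ℂ) ≠ 0 := by exact_mod_cast hm.ne'
    have hmx : (m : ℂ) * x ≠ 0 := mul_ne_zero hm' h0
    have hc : (starRingEnd ℂ) ((m : ℂ) * x) ≠ 0 := (map_ne_zero (starRingEnd ℂ)).2 hmx
    have hn0 : 0 < n := by
      rcases Nat.eq_zero_or_pos n with h | h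
      · exfalso
        rw [h, Nat.cast_zero] at hn
        exact mul_ne_zero hmx hc hn
      · exact h
    refine ⟨n, hn0, ?_⟩
    have e : (n : ℂ) * x⁻¹ = (m : ℂ) * (starRingEnd ℂ) ((m : ℂ) * x) := by
      rw [← hn]
      field_simp
    rw [e]
    exact (Ord a).mul_mem (natCast_mem _ m) (cj_Ord hx)

theorem mem_Fld {a : UNI.Par} {z : ℂ} : z ∈ Fld a ↔ ∃ n : ℕ, 0 < n ∧ (n : ℂ) * z ∈ Ord a :=
  Iff.rfl

/-- an imaginary quadratic order with Bezout's identity -/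
structure OD where
  a : UNI.Par
  bez : ∀ x ∈ Ord a, ∀ y ∈ Ord a, ∃ u ∈ Ord a, ∃ v ∈ Ord a,
    (∃ x' ∈ Ord a, x = (u * x + v * y) * x') ∧ (∃ y' ∈ Ord a, y = (u * x + v * y) * y')

/-- the order -/
abbrev OD.O (D : OD) : Subring ℂ := Ord D.a

/-- the field -/
abbrev OD.K (D : OD) : Subfield ℂ := Fld D.a

/-- `w ∈ O²` -/
def O2 (D : OD) (w : Vec) : Prop := w.1 ∈ D.O ∧ w.2 ∈ D.O

/-- `w ∈ K²` -/
def K2 (D : OD) (w : Vec) : Prop := w.1 ∈ D.K ∧ w.2 ∈ D.K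

/-- `w ∈ K²`, `w ≠ 0`; the cusp is the line of `w` -/
def Cu (D : OD) (w : Vec) : Prop := K2 D w ∧ w ≠ 0

/-- `x` and `y` are in `O` and coprime -/
def Cop (D : OD) (x y : ℂ) : Prop :=
  x ∈ D.O ∧ y ∈ D.O ∧ ∃ u ∈ D.O, ∃ v ∈ D.O, u * x + v * y = 1

/-- `x` divides `y` in `O` -/
def Dvd' (D : OD) (x y : ℂ) : Prop := ∃ z ∈ D.O, y = x * z

/-- primitive vectors of `O²` -/
def Prim (D : OD) (w : Vec) : Prop := Cop D w.1 w.2

/-! ### matrices -/

/-- matrices of size two -/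
@[ext] structure Mat where
  a : ℂ
  b : ℂ
  c : ℂ
  d : ℂ

/-- the action on vectors -/
def Mat.act (g : Mat) (w : Vec) : Vec := (g.a * w.1 + g.b * w.2, g.c * w.1 + g.d * w.2)

/-- the determinant -/
def Mat.det (g : Mat) : ℂ := g.a * g.d - g.b * g.c

/-- the product -/
def Mat.mul (g h : Mat) : Mat :=
  ⟨g.a * h.a + g.b * h.c, g.a * h.b + g.b * h.d, g.c * h.a + g.d * h.c, g.c * h.b + g.d * h.d⟩

/-- the inverse -/
def Mat.inv (g : Mat) : Mat := ⟨g.d / g.det, -g.b / g.det, -g.c / g.det, g.a / g.det⟩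

/-- diagonal matrices -/
def dg (a d : ℂ) : Mat := ⟨a, 0, 0, d⟩

/-- unipotent matrices -/
def ut (γ : ℂ) : Mat := ⟨1, γ, 0, 1⟩

/-- the swap of the coordinates -/
def swp : Mat := ⟨0, 1, 1, 0⟩

/-- entries in `O`, determinant not zero -/
def MO (D : OD) (g : Mat) : Prop :=
  (g.a ∈ D.O ∧ g.b ∈ D.O ∧ g.c ∈ D.O ∧ g.d ∈ D.O) ∧ g.det ≠ 0

/-- `GL₂(O)` -/
def GO (D : OD) (g : Mat) : Prop := MO D g ∧ g.det⁻¹ ∈ D.O

/-- `GL₂(K)` -/
def GK (D : OD) (g : Mat) : Prop :=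
  (g.a ∈ D.K ∧ g.b ∈ D.K ∧ g.c ∈ D.K ∧ g.d ∈ D.K) ∧ g.det ≠ 0

/-- `det (u | v)` -/
def det2 (u v : Vec) : ℂ := u.1 * v.2 - u.2 * v.1

/-- `|w|²` -/
def nq (w : Vec) : ℝ := ‖w.1‖ ^ 2 + ‖w.2‖ ^ 2

/-- the matrix of the point at height `h`: `|A_h (x, y)|² = |x|² / h + h |y|²` -/
def Ah (h : ℝ) : Mat := dg (((Real.sqrt h)⁻¹ : ℝ) : ℂ) ((Real.sqrt h : ℝ) : ℂ)

/-- the cusp `y = 0` -/
def e1 : Vec := (1, 0)

/-- the cusp `x = 0` -/
def e2 : Vec := (0, 1)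

/-- the cusp `x = y` -/
def v11 : Vec := (1, 1)

/-! ### functions -/

/-- functions on `O² / M O²`, extended by `0`, with nonzero values in `V`, invariant under the
elements of `O` prime to `M` -/
structure Fn (D : OD) (M : ℕ) (V : Finset ℂ) (f : Vec → ℂ) : Prop where
  val : ∀ w, f w ≠ 0 → f w ∈ V
  supp : ∀ w, f w ≠ 0 → O2 D w
  per : ∀ w v, O2 D v → f (w + (M : ℂ) • v) = f w
  inv : ∀ x, Cop D x M → ∀ w, O2 D w → f (x • w) = f w

/-- locally constant functions with compact support on `K²`, invariant under the elements of `O`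
prime to `m` -/
structure Adm (D : OD) (m : ℕ) (f : Vec → ℂ) : Prop where
  pos : 0 < m
  val : ∀ w, f w ∈ D.K
  supp : ∀ w, f w ≠ 0 → O2 D ((m : ℂ) • w)
  per : ∀ w v, O2 D v → f (w + (m : ℂ) • v) = f w
  inv : ∀ x, Cop D x m → ∀ w, O2 D ((m : ℂ) • w) → f (x • w) = f w

/-- `Adm` for some `m` -/
def AdmE (D : OD) (f : Vec → ℂ) : Prop := ∃ m : ℕ, Adm D m f

/-- the abstract properties of the symbol `s(f; x, y, z; p)` -/
structure Coc (D : OD) where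
  s : (Vec → ℂ) → Vec → Vec → Vec → Vec → ℂ
  add : ∀ f g, AdmE D f → AdmE D g → ∀ x y z p, Cu D x → Cu D y → Cu D z → K2 D p →
    s (fun w => f w + g w) x y z p = s f x y z p + s g x y z p
  smul : ∀ f, AdmE D f → ∀ k ∈ D.K, ∀ x y z p, Cu D x → Cu D y → Cu D z → K2 D p →
    s (fun w => k * f w) x y z p = k * s f x y z p
  a12 : ∀ f, AdmE D f → ∀ x y z p, Cu D x → Cu D y → Cu D z → K2 D p →
    s f y x z p = -s f x y z p
  a23 : ∀ f, AdmE D f → ∀ x y z p, Cu D x → Cu D y → Cu D z → K2 D p →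
    s f x z y p = -s f x y z p
  coc : ∀ f, AdmE D f → ∀ x y z w p, Cu D x → Cu D y → Cu D z → Cu D w → K2 D p →
    s f y z w p - s f x z w p + s f x y w p - s f x y z p = 0
  scal : ∀ f, AdmE D f → ∀ k ∈ D.K, k ≠ 0 → ∀ x y z p, Cu D x → Cu D y → Cu D z → K2 D p →
    s f (k • x) y z p = s f x y z p
  equiv : ∀ f, AdmE D f → ∀ g, GK D g → ∀ x y z p, Cu D x → Cu D y → Cu D z → K2 D p →
    s (fun w => f (g.act w)) x y z p =
      ((‖g.det‖ ^ 2 : ℝ) : ℂ) * s f (g.act x) (g.act y) (g.act z) (g.act p)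
  quad : ∀ f, AdmE D f → ∀ x y z, Cu D x → Cu D y → Cu D z → ∃ S11 S12 S22 : ℂ, ∀ p, K2 D p →
    s f x y z p = p.1 ^ 2 * S11 + p.1 * p.2 * S12 + p.2 ^ 2 * S22

/-! ### measures -/

/-- finite signed measures on vectors -/
abbrev Ms : Type := Vec →₀ ℝ

/-- probability measures on cusps -/
structure PM (D : OD) (μ : Ms) : Prop where
  cu : ∀ w, μ w ≠ 0 → Cu D w
  nn : ∀ w, 0 ≤ μ w
  one : (μ.sum fun _ a => a) = 1

/-- the total mass -/
def ms (μ : Ms) : ℝ := μ.sum fun _ a => |a|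

/-- the point mass -/
def dl (x : Vec) : Ms := Finsupp.single x 1

/-- the trilinear extension -/
def sg (s : Vec → Vec → Vec → ℂ) (μ ν ρ : Ms) : ℂ :=
  μ.sum fun x a => ν.sum fun y b => ρ.sum fun z c => ((a * b * c : ℝ) : ℂ) * s x y z

/-- the trilinear extension of `s(f; ·, ·, ·; p)` -/
def Coc.sg {D : OD} (S : Coc D) (f : Vec → ℂ) (p : Vec) (μ ν ρ : Ms) : ℂ :=
  RNK.sg (fun x y z => S.s f x y z p) μ ν ρ

open Classical in
/-- the weight before normalisation -/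
def q0 (D : OD) (κ : ℝ) (C : Mat) (w : Vec) : ℝ :=
  if Prim D w then max 0 (1 - nq (C.act w) / (κ * ‖C.det‖)) else 0

open Classical in
/-- the same as a finitely supported function -/
def qq (D : OD) (κ : ℝ) (C : Mat) : Ms :=
  if h : (Function.support (q0 D κ C)).Finite then Finsupp.ofSupportFinite (q0 D κ C) h else 0

/-- the weight -/
def rr (D : OD) (κ : ℝ) (C : Mat) : Ms :=
  (((qq D κ C).sum fun _ a => a)⁻¹ : ℝ) • qq D κ C

/-- the weight of the lattice `B O²` at the point `A` -/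
def mu (D : OD) (κ : ℝ) (B A : Mat) : Ms := (rr D κ (A.mul B)).mapDomain B.act

/-- the property of the constant `κ` -/
structure Kap (D : OD) (κ : ℝ) : Prop where
  one : 1 ≤ κ
  mink : ∀ C : Mat, C.det ≠ 0 → ∃ w, Prim D w ∧ nq (C.act w) ≤ κ / 2 * ‖C.det‖

/-! ### primes of degree one -/

/-- a prime element `w` of degree one, with its residue map (used on `O` only) -/
structure PD (D : OD) where
  p : ℕ
  hp : p.Prime
  w : ℂ
  hw : w ∈ D.O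
  nw : w * (starRingEnd ℂ) w = p
  r : ℂ → ZMod p
  radd : ∀ x ∈ D.O, ∀ y ∈ D.O, r (x + y) = r x + r y
  rmul : ∀ x ∈ D.O, ∀ y ∈ D.O, r (x * y) = r x * r y
  rone : r 1 = 1
  rker : ∀ x ∈ D.O, r x = 0 ↔ ∃ y ∈ D.O, x = w * y

instance PD.fact {D : OD} (π : PD D) : Fact (π.p.Prime) := ⟨π.hp⟩

/-- the index set `P¹(F_p)` -/
abbrev PD.T {D : OD} (π : PD D) : Type := Option (ZMod π.p)

/-- the indicator function (on `O²`) of the lattice with index `t` -/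
def PD.ind {D : OD} (π : PD D) (t : π.T) (w : Vec) : ℂ :=
  match t with
  | some τ => if π.r w.1 = τ * π.r w.2 then 1 else 0
  | none => if π.r w.2 = 0 then 1 else 0

/-- a basis of the lattice of all `w ∈ α O ⊕ β O` with `ind t w = 1` -/
def PD.B {D : OD} (π : PD D) (α β : ℂ) (t : π.T) : Mat :=
  match t with
  | some τ => ⟨π.w * α, ((τ * π.r β * (π.r α)⁻¹ : ZMod π.p).val : ℂ) * α, 0, β⟩
  | none => ⟨α, 0, 0, π.w * β⟩

/-- an error which tends to `0` along the primes -/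
def Tends0 {D : OD} (e : PD D → ℂ) : Prop :=
  ∀ ε : ℝ, 0 < ε → ∃ P0 : ℕ, ∀ π : PD D, P0 < π.p → ‖e π‖ ≤ ε

/-! ### edge functionals -/

/-- the points `A_{2^k} P` on a geodesic -/
def pt (P : Mat) (k : ℤ) : Mat := (Ah ((2 : ℝ) ^ k)).mul P

/-- the edge functional of the lattice `B O²` along the geodesic `A_{2^k} P`, with the cusp `c` -/
def ep {D : OD} (S : Coc D) (κ : ℝ) (B P : Mat) (c : Vec) (f : Vec → ℂ) (p : Vec) : ℂ :=
  ∑ᶠ k : ℤ, S.sg f p (dl c) (mu D κ B (pt P k)) (mu D κ B (pt P (k + 1)))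

/-- the sum over `t` of the edge functionals of `f 1_t`, lattice `α O ⊕ β O` -/
def EG {D : OD} (S : Coc D) (κ : ℝ) (π : PD D) (α β : ℂ) (P : Mat) (c : Vec) (f : Vec → ℂ)
    (p : Vec) : ℂ :=
  ∑ t : π.T, ep S κ (π.B α β t) P c (fun w => f w * π.ind t w) p

/-- the edge functional of `α O ⊕ β O` along the geodesic of the two coordinate cusps -/
def E {D : OD} (S : Coc D) (κ : ℝ) (π : PD D) (α β : ℂ) (f : Vec → ℂ) (p : Vec) : ℂ :=
  EG S κ π α β (Ah (‖α‖ / ‖β‖)) e1 f p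

/-- the quadrangle `μ₀ μ₁ ν₁ ν₀` -/
def Qd (σ : Ms → Ms → Ms → ℂ) (μ0 μ1 ν0 ν1 : Ms) : ℂ := σ μ0 μ1 ν1 + σ μ0 ν1 ν0

/-- `f` is supported on `α O ⊕ β O` -/
def SuppIn (D : OD) (α β : ℂ) (f : Vec → ℂ) : Prop :=
  ∀ w, f w ≠ 0 → ∃ u, O2 D u ∧ w = (dg α β).act u

/-! ### the kernel -/

/-- the kernel -/
def KG (c1 c2 c3 p w : Vec) : ℂ :=
  let l1 := det2 c1 w
  let l2 := det2 c2 w
  let l3 := det2 c3 w
  let r1 := det2 c1 p / l1
  let r2 := det2 c2 p / l2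
  let r3 := det2 c3 p / l3
  let A := det2 c2 c3 * l1
  let B := det2 c3 c1 * l2
  ((starRingEnd ℂ) A * B - A * (starRingEnd ℂ) B) /
      ((l1 * (starRingEnd ℂ) l1) * (l2 * (starRingEnd ℂ) l2) * (l3 * (starRingEnd ℂ) l3)) *
    (r1 ^ 2 + r2 ^ 2 + r3 ^ 2 + r1 * r2 + r1 * r3 + r2 * r3)

/-- the sum of `f` against the kernel -/
def TT (f : Vec → ℂ) (c1 c2 c3 p : Vec) : ℂ := ∑' w : Vec, f w * KG c1 c2 c3 p w

/-- `Σ t⁻⁴ t̄⁻²` over `O` -/
def Lam (D : OD) : ℂ :=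
  ∑' m : ℤ × ℤ, 1 / (UNI.xx D.a m ^ 4 * (starRingEnd ℂ) (UNI.xx D.a m) ^ 2)

end

end RNK
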