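import Pool.Agent.RNK.Fc

/-!
# RNK.Sl: sums over a line

`line_sum`: for a cusp `c` the sum `Σ_{t ∈ ℂ} f (t c) t⁻⁴ t̄⁻²` is in `K Λ`, `Λ = Lam D`.
1. There is a natural `n > 0` with: `f (t c) ≠ 0 → n t ∈ O` (`c ≠ 0`, `c ∈ K²`), and `H s = f ((s / n) c)` is
  periodic mod some natural `M > 0` on `O` (`M` a multiple of `n`, of `m`, and of denominators), and
  `H (x s) = H s` for `x` prime to `M`, `s ∈ O` (`SlH`).
2. `sl_lift`: if `(u, N) = 1` then some `u + t N` is prime to `M`; `sl_gcd`: `H s = H g` for some `g` dividing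
  `s` and `M`.
3. `sl_main`: `H` is a `K`-combination of the indicator functions of the ideals `d O`, `d` a divisor of `M`:
  induction on the number of multiples of the support, subtract `H d 1_{d O}`, `d` with `H d ≠ 0` and
  `|d|` minimal.
4. `Σ_{s ∈ d O} s⁻⁴ s̄⁻² = d⁻⁴ d̄⁻² Λ` (`sl_ind`).
-/

namespace RNK

variable {D : OD}

private theorem sl_im_om (a : UNI.Par) : 0 < (UNI.om a).im := by
  have h1 : (0 : ℝ) < 4 * a.n - a.t ^ 2 := by
    have h2 : ((a.t ^ 2 : ℤ) : ℝ) < ((4 * a.n : ℤ) : ℝ) := by exact_mod_cast a.h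
    push_cast at h2
    linarith
  have h2 := Real.sqrt_pos.2 h1
  have h3 : (UNI.om a).im = Real.sqrt (4 * a.n - a.t ^ 2) / 2 := by
    have e : UNI.om a = (((a.t : ℝ) / 2 : ℝ) : ℂ) +
        ((Real.sqrt (4 * a.n - a.t ^ 2) / 2 : ℝ) : ℂ) * Complex.I := by
      simp only [UNI.om]
      push_cast
      ring
    rw [e]
    simp only [Complex.add_im, Complex.ofReal_im, Complex.mul_im, Complex.I_im, Complex.I_re,
      Complex.ofReal_re]
    ring
  rw [h3]
  exact half_pos h2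

private theorem sl_xx_inj {a : UNI.Par} : Function.Injective (UNI.xx a) := by
  intro m m' h
  have hpos := sl_im_om a
  have h2 : (m.2 : ℝ) * (UNI.om a).im = (m'.2 : ℝ) * (UNI.om a).im := by
    have h4 := congrArg Complex.im h
    simpa only [UNI.xx, Complex.add_im, Complex.mul_im, Complex.intCast_im, Complex.intCast_re,
      zero_mul, zero_add, add_zero] using h4
  have h3 : (m.2 : ℝ) = m'.2 := mul_right_cancel₀ hpos.ne' h2
  have h5 : m.2 = m'.2 := by exact_mod_cast h3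
  have h6 : (m.1 : ℂ) = m'.1 := by
    have h' : (m.1 : ℂ) + m.2 * UNI.om a = m'.1 + m'.2 * UNI.om a := h
    rw [h5] at h'
    exact add_right_cancel h'
  have h7 : m.1 = m'.1 := by exact_mod_cast h6
  exact Prod.ext h7 h5

theorem Lam_summable (D : OD) : Summable (fun m : ℤ × ℤ =>
    1 / (UNI.xx D.a m ^ 4 * (starRingEnd ℂ) (UNI.xx D.a m) ^ 2)) := by
  set z : UpperHalfPlane := ⟨UNI.om D.a, sl_im_om D.a⟩ with hz
  have hzc : (z : ℂ) = UNI.om D.a := rfl
  have h1 : Summable fun x : Fin 2 → ℤ => EisensteinSeries.r z ^ (-(6 : ℝ)) * ‖x‖ ^ (-(6 : ℝ)) :=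
    (EisensteinSeries.summable_one_div_norm_rpow (by norm_num)).mul_left _
  have h2 : Summable fun x : Fin 2 → ℤ => ‖(x 0 : ℂ) * (z : ℂ) + x 1‖ ^ (-(6 : ℝ)) :=
    Summable.of_nonneg_of_le (fun x => by positivity)
      (fun x => EisensteinSeries.summand_bound z (by norm_num) x) h1
  let e : ℤ × ℤ ≃ (Fin 2 → ℤ) := (Equiv.prodComm ℤ ℤ).trans (finTwoArrowEquiv ℤ).symm
  have h3 := (Equiv.summable_iff e).2 h2
  refine Summable.of_norm_bounded h3 fun m => le_of_eq ?_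
  have h4 : ((e m) 0 : ℂ) * (z : ℂ) + (e m) 1 = UNI.xx D.a m := by
    simp only [e, hzc, UNI.xx, Equiv.trans_apply, Equiv.prodComm_apply, finTwoArrowEquiv_symm_apply,
      Prod.fst_swap, Prod.snd_swap, Matrix.cons_val_zero, Matrix.cons_val_one]
    ring
  simp only [Function.comp_apply]
  rw [h4, norm_div, norm_one, norm_mul, norm_pow, norm_pow, RCLike.norm_conj, one_div,
    Real.rpow_neg (norm_nonneg _), ← pow_add]
  norm_num

/-! ### coprimality -/

private theorem sl_sym {x y : ℂ} (h : Cop D x y) : Cop D y x := by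
  obtain ⟨hx, hy, u, hu, v, hv, e⟩ := h
  exact ⟨hy, hx, v, hv, u, hu, by linear_combination e⟩

private theorem sl_add {x y z : ℂ} (h : Cop D x y) (hz : z ∈ D.O) : Cop D (x + y * z) y := by
  obtain ⟨hx, hy, u, hu, v, hv, e⟩ := h
  exact ⟨D.O.add_mem hx (D.O.mul_mem hy hz), hy, u, hu, v - u * z,
    D.O.sub_mem hv (D.O.mul_mem hu hz), by linear_combination e⟩

private theorem sl_cop_pow {x y : ℂ} (h : Cop D x y) (k : ℕ) : Cop D x (y ^ k) := by
  induction k with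
  | zero =>
    rw [pow_zero]
    exact ⟨h.1, D.O.one_mem, 0, D.O.zero_mem, 1, D.O.one_mem, by ring⟩
  | succ k ih =>
    rw [pow_succ]
    exact sl_sym (cop_mul (sl_sym ih) (sl_sym h))

/-- split off the part of `M` made of the primes of `u` -/
private theorem sl_split {u : ℂ} (hu : u ∈ D.O) (n : ℕ) : ∀ M : ℂ, M ∈ D.O → M ≠ 0 →
    ‖M‖ ^ 2 ≤ (n : ℝ) → ∃ M1 ∈ D.O, ∃ M2 ∈ D.O, ∃ k : ℕ, M = M1 * M2 ∧ Cop D u M2 ∧
      ∃ v ∈ D.O, u ^ k = M1 * v := by
  induction n with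
  | zero =>
    intro M hM h0 h
    exfalso
    have h1 := nrm_one hM h0
    rw [Nat.cast_zero] at h
    nlinarith
  | succ n ih =>
    intro M hM h0 h
    obtain ⟨a, ha, b, hb, ⟨M', hM', e1⟩, ⟨u', hu', e2⟩⟩ := D.bez M hM u hu
    set g : ℂ := a * M + b * u with hg
    have hgO : g ∈ D.O := D.O.add_mem (D.O.mul_mem ha hM) (D.O.mul_mem hb hu)
    have hg0 : g ≠ 0 := by
      intro hg0
      rw [hg0, zero_mul] at e1
      exact h0 e1
    by_cases hgu : ∃ y ∈ D.O, g * y = 1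
    · obtain ⟨y, hy, e3⟩ := hgu
      refine ⟨1, D.O.one_mem, M, hM, 0, by ring, ⟨hu, hM, y * b, D.O.mul_mem hy hb, y * a,
        D.O.mul_mem hy ha, ?_⟩, 1, D.O.one_mem, by ring⟩
      rw [← e3, hg]
      ring
    · have h2 := nonunit hgO hg0 hgu
      have hM'0 : M' ≠ 0 := by
        intro h
        rw [h, mul_zero] at e1
        exact h0 e1
      have h3 : ‖M'‖ ^ 2 ≤ (n : ℝ) := by
        have h4 : ‖M‖ ^ 2 = ‖g‖ ^ 2 * ‖M'‖ ^ 2 := by rw [e1, norm_mul, mul_pow]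
        have h5 := nrm_one hM' hM'0
        have h6 : (1 : ℝ) ≤ ‖M'‖ ^ 2 := by nlinarith
        push_cast at h
        nlinarith
      obtain ⟨M1, hM1, M2, hM2, k, e3, hc, v, hv, e4⟩ := ih M' hM' hM'0 h3
      refine ⟨g * M1, D.O.mul_mem hgO hM1, M2, hM2, k + 1, ?_, hc, u' * v, D.O.mul_mem hu' hv, ?_⟩
      · rw [e1, e3]
        ring
      · rw [pow_succ, e4]
        nth_rewrite 1 [e2]
        ring

/-- if `(u, N) = 1` then some `u + t N` is prime to `M` -/
private theorem sl_lift {u N M : ℂ} (h : Cop D u N) (hM : M ∈ D.O) (h0 : M ≠ 0) :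
    ∃ t ∈ D.O, Cop D (u + N * t) M := by
  obtain ⟨n, hn⟩ := exists_nat_ge (‖M‖ ^ 2)
  obtain ⟨M1, hM1, M2, hM2, k, rfl, hc, v, hv, e⟩ := sl_split h.1 n M hM h0 hn
  refine ⟨M2, hM2, ?_⟩
  have h1 : Cop D (u + N * M2) M2 := by
    have := sl_add hc h.2.1
    rwa [mul_comm M2 N] at this
  have h2 : Cop D (u + N * M2) u := by
    have h3 : Cop D (N * M2) u := cop_mul (sl_sym h) (sl_sym hc)
    have h4 := sl_add h3 D.O.one_mem
    rwa [mul_one, add_comm] at h4
  have h5 : Cop D (u + N * M2) M1 := cop_dvd (sl_cop_pow h2 k) hM1 ⟨v, hv, e⟩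
  exact sl_sym (cop_mul (sl_sym h5) (sl_sym h1))

/-! ### invariant functions on `O / M O` -/

/-- functions on `O / M O`, invariant under the elements prime to `M` -/
private structure SlH (D : OD) (M : ℕ) (H : ℂ → ℂ) : Prop where
  supp : ∀ s, H s ≠ 0 → s ∈ D.O
  val : ∀ s, H s ∈ D.K
  per : ∀ s ∈ D.O, ∀ v ∈ D.O, H (s + M * v) = H s
  inv : ∀ x, Cop D x M → ∀ s ∈ D.O, H (x * s) = H s

private theorem sl_gcd {M : ℕ} (hM : 0 < M) {H : ℂ → ℂ} (hH : SlH D M H) {s : ℂ} (hs : s ∈ D.O) :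
    ∃ g ∈ D.O, (∃ z ∈ D.O, (M : ℂ) = g * z) ∧ H s = H g := by
  have hM' : (M : ℂ) ≠ 0 := by exact_mod_cast hM.ne'
  obtain ⟨u, hu, v, hv, ⟨s', hs', e1⟩, ⟨N, hN, e2⟩⟩ := D.bez s hs M (nat_O M)
  set g : ℂ := u * s + v * M with hg
  have hgO : g ∈ D.O := D.O.add_mem (D.O.mul_mem hu hs) (D.O.mul_mem hv (nat_O M))
  have hg0 : g ≠ 0 := by
    intro hg0
    rw [hg0, zero_mul] at e2
    exact hM' e2
  have hc : Cop D u N := by
    refine ⟨hu, hN, s', hs', v, hv, ?_⟩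
    have h1 : g * (s' * u + v * N - 1) = 0 := by
      have h2 : g * s' = s := e1.symm
      have h3 : g * N = M := e2.symm
      linear_combination u * h2 + v * h3 - hg
    exact sub_eq_zero.1 ((mul_eq_zero.1 h1).resolve_left hg0)
  obtain ⟨t, ht, hx⟩ := sl_lift hc (nat_O M) hM'
  refine ⟨g, hgO, ⟨N, hN, e2⟩, ?_⟩
  rw [← hH.inv _ hx s hs]
  have h4 : (u + N * t) * s = g + M * (t * s' - v) := by
    have h2 : g * s' = s := e1.symm
    have h3 : g * N = M := e2.symm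
    linear_combination (-(N * t)) * h2 + (t * s') * h3 - hg
  rw [h4]
  exact hH.per g hgO _ (D.O.sub_mem (D.O.mul_mem ht hs') hv)

open Classical in
private noncomputable def slI (D : OD) (d : ℂ) (t : ℂ) : ℂ := if ∃ y ∈ D.O, t = d * y then 1 else 0

private theorem slI_H {M : ℕ} {d : ℂ} (hd : d ∈ D.O) (hdM : ∃ z ∈ D.O, (M : ℂ) = d * z) :
    SlH D M (slI D d) := by
  obtain ⟨z, hz, e⟩ := hdM
  refine ⟨?_, ?_, ?_, ?_⟩
  · intro s hs
    unfold slI at hs
    split_ifs at hs with h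
    · obtain ⟨y, hy, rfl⟩ := h
      exact D.O.mul_mem hd hy
    · exact absurd rfl hs
  · intro s
    unfold slI
    split_ifs
    · exact D.K.one_mem
    · exact D.K.zero_mem
  · intro s hs v hv
    have h1 : (∃ y ∈ D.O, s + M * v = d * y) ↔ ∃ y ∈ D.O, s = d * y := by
      constructor
      · rintro ⟨y, hy, h⟩
        exact ⟨y - z * v, D.O.sub_mem hy (D.O.mul_mem hz hv), by
          rw [mul_sub, ← h, ← mul_assoc, ← e]
          ring⟩
      · rintro ⟨y, hy, h⟩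
        exact ⟨y + z * v, D.O.add_mem hy (D.O.mul_mem hz hv), by
          rw [mul_add, ← h, ← mul_assoc, ← e]⟩
    unfold slI
    by_cases h : ∃ y ∈ D.O, s = d * y
    · rw [if_pos h, if_pos (h1.2 h)]
    · rw [if_neg h, if_neg fun h' => h (h1.1 h')]
  · intro x hx s hs
    have h1 : (∃ y ∈ D.O, x * s = d * y) ↔ ∃ y ∈ D.O, s = d * y := by
      constructor
      · intro h
        exact cop_dvd_mul (cop_dvd hx hd ⟨z, hz, e⟩) hs h
      · rintro ⟨y, hy, rfl⟩
        exact ⟨x * y, D.O.mul_mem hx.1 hy, by ring⟩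
    unfold slI
    by_cases h : ∃ y ∈ D.O, s = d * y
    · rw [if_pos h, if_pos (h1.2 h)]
    · rw [if_neg h, if_neg fun h' => h (h1.1 h')]

private theorem slH_sub {M : ℕ} {H G : ℂ → ℂ} (hH : SlH D M H) (hG : SlH D M G) {k : ℂ}
    (hk : k ∈ D.K) : SlH D M (fun s => H s - k * G s) := by
  refine ⟨?_, ?_, ?_, ?_⟩
  · intro s hs
    by_contra h
    apply hs
    have h1 : H s = 0 := by
      by_contra h1
      exact h (hH.supp s h1)
    have h2 : G s = 0 := by
      by_contra h2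
      exact h (hG.supp s h2)
    show H s - k * G s = 0
    rw [h1, h2, mul_zero, sub_zero]
  · intro s
    exact D.K.sub_mem (hH.val s) (D.K.mul_mem hk (hG.val s))
  · intro s hs v hv
    show H (s + M * v) - k * G (s + M * v) = H s - k * G s
    rw [hH.per s hs v hv, hG.per s hs v hv]
  · intro x hx s hs
    show H (x * s) - k * G (x * s) = H s - k * G s
    rw [hH.inv x hx s hs, hG.inv x hx s hs]

/-! ### the sums -/

/-- the conclusion -/
private def SlV (D : OD) (H : ℂ → ℂ) : Prop :=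
  Summable (fun t : ℂ => H t * (t ^ 4 * (starRingEnd ℂ) t ^ 2)⁻¹) ∧
    ∃ k ∈ D.K, ∑' t : ℂ, H t * (t ^ 4 * (starRingEnd ℂ) t ^ 2)⁻¹ = k * Lam D

private theorem slV_ind {d : ℂ} (hd : d ∈ D.O) (h0 : d ≠ 0) : SlV D (slI D d) := by
  have hinj : Function.Injective fun m : ℤ × ℤ => d * UNI.xx D.a m := fun m m' h =>
    sl_xx_inj (mul_left_cancel₀ h0 h)
  set F : ℂ → ℂ := fun t => slI D d t * (t ^ 4 * (starRingEnd ℂ) t ^ 2)⁻¹ with hF
  have hout : ∀ t, t ∉ Set.range (fun m : ℤ × ℤ => d * UNI.xx D.a m) → F t = 0 := by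
    intro t ht
    have h1 : slI D d t = 0 := by
      unfold slI
      rw [if_neg]
      rintro ⟨y, ⟨m, rfl⟩, rfl⟩
      exact ht ⟨m, rfl⟩
    rw [hF]
    simp only [h1, zero_mul]
  have hin : ∀ m : ℤ × ℤ, F (d * UNI.xx D.a m) = (d ^ 4 * (starRingEnd ℂ) d ^ 2)⁻¹ *
      (1 / (UNI.xx D.a m ^ 4 * (starRingEnd ℂ) (UNI.xx D.a m) ^ 2)) := by
    intro m
    have h1 : slI D d (d * UNI.xx D.a m) = 1 := by
      unfold slI
      rw [if_pos ⟨_, ⟨m, rfl⟩, rfl⟩]
    rw [hF]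
    simp only [h1, one_mul, one_div]
    rw [← mul_inv, map_mul]
    congr 1
    ring
  have hS : Summable F := by
    rw [← hinj.summable_iff hout]
    have : F ∘ (fun m : ℤ × ℤ => d * UNI.xx D.a m) = fun m => (d ^ 4 * (starRingEnd ℂ) d ^ 2)⁻¹ *
      (1 / (UNI.xx D.a m ^ 4 * (starRingEnd ℂ) (UNI.xx D.a m) ^ 2)) := funext hin
    rw [this]
    exact (Lam_summable D).mul_left _
  have hT : ∑' t, F t = (d ^ 4 * (starRingEnd ℂ) d ^ 2)⁻¹ * Lam D := by
    rw [← hinj.tsum_eq (f := F) (by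
      intro t ht
      by_contra h
      exact ht (hout t h))]
    rw [tsum_congr hin, tsum_mul_left]
    rfl
  refine ⟨hS, _, ?_, hT⟩
  exact D.K.inv_mem (D.K.mul_mem (D.K.pow_mem (O_sub_K hd) 4) (D.K.pow_mem (cj_K (O_sub_K hd)) 2))

private theorem slV_zero : SlV D (fun _ => 0) := by
  refine ⟨?_, 0, D.K.zero_mem, ?_⟩
  · simp only [zero_mul]
    exact summable_zero
  · simp only [zero_mul, tsum_zero]

private theorem slV_add {H G : ℂ → ℂ} {k : ℂ} (hk : k ∈ D.K)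
    (hH : SlV D (fun s => H s - k * G s)) (hG : SlV D G) : SlV D H := by
  obtain ⟨s1, k1, hk1, e1⟩ := hH
  obtain ⟨s2, k2, hk2, e2⟩ := hG
  have e : (fun t : ℂ => H t * (t ^ 4 * (starRingEnd ℂ) t ^ 2)⁻¹) = fun t : ℂ =>
      (H t - k * G t) * (t ^ 4 * (starRingEnd ℂ) t ^ 2)⁻¹ +
        k * (G t * (t ^ 4 * (starRingEnd ℂ) t ^ 2)⁻¹) := by
    funext t
    ring
  refine ⟨?_, k1 + k * k2, D.K.add_mem hk1 (D.K.mul_mem hk hk2), ?_⟩
  · rw [e]
    exact s1.add (s2.mul_left k)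
  · rw [e, Summable.tsum_add s1 (s2.mul_left k), e1, tsum_mul_left, e2]
    ring

private theorem sl_main {M : ℕ} (hM : 0 < M) (n : ℕ) : ∀ H : ℂ → ℂ, SlH D M H →
    {q : ℂ | (q ∈ D.O ∧ ∃ z ∈ D.O, (M : ℂ) = q * z) ∧
      ∃ q' ∈ D.O, H q' ≠ 0 ∧ ∃ y ∈ D.O, q = q' * y}.ncard ≤ n → SlV D H := by
  have hM' : (M : ℂ) ≠ 0 := by exact_mod_cast hM.ne'
  have hfin : ∀ H : ℂ → ℂ, {q : ℂ | (q ∈ D.O ∧ ∃ z ∈ D.O, (M : ℂ) = q * z) ∧
      ∃ q' ∈ D.O, H q' ≠ 0 ∧ ∃ y ∈ D.O, q = q' * y}.Finite := fun H =>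
    (fin_div D hM).subset fun q hq => hq.1
  have hz : ∀ H : ℂ → ℂ, SlH D M H → (∀ q ∈ D.O, (∃ z ∈ D.O, (M : ℂ) = q * z) → H q = 0) →
      SlV D H := by
    intro H hH h
    have e : H = fun _ => 0 := by
      funext s
      by_cases hs : s ∈ D.O
      · obtain ⟨g, hg, hgM, e⟩ := sl_gcd hM hH hs
        rw [e, h g hg hgM]
      · by_contra h1
        exact hs (hH.supp s h1)
    rw [e]
    exact slV_zero
  induction n with
  | zero =>
    intro H hH hc
    apply hz H hH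
    intro q hq hqM
    by_contra h1
    have h2 : q ∈ {q : ℂ | (q ∈ D.O ∧ ∃ z ∈ D.O, (M : ℂ) = q * z) ∧
      ∃ q' ∈ D.O, H q' ≠ 0 ∧ ∃ y ∈ D.O, q = q' * y} :=
      ⟨⟨hq, hqM⟩, q, hq, h1, 1, D.O.one_mem, by ring⟩
    have h3 := (Set.ncard_eq_zero (hfin H)).1 (Nat.le_zero.1 hc)
    rw [h3] at h2
    exact h2
  | succ n ih =>
    intro H hH hc
    by_cases hne : ∀ q ∈ D.O, (∃ z ∈ D.O, (M : ℂ) = q * z) → H q = 0
    · exact hz H hH hne
    push Not at hne
    obtain ⟨q0, hq0, hq0M, hq0H⟩ := hne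
    -- a divisor of minimal norm in the support
    have hTfin : {q : ℂ | (q ∈ D.O ∧ ∃ z ∈ D.O, (M : ℂ) = q * z) ∧ H q ≠ 0}.Finite :=
      (fin_div D hM).subset fun q hq => hq.1
    obtain ⟨d, ⟨⟨hd, hdM⟩, hdH⟩, hmin⟩ := Set.exists_min_image _ (fun q : ℂ => ‖q‖) hTfin
      ⟨q0, ⟨hq0, hq0M⟩, hq0H⟩
    have hd0 : d ≠ 0 := by
      rintro rfl
      obtain ⟨z, -, e⟩ := hdM
      rw [zero_mul] at e
      exact hM' e
    have hI := slI_H hd hdM
    have hK := hH.val d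
    refine slV_add (G := slI D d) hK (ih _ (slH_sub hH hI hK) ?_) (slV_ind hd hd0)
    -- the support shrinks
    have hsub : {q : ℂ | (q ∈ D.O ∧ ∃ z ∈ D.O, (M : ℂ) = q * z) ∧
        ∃ q' ∈ D.O, H q' - H d * slI D d q' ≠ 0 ∧ ∃ y ∈ D.O, q = q' * y} ⊂
        {q : ℂ | (q ∈ D.O ∧ ∃ z ∈ D.O, (M : ℂ) = q * z) ∧
        ∃ q' ∈ D.O, H q' ≠ 0 ∧ ∃ y ∈ D.O, q = q' * y} := by
      rw [Set.ssubset_iff_of_subset]
      · refine ⟨d, ⟨⟨hd, hdM⟩, d, hd, hdH, 1, D.O.one_mem, by ring⟩, ?_⟩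
        rintro ⟨-, q', hq', hq'H, y, hy, e⟩
        obtain ⟨z, hz', e'⟩ := hdM
        have hq'M : ∃ z ∈ D.O, (M : ℂ) = q' * z :=
          ⟨y * z, D.O.mul_mem hy hz', by rw [e', e]; ring⟩
        have hq'0 : q' ≠ 0 := by
          rintro rfl
          rw [zero_mul] at e
          exact hd0 e
        have hy0 : y ≠ 0 := by
          rintro rfl
          rw [mul_zero] at e
          exact hd0 e
        -- `q'` is associated to `d` as soon as `y` is a unit
        have hunit : ∀ y' ∈ D.O, y * y' = 1 → False := by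
          intro y' hy' e1
          apply hq'H
          have e2 : q' = y' * d := by
            rw [e]
            linear_combination (-q') * e1
          have h1 : H q' = H d := by
            rw [e2]
            exact hH.inv y' ⟨hy', nat_O M, y, hy, 0, D.O.zero_mem, by linear_combination e1⟩ d hd
          have h2 : slI D d q' = 1 := by
            unfold slI
            rw [if_pos ⟨y', hy', by rw [e2]; ring⟩]
          rw [h1, h2, mul_one, sub_self]
        by_cases hq'0H : H q' = 0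
        · -- then `d` divides `q'`
          have h3 : ∃ y' ∈ D.O, q' = d * y' := by
            by_contra h3
            apply hq'H
            have h2 : slI D d q' = 0 := by
              unfold slI
              rw [if_neg h3]
            rw [hq'0H, h2, mul_zero, sub_zero]
          obtain ⟨y', hy', e3⟩ := h3
          refine hunit y' hy' ?_
          have h4 : d * (y * y' - 1) = 0 := by
            have h5 : d = d * y' * y := by
              rw [← e3]
              exact e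
            linear_combination (-1 : ℂ) * h5
          exact sub_eq_zero.1 ((mul_eq_zero.1 h4).resolve_left hd0)
        · have h3 := hmin q' ⟨⟨hq', hq'M⟩, hq'0H⟩
          have h4 : ‖d‖ = ‖q'‖ * ‖y‖ := by
            rw [← norm_mul, ← e]
          have h5 : 0 < ‖q'‖ := norm_pos_iff.2 hq'0
          have h6 := nrm_one hy hy0
          have h7 : ‖y‖ = 1 := by
            have h3' : ‖d‖ ≤ ‖q'‖ := h3
            apply le_antisymm _ h6
            by_contra h8
            push Not at h8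
            nlinarith
          exact hunit _ (unit_of hy h7) (mul_inv_cancel₀ hy0)
      · rintro q ⟨hq, q', hq', hq'H, y, hy, e⟩
        refine ⟨hq, ?_⟩
        by_cases hq'0H : H q' = 0
        · have h3 : ∃ y' ∈ D.O, q' = d * y' := by
            by_contra h3
            apply hq'H
            have h2 : slI D d q' = 0 := by
              unfold slI
              rw [if_neg h3]
            rw [hq'0H, h2, mul_zero, sub_zero]
          obtain ⟨y', hy', e3⟩ := h3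
          exact ⟨d, hd, hdH, y' * y, D.O.mul_mem hy' hy, by rw [e, e3]; ring⟩
        · exact ⟨q', hq', hq'0H, y, hy, e⟩
    have h9 := Set.ncard_lt_ncard hsub (hfin H)
    omega

theorem line_sum {f : Vec → ℂ} (hf : AdmE D f) {c : Vec} (hc : Cu D c) :
    Summable (fun t : ℂ => f (t • c) * (t ^ 4 * (starRingEnd ℂ) t ^ 2)⁻¹) ∧
    ∃ k ∈ D.K, ∑' t : ℂ, f (t • c) * (t ^ 4 * (starRingEnd ℂ) t ^ 2)⁻¹ = k * Lam D := by
  obtain ⟨m, hf⟩ := hf
  have hm := hf.pos
  obtain ⟨n0, hn0, hc0⟩ := clear hc.1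
  -- the denominator
  have hn1 : ∃ n1 : ℕ, 0 < n1 ∧ ∀ t : ℂ, f (t • c) ≠ 0 → ((n1 * m : ℕ) : ℂ) * t ∈ D.O := by
    have key : ∀ ci : ℂ, ci ∈ D.K → ci ≠ 0 → ∃ n1 : ℕ, 0 < n1 ∧ ∀ t : ℂ,
        (m : ℂ) * (t * ci) ∈ D.O → ((n1 * m : ℕ) : ℂ) * t ∈ D.O := by
      intro ci hci hci0
      obtain ⟨n1, hn1, h1⟩ := D.K.inv_mem hci
      refine ⟨n1, hn1, fun t ht => ?_⟩
      have h2 := D.O.mul_mem h1 ht
      have e : (n1 : ℂ) * ci⁻¹ * ((m : ℂ) * (t * ci)) = ((n1 * m : ℕ) : ℂ) * t := by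
        push_cast
        field_simp
      rwa [e] at h2
    by_cases h1 : c.1 = 0
    · have h2 : c.2 ≠ 0 := fun h2 => hc.2 (Prod.ext h1 h2)
      obtain ⟨n1, hn1, h3⟩ := key c.2 hc.1.2 h2
      exact ⟨n1, hn1, fun t ht => h3 t (hf.supp _ ht).2⟩
    · obtain ⟨n1, hn1, h3⟩ := key c.1 hc.1.1 h1
      exact ⟨n1, hn1, fun t ht => h3 t (hf.supp _ ht).1⟩
  obtain ⟨n1, hn1, hden⟩ := hn1
  obtain ⟨n, hn, hden'⟩ : ∃ n : ℕ, 0 < n ∧ ∀ t : ℂ, f (t • c) ≠ 0 → (n : ℂ) * t ∈ D.O :=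
    ⟨n1 * m, Nat.mul_pos hn1 hm, hden⟩
  have hn' : (n : ℂ) ≠ 0 := by exact_mod_cast hn.ne'
  set M : ℕ := m * n * n0 with hMdef
  have hM : 0 < M := Nat.mul_pos (Nat.mul_pos hm hn) hn0
  set H : ℂ → ℂ := fun s => f ((s / n) • c) with hHdef
  have hH : SlH D M H := by
    refine ⟨?_, ?_, ?_, ?_⟩
    · intro s hs
      have h1 := hden' _ hs
      rwa [mul_div_cancel₀ _ hn'] at h1
    · intro s
      exact hf.val _
    · intro s hs v hv
      show f (((s + M * v) / n) • c) = f ((s / n) • c)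
      have e : ((s + M * v) / n) • c = (s / n) • c + (m : ℂ) • (v • ((n0 : ℂ) • c)) := by
        rw [smul_smul, smul_smul, ← add_smul]
        congr 1
        rw [hMdef]
        push_cast
        field_simp
      rw [e]
      exact hf.per _ _ (O2_smul hv hc0)
    · intro x hx s hs
      show f ((x * s / n) • c) = f ((s / n) • c)
      have e : (x * s / n) • c = x • ((s / n) • c) := by
        rw [smul_smul]
        congr 1
        ring
      rw [e]
      have hxm : Cop D x m := cop_dvd hx (nat_O m) ⟨(n * n0 : ℕ), nat_O _, by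
        rw [hMdef]
        push_cast
        ring⟩
      by_cases h1 : O2 D ((m : ℂ) • ((s / n) • c))
      · exact hf.inv x hxm _ h1
      · have h2 : f ((s / n) • c) = 0 := by
          by_contra h2
          exact h1 (hf.supp _ h2)
        rw [h2]
        by_contra h3
        apply h1
        refine cop_O2 hx ?_ ?_
        · have h4 := hf.supp _ h3
          rwa [smul_comm] at h4
        · have h5 : (M : ℂ) • ((m : ℂ) • ((s / n) • c)) =
              ((m : ℂ) * m * s) • ((n0 : ℂ) • c) := by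
            rw [smul_smul, smul_smul, smul_smul]
            congr 1
            rw [hMdef]
            push_cast
            field_simp
          rw [h5]
          exact O2_smul (D.O.mul_mem (D.O.mul_mem (nat_O m) (nat_O m)) hs) hc0
  obtain ⟨hS, k, hk, e⟩ := sl_main hM _ H hH le_rfl
  -- rescale
  have hresc : ∀ t : ℂ, f (t • c) * (t ^ 4 * (starRingEnd ℂ) t ^ 2)⁻¹ = (n : ℂ) ^ 6 *
      (H ((n : ℂ) * t) * (((n : ℂ) * t) ^ 4 * (starRingEnd ℂ) ((n : ℂ) * t) ^ 2)⁻¹) := by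
    intro t
    have h1 : H ((n : ℂ) * t) = f (t • c) := by
      show f (((n : ℂ) * t / n) • c) = f (t • c)
      rw [mul_div_cancel_left₀ _ hn']
    have h2 : ((n : ℂ) * t) ^ 4 * (starRingEnd ℂ) ((n : ℂ) * t) ^ 2 =
        (n : ℂ) ^ 6 * (t ^ 4 * (starRingEnd ℂ) t ^ 2) := by
      rw [map_mul, map_natCast]
      ring
    rw [h1, h2, mul_inv]
    have h3 : (n : ℂ) ^ 6 * ((n : ℂ) ^ 6)⁻¹ = 1 := mul_inv_cancel₀ (pow_ne_zero 6 hn')
    linear_combination (-(f (t • c) * (t ^ 4 * (starRingEnd ℂ) t ^ 2)⁻¹)) * h3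
  set F : ℂ → ℂ := fun t => H t * (t ^ 4 * (starRingEnd ℂ) t ^ 2)⁻¹ with hF
  have hE : (fun t : ℂ => f (t • c) * (t ^ 4 * (starRingEnd ℂ) t ^ 2)⁻¹) =
      fun t => (n : ℂ) ^ 6 * F ((Equiv.mulLeft₀ (n : ℂ) hn') t) := by
    funext t
    rw [hresc t]
    rfl
  refine ⟨?_, (n : ℂ) ^ 6 * k, D.K.mul_mem (D.K.pow_mem (natCast_mem _ n) 6) hk, ?_⟩
  · rw [hE]
    exact (((Equiv.mulLeft₀ (n : ℂ) hn').summable_iff (f := F)).2 hS).mul_left _
  · rw [hE, tsum_mul_left, (Equiv.mulLeft₀ (n : ℂ) hn').tsum_eq F, e]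
    ring

end RNK
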