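import Pool.Agent.RNK.CiA

/-!
# RNK.Ci: the symbols `ρ (T f)`

Let `z ∉ K Λ`. `ℂ` is a vector space over `D.K`, `Λ` spans `K Λ`; there is a `K`-linear map `ρ : ℂ → ℂ`
with `ρ Λ = 0`, `ρ z ≠ 0`. Put `s f x y z p = ρ (TT f x y z p)`. Fields of `Coc`:
* `add`, `smul`: `TT_summable`, linearity of `ρ` over `K`.
* `a12`, `a23`, `scal`: termwise (`KG_a12`, `KG_a23`, `KG_scal`).
* `coc`: `TT_coc`, `ρ (k Λ) = 0`.
* `equiv`: `Σ_w f (g w) KG(x,y,z;p;w) = Σ_w f (g w) |det g|² KG(g x, g y, g z; g p; g w)` (`KG_act`) and the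
  bijection `g.act` of `Vec` (`Equiv.tsum_eq`); `|det g|² ∈ K` (`nsq_K`).
* `quad`: by `KG_quad` the values at `p = e1, e2, v11` are summable and determine the sums
  `S11, S12, S22` of `TT`; for `p ∈ K²` the coefficients `p₁²` etc. are in `K`.
-/

namespace RNK

variable {D : OD}

/-- a `K`-linear map which vanishes at `Λ` and not at `z` -/
theorem exists_rho {z : ℂ} (hz : ∀ k ∈ D.K, z ≠ k * Lam D) :
    ∃ ρ : ℂ → ℂ, (∀ u v, ρ (u + v) = ρ u + ρ v) ∧ (∀ k ∈ D.K, ∀ u, ρ (k * u) = k * ρ u) ∧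
      ρ (Lam D) = 0 ∧ ρ z ≠ 0 := by
  have hnot : z ∉ Submodule.span D.K ({Lam D} : Set ℂ) := by
    intro hmem
    obtain ⟨k, hk⟩ := Submodule.mem_span_singleton.1 hmem
    exact hz k.1 k.2 (by rw [← hk]; rfl)
  obtain ⟨φ, hφ, hle⟩ := Submodule.exists_le_ker_of_notMem hnot
  refine ⟨fun u => ((φ u : D.K) : ℂ), fun u v => by simp, fun k hk u => ?_, ?_, ?_⟩
  · have h1 : k * u = (⟨k, hk⟩ : D.K) • u := rfl
    simp only [h1, map_smul]
    rfl
  · have h1 : Lam D ∈ LinearMap.ker φ := hle (Submodule.mem_span_singleton_self _)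
    rw [LinearMap.mem_ker] at h1
    simp [h1]
  · intro h
    exact hφ (Subtype.ext h)

theorem TT_add {f g : Vec → ℂ} (hf : AdmE D f) (hg : AdmE D g) {x y z p : Vec} (hx : Cu D x)
    (hy : Cu D y) (hz : Cu D z) (hp : K2 D p) :
    TT (fun w => f w + g w) x y z p = TT f x y z p + TT g x y z p := by
  unfold TT
  rw [← (TT_summable hf hx hy hz hp).tsum_add (TT_summable hg hx hy hz hp)]
  exact tsum_congr fun w => by ring

theorem TT_smul (k : ℂ) (f : Vec → ℂ) (x y z p : Vec) :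
    TT (fun w => k * f w) x y z p = k * TT f x y z p := by
  unfold TT
  rw [← tsum_mul_left]
  exact tsum_congr fun w => by ring

theorem TT_a12 (f : Vec → ℂ) (x y z p : Vec) : TT f y x z p = -TT f x y z p := by
  unfold TT
  rw [← tsum_neg]
  exact tsum_congr fun w => by rw [KG_a12]; ring

theorem TT_a23 (f : Vec → ℂ) (x y z p : Vec) : TT f x z y p = -TT f x y z p := by
  unfold TT
  rw [← tsum_neg]
  exact tsum_congr fun w => by rw [KG_a23]; ring

theorem TT_scal (f : Vec → ℂ) {k : ℂ} (hk : k ≠ 0) (x y z p : Vec) :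
    TT f (k • x) y z p = TT f x y z p := by
  unfold TT
  exact tsum_congr fun w => by rw [KG_scal hk]

theorem TT_act (f : Vec → ℂ) {g : Mat} (hg : g.det ≠ 0) (x y z p : Vec) :
    TT (fun w => f (g.act w)) x y z p =
      ((‖g.det‖ ^ 2 : ℝ) : ℂ) * TT f (g.act x) (g.act y) (g.act z) (g.act p) := by
  unfold TT
  let e : Vec ≃ Vec := ⟨g.act, g.inv.act, inv_act hg, act_inv hg⟩
  rw [← e.tsum_eq (fun w => f w * KG (g.act x) (g.act y) (g.act z) (g.act p) w), ← tsum_mul_left]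
  refine tsum_congr fun w => ?_
  have h1 : e w = g.act w := rfl
  have h2 : ((‖g.det‖ ^ 2 : ℝ) : ℂ) ≠ 0 := by
    have := norm_pos_iff.2 hg
    exact_mod_cast (pow_pos this 2).ne'
  rw [h1, KG_act hg]
  field_simp

theorem TT_quad {f : Vec → ℂ} (hf : AdmE D f) {x y z : Vec} (hx : Cu D x) (hy : Cu D y)
    (hz : Cu D z) (p : Vec) :
    TT f x y z p = p.1 ^ 2 * TT f x y z e1 +
      p.1 * p.2 * (TT f x y z v11 - TT f x y z e1 - TT f x y z e2) + p.2 ^ 2 * TT f x y z e2 := by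
  obtain ⟨k11, k12, k22, hk⟩ := KG_quad x y z
  have h1 : ∀ w, KG x y z e1 w = k11 w := fun w => by
    rw [hk]; simp [e1]
  have h2 : ∀ w, KG x y z e2 w = k22 w := fun w => by
    rw [hk]; simp [e2]
  have h3 : ∀ w, KG x y z v11 w = k11 w + k12 w + k22 w := fun w => by
    rw [hk]; simp [v11]
  have s1 := TT_summable hf hx hy hz (Cu_e1 (D := D)).1
  have s2 := TT_summable hf hx hy hz (Cu_e2 (D := D)).1
  have s3 := TT_summable hf hx hy hz (Cu_v11 (D := D)).1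
  unfold TT
  have e : ∀ w, f w * KG x y z p w = p.1 ^ 2 * (f w * KG x y z e1 w) +
      p.1 * p.2 * (f w * KG x y z v11 w - f w * KG x y z e1 w - f w * KG x y z e2 w) +
      p.2 ^ 2 * (f w * KG x y z e2 w) := fun w => by
    rw [h1, h2, h3, hk]
    ring
  rw [tsum_congr e, Summable.tsum_add, Summable.tsum_add, tsum_mul_left, tsum_mul_left,
    tsum_mul_left, Summable.tsum_sub, Summable.tsum_sub]
  · exact s3
  · exact s1
  · exact s3.sub s1
  · exact s2
  · exact s1.mul_left _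
  · exact ((s3.sub s1).sub s2).mul_left _
  · exact (s1.mul_left _).add (((s3.sub s1).sub s2).mul_left _)
  · exact s2.mul_left _

theorem exists_coc {z : ℂ} (hz : ∀ k ∈ D.K, z ≠ k * Lam D) : ∃ S : Coc D, ∃ ρ : ℂ → ℂ,
    (∀ f x y z' p, S.s f x y z' p = ρ (TT f x y z' p)) ∧ ρ z ≠ 0 := by
  obtain ⟨ρ, hadd, hsm, hL, hρz⟩ := exists_rho hz
  have h0 : ρ 0 = 0 := by
    have := hsm 0 D.K.zero_mem 0
    simpa using this
  have hneg : ∀ u, ρ (-u) = -ρ u := fun u => by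
    have := hsm (-1) (D.K.neg_mem D.K.one_mem) u
    simpa using this
  have hsub : ∀ u v, ρ (u - v) = ρ u - ρ v := fun u v => by
    rw [sub_eq_add_neg, hadd, hneg, ← sub_eq_add_neg]
  refine ⟨{
    s := fun f x y z p => ρ (TT f x y z p)
    add := ?_
    smul := ?_
    a12 := ?_
    a23 := ?_
    coc := ?_
    scal := ?_
    equiv := ?_
    quad := ?_ }, ρ, fun _ _ _ _ _ => rfl, hρz⟩
  · intro f g hf hg x y z p hx hy hz hp
    show ρ _ = ρ _ + ρ _
    rw [TT_add hf hg hx hy hz hp, hadd]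
  · intro f _ k hk x y z p _ _ _ _
    show ρ _ = k * ρ _
    rw [TT_smul, hsm k hk]
  · intro f _ x y z p _ _ _ _
    show ρ _ = -ρ _
    rw [TT_a12, hneg]
  · intro f _ x y z p _ _ _ _
    show ρ _ = -ρ _
    rw [TT_a23, hneg]
  · intro f hf x y z w p hx hy hz hw hp
    show ρ _ - ρ _ + ρ _ - ρ _ = 0
    obtain ⟨k, hk, e⟩ := TT_coc hf hx hy hz hw hp
    rw [← hsub, ← hadd, ← hsub, e, hsm k hk, hL, mul_zero]
  · intro f _ k _ hk x y z p _ _ _ _
    show ρ _ = ρ _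
    rw [TT_scal f hk]
  · intro f _ g hg x y z p _ _ _ _
    show ρ _ = _ * ρ _
    rw [TT_act f hg.2, hsm _ (nsq_K (det_K hg))]
  · intro f hf x y z hx hy hz
    refine ⟨ρ (TT f x y z e1), ρ (TT f x y z v11 - TT f x y z e1 - TT f x y z e2),
      ρ (TT f x y z e2), fun p hp => ?_⟩
    show ρ _ = _
    rw [TT_quad hf hx hy hz p, hadd, hadd, hsm _ (D.K.pow_mem hp.1 2),
      hsm _ (D.K.mul_mem hp.1 hp.2), hsm _ (D.K.pow_mem hp.2 2)]

end RNK
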