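import Pool.Agent.RNK.Ab
import Pool.Agent.RNK.Ci
import Pool.Agent.RNK.Px

/-!
# RNK.Tv: the value of the lattice sum

If the sum were not in `K Λ`, `exists_coc` and `tri_abs` would give a contradiction.
-/

namespace RNK

variable {D : OD}

theorem tri_val {N : ℕ} [NeZero N]
    {V : Finset ℂ} (hV : ∀ v ∈ V, v ∈ D.K) {f : Vec → ℂ} (hf : Fn D N V f)
    (h1 : ∀ x y, f (-x, y) = f (x, y)) (h2 : ∀ x y, f (y, x) = -f (x, y))
    {J : ℕ} {q : Fin J → ℂ} (hq : ∀ j, q j ∈ D.O ∧ q j ≠ 0) {ψ : Fin J → Vec → ℂ}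
    (hψ : ∀ j, Fn D N V (ψ j))
    (hav : ∀ j, ∀ y ∈ D.O,
      ∑ k : ZMod N × ZMod N, ψ j (UNI.xx D.a ((k.1.val : ℤ), (k.2.val : ℤ)), y) = 0)
    {θ : Vec → ℂ} (hθ : Fn D N V θ) (ho : ∀ x y, θ (-x, y) = -θ (x, y))
    (hc : ∀ x y, f (x, y) - f (x + y, y) =
      ∑ j, (Tq (q j) (ψ j) (x, y) - ψ j (x, y)) + θ (x, y)) :
    ∃ k ∈ D.K, TT f e2 e1 v11 v11 = k * Lam D := by
  by_contra hcon
  push_neg at hcon
  obtain ⟨S, ρ, h, h'⟩ := exists_coc (D := D) (z := TT f e2 e1 v11 v11)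
    (fun k hk => hcon k hk)
  apply h'
  rw [← h]
  exact tri_abs (exists_PD D) S hV hf h1 h2 hq hψ hav hθ ho hc

end RNK
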