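import Pool.Agent.RNK.WDefs

/-!
# RNK.Wa: averaging the coefficients

Let `U` be the finite set of maps `sm b d : G N → G N`, `d` a unit mod `N` (`Wa_U`). It is stable under
composition with a unit. Replace `c j l k` by `c' j l k = (1 / |U|) Σ_{u ∈ U} c j (u l) (u k)`. Since
`W (u k) (u l) = W k l` and `u (k + l) = u k + u l`: `Al W (u l) (u k) = Al W l k`; and
`Rl b q (c j (u l)) (u k) = Rl b q (c j (u l) ∘ u) k` because `u` commutes with `q` and is bijective. So the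
relation holds for `c'`. `c' j l 0 = 0` because `u 0 = 0`.
-/

namespace RNK

noncomputable section

/-- `d` is a unit mod `N` -/
private def WaUn (b : UNL.Par) (N : ℕ) (d : ℤ × ℤ) : Prop :=
  ∃ e z : ℤ × ℤ, UNL.de b d * UNL.de b e + N * UNL.de b z = 1

/-- the product in `O` -/
private def WaMu (b : UNL.Par) (d e : ℤ × ℤ) : ℤ × ℤ :=
  (d.1 * e.1 - b.A * b.C * d.2 * e.2, d.1 * e.2 + d.2 * e.1 + b.B * d.2 * e.2)

private theorem Wa_sD_pos (b : UNL.Par) : 0 < UNL.sD b := by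
  unfold UNL.sD
  apply Real.sqrt_pos.2
  have := b.hD
  have h : ((b.B : ℝ)) ^ 2 < 4 * b.A * b.C := by exact_mod_cast this
  linarith

private theorem Wa_sD_sq (b : UNL.Par) : (UNL.sD b : ℂ) ^ 2 = 4 * b.A * b.C - b.B ^ 2 := by
  have h : (UNL.sD b) ^ 2 = 4 * b.A * b.C - b.B ^ 2 := by
    unfold UNL.sD
    rw [Real.sq_sqrt]
    have := b.hD
    have h : ((b.B : ℝ)) ^ 2 < 4 * b.A * b.C := by exact_mod_cast this
    linarith
  exact_mod_cast congrArg (fun x : ℝ => (x : ℂ)) h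

private theorem Wa_alp (b : UNL.Par) :
    UNL.alp b = ((b.B : ℂ) + (UNL.sD b : ℂ) * Complex.I) / 2 := by
  have hA : (b.A : ℂ) ≠ 0 := by
    have := b.hA
    exact_mod_cast this.ne'
  unfold UNL.alp UNL.tau
  field_simp

private theorem Wa_alp_sq (b : UNL.Par) : UNL.alp b ^ 2 = b.B * UNL.alp b - b.A * b.C := by
  have h := Wa_sD_sq b
  have hI := Complex.I_sq
  rw [Wa_alp]
  have : (((b.B : ℂ) + (UNL.sD b : ℂ) * Complex.I) / 2) ^ 2 =
      (b.B ^ 2 + 2 * b.B * (UNL.sD b * Complex.I) + (UNL.sD b : ℂ) ^ 2 * Complex.I ^ 2) / 4 := by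
    ring
  rw [this, h, hI]
  ring

private theorem Wa_de_mul (b : UNL.Par) (d e : ℤ × ℤ) :
    UNL.de b d * UNL.de b e = UNL.de b (WaMu b d e) := by
  have h := Wa_alp_sq b
  unfold UNL.de WaMu
  push_cast
  linear_combination ((d.2 : ℂ) * e.2) * h

private theorem Wa_de_inj (b : UNL.Par) {d e : ℤ × ℤ} (h : UNL.de b d = UNL.de b e) : d = e := by
  have hs := Wa_sD_pos b
  unfold UNL.de at h
  rw [Wa_alp] at h
  have him := congrArg Complex.im h
  have hre := congrArg Complex.re h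
  simp only [Complex.add_im, Complex.mul_im, Complex.intCast_im, Complex.intCast_re,
    Complex.add_re, Complex.mul_re] at him hre
  have e1 : ((((b.B : ℂ) + (UNL.sD b : ℂ) * Complex.I) / 2)).im = UNL.sD b / 2 := by
    have : (((b.B : ℂ) + (UNL.sD b : ℂ) * Complex.I) / 2) =
      ((b.B / 2 : ℝ) : ℂ) + ((UNL.sD b / 2 : ℝ) : ℂ) * Complex.I := by
      push_cast
      ring
    rw [this]
    simp
  rw [e1] at him hre
  have h2 : (d.2 : ℝ) = e.2 := by
    have : ((d.2 : ℝ) - e.2) * (UNL.sD b / 2) = 0 := by linarith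
    rcases mul_eq_zero.1 this with h0 | h0
    · linarith
    · linarith
  have h1 : (d.1 : ℝ) = e.1 := by
    rw [h2] at hre
    linarith
  ext
  · exact_mod_cast h1
  · exact_mod_cast h2

private theorem Wa_sm_mul (b : UNL.Par) {N : ℕ} (d e : ℤ × ℤ) (k : UNL.G N) :
    UNL.sm b d (UNL.sm b e k) = UNL.sm b (WaMu b d e) k := by
  unfold UNL.sm WaMu
  ext
  · push_cast
    ring
  · push_cast
    ring

private theorem Wa_sm_comm (b : UNL.Par) {N : ℕ} (d e : ℤ × ℤ) (k : UNL.G N) :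
    UNL.sm b d (UNL.sm b e k) = UNL.sm b e (UNL.sm b d k) := by
  unfold UNL.sm
  ext
  · push_cast
    ring
  · push_cast
    ring

private theorem Wa_sm_add (b : UNL.Par) {N : ℕ} (d : ℤ × ℤ) (k l : UNL.G N) :
    UNL.sm b d (k + l) = UNL.sm b d k + UNL.sm b d l := by
  unfold UNL.sm
  ext
  · simp only [Prod.fst_add, Prod.snd_add]
    ring
  · simp only [Prod.fst_add, Prod.snd_add]
    ring

private theorem Wa_sm_zero (b : UNL.Par) {N : ℕ} (d : ℤ × ℤ) :
    UNL.sm b d (0 : UNL.G N) = 0 := by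
  unfold UNL.sm
  ext <;> simp

private theorem Wa_sm_neg (b : UNL.Par) {N : ℕ} (d : ℤ × ℤ) (k : UNL.G N) :
    UNL.sm b d (-k) = -UNL.sm b d k := by
  unfold UNL.sm
  ext
  · simp only [Prod.fst_neg, Prod.snd_neg]
    ring
  · simp only [Prod.fst_neg, Prod.snd_neg]
    ring

/-- the inverse -/
private theorem Wa_inv {b : UNL.Par} {N : ℕ} {d : ℤ × ℤ} (hd : WaUn b N d) :
    ∃ e, WaUn b N e ∧ (∀ k : UNL.G N, UNL.sm b d (UNL.sm b e k) = k) ∧
      ∀ k : UNL.G N, UNL.sm b e (UNL.sm b d k) = k := by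
  obtain ⟨e, z, h⟩ := hd
  have h1 : WaMu b d e + ((N : ℤ) * z.1, (N : ℤ) * z.2) = (1, 0) := by
    apply Wa_de_inj b
    have h2 : UNL.de b (WaMu b d e + ((N : ℤ) * z.1, (N : ℤ) * z.2)) =
        UNL.de b (WaMu b d e) + N * UNL.de b z := by
      unfold UNL.de
      simp only [Prod.fst_add, Prod.snd_add]
      push_cast
      ring
    rw [h2, ← Wa_de_mul, h]
    unfold UNL.de
    simp
  have ha : ((WaMu b d e).1 : ZMod N) = 1 := by
    have := congrArg (fun x : ℤ × ℤ => (x.1 : ZMod N)) h1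
    simpa using this
  have hb : ((WaMu b d e).2 : ZMod N) = 0 := by
    have := congrArg (fun x : ℤ × ℤ => (x.2 : ZMod N)) h1
    simpa using this
  have key : ∀ k : UNL.G N, UNL.sm b d (UNL.sm b e k) = k := by
    intro k
    rw [Wa_sm_mul]
    unfold UNL.sm
    rw [ha, hb]
    ext
    · simp
    · simp
  refine ⟨e, ⟨d, z, by rw [mul_comm]; exact h⟩, key, ?_⟩
  intro k
  rw [Wa_sm_comm]
  exact key k

private theorem Wa_un_mul {b : UNL.Par} {N : ℕ} {d e : ℤ × ℤ} (hd : WaUn b N d)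
    (he : WaUn b N e) : WaUn b N (WaMu b d e) := by
  obtain ⟨d', z, h⟩ := hd
  obtain ⟨e', y, h'⟩ := he
  refine ⟨WaMu b d' e', z + y - ((N : ℤ) * (WaMu b z y).1, (N : ℤ) * (WaMu b z y).2), ?_⟩
  rw [← Wa_de_mul, ← Wa_de_mul]
  have h2 : UNL.de b (z + y - ((N : ℤ) * (WaMu b z y).1, (N : ℤ) * (WaMu b z y).2)) =
      UNL.de b z + UNL.de b y - N * UNL.de b (WaMu b z y) := by
    unfold UNL.de
    simp only [Prod.fst_add, Prod.snd_add, Prod.fst_sub, Prod.snd_sub]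
    push_cast
    ring
  rw [h2, ← Wa_de_mul]
  linear_combination (UNL.de b e * UNL.de b e') * h + (1 - N * UNL.de b z) * h'

private theorem Wa_un_one (b : UNL.Par) (N : ℕ) : WaUn b N (1, 0) := by
  refine ⟨(1, 0), (0, 0), ?_⟩
  unfold UNL.de
  simp

open Classical in
/-- the finite set of the maps `sm b d`, `d` a unit mod `N` -/
private def WaU (b : UNL.Par) (N : ℕ) [NeZero N] : Finset (UNL.G N → UNL.G N) :=
  Finset.univ.filter (fun u => ∃ d, WaUn b N d ∧ u = UNL.sm b d)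

private theorem Wa_mem {b : UNL.Par} {N : ℕ} [NeZero N] {u : UNL.G N → UNL.G N} :
    u ∈ WaU b N ↔ ∃ d, WaUn b N d ∧ u = UNL.sm b d := by
  unfold WaU
  simp

/-- reindexing by a unit -/
private theorem Wa_re {b : UNL.Par} {N : ℕ} [NeZero N] {d : ℤ × ℤ} (hd : WaUn b N d)
    (F : (UNL.G N → UNL.G N) → ℚ) :
    ∑ u ∈ WaU b N, F (fun k => u (UNL.sm b d k)) = ∑ u ∈ WaU b N, F u := by
  classical
  obtain ⟨e, he, h1, h2⟩ := Wa_inv hd
  refine Finset.sum_bij' (fun u _ => fun k => u (UNL.sm b d k))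
    (fun u _ => fun k => u (UNL.sm b e k)) ?_ ?_ ?_ ?_ ?_
  · intro u hu
    obtain ⟨f, hf, rfl⟩ := Wa_mem.1 hu
    refine Wa_mem.2 ⟨WaMu b f d, Wa_un_mul hf hd, ?_⟩
    funext k
    exact Wa_sm_mul b f d k
  · intro u hu
    obtain ⟨f, hf, rfl⟩ := Wa_mem.1 hu
    refine Wa_mem.2 ⟨WaMu b f e, Wa_un_mul hf he, ?_⟩
    funext k
    exact Wa_sm_mul b f e k
  · intro u _
    funext k
    simp only
    rw [h1]
  · intro u _
    funext k
    simp only
    rw [h2]
  · intro u _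
    rfl

private theorem Wa_Al {b : UNL.Par} {N : ℕ} [NeZero N] {W : UNL.G N → UNL.G N → ℤ}
    (hW : CW b N W) {d : ℤ × ℤ} (hd : WaUn b N d) (l k : UNL.G N) :
    Al W (UNL.sm b d l) (UNL.sm b d k) = Al W l k := by
  unfold Al
  rw [← Wa_sm_add, hW.inv d hd, hW.inv d hd]

private theorem Wa_Rl {b : UNL.Par} {N : ℕ} {q d : ℤ × ℤ} (hd : WaUn b N d)
    (c : UNL.G N → ℚ) (k : UNL.G N) :
    Rl b q c (UNL.sm b d k) = Rl b q (fun m => c (UNL.sm b d m)) k := by
  classical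
  obtain ⟨e, he, h1, h2⟩ := Wa_inv hd
  have h : (∃ m : UNL.G N, UNL.sm b q m = UNL.sm b d k) ↔ ∃ m : UNL.G N, UNL.sm b q m = k := by
    constructor
    · rintro ⟨m, hm⟩
      refine ⟨UNL.sm b e m, ?_⟩
      rw [Wa_sm_comm, hm, h2]
    · rintro ⟨m, hm⟩
      refine ⟨UNL.sm b d m, ?_⟩
      rw [Wa_sm_comm, hm]
  unfold Rl
  rw [Wa_sm_comm b q d k]
  by_cases hk : ∃ m : UNL.G N, UNL.sm b q m = k
  · rw [if_pos hk, if_pos (h.2 hk)]
  · rw [if_neg hk, if_neg (fun h' => hk (h.1 h'))]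

theorem CW_avg {b : UNL.Par} {N : ℕ} [NeZero N] {W : UNL.G N → UNL.G N → ℤ}
    (hW : CW b N W) : ∃ (J : ℕ) (q q' : Fin J → ℤ × ℤ) (c : Fin J → UNL.G N → UNL.G N → ℚ),
    (∀ j, UNL.de b (q j) * UNL.de b (q' j) = N) ∧ (∀ j l, c j l 0 = 0) ∧
    (∀ j, Inv b (fun k l => c j l k)) ∧
    ∀ l k, Al W l k + Al W l (-k) = ∑ j, (Rl b (q j) (c j l) k + Rl b (q j) (c j l) (-k)) := by
  classical
  obtain ⟨J, q, q', c, hq, h0, hr⟩ := hW.cl
  have hU : ((WaU b N).card : ℚ) ≠ 0 := by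
    have : (WaU b N).Nonempty := ⟨UNL.sm b (1, 0), Wa_mem.2 ⟨(1, 0), Wa_un_one b N, rfl⟩⟩
    exact_mod_cast this.card_pos.ne'
  have hRs : ∀ j l k, Rl b (q j)
      (fun k => ((WaU b N).card : ℚ)⁻¹ * ∑ u ∈ WaU b N, c j (u l) (u k)) k =
      ((WaU b N).card : ℚ)⁻¹ * ∑ u ∈ WaU b N, Rl b (q j) (fun k => c j (u l) (u k)) k := by
    intro j l k
    unfold Rl
    by_cases hk : ∃ m : UNL.G N, UNL.sm b (q j) m = k
    · simp only [if_pos hk]
      rw [Finset.sum_sub_distrib]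
      ring
    · simp only [if_neg hk]
      simp
  refine ⟨J, q, q', fun j l k => ((WaU b N).card : ℚ)⁻¹ * ∑ u ∈ WaU b N, c j (u l) (u k),
    hq, ?_, ?_, ?_⟩
  · intro j l
    have : ∑ u ∈ WaU b N, c j (u l) (u 0) = 0 := by
      apply Finset.sum_eq_zero
      intro u hu
      obtain ⟨d, -, rfl⟩ := Wa_mem.1 hu
      rw [Wa_sm_zero]
      exact h0 j _
    simp only
    rw [this, mul_zero]
  · intro j d hd k l
    simp only
    congr 1
    exact Wa_re (b := b) (N := N) hd (fun u => c j (u l) (u k))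
  · intro l k
    have h1 : ∀ u ∈ WaU b N, Al W l k + Al W l (-k) =
        ∑ j, (Rl b (q j) (fun k => c j (u l) (u k)) k +
          Rl b (q j) (fun k => c j (u l) (u k)) (-k)) := by
      intro u hu
      obtain ⟨d, hd, rfl⟩ := Wa_mem.1 hu
      rw [← Wa_Al hW hd l k, ← Wa_Al hW hd l (-k), Wa_sm_neg, hr]
      apply Finset.sum_congr rfl
      intro j _
      rw [Wa_Rl hd, ← Wa_sm_neg, Wa_Rl hd]
    have h2 : ((WaU b N).card : ℚ) * (Al W l k + Al W l (-k)) =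
        ∑ u ∈ WaU b N, ∑ j, (Rl b (q j) (fun k => c j (u l) (u k)) k +
          Rl b (q j) (fun k => c j (u l) (u k)) (-k)) := by
      rw [← Finset.sum_congr rfl h1, Finset.sum_const, nsmul_eq_mul]
    have h3 : Al W l k + Al W l (-k) = ((WaU b N).card : ℚ)⁻¹ *
        ∑ u ∈ WaU b N, ∑ j, (Rl b (q j) (fun k => c j (u l) (u k)) k +
          Rl b (q j) (fun k => c j (u l) (u k)) (-k)) := by
      rw [← h2]
      field_simp
    rw [h3, Finset.sum_comm, Finset.mul_sum]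
    apply Finset.sum_congr rfl
    intro j _
    rw [hRs, hRs, Finset.sum_add_distrib, mul_add]

end

end RNK
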