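import Pool.Agent.RNK.Wr
import Pool.Agent.RNK.Wa
import Pool.Agent.RNK.Tv
import Pool.Agent.UNL.WMat

/-!
# RNK.Wx: the lattice sum of a closed weight

`b = toU D.a`, `f = FT D W`, `q_j`, `c_j` from `CW_avg` (invariant). For `(x, y) ∈ O²` write
`χ_x(k) = ps (x tp k)`; `χ_x` is a character of `G N`, `χ_{x q}(k) = χ_x(q k)`, `χ_{x-y} (k) = χ_x(k) χ_y(-k)`.
1. `f` is even in `x` (`W (-k) l = W k l`), antisymmetric.
2. `f(x, y) - f(x - y, y) = Σ_{k,l} χ_x(k) χ_y(l) A_l(k)` (`l ↦ l + k` in the second sum).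
3. `A_l(k) = Σ_j Rl q_j (c_j l) k + o_l(k)`, `o_l` odd in `k` (define it as the difference; the even parts agree).
4. `Σ_k χ_x(k) Rl q c k = Σ_k χ_x(k) c(q k) - Σ_{k ∈ q G} χ_x(k) c(k)`. Put `c̃(k) = c(k)` on `q G`, `0` else, and
  `ĉ(x) = Σ_k χ_x(k) c̃(k)`. Then `Σ_k χ_x(k) c(q k) = |q|² 1_{q ∣ x} ĉ(x/q)`: if `x = q x'` then
  `χ_x(k) = χ_{x'}(q k)` and every fibre of `q` over `q G` has `|q|²` elements; if `q ∤ x` then `χ_x` is not
  trivial on the kernel of `q` (`ps_perfect`-type argument: the kernel is `q' G`, `q q' = N`; if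
  `χ_x(q' k) = 1` for all `k` then `x q' ∈ N O`, so `x ∈ q O`), so the sum over each fibre is `0`.
5. So with `ψ_j = FT D (fun k l => if k ∈ q_j G then c_j l k else 0)` and `θ = FT D (fun k l => o_l(k))`:
  `f(x, y) - f(x - y, y) = Σ_j (T_{q_j} ψ_j - ψ_j)(x, y) + θ(x, y)` on `O²`; outside `O²` all terms are `0`
  (`x / q ∈ O → x ∈ O`). `Inv` of these weights: `k ∈ q G ↔ d k ∈ q G`; `o` by difference.
6. Replace `x` by `-x`: `f(x, y) - f(x + y, y) = Σ_j (T_{q_j} ψ_j' - ψ_j') + θ'`, `ψ_j'(x, y) = ψ_j(-x, y)`,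
  `θ'(x, y) = θ(-x, y)` (the same weights with `k ↦ -k`).
7. `Σ_x ψ_j(x, y) = 0` over `x` mod `N`: orthogonality of characters (`ps_perfect` in the other variable or
  direct: `Σ_x ps(x tp k) = 0` for `k ≠ 0`), it is `N²` times the value at `k = 0`, `c_j l 0 = 0`.
Then `tri_val` with a common `V` (`Fn_up`).
-/

namespace RNK

noncomputable section

variable {D : OD}

/-! ### multiplication by an element dividing `N` -/

private theorem wx_lin (b : UNL.Par) {x y : ℤ} (h : (x : ℂ) + y * UNL.alp b = 0) :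
    x = 0 ∧ y = 0 := by
  have hy : y = 0 := by
    have h1 := congrArg Complex.im h
    have h6 : ((y : ℂ)).im = 0 := Complex.intCast_im y
    have h7 : ((y : ℂ)).re = y := Complex.intCast_re y
    simp only [Complex.add_im, Complex.mul_im, h6, h7, Complex.zero_im, zero_mul,
      add_zero, Complex.intCast_im, zero_add] at h1
    have h8 : (y : ℝ) = 0 := (mul_eq_zero.1 h1).resolve_right (UNL.alp_im_pos b).ne'
    exact_mod_cast h8
  refine ⟨?_, hy⟩
  rw [hy, Int.cast_zero, zero_mul, add_zero] at h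
  exact_mod_cast h

private theorem wx_eqs (b : UNL.Par) {N : ℕ} {d d' : ℤ × ℤ}
    (h : UNL.de b d * UNL.de b d' = N) :
    d.1 * d'.1 - b.A * b.C * (d.2 * d'.2) = N ∧
      d.1 * d'.2 + d.2 * d'.1 + b.B * (d.2 * d'.2) = 0 := by
  have h1 := UNL.alp_sq b
  have h2 : ((d.1 * d'.1 - b.A * b.C * (d.2 * d'.2) - N : ℤ) : ℂ) +
      ((d.1 * d'.2 + d.2 * d'.1 + b.B * (d.2 * d'.2) : ℤ) : ℂ) * UNL.alp b = 0 := by
    simp only [UNL.de] at h
    push_cast at h1 ⊢
    linear_combination h - ((d.2 : ℂ) * d'.2) * h1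
  obtain ⟨h3, h4⟩ := wx_lin b h2
  exact ⟨by linarith, h4⟩

/-- the norm form -/
private def wxNd (a : UNL.Par) (d : ℤ × ℤ) : ℤ :=
  d.1 ^ 2 + a.B * d.1 * d.2 + a.A * a.C * d.2 ^ 2

/-- the matrix of the multiplication -/
private def wxM (b : UNL.Par) (d : ℤ × ℤ) : UNL.M2 :=
  ⟨d.1, -(b.C * d.2), b.A * d.2, d.1 + b.B * d.2⟩

private theorem wxM_az (b : UNL.Par) (d : ℤ × ℤ) {N : ℕ} (k : UNL.G N) :
    (wxM b d).az k = UNL.sm b d k := by
  refine Prod.ext ?_ ?_
  · simp only [UNL.M2.az, wxM, UNL.sm]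
    push_cast
    ring
  · simp only [UNL.M2.az, wxM, UNL.sm]
    push_cast
    ring

private theorem wxM_det (b : UNL.Par) (d : ℤ × ℤ) : (wxM b d).det = wxNd b d := by
  simp only [UNL.M2.det, wxM, wxNd]
  ring

private theorem wxM_comp (b : UNL.Par) {N : ℕ} {d d' : ℤ × ℤ}
    (h : UNL.de b d * UNL.de b d' = N) (j : ℤ × ℤ) :
    (wxM b d).ai ((wxM b d').ai j) = (N : ℤ) • j := by
  obtain ⟨h1, h2⟩ := wx_eqs b h
  refine Prod.ext ?_ ?_
  · simp only [UNL.M2.ai, wxM, Prod.smul_fst, smul_eq_mul]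
    linear_combination j.1 * h1 - b.C * j.2 * h2
  · simp only [UNL.M2.ai, wxM, Prod.smul_snd, smul_eq_mul]
    linear_combination j.2 * h1 + (b.A * j.1 + b.B * j.2) * h2

private theorem wx_Nd_norm (a : UNI.Par) (d : ℤ × ℤ) :
    ((wxNd (toU a) d : ℤ) : ℂ) = ((‖UNI.xx a d‖ ^ 2 : ℝ) : ℂ) := by
  have h1 : UNI.xx a d * (starRingEnd ℂ) (UNI.xx a d) = (wxNd (toU a) d : ℤ) := by
    simp only [UNI.xx, map_add, map_mul, map_intCast, cj_om, wxNd, toU]
    push_cast
    linear_combination (-(d.2 : ℂ) ^ 2) * om_sq a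
  rw [← h1, Complex.mul_conj, Complex.normSq_eq_norm_sq]

private theorem wx_card_ker {N : ℕ} [NeZero N] (m m' : UNL.M2) (h : m.det ≠ 0)
    (hm : ∀ j : ℤ × ℤ, m.ai (m'.ai j) = (N : ℤ) • j) :
    Nat.card (m.azh N).ker = m.det.natAbs := by
  have h1 : Nat.card (m.azh N).ker * Nat.card (m.azh N).range = Nat.card (ZMod N × ZMod N) := by
    rw [← AddSubgroup.index_ker]
    exact AddSubgroup.card_mul_index _
  have h2 : Nat.card (m.azh N).range * (m.azh N).range.index = Nat.card (ZMod N × ZMod N) :=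
    AddSubgroup.card_mul_index _
  have h3 : 0 < Nat.card (m.azh N).range := Nat.card_pos
  have h4 : Nat.card (m.azh N).ker = (m.azh N).range.index := by
    refine Nat.eq_of_mul_eq_mul_left h3 ?_
    rw [h2, ← h1, mul_comm]
  rw [h4, ← m.index_range h, ← AddSubgroup.index_comap_of_surjective _ (UNL.M2.rd_surj N)]
  congr 1
  ext v
  constructor
  · rintro ⟨k, hk⟩
    obtain ⟨k', rfl⟩ := UNL.M2.rd_surj N k
    rw [UNL.M2.azh_apply, UNL.M2.az_rd] at hk
    have h5 : UNL.M2.rd N (v - m.ai k') = 0 := by rw [map_sub, hk, sub_self]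
    obtain ⟨j, hj⟩ := UNL.M2.rd_eq_zero.1 h5
    refine ⟨k' + m'.ai j, ?_⟩
    have h6 : m.ai (k' + m'.ai j) = m.ai k' + m.ai (m'.ai j) :=
      m.ail.map_add _ _
    rw [UNL.M2.ail_apply, h6, hm, ← hj]
    abel
  · rintro ⟨k, rfl⟩
    exact ⟨UNL.M2.rd N k, by rw [UNL.M2.azh_apply, UNL.M2.az_rd]; rfl⟩

private theorem wx_ne (a : UNI.Par) {N : ℕ} [NeZero N] {q q' : ℤ × ℤ}
    (hq : UNL.de (toU a) q * UNL.de (toU a) q' = N) : UNI.xx a q ≠ 0 := by
  intro h
  rw [de_toU, h, zero_mul] at hq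
  have h7 : (N : ℂ) ≠ 0 := Nat.cast_ne_zero.2 (NeZero.ne N)
  exact h7 hq.symm

private theorem wx_Nd_pos (a : UNI.Par) {N : ℕ} [NeZero N] {q q' : ℤ × ℤ}
    (hq : UNL.de (toU a) q * UNL.de (toU a) q' = N) : 0 < wxNd (toU a) q := by
  have h1 := wx_Nd_norm a q
  have h2 : 0 < ‖UNI.xx a q‖ ^ 2 := by
    have := norm_pos_iff.2 (wx_ne a hq)
    positivity
  have h3 : ((wxNd (toU a) q : ℤ) : ℝ) = ‖UNI.xx a q‖ ^ 2 := by exact_mod_cast h1
  rw [← h3] at h2
  exact_mod_cast h2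

private theorem wx_fib (a : UNI.Par) {N : ℕ} [NeZero N] {q q' : ℤ × ℤ}
    (hq : UNL.de (toU a) q * UNL.de (toU a) q' = N) {m : UNL.G N}
    (hm : ∃ k, UNL.sm (toU a) q k = m) :
    (((Finset.univ.filter (fun k : UNL.G N => UNL.sm (toU a) q k = m)).card : ℕ) : ℂ) =
      ((‖UNI.xx a q‖ ^ 2 : ℝ) : ℂ) := by
  obtain ⟨k0, hk0⟩ := hm
  have h3 : (Finset.univ.filter (fun k : UNL.G N => UNL.sm (toU a) q k = m)).card =
      Nat.card ((wxM (toU a) q).azh N).ker := by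
    rw [Nat.card_eq_fintype_card, ← Fintype.card_subtype]
    refine Fintype.card_congr ⟨fun k => ⟨k.1 - k0, ?_⟩, fun k => ⟨k.1 + k0, ?_⟩, ?_, ?_⟩
    · rw [AddMonoidHom.mem_ker, map_sub, UNL.M2.azh_apply, UNL.M2.azh_apply, wxM_az, wxM_az, k.2,
        hk0, sub_self]
    · have := (AddMonoidHom.mem_ker.1 k.2)
      rw [← wxM_az, ← UNL.M2.azh_apply, map_add, this, UNL.M2.azh_apply, wxM_az, hk0, zero_add]
    · intro k; simp
    · intro k; simp
  have hp := wx_Nd_pos a hq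
  rw [h3, wx_card_ker (wxM (toU a) q) (wxM (toU a) q') (by rw [wxM_det]; exact hp.ne')
    (wxM_comp (toU a) hq), wxM_det, ← wx_Nd_norm]
  have h4 : (((wxNd (toU a) q).natAbs : ℕ) : ℤ) = wxNd (toU a) q := Int.natAbs_of_nonneg hp.le
  have h5 := congrArg (fun x : ℤ => (x : ℂ)) h4
  simp only [Int.cast_natCast] at h5
  exact h5

/-! ### algebra of `sm` -/

private theorem wx_sm_add (b : UNL.Par) {N : ℕ} (d : ℤ × ℤ) (k l : UNL.G N) :
    UNL.sm b d (k + l) = UNL.sm b d k + UNL.sm b d l := by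
  rw [← wxM_az, ← wxM_az, ← wxM_az]
  exact ((wxM b d).azh N).map_add k l

private theorem wx_sm_neg (b : UNL.Par) {N : ℕ} (d : ℤ × ℤ) (k : UNL.G N) :
    UNL.sm b d (-k) = -UNL.sm b d k := by
  rw [← wxM_az, ← wxM_az]
  exact ((wxM b d).azh N).map_neg k

private theorem wx_sm_zero (b : UNL.Par) {N : ℕ} (d : ℤ × ℤ) :
    UNL.sm b d (0 : UNL.G N) = 0 := by
  rw [← wxM_az]
  exact ((wxM b d).azh N).map_zero

private theorem wx_sm_comm (b : UNL.Par) {N : ℕ} (d e : ℤ × ℤ) (k : UNL.G N) :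
    UNL.sm b d (UNL.sm b e k) = UNL.sm b e (UNL.sm b d k) := by
  unfold UNL.sm
  refine Prod.ext ?_ ?_
  · push_cast
    ring
  · push_cast
    ring

private theorem wx_ker (b : UNL.Par) {N : ℕ} {q q' : ℤ × ℤ}
    (h : UNL.de b q * UNL.de b q' = N) (k : UNL.G N) : UNL.sm b q (UNL.sm b q' k) = 0 := by
  obtain ⟨k', rfl⟩ := UNL.M2.rd_surj N k
  rw [← wxM_az, ← wxM_az, UNL.M2.az_rd, UNL.M2.az_rd, wxM_comp b h]
  exact UNL.M2.rd_eq_zero.2 ⟨k', rfl⟩

/-- the inverse of a unit -/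
private theorem wx_inv {b : UNL.Par} {N : ℕ} {d : ℤ × ℤ}
    (hd : ∃ e z : ℤ × ℤ, UNL.de b d * UNL.de b e + N * UNL.de b z = 1) :
    ∃ e, ∀ k : UNL.G N, UNL.sm b d (UNL.sm b e k) = k := by
  obtain ⟨e, z, h⟩ := hd
  refine ⟨e, fun k => ?_⟩
  have h1 := UNL.alp_sq b
  have h2 : ((d.1 * e.1 - b.A * b.C * (d.2 * e.2) + N * z.1 - 1 : ℤ) : ℂ) +
      ((d.1 * e.2 + d.2 * e.1 + b.B * (d.2 * e.2) + N * z.2 : ℤ) : ℂ) * UNL.alp b = 0 := by
    simp only [UNL.de] at h
    push_cast at h1 ⊢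
    linear_combination h - ((d.2 : ℂ) * e.2) * h1
  obtain ⟨h3, h4⟩ := wx_lin b h2
  have h5 := congrArg (Int.cast : ℤ → ZMod N) h3
  have h6 := congrArg (Int.cast : ℤ → ZMod N) h4
  push_cast at h5 h6
  rw [ZMod.natCast_self, zero_mul, add_zero] at h5 h6
  refine Prod.ext ?_ ?_
  · simp only [UNL.sm]
    linear_combination k.1 * h5 - (b.C : ZMod N) * k.2 * h6
  · simp only [UNL.sm]
    linear_combination k.2 * h5 + ((b.A : ZMod N) * k.1 + b.B * k.2) * h6

private theorem wx_unit_mem {b : UNL.Par} {N : ℕ} {d : ℤ × ℤ} (q : ℤ × ℤ)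
    (hd : ∃ e z : ℤ × ℤ, UNL.de b d * UNL.de b e + N * UNL.de b z = 1) (k : UNL.G N) :
    (∃ m : UNL.G N, UNL.sm b q m = UNL.sm b d k) ↔ ∃ m : UNL.G N, UNL.sm b q m = k := by
  obtain ⟨e, he⟩ := wx_inv (N := N) hd
  constructor
  · rintro ⟨m, hm⟩
    refine ⟨UNL.sm b e m, ?_⟩
    rw [wx_sm_comm, hm, wx_sm_comm, he]
  · rintro ⟨m, hm⟩
    refine ⟨UNL.sm b d m, ?_⟩
    rw [wx_sm_comm, hm]

/-! ### the characters -/

private def wxc (D : OD) {N : ℕ} (x : ℂ) (k : UNL.G N) : ℂ :=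
  ps (toU D.a) (x * UNL.tp (toU D.a) k)

private theorem wx_ps_sub {x y : ℂ} (h : x - y ∈ D.O) : ps (toU D.a) x = ps (toU D.a) y := by
  have e : x = y + (x - y) := by ring
  rw [e, ps_add, ps_O h, mul_one]

private theorem wxc_ne {N : ℕ} (x : ℂ) (k : UNL.G N) : wxc D x k ≠ 0 := Complex.exp_ne_zero _

private theorem wxc_add {N : ℕ} [NeZero N] {x : ℂ} (hx : x ∈ D.O) (k l : UNL.G N) :
    wxc D x (k + l) = wxc D x k * wxc D x l := by
  unfold wxc
  rw [← ps_add]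
  symm
  apply wx_ps_sub
  have e : x * UNL.tp (toU D.a) k + x * UNL.tp (toU D.a) l - x * UNL.tp (toU D.a) (k + l) =
      x * (UNL.tp (toU D.a) k + UNL.tp (toU D.a) l - UNL.tp (toU D.a) (k + l)) := by ring
  rw [e]
  exact D.O.mul_mem hx (tp_add k l)

private theorem wxc_addx {N : ℕ} (x y : ℂ) (k : UNL.G N) :
    wxc D (x + y) k = wxc D x k * wxc D y k := by
  unfold wxc
  rw [← ps_add, add_mul]

private theorem wxc_zero {N : ℕ} [NeZero N] {x : ℂ} (hx : x ∈ D.O) :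
    wxc D x (0 : UNL.G N) = 1 := by
  have h := wxc_add hx (0 : UNL.G N) 0
  rw [add_zero] at h
  have h1 := wxc_ne (D := D) x (0 : UNL.G N)
  field_simp at h
  exact h.symm

private theorem wxc_zerox {N : ℕ} (k : UNL.G N) : wxc D 0 k = 1 := by
  unfold wxc
  rw [zero_mul]
  exact ps_O D.O.zero_mem

private theorem wxc_neg {N : ℕ} [NeZero N] {x : ℂ} (hx : x ∈ D.O) (k : UNL.G N) :
    wxc D (-x) k = wxc D x (-k) := by
  have h1 := wxc_add hx k (-k)
  rw [add_neg_cancel, wxc_zero hx] at h1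
  have h2 := wxc_addx (D := D) x (-x) k
  rw [add_neg_cancel, wxc_zerox] at h2
  exact mul_left_cancel₀ (wxc_ne (D := D) x k) (h2.symm.trans h1)

private theorem wxc_sm {N : ℕ} [NeZero N] {x : ℂ} (hx : x ∈ D.O) (d : ℤ × ℤ) (k : UNL.G N) :
    wxc D (x * UNI.xx D.a d) k = wxc D x (UNL.sm (toU D.a) d k) := by
  unfold wxc
  apply wx_ps_sub
  have h := tp_sm (D := D) d k
  rw [de_toU] at h
  have e : x * UNI.xx D.a d * UNL.tp (toU D.a) k - x * UNL.tp (toU D.a) (UNL.sm (toU D.a) d k) =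
      x * (UNI.xx D.a d * UNL.tp (toU D.a) k - UNL.tp (toU D.a) (UNL.sm (toU D.a) d k)) := by
    ring
  rw [e]
  exact D.O.mul_mem hx h

/-- the sum of the character over a fibre -/
private theorem wx_chsum {N : ℕ} [NeZero N] {q q' : ℤ × ℤ}
    (hq : UNL.de (toU D.a) q * UNL.de (toU D.a) q' = N) {x : ℂ} (hx : x ∈ D.O) {m : UNL.G N}
    (hm : ∃ k, UNL.sm (toU D.a) q k = m) :
    ∑ k ∈ Finset.univ.filter (fun k : UNL.G N => UNL.sm (toU D.a) q k = m), wxc D x k =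
      ((‖UNI.xx D.a q‖ ^ 2 : ℝ) : ℂ) *
        @ite _ (x / UNI.xx D.a q ∈ D.O) (Classical.propDecidable _)
          (wxc D (x / UNI.xx D.a q) m) 0 := by
  classical
  have hq0 := wx_ne D.a hq
  by_cases hd : x / UNI.xx D.a q ∈ D.O
  · rw [if_pos hd, ← wx_fib D.a hq hm, ← nsmul_eq_mul, ← Finset.sum_const]
    refine Finset.sum_congr rfl fun k hk => ?_
    rw [← (Finset.mem_filter.1 hk).2, ← wxc_sm hd, div_mul_cancel₀ _ hq0]
  · rw [if_neg hd, mul_zero]
    have h1 : ∃ k0 : UNL.G N, UNL.sm (toU D.a) q k0 = 0 ∧ wxc D x k0 ≠ 1 := by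
      by_contra hcon
      push Not at hcon
      apply hd
      have hq' : UNI.xx D.a q' ∈ D.O := ⟨q', rfl⟩
      obtain ⟨y, hy, e⟩ := ps_perfect (D := D) (N := N) (x := x * UNI.xx D.a q')
        (D.O.mul_mem hx hq') (fun k => by
          have h2 := wxc_sm (D := D) hx q' k
          have h3 := hcon _ (wx_ker (toU D.a) hq k)
          rw [← h2] at h3
          exact h3)
      have hq2 : UNL.de (toU D.a) q' * UNL.de (toU D.a) q = N := by rw [mul_comm]; exact hq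
      have hq0' := wx_ne D.a hq2
      rw [de_toU, de_toU] at hq
      have e2 : x = UNI.xx D.a q * y := by
        apply mul_right_cancel₀ hq0'
        rw [e, ← hq]
        ring
      rw [e2, mul_div_cancel_left₀ _ hq0]
      exact hy
    obtain ⟨k0, hk0, hne⟩ := h1
    set S := ∑ k ∈ Finset.univ.filter (fun k : UNL.G N => UNL.sm (toU D.a) q k = m), wxc D x k
      with hS
    have h2 : S = S * wxc D x k0 := by
      rw [hS, Finset.sum_mul]
      refine Finset.sum_bij' (fun k _ => k - k0) (fun k _ => k + k0) ?_ ?_ ?_ ?_ ?_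
      · intro k hk
        rw [Finset.mem_filter] at hk ⊢
        refine ⟨Finset.mem_univ _, ?_⟩
        rw [sub_eq_add_neg, wx_sm_add, wx_sm_neg, hk0, neg_zero, add_zero]
        exact hk.2
      · intro k hk
        rw [Finset.mem_filter] at hk ⊢
        refine ⟨Finset.mem_univ _, ?_⟩
        rw [wx_sm_add, hk0, add_zero]
        exact hk.2
      · intro k _
        simp
      · intro k _
        simp
      · intro k _
        rw [← wxc_add hx, sub_add_cancel]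
    have h3 : S * (wxc D x k0 - 1) = 0 := by
      rw [mul_sub, mul_one, ← h2, sub_self]
    exact (mul_eq_zero.1 h3).resolve_right (sub_ne_zero.2 hne)

/-! ### Fourier transforms -/

private theorem wx_FT {N : ℕ} [NeZero N] (c : UNL.G N → UNL.G N → ℚ) {w : Vec} (hw : O2 D w) :
    FT D c w = ∑ k : UNL.G N, ∑ l : UNL.G N,
      (c k l : ℂ) * (wxc D w.1 k * wxc D w.2 l) := by
  unfold FT
  rw [if_pos hw]
  rfl

private theorem wx_FT0 {N : ℕ} [NeZero N] (c : UNL.G N → UNL.G N → ℚ) {w : Vec} (hw : ¬ O2 D w) :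
    FT D c w = 0 := by
  unfold FT
  rw [if_neg hw]

private theorem wx_FT_sub {N : ℕ} [NeZero N] (c c' : UNL.G N → UNL.G N → ℚ) (w : Vec) :
    FT D (fun k l => c k l - c' k l) w = FT D c w - FT D c' w := by
  by_cases hw : O2 D w
  · rw [wx_FT _ hw, wx_FT _ hw, wx_FT _ hw, ← Finset.sum_sub_distrib]
    refine Finset.sum_congr rfl fun k _ => ?_
    rw [← Finset.sum_sub_distrib]
    refine Finset.sum_congr rfl fun l _ => ?_
    push_cast
    ring
  · rw [wx_FT0 _ hw, wx_FT0 _ hw, wx_FT0 _ hw, sub_zero]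

private theorem wx_FT_sum {N : ℕ} [NeZero N] {ι : Type*} (s : Finset ι)
    (c : ι → UNL.G N → UNL.G N → ℚ) (w : Vec) :
    FT D (fun k l => ∑ i ∈ s, c i k l) w = ∑ i ∈ s, FT D (c i) w := by
  by_cases hw : O2 D w
  · have e : ∑ i ∈ s, FT D (c i) w = ∑ i ∈ s, ∑ k : UNL.G N, ∑ l : UNL.G N,
        (c i k l : ℂ) * (wxc D w.1 k * wxc D w.2 l) :=
      Finset.sum_congr rfl fun i _ => wx_FT (c i) hw
    rw [wx_FT _ hw, e]
    symm
    rw [Finset.sum_comm]
    refine Finset.sum_congr rfl fun k _ => ?_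
    rw [Finset.sum_comm]
    refine Finset.sum_congr rfl fun l _ => ?_
    push_cast
    rw [Finset.sum_mul]
  · have e : ∑ i ∈ s, FT D (c i) w = ∑ i ∈ s, (0 : ℂ) :=
      Finset.sum_congr rfl fun i _ => wx_FT0 (c i) hw
    rw [wx_FT0 _ hw, e, Finset.sum_const_zero]

private theorem wx_FT_neg {N : ℕ} [NeZero N] (c : UNL.G N → UNL.G N → ℚ) (x y : ℂ) :
    FT D c (-x, y) = FT D (fun k l => c (-k) l) (x, y) := by
  by_cases hw : O2 D (x, y)
  · have hw' : O2 D (-x, y) := ⟨D.O.neg_mem hw.1, hw.2⟩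
    rw [wx_FT _ hw, wx_FT _ hw']
    simp only
    rw [← Equiv.sum_comp (Equiv.neg (UNL.G N))]
    refine Finset.sum_congr rfl fun k _ => Finset.sum_congr rfl fun l _ => ?_
    simp only [Equiv.neg_apply]
    rw [wxc_neg hw.1, neg_neg]
  · have hw' : ¬ O2 D (-x, y) := fun h => hw ⟨by simpa using D.O.neg_mem h.1, h.2⟩
    rw [wx_FT0 _ hw, wx_FT0 _ hw']

private theorem wx_FT_swap {N : ℕ} [NeZero N] (c : UNL.G N → UNL.G N → ℚ) (x y : ℂ) :
    FT D c (y, x) = FT D (fun k l => c l k) (x, y) := by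
  by_cases hw : O2 D (x, y)
  · have hw' : O2 D (y, x) := ⟨hw.2, hw.1⟩
    rw [wx_FT _ hw, wx_FT _ hw', Finset.sum_comm]
    refine Finset.sum_congr rfl fun k _ => Finset.sum_congr rfl fun l _ => ?_
    ring
  · have hw' : ¬ O2 D (y, x) := fun h => hw ⟨h.2, h.1⟩
    rw [wx_FT0 _ hw, wx_FT0 _ hw']

private theorem wx_FT_shift {N : ℕ} [NeZero N] (c : UNL.G N → UNL.G N → ℚ) (x y : ℂ) :
    FT D c (x - y, y) = FT D (fun k l => c k (k + l)) (x, y) := by
  by_cases hw : O2 D (x, y)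
  · have hw' : O2 D (x - y, y) := ⟨D.O.sub_mem hw.1 hw.2, hw.2⟩
    rw [wx_FT _ hw, wx_FT _ hw']
    refine Finset.sum_congr rfl fun k _ => ?_
    simp only
    rw [← Equiv.sum_comp (Equiv.addLeft k)]
    refine Finset.sum_congr rfl fun l _ => ?_
    simp only [Equiv.coe_addLeft]
    have h1 : wxc D (x - y) k * wxc D y k = wxc D x k := by
      rw [← wxc_addx, sub_add_cancel]
    rw [wxc_add hw.2, ← h1]
    ring
  · have hw' : ¬ O2 D (x - y, y) := fun h =>
      hw ⟨by have := D.O.add_mem h.1 h.2; simpa using this, h.2⟩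
    rw [wx_FT0 _ hw, wx_FT0 _ hw']

open Classical in
/-- the part on the multiples of `q` -/
private def wxcut (b : UNL.Par) {N : ℕ} (q : ℤ × ℤ) (c : UNL.G N → UNL.G N → ℚ)
    (k l : UNL.G N) : ℚ :=
  if ∃ m : UNL.G N, UNL.sm b q m = k then c l k else 0

open Classical in
private theorem wx_sum (b : UNL.Par) {N : ℕ} [NeZero N]
    (q : ℤ × ℤ) (c : UNL.G N → ℚ) (g : UNL.G N → ℂ) :
    ∑ k : UNL.G N, ((Rl b q c k : ℚ) : ℂ) * g k =
      ∑ m ∈ Finset.univ.filter (fun m : UNL.G N => ∃ k, UNL.sm b q k = m),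
        (c m : ℂ) *
          ((∑ k ∈ Finset.univ.filter (fun k : UNL.G N => UNL.sm b q k = m), g k) - g m) := by
  have h1 : ∑ k : UNL.G N, (c (UNL.sm b q k) : ℂ) * g k =
      ∑ m ∈ Finset.univ.filter (fun m : UNL.G N => ∃ k, UNL.sm b q k = m),
        (c m : ℂ) * ∑ k ∈ Finset.univ.filter (fun k : UNL.G N => UNL.sm b q k = m), g k := by
    rw [← Finset.sum_fiberwise Finset.univ (fun k : UNL.G N => UNL.sm b q k)
      (fun k => (c (UNL.sm b q k) : ℂ) * g k)]
    rw [Finset.sum_filter]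
    refine Finset.sum_congr rfl fun m _ => ?_
    split_ifs with hm
    · rw [Finset.mul_sum]
      refine Finset.sum_congr rfl fun k hk => ?_
      rw [(Finset.mem_filter.1 hk).2]
    · refine Finset.sum_eq_zero fun k hk => ?_
      exact absurd ⟨k, (Finset.mem_filter.1 hk).2⟩ hm
  have h2 : ∑ k : UNL.G N, (((if ∃ m : UNL.G N, UNL.sm b q m = k then c k else 0 : ℚ)) : ℂ) * g k =
      ∑ m ∈ Finset.univ.filter (fun m : UNL.G N => ∃ k, UNL.sm b q k = m), (c m : ℂ) * g m := by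
    rw [Finset.sum_filter]
    refine Finset.sum_congr rfl fun m _ => ?_
    split_ifs with hm
    · rfl
    · rw [Rat.cast_zero, zero_mul]
  simp only [Rl, Rat.cast_sub, sub_mul, Finset.sum_sub_distrib, mul_sub]
  rw [h1, ← h2]
  congr!

private theorem wx_rel {N : ℕ} [NeZero N] {q q' : ℤ × ℤ}
    (hq : UNL.de (toU D.a) q * UNL.de (toU D.a) q' = N) (c : UNL.G N → UNL.G N → ℚ) (w : Vec) :
    FT D (fun k l => Rl (toU D.a) q (c l) k) w =
      Tq (UNI.xx D.a q) (FT D (wxcut (toU D.a) q c)) w - FT D (wxcut (toU D.a) q c) w := by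
  classical
  have hq0 := wx_ne D.a hq
  have hqO : UNI.xx D.a q ∈ D.O := ⟨q, rfl⟩
  by_cases hw : O2 D w
  · have e1 : FT D (fun k l => Rl (toU D.a) q (c l) k) w =
        ∑ l : UNL.G N, wxc D w.2 l *
          ∑ m ∈ Finset.univ.filter (fun m : UNL.G N => ∃ k, UNL.sm (toU D.a) q k = m),
            (c l m : ℂ) * (((‖UNI.xx D.a q‖ ^ 2 : ℝ) : ℂ) *
              (if w.1 / UNI.xx D.a q ∈ D.O then wxc D (w.1 / UNI.xx D.a q) m else 0) -
                wxc D w.1 m) := by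
      rw [wx_FT _ hw, Finset.sum_comm]
      refine Finset.sum_congr rfl fun l _ => ?_
      have h1 := wx_sum (toU D.a) q (c l) (wxc D w.1)
      have h2 : ∑ k : UNL.G N, ((Rl (toU D.a) q (c l) k : ℚ) : ℂ) *
          (wxc D w.1 k * wxc D w.2 l) =
          wxc D w.2 l * ∑ k : UNL.G N, ((Rl (toU D.a) q (c l) k : ℚ) : ℂ) * wxc D w.1 k := by
        rw [Finset.mul_sum]
        refine Finset.sum_congr rfl fun k _ => ?_
        ring
      rw [h2, h1]
      congr 1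
      refine Finset.sum_congr ?_ fun m hm => ?_
      · congr!
      · rw [← wx_chsum hq hw.1 (Finset.mem_filter.1 hm).2]
    have e2 : FT D (wxcut (toU D.a) q c) w = ∑ l : UNL.G N, wxc D w.2 l *
          ∑ m ∈ Finset.univ.filter (fun m : UNL.G N => ∃ k, UNL.sm (toU D.a) q k = m),
            (c l m : ℂ) * wxc D w.1 m := by
      rw [wx_FT _ hw, Finset.sum_comm]
      refine Finset.sum_congr rfl fun l _ => ?_
      rw [Finset.sum_filter, Finset.mul_sum]
      refine Finset.sum_congr rfl fun m _ => ?_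
      unfold wxcut
      split_ifs with hm
      · ring
      · rw [Rat.cast_zero]
        ring
    have e3 : Tq (UNI.xx D.a q) (FT D (wxcut (toU D.a) q c)) w = ∑ l : UNL.G N, wxc D w.2 l *
          ∑ m ∈ Finset.univ.filter (fun m : UNL.G N => ∃ k, UNL.sm (toU D.a) q k = m),
            (c l m : ℂ) * (((‖UNI.xx D.a q‖ ^ 2 : ℝ) : ℂ) *
              (if w.1 / UNI.xx D.a q ∈ D.O then wxc D (w.1 / UNI.xx D.a q) m else 0)) := by
      unfold Tq
      by_cases hd : w.1 / UNI.xx D.a q ∈ D.O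
      · have hw' : O2 D (w.1 / UNI.xx D.a q, w.2) := ⟨hd, hw.2⟩
        rw [wx_FT _ hw', Finset.sum_comm, Finset.mul_sum]
        refine Finset.sum_congr rfl fun l _ => ?_
        rw [Finset.sum_filter, Finset.mul_sum, Finset.mul_sum]
        refine Finset.sum_congr rfl fun m _ => ?_
        unfold wxcut
        rw [if_pos hd]
        split_ifs with hm
        · ring
        · rw [Rat.cast_zero]
          ring
      · have hw' : ¬ O2 D (w.1 / UNI.xx D.a q, w.2) := fun h => hd h.1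
        rw [wx_FT0 _ hw', mul_zero]
        symm
        refine Finset.sum_eq_zero fun l _ => ?_
        rw [Finset.sum_eq_zero fun m _ => ?_, mul_zero]
        rw [if_neg hd, mul_zero, mul_zero]
    rw [e1, e2, e3, ← Finset.sum_sub_distrib]
    refine Finset.sum_congr rfl fun l _ => ?_
    rw [← mul_sub, ← Finset.sum_sub_distrib]
    congr 1
    refine Finset.sum_congr rfl fun m _ => ?_
    ring
  · have hw' : ¬ O2 D (w.1 / UNI.xx D.a q, w.2) := by
      intro h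
      apply hw
      refine ⟨?_, h.2⟩
      have h1 := D.O.mul_mem h.1 hqO
      simp only at h1
      rwa [div_mul_cancel₀ _ hq0] at h1
    unfold Tq
    rw [wx_FT0 _ hw, wx_FT0 _ hw, wx_FT0 _ hw', mul_zero, sub_zero]

/-! ### the average in `x` -/

private theorem wx_tp {N : ℕ} [NeZero N] (k : UNL.G N) :
    (N : ℂ) * UNL.tp (toU D.a) k = UNI.xx D.a ((k.1.val : ℤ), (k.2.val : ℤ)) := by
  have hN : (N : ℂ) ≠ 0 := Nat.cast_ne_zero.2 (NeZero.ne N)
  simp only [UNL.tp, UNI.xx, tau_toU]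
  push_cast
  field_simp

private theorem wx_tp_zero {N : ℕ} [NeZero N] {k : UNL.G N}
    (h : UNL.tp (toU D.a) k ∈ D.O) : k = 0 := by
  obtain ⟨m, hm⟩ := h
  have h1 := wx_tp (D := D) k
  rw [hm, ← de_toU, ← de_toU] at h1
  have h2 : ((N * m.1 - (k.1.val : ℤ) : ℤ) : ℂ) + ((N * m.2 - (k.2.val : ℤ) : ℤ) : ℂ) *
      UNL.alp (toU D.a) = 0 := by
    simp only [UNL.de] at h1
    push_cast at h1 ⊢
    linear_combination h1
  obtain ⟨h3, h4⟩ := wx_lin _ h2
  have h5 := congrArg (Int.cast : ℤ → ZMod N) h3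
  have h6 := congrArg (Int.cast : ℤ → ZMod N) h4
  push_cast at h5 h6
  rw [ZMod.natCast_self, zero_mul, zero_sub, ZMod.natCast_zmod_val, neg_eq_zero] at h5 h6
  exact Prod.ext h5 h6

private theorem wx_av {N : ℕ} [NeZero N] {c : UNL.G N → UNL.G N → ℚ} (h0 : ∀ l, c 0 l = 0)
    {y : ℂ} (hy : y ∈ D.O) :
    ∑ k : ZMod N × ZMod N, FT D c (UNI.xx D.a ((k.1.val : ℤ), (k.2.val : ℤ)), y) = 0 := by
  have hN : (N : ℂ) ≠ 0 := Nat.cast_ne_zero.2 (NeZero.ne N)
  have h1 : ∀ k : ZMod N × ZMod N, FT D c (UNI.xx D.a ((k.1.val : ℤ), (k.2.val : ℤ)), y) =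
      ∑ k' : UNL.G N, ∑ l : UNL.G N, (c k' l : ℂ) *
        (wxc D ((N : ℂ) * UNL.tp (toU D.a) k') k * wxc D y l) := by
    intro k
    rw [wx_FT _ ⟨⟨_, rfl⟩, hy⟩]
    refine Finset.sum_congr rfl fun k' _ => Finset.sum_congr rfl fun l _ => ?_
    congr 2
    simp only [wxc]
    rw [← wx_tp (D := D) k]
    congr 1
    ring
  rw [Finset.sum_congr rfl fun k _ => h1 k, Finset.sum_comm]
  refine Finset.sum_eq_zero fun k' _ => ?_
  rw [Finset.sum_comm]
  refine Finset.sum_eq_zero fun l _ => ?_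
  by_cases hk : k' = 0
  · refine Finset.sum_eq_zero fun k _ => ?_
    rw [hk, h0, Rat.cast_zero, zero_mul]
  · have h2 : ∑ k : UNL.G N, (c k' l : ℂ) *
        (wxc D ((N : ℂ) * UNL.tp (toU D.a) k') k * wxc D y l) =
        (c k' l : ℂ) * wxc D y l * ∑ k : UNL.G N, wxc D ((N : ℂ) * UNL.tp (toU D.a) k') k := by
      rw [Finset.mul_sum]
      refine Finset.sum_congr rfl fun k _ => ?_
      ring
    rw [h2]
    have hx : (N : ℂ) * UNL.tp (toU D.a) k' ∈ D.O := tp_N k'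
    have h3 : ∃ k0 : UNL.G N, wxc D ((N : ℂ) * UNL.tp (toU D.a) k') k0 ≠ 1 := by
      by_contra hcon
      push Not at hcon
      obtain ⟨z, hz, e⟩ := ps_perfect (D := D) (N := N) hx hcon
      apply hk
      apply wx_tp_zero (D := D)
      have e2 := mul_left_cancel₀ hN e
      rw [e2]
      exact hz
    obtain ⟨k0, hk0⟩ := h3
    set S := ∑ k : UNL.G N, wxc D ((N : ℂ) * UNL.tp (toU D.a) k') k with hS
    have h4 : S = S * wxc D ((N : ℂ) * UNL.tp (toU D.a) k') k0 := by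
      rw [hS, Finset.sum_mul]
      have h5 := Equiv.sum_comp (Equiv.addRight k0) (wxc D ((N : ℂ) * UNL.tp (toU D.a) k'))
      simp only [Equiv.coe_addRight] at h5
      rw [← h5]
      refine Finset.sum_congr rfl fun k _ => ?_
      rw [wxc_add hx]
    have h5 : S * (wxc D ((N : ℂ) * UNL.tp (toU D.a) k') k0 - 1) = 0 := by
      rw [mul_sub, mul_one, ← h4, sub_self]
    rw [(mul_eq_zero.1 h5).resolve_right (sub_ne_zero.2 hk0), mul_zero]

/-! ### invariance -/

private theorem wx_Rl {b : UNL.Par} {N : ℕ} {q d : ℤ × ℤ}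
    (hd : ∃ e z : ℤ × ℤ, UNL.de b d * UNL.de b e + N * UNL.de b z = 1)
    (c : UNL.G N → ℚ) (k : UNL.G N) :
    Rl b q c (UNL.sm b d k) = Rl b q (fun m => c (UNL.sm b d m)) k := by
  have h := wx_unit_mem q hd k
  unfold Rl
  rw [wx_sm_comm b q d k]
  by_cases hk : ∃ m : UNL.G N, UNL.sm b q m = k
  · rw [if_pos hk, if_pos (h.2 hk)]
  · rw [if_neg hk, if_neg (fun h' => hk (h.1 h'))]

private theorem wx_Rl_neg {b : UNL.Par} {N : ℕ} (q : ℤ × ℤ) (c : UNL.G N → ℚ) (k : UNL.G N) :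
    Rl b q c (-k) = Rl b q (fun m => c (-m)) k := by
  have h : (∃ m : UNL.G N, UNL.sm b q m = -k) ↔ ∃ m : UNL.G N, UNL.sm b q m = k := by
    constructor
    · rintro ⟨m, hm⟩
      exact ⟨-m, by rw [wx_sm_neg, hm, neg_neg]⟩
    · rintro ⟨m, hm⟩
      exact ⟨-m, by rw [wx_sm_neg, hm]⟩
  unfold Rl
  rw [wx_sm_neg]
  by_cases hk : ∃ m : UNL.G N, UNL.sm b q m = k
  · rw [if_pos hk, if_pos (h.2 hk)]
  · rw [if_neg hk, if_neg (fun h' => hk (h.1 h'))]

private theorem wx_Al {b : UNL.Par} {N : ℕ} [NeZero N] {W : UNL.G N → UNL.G N → ℤ}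
    (hW : CW b N W) {d : ℤ × ℤ}
    (hd : ∃ e z : ℤ × ℤ, UNL.de b d * UNL.de b e + N * UNL.de b z = 1) (l k : UNL.G N) :
    Al W (UNL.sm b d l) (UNL.sm b d k) = Al W l k := by
  unfold Al
  rw [← wx_sm_add, hW.inv d hd, hW.inv d hd]

theorem tri_W {N : ℕ} [NeZero N] {W : UNL.G N → UNL.G N → ℤ} (hW : CW (toU D.a) N W) :
    ∃ k ∈ D.K, TT (FT D (fun k l => (W k l : ℚ))) e2 e1 v11 v11 = k * Lam D := by
  classical
  obtain ⟨J, q, q', c, hq, h0, hinv, hr⟩ := CW_avg hW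
  -- the function
  have iW : Inv (toU D.a) (fun k l : UNL.G N => (W k l : ℚ)) := by
    intro d hd k l
    simp only
    rw [hW.inv d hd]
  obtain ⟨V0, hV0, hf⟩ := FT_Fn (D := D) iW
  -- the relations
  have iψ : ∀ j, Inv (toU D.a) (wxcut (toU D.a) (q j) (fun l m => c j l (-m))) := by
    intro j d hd k l
    unfold wxcut
    have h := wx_unit_mem (q j) hd k
    have h1 := hinv j d hd (-k) l
    simp only at h1
    rw [wx_sm_neg] at h1
    by_cases hk : ∃ m : UNL.G N, UNL.sm (toU D.a) (q j) m = k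
    · rw [if_pos hk, if_pos (h.2 hk)]
      exact h1
    · rw [if_neg hk, if_neg (fun h' => hk (h.1 h'))]
  choose V1 hV1 hψ using fun j => FT_Fn (D := D) (iψ j)
  -- the odd part
  have iθ : Inv (toU D.a) (fun k l : UNL.G N =>
      Al W l (-k) - ∑ j, Rl (toU D.a) (q j) (fun m => c j l (-m)) k) := by
    intro d hd k l
    simp only
    rw [← wx_sm_neg, wx_Al hW hd]
    congr 1
    refine Finset.sum_congr rfl fun j _ => ?_
    rw [wx_Rl hd]
    congr 1
    funext m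
    have h1 := hinv j d hd (-m) l
    simp only at h1
    rw [wx_sm_neg] at h1
    exact h1
  obtain ⟨V2, hV2, hθ⟩ := FT_Fn (D := D) iθ
  have sub0 : V0 ⊆ V0 ∪ (Finset.univ.biUnion V1 ∪ V2) := Finset.subset_union_left
  have sub1 : ∀ j, V1 j ⊆ V0 ∪ (Finset.univ.biUnion V1 ∪ V2) := fun j =>
    (Finset.subset_biUnion_of_mem V1 (Finset.mem_univ j)).trans
      (Finset.subset_union_left.trans Finset.subset_union_right)
  have sub2 : V2 ⊆ V0 ∪ (Finset.univ.biUnion V1 ∪ V2) :=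
    Finset.subset_union_right.trans Finset.subset_union_right
  refine tri_val (D := D) (N := N) (V := V0 ∪ (Finset.univ.biUnion V1 ∪ V2)) ?_
    (Fn_up hf dvd_rfl sub0) ?_ ?_ (J := J) (q := fun j => UNI.xx D.a (q j)) ?_
    (ψ := fun j => FT D (wxcut (toU D.a) (q j) (fun l m => c j l (-m))))
    (fun j => Fn_up (hψ j) dvd_rfl (sub1 j)) ?_
    (θ := FT D (fun k l : UNL.G N =>
      Al W l (-k) - ∑ j, Rl (toU D.a) (q j) (fun m => c j l (-m)) k))
    (Fn_up hθ dvd_rfl sub2) ?_ ?_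
  · intro v hv
    rcases Finset.mem_union.1 hv with h | h
    · exact hV0 v h
    · rcases Finset.mem_union.1 h with h | h
      · obtain ⟨j, -, hj⟩ := Finset.mem_biUnion.1 h
        exact hV1 j v hj
      · exact hV2 v h
  · intro x y
    rw [wx_FT_neg]
    congr 1
    funext k l
    rw [hW.ev]
  · intro x y
    have e : (fun k l : UNL.G N => ((W l k : ℤ) : ℚ)) = fun k l => (0 : ℚ) - (W k l : ℚ) := by
      funext k l
      rw [hW.anti]
      push_cast
      ring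
    rw [wx_FT_swap, e, wx_FT_sub (fun _ _ => (0 : ℚ)) (fun k l => (W k l : ℚ))]
    have e0 : FT D (fun _ _ : UNL.G N => (0 : ℚ)) (x, y) = 0 := by
      by_cases hw : O2 D (x, y)
      · rw [wx_FT _ hw]
        simp
      · exact wx_FT0 _ hw
    rw [e0, zero_sub]
  · intro j
    exact ⟨⟨_, rfl⟩, wx_ne D.a (hq j)⟩
  · intro j y hy
    refine wx_av (fun l => ?_) hy
    unfold wxcut
    split_ifs
    · simp only
      rw [neg_zero, h0]
    · rfl
  · intro x y
    rw [wx_FT_neg]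
    have e : (fun k l : UNL.G N => Al W l (- -k) -
        ∑ j, Rl (toU D.a) (q j) (fun m => c j l (-m)) (-k)) = fun k l => (0 : ℚ) -
        (Al W l (-k) - ∑ j, Rl (toU D.a) (q j) (fun m => c j l (-m)) k) := by
      funext k l
      have h1 := hr l k
      have h2 : ∑ j, Rl (toU D.a) (q j) (fun m => c j l (-m)) (-k) =
          ∑ j, Rl (toU D.a) (q j) (c j l) k := by
        refine Finset.sum_congr rfl fun j _ => ?_
        rw [wx_Rl_neg]
        simp only [neg_neg]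
      have h3 : ∑ j, Rl (toU D.a) (q j) (fun m => c j l (-m)) k =
          ∑ j, Rl (toU D.a) (q j) (c j l) (-k) := by
        refine Finset.sum_congr rfl fun j _ => ?_
        rw [wx_Rl_neg]
      rw [Finset.sum_add_distrib] at h1
      rw [neg_neg, h2, h3]
      linarith
    rw [e, wx_FT_sub (fun _ _ => (0 : ℚ)) (fun k l : UNL.G N =>
        Al W l (-k) - ∑ j, Rl (toU D.a) (q j) (fun m => c j l (-m)) k)]
    have e0 : FT D (fun _ _ : UNL.G N => (0 : ℚ)) (x, y) = 0 := by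
      by_cases hw : O2 D (x, y)
      · rw [wx_FT _ hw]
        simp
      · exact wx_FT0 _ hw
    rw [e0, zero_sub]
  · intro x y
    have e1 : FT D (fun k l : UNL.G N => ((W k l : ℤ) : ℚ)) (x, y) =
        FT D (fun k l : UNL.G N => ((W k l : ℤ) : ℚ)) (-x, y) := by
      rw [wx_FT_neg]
      congr 1
      funext k l
      rw [hW.ev]
    have e2 : FT D (fun k l : UNL.G N => ((W k l : ℤ) : ℚ)) (x + y, y) =
        FT D (fun k l : UNL.G N => ((W k (k + l) : ℤ) : ℚ)) (-x, y) := by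
      rw [← wx_FT_shift (fun k l : UNL.G N => ((W k l : ℤ) : ℚ)) (-x) y]
      have e3 : (-x - y, y) = (-(x + y), y) := by
        congr 1
        ring
      rw [e3, wx_FT_neg]
      congr 1
      funext k l
      rw [hW.ev]
    rw [e1, e2, ← wx_FT_sub, wx_FT_neg]
    have e4 : (fun k l : UNL.G N => ((W (-k) l : ℤ) : ℚ) - ((W (-k) (-k + l) : ℤ) : ℚ)) =
        fun k l => (∑ j, Rl (toU D.a) (q j) (fun m => c j l (-m)) k) -
          ((0 : ℚ) - (Al W l (-k) - ∑ j, Rl (toU D.a) (q j) (fun m => c j l (-m)) k)) := by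
      funext k l
      unfold Al
      ring
    rw [e4, wx_FT_sub, wx_FT_sub, wx_FT_sum]
    have e0 : FT D (fun _ _ : UNL.G N => (0 : ℚ)) (x, y) = 0 := by
      by_cases hw : O2 D (x, y)
      · rw [wx_FT _ hw]
        simp
      · exact wx_FT0 _ hw
    rw [e0, zero_sub, sub_neg_eq_add]
    congr 1
    refine Finset.sum_congr rfl fun j _ => ?_
    exact wx_rel (hq j) (fun l m => c j l (-m)) (x, y)

end

end RNK
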