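import Pool.Agent.RNK.Bas
import Pool.Agent.UNL.Defs

/-!
# RNK.Kn: identities of the kernel

`KG c1 c2 c3 p w`, `l_i = det2 c_i w`, `r_i = det2 c_i p / l_i`, `A = det2 c2 c3 l1`, `B = det2 c3 c1 l2`,
`C = det2 c1 c2 l3`; `A + B + C = 0` (Pluecker). `Ā B - A B̄` is alternating, the second factor symmetric.
If some `l_i = 0` then `KG = 0` (division by `0`).
For `KG_coc` we choose `q` with `det2 w q = 1` and put `a_i = det2 c_i q / l_i`, then
`det2 c_i c_j = l_i l_j (a_j - a_i)` and `r_i = det2 p q - a_i det2 p w`; the relation is a polynomial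
identity in `a_i, ā_i`.
-/

namespace RNK

private theorem pl (a b c d : Vec) :
    det2 a c * det2 b d - det2 b c * det2 a d = det2 a b * det2 c d := by
  simp only [det2]
  ring

private theorem det2_smul_l (k : ℂ) (u v : Vec) : det2 (k • u) v = k * det2 u v := by
  simp only [det2, Prod.smul_fst, Prod.smul_snd, smul_eq_mul]
  ring

private theorem det2_smul_r (k : ℂ) (u v : Vec) : det2 u (k • v) = k * det2 u v := by
  simp only [det2, Prod.smul_fst, Prod.smul_snd, smul_eq_mul]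
  ring

theorem KG_a12 (c1 c2 c3 p w : Vec) : KG c2 c1 c3 p w = -KG c1 c2 c3 p w := by
  simp only [KG]
  rw [det2_swap c3 c1, det2_swap c2 c3]
  simp only [map_mul, map_neg]
  ring

theorem KG_a23 (c1 c2 c3 p w : Vec) : KG c1 c3 c2 p w = -KG c1 c2 c3 p w := by
  simp only [KG]
  have hP : det2 c2 c1 * det2 c3 w = det2 c2 c3 * det2 c1 w + det2 c3 c1 * det2 c2 w := by
    simp only [det2]
    ring
  rw [hP, det2_swap c2 c3]
  simp only [map_mul, map_neg, map_add]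
  ring

theorem KG_scal {k : ℂ} (hk : k ≠ 0) (c1 c2 c3 p w : Vec) :
    KG (k • c1) c2 c3 p w = KG c1 c2 c3 p w := by
  have hk' : (starRingEnd ℂ) k ≠ 0 := (map_ne_zero (starRingEnd ℂ)).2 hk
  have hkk : k * (starRingEnd ℂ) k ≠ 0 := mul_ne_zero hk hk'
  simp only [KG, det2_smul_l, det2_smul_r]
  rw [mul_div_mul_left _ _ hk]
  congr 1
  rw [← mul_div_mul_left ((starRingEnd ℂ) (det2 c2 c3 * det2 c1 w) * (det2 c3 c1 * det2 c2 w) -
    det2 c2 c3 * det2 c1 w * (starRingEnd ℂ) (det2 c3 c1 * det2 c2 w)) _ hkk]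
  simp only [map_mul]
  congr 1 <;> ring

theorem KG_act {g : Mat} (hg : g.det ≠ 0) (c1 c2 c3 p w : Vec) :
    KG (g.act c1) (g.act c2) (g.act c3) (g.act p) (g.act w) =
      ((‖g.det‖ ^ 2 : ℝ) : ℂ)⁻¹ * KG c1 c2 c3 p w := by
  have hk' : (starRingEnd ℂ) g.det ≠ 0 := (map_ne_zero (starRingEnd ℂ)).2 hg
  have hn : ((‖g.det‖ ^ 2 : ℝ) : ℂ) = g.det * (starRingEnd ℂ) g.det := by
    rw [Complex.mul_conj']
    push_cast
    rfl
  have hz : ∀ D D' X Y S : ℂ, D ≠ 0 → D' ≠ 0 →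
      (D * D') ^ 2 * X / ((D * D') ^ 3 * Y) * S = (D * D')⁻¹ * (X / Y * S) := by
    intro D D' X Y S hD hD'
    have hDD : D * D' ≠ 0 := mul_ne_zero hD hD'
    have h1 : (D * D') ^ 2 * X / ((D * D') ^ 3 * Y) = (D * D')⁻¹ * (X / Y) := by
      rw [show (D * D') ^ 3 * Y = (D * D') ^ 2 * ((D * D') * Y) by ring,
        mul_div_mul_left _ _ (pow_ne_zero 2 hDD), div_mul_eq_div_div_swap, div_eq_inv_mul]
    rw [h1, mul_assoc]
  simp only [KG, det2_act]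
  rw [mul_div_mul_left _ _ hg, mul_div_mul_left _ _ hg, mul_div_mul_left _ _ hg, hn]
  rw [← hz _ _ _ _ _ hg hk']
  simp only [map_mul]
  congr 1
  congr 1 <;> ring

theorem KG_zero {c1 c2 c3 p w : Vec} (h : det2 c1 w = 0 ∨ det2 c2 w = 0 ∨ det2 c3 w = 0) :
    KG c1 c2 c3 p w = 0 := by
  simp only [KG]
  rcases h with h | h | h <;> simp [h]

theorem KG_dep {c1 c2 : Vec} (h : det2 c1 c2 = 0) (c3 p w : Vec) : KG c1 c2 c3 p w = 0 := by
  simp only [KG]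
  have hP : det2 c3 c1 * det2 c2 w = -(det2 c2 c3 * det2 c1 w) := by
    have h1 : det2 c2 c3 * det2 c1 w + det2 c3 c1 * det2 c2 w + det2 c1 c2 * det2 c3 w = 0 := by
      simp only [det2]
      ring
    rw [h, zero_mul, add_zero] at h1
    linear_combination h1
  rw [hP]
  simp only [map_neg]
  ring

private theorem exists_q {w : Vec} (hw : w ≠ 0) : ∃ q, det2 w q = 1 := by
  by_cases h1 : w.1 = 0
  · have h2 : w.2 ≠ 0 := fun h => hw (Prod.ext h1 h)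
    refine ⟨(-1 / w.2, 0), ?_⟩
    simp only [det2]
    field_simp
    ring
  · refine ⟨(0, 1 / w.1), ?_⟩
    simp only [det2]
    field_simp
    ring

private theorem KG_form {c1 c2 c3 w q : Vec} (hq : det2 w q = 1) (h1 : det2 c1 w ≠ 0)
    (h2 : det2 c2 w ≠ 0) (h3 : det2 c3 w ≠ 0) (p : Vec) :
    KG c1 c2 c3 p w =
      ((starRingEnd ℂ) (det2 c3 q / det2 c3 w - det2 c2 q / det2 c2 w) *
          (det2 c1 q / det2 c1 w - det2 c3 q / det2 c3 w) -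
        (det2 c3 q / det2 c3 w - det2 c2 q / det2 c2 w) *
          (starRingEnd ℂ) (det2 c1 q / det2 c1 w - det2 c3 q / det2 c3 w)) *
      ((det2 p q - det2 c1 q / det2 c1 w * det2 p w) ^ 2 +
        (det2 p q - det2 c2 q / det2 c2 w * det2 p w) ^ 2 +
        (det2 p q - det2 c3 q / det2 c3 w * det2 p w) ^ 2 +
        (det2 p q - det2 c1 q / det2 c1 w * det2 p w) *
          (det2 p q - det2 c2 q / det2 c2 w * det2 p w) +
        (det2 p q - det2 c1 q / det2 c1 w * det2 p w) *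
          (det2 p q - det2 c3 q / det2 c3 w * det2 p w) +
        (det2 p q - det2 c2 q / det2 c2 w * det2 p w) *
          (det2 p q - det2 c3 q / det2 c3 w * det2 p w)) := by
  have hr : ∀ c : Vec, det2 c w ≠ 0 →
      det2 c p / det2 c w = det2 p q - det2 c q / det2 c w * det2 p w := by
    intro c hc
    have h := pl c p w q
    rw [hq, mul_one] at h
    field_simp
    linear_combination -h
  have hd : ∀ c d : Vec, det2 c w ≠ 0 → det2 d w ≠ 0 →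
      det2 c d = det2 c w * det2 d w * (det2 d q / det2 d w - det2 c q / det2 c w) := by
    intro c d hc hd
    have h := pl c d w q
    rw [hq, mul_one] at h
    field_simp
    linear_combination -h
  have hc1 : (starRingEnd ℂ) (det2 c1 w) ≠ 0 := (map_ne_zero (starRingEnd ℂ)).2 h1
  have hc2 : (starRingEnd ℂ) (det2 c2 w) ≠ 0 := (map_ne_zero (starRingEnd ℂ)).2 h2
  have hc3 : (starRingEnd ℂ) (det2 c3 w) ≠ 0 := (map_ne_zero (starRingEnd ℂ)).2 h3
  simp only [KG]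
  rw [hr c1 h1, hr c2 h2, hr c3 h3]
  congr 1
  rw [hd c2 c3 h2 h3, hd c3 c1 h3 h1]
  generalize det2 c3 q / det2 c3 w - det2 c2 q / det2 c2 w = X
  generalize det2 c1 q / det2 c1 w - det2 c3 q / det2 c3 w = Y
  rw [div_eq_iff (mul_ne_zero (mul_ne_zero (mul_ne_zero h1 hc1) (mul_ne_zero h2 hc2))
    (mul_ne_zero h3 hc3))]
  simp only [map_mul]
  ring

theorem KG_coc {c1 c2 c3 c4 w : Vec} (h1 : det2 c1 w ≠ 0) (h2 : det2 c2 w ≠ 0)
    (h3 : det2 c3 w ≠ 0) (h4 : det2 c4 w ≠ 0) (p : Vec) :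
    KG c2 c3 c4 p w - KG c1 c3 c4 p w + KG c1 c2 c4 p w - KG c1 c2 c3 p w = 0 := by
  have hw : w ≠ 0 := by
    rintro rfl
    exact h1 (by simp [det2])
  obtain ⟨q, hq⟩ := exists_q hw
  rw [KG_form hq h2 h3 h4, KG_form hq h1 h3 h4, KG_form hq h1 h2 h4, KG_form hq h1 h2 h3]
  generalize det2 c1 q / det2 c1 w = a1
  generalize det2 c2 q / det2 c2 w = a2
  generalize det2 c3 q / det2 c3 w = a3
  generalize det2 c4 q / det2 c4 w = a4
  simp only [map_sub]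
  ring

theorem KG_hom {t : ℂ} (ht : t ≠ 0) (c1 c2 c3 p w : Vec) :
    KG c1 c2 c3 p (t • w) = (t ^ 4 * (starRingEnd ℂ) t ^ 2)⁻¹ * KG c1 c2 c3 p w := by
  have ht' : (starRingEnd ℂ) t ≠ 0 := (map_ne_zero (starRingEnd ℂ)).2 ht
  by_cases h : det2 c1 w = 0 ∨ det2 c2 w = 0 ∨ det2 c3 w = 0
  · rw [KG_zero h, mul_zero]
    refine KG_zero ?_
    simp only [det2_smul_r]
    rcases h with h | h | h <;> simp [h]
  · push Not at h
    obtain ⟨h1, h2, h3⟩ := h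
    have hc1 : (starRingEnd ℂ) (det2 c1 w) ≠ 0 := (map_ne_zero (starRingEnd ℂ)).2 h1
    have hc2 : (starRingEnd ℂ) (det2 c2 w) ≠ 0 := (map_ne_zero (starRingEnd ℂ)).2 h2
    have hc3 : (starRingEnd ℂ) (det2 c3 w) ≠ 0 := (map_ne_zero (starRingEnd ℂ)).2 h3
    simp only [KG, det2_smul_r, map_mul]
    field_simp

theorem KG_quad (c1 c2 c3 : Vec) : ∃ k11 k12 k22 : Vec → ℂ, ∀ p w,
    KG c1 c2 c3 p w = p.1 ^ 2 * k11 w + p.1 * p.2 * k12 w + p.2 ^ 2 * k22 w := by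
  let N : Vec → ℂ := fun w =>
    ((starRingEnd ℂ) (det2 c2 c3 * det2 c1 w) * (det2 c3 c1 * det2 c2 w) -
      (det2 c2 c3 * det2 c1 w) * (starRingEnd ℂ) (det2 c3 c1 * det2 c2 w)) /
      ((det2 c1 w * (starRingEnd ℂ) (det2 c1 w)) * (det2 c2 w * (starRingEnd ℂ) (det2 c2 w)) *
        (det2 c3 w * (starRingEnd ℂ) (det2 c3 w)))
  refine ⟨fun w => N w * ((c1.2 / det2 c1 w) ^ 2 + (c2.2 / det2 c2 w) ^ 2 +
      (c3.2 / det2 c3 w) ^ 2 + (c1.2 / det2 c1 w) * (c2.2 / det2 c2 w) +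
      (c1.2 / det2 c1 w) * (c3.2 / det2 c3 w) + (c2.2 / det2 c2 w) * (c3.2 / det2 c3 w)),
    fun w => -(N w * (2 * (c1.2 / det2 c1 w) * (c1.1 / det2 c1 w) +
      2 * (c2.2 / det2 c2 w) * (c2.1 / det2 c2 w) + 2 * (c3.2 / det2 c3 w) * (c3.1 / det2 c3 w) +
      (c1.2 / det2 c1 w) * (c2.1 / det2 c2 w) + (c1.1 / det2 c1 w) * (c2.2 / det2 c2 w) +
      (c1.2 / det2 c1 w) * (c3.1 / det2 c3 w) + (c1.1 / det2 c1 w) * (c3.2 / det2 c3 w) +
      (c2.2 / det2 c2 w) * (c3.1 / det2 c3 w) + (c2.1 / det2 c2 w) * (c3.2 / det2 c3 w))),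
    fun w => N w * ((c1.1 / det2 c1 w) ^ 2 + (c2.1 / det2 c2 w) ^ 2 +
      (c3.1 / det2 c3 w) ^ 2 + (c1.1 / det2 c1 w) * (c2.1 / det2 c2 w) +
      (c1.1 / det2 c1 w) * (c3.1 / det2 c3 w) + (c2.1 / det2 c2 w) * (c3.1 / det2 c3 w)), ?_⟩
  intro p w
  have hr : ∀ c : Vec, det2 c p / det2 c w =
      p.2 * (c.1 / det2 c w) - p.1 * (c.2 / det2 c w) := by
    intro c
    have : det2 c p = c.1 * p.2 - c.2 * p.1 := rfl
    rw [this]
    ring
  have hN : KG c1 c2 c3 p w = N w * ((det2 c1 p / det2 c1 w) ^ 2 + (det2 c2 p / det2 c2 w) ^ 2 +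
      (det2 c3 p / det2 c3 w) ^ 2 + (det2 c1 p / det2 c1 w) * (det2 c2 p / det2 c2 w) +
      (det2 c1 p / det2 c1 w) * (det2 c3 p / det2 c3 w) +
      (det2 c2 p / det2 c2 w) * (det2 c3 p / det2 c3 w)) := rfl
  rw [hN, hr c1, hr c2, hr c3]
  ring

theorem KG_K {D : OD} {c1 c2 c3 p w : Vec} (h1 : K2 D c1) (h2 : K2 D c2) (h3 : K2 D c3)
    (hp : K2 D p) (hw : K2 D w) : KG c1 c2 c3 p w ∈ D.K := by
  have hd : ∀ u v : Vec, K2 D u → K2 D v → det2 u v ∈ D.K := fun u v hu hv =>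
    D.K.sub_mem (D.K.mul_mem hu.1 hv.2) (D.K.mul_mem hu.2 hv.1)
  have l1 := hd c1 w h1 hw
  have l2 := hd c2 w h2 hw
  have l3 := hd c3 w h3 hw
  have r1 := D.K.div_mem (hd c1 p h1 hp) l1
  have r2 := D.K.div_mem (hd c2 p h2 hp) l2
  have r3 := D.K.div_mem (hd c3 p h3 hp) l3
  have hA := D.K.mul_mem (hd c2 c3 h2 h3) l1
  have hB := D.K.mul_mem (hd c3 c1 h3 h1) l2
  simp only [KG]
  refine D.K.mul_mem (D.K.div_mem ?_ ?_) ?_
  · exact D.K.sub_mem (D.K.mul_mem (cj_K hA) hB) (D.K.mul_mem hA (cj_K hB))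
  · exact D.K.mul_mem (D.K.mul_mem (D.K.mul_mem l1 (cj_K l1)) (D.K.mul_mem l2 (cj_K l2)))
      (D.K.mul_mem l3 (cj_K l3))
  · exact D.K.add_mem (D.K.add_mem (D.K.add_mem (D.K.add_mem (D.K.add_mem (pow_mem r1 2)
      (pow_mem r2 2)) (pow_mem r3 2)) (D.K.mul_mem r1 r2)) (D.K.mul_mem r1 r3))
      (D.K.mul_mem r2 r3)

theorem KG_std (x y : ℂ) : KG e2 e1 v11 v11 (x, y) = -(starRingEnd ℂ) (UNL.KK x y) := by
  have hcc : ∀ z : ℂ, (starRingEnd ℂ) (UNL.cj z) = z := fun z => Complex.conj_conj z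
  have hcj : ∀ z : ℂ, UNL.cj z = (starRingEnd ℂ) z := fun z => rfl
  by_cases hx : x = 0
  · subst hx
    rw [KG_zero (Or.inl (by simp [det2, e2]))]
    simp [UNL.KK]
  by_cases hy : y = 0
  · subst hy
    rw [KG_zero (Or.inr (Or.inl (by simp [det2, e1])))]
    simp [UNL.KK]
  by_cases hxy : x = y
  · subst hxy
    rw [KG_zero (Or.inr (Or.inr (by simp [det2, v11])))]
    simp [UNL.KK]
  have hx' : (starRingEnd ℂ) x ≠ 0 := (map_ne_zero (starRingEnd ℂ)).2 hx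
  have hy' : (starRingEnd ℂ) y ≠ 0 := (map_ne_zero (starRingEnd ℂ)).2 hy
  have h3 : x - y ≠ 0 := sub_ne_zero.2 hxy
  have h3' : (starRingEnd ℂ) x - (starRingEnd ℂ) y ≠ 0 := by
    rw [← map_sub]
    exact (map_ne_zero (starRingEnd ℂ)).2 h3
  have h4 : y - x ≠ 0 := sub_ne_zero.2 (Ne.symm hxy)
  have h4' : (starRingEnd ℂ) y - (starRingEnd ℂ) x ≠ 0 := by
    rw [← map_sub]
    exact (map_ne_zero (starRingEnd ℂ)).2 h4
  simp only [KG, det2, e1, e2, v11, UNL.KK, hcj, map_mul, map_sub, map_div₀, map_add, map_pow,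
    Complex.conj_conj, map_neg, one_mul, zero_mul, mul_one, mul_zero, zero_sub,
    sub_zero]
  field_simp
  ring

end RNK
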