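import Pool.Agent.RNK.Wx
import Pool.Agent.RNK.Kn
import Pool.Agent.UNL.PartB
import Pool.Agent.UNL.PartD

/-!
# RNK.Wf: the regulator of a closed weight

`b = toU D.a`, `A = 1`. `UNL.reg_val`:
`∫ Reg = -(4 i N⁶ / κ²) Σ' Wd W x₁ x₂ KK (mm x₁) (mm x₂)`, `κ = 2 π / sD b`.
1. `(x₁, x₂) ↦ (mm b x₁, mm b x₂)` is a bijection of `(ℤ²)²` with `O²` (`A = 1`: `mm b n = n.1 - n.2 τ̄`, `τ̄ = t - τ`),
  `UNL.ch b n u = ps b (mm b n * u)`, so `Wd b W x₁ x₂ = FT D W (mm x₁, mm x₂)`, a rational number (`FT_rat`).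
2. `KG_std`: `KK = - conj KG`, so `Σ' Wd KK = - conj (TT (FT D W) e2 e1 v11 v11) = - conj (k Λ)` (`tri_W`;
  `TT` is a sum over `Vec`, only `O²` matters: `Function.Injective.tsum_eq`), and
  `conj Λ = UNL.E42 b` (`E42 = Σ' 1/(mm² conj(mm)⁴)`, the sum over all of `O`).
3. `UNL.Lfun`: `L'(-1) = -6 (sD / (2 π))⁵ E42`. So `∫ Reg = (4 i N⁶ / κ²) k̄ E42 = (2 π)³ ρ L'(-1)` with
  `ρ = -(2/3) N⁶ k̄ i / sD³`, and `i sD ∈ K` (`i sD = 2 τ - t`), `sD² ∈ ℤ`: `ρ ∈ K`.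
-/

open MeasureTheory

namespace RNK

noncomputable section

variable {D : OD}

/-- the frequencies are the elements of `O` -/
private theorem wf_mm (a : UNI.Par) (m : ℤ × ℤ) :
    UNL.mm (toU a) m = UNI.xx a (m.1 - a.t * m.2, m.2) := by
  have h := cj_om a
  rw [UNL.mm, tau_toU, h, UNI.xx]
  push_cast
  ring

private def wf_sh (a : UNI.Par) : ℤ × ℤ ≃ ℤ × ℤ where
  toFun m := (m.1 - a.t * m.2, m.2)
  invFun m := (m.1 + a.t * m.2, m.2)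
  left_inv m := by ext <;> simp
  right_inv m := by ext <;> simp

private theorem wf_Lam (D : OD) : (starRingEnd ℂ) (Lam D) = UNL.E42 (toU D.a) := by
  rw [Lam, UNL.E42, Complex.conj_tsum, ← (wf_sh D.a).tsum_eq]
  refine tsum_congr fun m => ?_
  rw [wf_mm]
  simp only [wf_sh, Equiv.coe_fn_mk, map_div₀, map_one, map_mul, map_pow, Complex.conj_conj]
  rw [mul_comm]

private theorem wf_inj (a : UNI.Par) {m m' : ℤ × ℤ}
    (h : UNL.mm (toU a) m = UNL.mm (toU a) m') : m = m' := by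
  have hs := UNL.tau_im_pos (toU a)
  have h1 : ((m.1 - m'.1 : ℤ) : ℂ) - ((m.2 - m'.2 : ℤ) : ℂ) *
      (starRingEnd ℂ) (UNL.tau (toU a)) = 0 := by
    simp only [UNL.mm] at h
    push_cast
    linear_combination h
  have h2 : m.2 - m'.2 = 0 := by
    have h3 := congrArg Complex.im h1
    simp only [Complex.sub_im, Complex.mul_im, Complex.intCast_im, Complex.intCast_re,
      Complex.conj_im, zero_mul, add_zero, Complex.zero_im, zero_sub, mul_neg, neg_neg] at h3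
    have h4 := (mul_eq_zero.1 h3).resolve_right hs.ne'
    exact_mod_cast h4
  rw [h2, Int.cast_zero, zero_mul, sub_zero] at h1
  have h5 : m.1 - m'.1 = 0 := by exact_mod_cast h1
  exact Prod.ext (sub_eq_zero.1 h5) (sub_eq_zero.1 h2)

private theorem wf_sum {N : ℕ} [NeZero N] {W : UNL.G N → UNL.G N → ℤ}
    (hW : CW (toU D.a) N W) :
    ∑' x : (ℤ × ℤ) × (ℤ × ℤ), UNL.Wd (toU D.a) W x.1 x.2 *
      UNL.KK (UNL.mm (toU D.a) x.1) (UNL.mm (toU D.a) x.2) =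
    -(starRingEnd ℂ) (TT (FT D (fun k l => (W k l : ℚ))) e2 e1 v11 v11) := by
  have iW : Inv (toU D.a) (fun k l : UNL.G N => (W k l : ℚ)) := by
    intro d hd k l
    simp only
    rw [hW.inv d hd]
  have hmem : ∀ m, UNL.mm (toU D.a) m ∈ D.O := fun m => ⟨_, wf_mm D.a m⟩
  have hsur : ∀ x ∈ D.O, ∃ m, UNL.mm (toU D.a) m = x := by
    rintro x ⟨m, rfl⟩
    refine ⟨(m.1 + D.a.t * m.2, m.2), ?_⟩
    rw [wf_mm]
    simp
  have hgi : Function.Injective (fun x : (ℤ × ℤ) × (ℤ × ℤ) =>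
      ((UNL.mm (toU D.a) x.1, UNL.mm (toU D.a) x.2) : Vec)) := by
    intro x y h
    simp only [Prod.mk.injEq] at h
    exact Prod.ext (wf_inj D.a h.1) (wf_inj D.a h.2)
  have hO : ∀ x : (ℤ × ℤ) × (ℤ × ℤ),
      O2 D ((UNL.mm (toU D.a) x.1, UNL.mm (toU D.a) x.2) : Vec) :=
    fun x => ⟨hmem _, hmem _⟩
  have hsupp : Function.support (fun w : Vec =>
      FT D (fun k l => (W k l : ℚ)) w * KG e2 e1 v11 v11 w) ⊆
      Set.range (fun x : (ℤ × ℤ) × (ℤ × ℤ) =>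
      ((UNL.mm (toU D.a) x.1, UNL.mm (toU D.a) x.2) : Vec)) := by
    intro w hw
    have h1 : FT D (fun k l => (W k l : ℚ)) w ≠ 0 := left_ne_zero_of_mul hw
    have h2 : O2 D w := by
      by_contra h
      exact h1 (by rw [FT, if_neg h])
    obtain ⟨x, hx⟩ := hsur _ h2.1
    obtain ⟨y, hy⟩ := hsur _ h2.2
    exact ⟨(x, y), Prod.ext hx hy⟩
  rw [TT, ← hgi.tsum_eq hsupp, Complex.conj_tsum, ← tsum_neg]
  refine tsum_congr fun x => ?_
  have h1 : FT D (fun k l => (W k l : ℚ)) ((UNL.mm (toU D.a) x.1, UNL.mm (toU D.a) x.2) : Vec) =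
      UNL.Wd (toU D.a) W x.1 x.2 := by
    rw [FT, if_pos (hO x)]
    simp only [UNL.Wd, UNL.ch, ps, Rat.cast_intCast]
  obtain ⟨r, hr⟩ := FT_rat iW ((UNL.mm (toU D.a) x.1, UNL.mm (toU D.a) x.2) : Vec)
  rw [map_mul, KG_std, hr, ← h1, hr, map_neg, Complex.conj_conj, map_ratCast]
  ring

theorem reg_W {N : ℕ} [NeZero N] (hN : Even N) {W : UNL.G N → UNL.G N → ℤ}
    (hW : CW (toU D.a) N W) :
    Integrable (fun q : UNL.E × UNL.E =>
      UNL.Reg (toU D.a) W (UNL.cu (toU D.a) q.1) (UNL.cu (toU D.a) q.2)) ∧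
    ∃ ρ ∈ D.K, ∫ q : UNL.E × UNL.E,
      UNL.Reg (toU D.a) W (UNL.cu (toU D.a) q.1) (UNL.cu (toU D.a) q.2) =
      (2 * Real.pi) ^ 3 * ρ * (-(6 * (UNL.sD (toU D.a) / (2 * Real.pi)) ^ 5 : ℝ) *
        UNL.E42 (toU D.a)) := by
  obtain ⟨h1, h2⟩ := UNL.reg_val (toU D.a) N hN W hW.ev hW.anti hW.row hW.supp
  refine ⟨h1, ?_⟩
  obtain ⟨k, hk, h3⟩ := tri_W hW
  have hs := UNL.sD_pos (toU D.a)
  have hs0 : ((UNL.sD (toU D.a) : ℝ) : ℂ) ≠ 0 := by exact_mod_cast hs.ne'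
  have hpi : (Real.pi : ℂ) ≠ 0 := by exact_mod_cast Real.pi_ne_zero
  have hA : ((toU D.a).A : ℂ) = 1 := by simp [toU]
  have hAr : ((toU D.a).A : ℝ) = 1 := by simp [toU]
  have hsq : ((UNL.sD (toU D.a) : ℝ) : ℂ) ^ 2 ∈ D.K := by
    rw [← Complex.ofReal_pow, UNL.sD_sq]
    have e : ((4 * ((toU D.a).A : ℝ) * (toU D.a).C - ((toU D.a).B : ℝ) ^ 2 : ℝ) : ℂ) =
        ((4 * (toU D.a).A * (toU D.a).C - (toU D.a).B ^ 2 : ℤ) : ℂ) := by push_cast; ring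
    rw [e]
    exact O_sub_K (int_O _)
  have hI : ((UNL.sD (toU D.a) : ℝ) : ℂ) * Complex.I ∈ D.K := by
    have h4 := UNL.two_A_tau (toU D.a)
    have h5 : UNL.tau (toU D.a) ∈ D.K := by
      rw [tau_toU]
      exact O_sub_K ⟨(0, 1), by simp [UNI.xx]⟩
    have e : ((UNL.sD (toU D.a) : ℝ) : ℂ) * Complex.I =
        ((2 : ℕ) : ℂ) * UNL.tau (toU D.a) - ((toU D.a).B : ℂ) := by
      rw [hA] at h4
      push_cast
      linear_combination -h4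
    rw [e]
    exact D.K.sub_mem (D.K.mul_mem (O_sub_K (nat_O 2)) h5) (O_sub_K (int_O _))
  refine ⟨-(((2 : ℕ) : ℂ) / ((3 : ℕ) : ℂ)) * (N : ℂ) ^ 6 * (starRingEnd ℂ) k *
    (((UNL.sD (toU D.a) : ℝ) : ℂ) * Complex.I) / (((UNL.sD (toU D.a) : ℝ) : ℂ) ^ 2) ^ 2, ?_, ?_⟩
  · refine D.K.div_mem (D.K.mul_mem (D.K.mul_mem (D.K.mul_mem (D.K.neg_mem (D.K.div_mem
      (O_sub_K (nat_O 2)) (O_sub_K (nat_O 3)))) (pow_mem (O_sub_K (nat_O N)) 6)) (cj_K hk)) hI)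
      (pow_mem hsq 2)
  · have hkap : ((UNL.kap (toU D.a) : ℝ) : ℂ) =
        2 * Real.pi / ((UNL.sD (toU D.a) : ℝ) : ℂ) := by
      unfold UNL.kap
      rw [hAr]
      push_cast
      ring
    rw [h2, wf_sum hW, h3, map_mul, wf_Lam, hkap]
    push_cast
    field_simp
    ring

end

end RNK
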