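import Pool.Agent.RNK.RgP

/-!
# RNK.Mk: Minkowski's bound for rank two over `O`

`exists_kap`: there is `κ ≥ 1` such that for every invertible `C` some primitive `w ∈ O²` has
`|C w|² ≤ (κ/2) |det C|`. Proof (elementary).
1. `nq (C.act w)`, `|det C|` do not change under unitary matrices on the left: with `a = C e1`,
  `A = |a| > 0`, the component of `C e2` along `a` is `b a / A` and the rest has length `d`, so
  `nq (C (x, y)) = |A x + b y|² + d² |y|²` with `A > 0`, `b ∈ ℂ`, `d > 0`, `A d = |det C|`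
  (`b = ⟨C e2, a⟩ / A`; direct computation: `d² A² = |det C|²` by Lagrange's identity).
2. Dirichlet: there is `c` (only depending on `O`) such that for `θ ∈ ℂ` and `Y ≥ 1` there is
  `(x, y) ∈ O²`, not `0`, with `|y| ≤ c Y`, `|x + θ y| ≤ c / Y`. Pigeonhole: let `k = ⌊Y⌋ + 1`; for
  `y = i + j ω`, `0 ≤ i, j ≤ k` write `θ y = u + v ω` with real `u, v` and take the cell of the
  fractional parts `({u}, {v}) ∈ [0,1)²` in the subdivision into `k²` squares; there are `(k+1)²`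
  elements `y`, so two have the same cell.
3. If `A ≥ d` take `Y = √(A/d)`, `θ = b / A`: `nq ≤ A² c² / Y² + d² c² Y² = 2 c² A d`. If `A < d` take
  `(x, y) = (1, 0)`: `nq = A² ≤ A d`.
4. Pass to the primitive vector on the same line (`prim_part`, `nrm_one`): the norm does not grow.
-/

namespace RNK

private theorem mk_im (a : UNI.Par) : 0 < (UNI.om a).im := by
  have h1 : (0 : ℝ) < 4 * a.n - a.t ^ 2 := by
    have h2 : ((a.t ^ 2 : ℤ) : ℝ) < ((4 * a.n : ℤ) : ℝ) := by exact_mod_cast a.h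
    push_cast at h2
    linarith
  have h3 : (UNI.om a).im = Real.sqrt (4 * a.n - a.t ^ 2) / 2 := by
    simp [UNI.om]
  rw [h3]
  have := Real.sqrt_pos.2 h1
  positivity

/-- real coordinates in the basis `1, ω` -/
private theorem mk_crd (a : UNI.Par) (z : ℂ) : ∃ p : ℝ × ℝ, z = (p.1 : ℂ) + p.2 * UNI.om a := by
  have h := (mk_im a).ne'
  refine ⟨(z.re - z.im / (UNI.om a).im * (UNI.om a).re, z.im / (UNI.om a).im), ?_⟩
  apply Complex.ext
  · simp only [Complex.add_re, Complex.mul_re, Complex.ofReal_re, Complex.ofReal_im]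
    ring
  · simp only [Complex.add_im, Complex.mul_im, Complex.ofReal_re, Complex.ofReal_im]
    field_simp
    ring

/-- numbers with the same integer part -/
private theorem mk_fl {x y : ℝ} (hx : 0 ≤ x) (hy : 0 ≤ y) (h : ⌊x⌋₊ = ⌊y⌋₊) : |x - y| ≤ 1 := by
  have h1 := Nat.floor_le hx
  have h2 := Nat.lt_floor_add_one x
  have h3 := Nat.floor_le hy
  have h4 := Nat.lt_floor_add_one y
  rw [h] at h1 h2
  rw [abs_le]
  constructor <;> linarith

/-- Dirichlet's approximation theorem for `O` -/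
private theorem mk_dir (D : OD) : ∃ c : ℝ, 1 ≤ c ∧ ∀ (θ : ℂ) (Y : ℝ), 1 ≤ Y →
    ∃ w : Vec, O2 D w ∧ w ≠ 0 ∧ ‖w.2‖ ≤ c * Y ∧ ‖w.1 + θ * w.2‖ ≤ c / Y := by
  have hω := norm_nonneg (UNI.om D.a)
  refine ⟨2 * (1 + ‖UNI.om D.a‖), by linarith, ?_⟩
  intro θ Y hY
  obtain ⟨k, hk⟩ : ∃ k : ℕ, k = ⌊Y⌋₊ + 1 := ⟨_, rfl⟩
  have hk0 : (0 : ℝ) < k := by rw [hk]; positivity
  have hYk : Y ≤ k := by rw [hk]; push_cast; exact (Nat.lt_floor_add_one Y).le
  have hkY : (k : ℝ) ≤ 2 * Y := by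
    have h := Nat.floor_le (show (0 : ℝ) ≤ Y by linarith)
    rw [hk]
    push_cast
    linarith
  choose r hr using fun p : Fin (k + 1) × Fin (k + 1) =>
    mk_crd D.a (θ * UNI.xx D.a (((p.1 : ℕ) : ℤ), ((p.2 : ℕ) : ℤ)))
  have hcell : ∀ x : ℝ, ⌊(k : ℝ) * Int.fract x⌋₊ < k := by
    intro x
    rw [Nat.floor_lt (mul_nonneg hk0.le (Int.fract_nonneg x))]
    nlinarith [Int.fract_lt_one x]
  obtain ⟨p, q, hpq, hf⟩ := Fintype.exists_ne_map_eq_of_card_lt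
    (fun p => ((⟨_, hcell (r p).1⟩, ⟨_, hcell (r p).2⟩) : Fin k × Fin k)) (by
      simp only [Fintype.card_prod, Fintype.card_fin]
      nlinarith)
  simp only [Prod.mk.injEq, Fin.mk.injEq] at hf
  have hd : ∀ x y : ℝ, ⌊(k : ℝ) * Int.fract x⌋₊ = ⌊(k : ℝ) * Int.fract y⌋₊ →
      |Int.fract x - Int.fract y| ≤ 1 / k := by
    intro x y h
    have h1 := mk_fl (mul_nonneg hk0.le (Int.fract_nonneg x))
      (mul_nonneg hk0.le (Int.fract_nonneg y)) h
    rw [← mul_sub, abs_mul, abs_of_pos hk0] at h1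
    rw [le_div_iff₀ hk0, mul_comm]
    exact h1
  have h1 := hd _ _ hf.1
  have h2 := hd _ _ hf.2
  refine ⟨(UNI.xx D.a (-(⌊(r p).1⌋ - ⌊(r q).1⌋), -(⌊(r p).2⌋ - ⌊(r q).2⌋)),
    UNI.xx D.a (((p.1 : ℕ) : ℤ) - ((q.1 : ℕ) : ℤ), ((p.2 : ℕ) : ℤ) - ((q.2 : ℕ) : ℤ))),
    ⟨⟨_, rfl⟩, ⟨_, rfl⟩⟩, ?_, ?_, ?_⟩
  · intro h0
    have h3 := congrArg Prod.snd h0
    simp only [Prod.snd_zero, UNI.xx] at h3
    have h4 := congrArg Complex.im h3
    simp only [Complex.add_im, Complex.mul_im, Complex.intCast_im, Complex.intCast_re,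
      Complex.zero_im, zero_mul, add_zero, zero_add] at h4
    have h5 := (mul_eq_zero.1 h4).resolve_right (mk_im D.a).ne'
    have h6 : (((p.2 : ℕ) : ℤ) - ((q.2 : ℕ) : ℤ) : ℤ) = 0 := by exact_mod_cast h5
    rw [h6] at h3
    simp only [Int.cast_zero, zero_mul, add_zero] at h3
    have h7 : (((p.1 : ℕ) : ℤ) - ((q.1 : ℕ) : ℤ) : ℤ) = 0 := by exact_mod_cast h3
    apply hpq
    apply Prod.ext
    · apply Fin.ext
      omega
    · apply Fin.ext
      omega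
  · have h3 : ∀ i j : Fin (k + 1), ‖((((i : ℕ) : ℤ) - ((j : ℕ) : ℤ) : ℤ) : ℂ)‖ ≤ k := by
      intro i j
      rw [Complex.norm_intCast]
      have h4 : |(((i : ℕ) : ℤ) - ((j : ℕ) : ℤ) : ℤ)| ≤ (k : ℤ) := by
        have := i.2
        have := j.2
        rw [abs_le]
        constructor <;> omega
      exact_mod_cast h4
    calc ‖UNI.xx D.a (((p.1 : ℕ) : ℤ) - ((q.1 : ℕ) : ℤ), ((p.2 : ℕ) : ℤ) - ((q.2 : ℕ) : ℤ))‖
        ≤ ‖((((p.1 : ℕ) : ℤ) - ((q.1 : ℕ) : ℤ) : ℤ) : ℂ)‖ +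
          ‖((((p.2 : ℕ) : ℤ) - ((q.2 : ℕ) : ℤ) : ℤ) : ℂ)‖ * ‖UNI.om D.a‖ := by
          rw [← norm_mul]
          exact norm_add_le _ _
      _ ≤ k + k * ‖UNI.om D.a‖ := by
          have := h3 p.1 q.1
          have := mul_le_mul_of_nonneg_right (h3 p.2 q.2) hω
          linarith
      _ ≤ 2 * (1 + ‖UNI.om D.a‖) * Y := by nlinarith
  · have e : UNI.xx D.a (-(⌊(r p).1⌋ - ⌊(r q).1⌋), -(⌊(r p).2⌋ - ⌊(r q).2⌋)) + θ *
        UNI.xx D.a (((p.1 : ℕ) : ℤ) - ((q.1 : ℕ) : ℤ), ((p.2 : ℕ) : ℤ) - ((q.2 : ℕ) : ℤ)) =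
        ((Int.fract (r p).1 - Int.fract (r q).1 : ℝ) : ℂ) +
          ((Int.fract (r p).2 - Int.fract (r q).2 : ℝ) : ℂ) * UNI.om D.a := by
      have hp := hr p
      have hq := hr q
      simp only [UNI.xx] at hp hq ⊢
      rw [← Int.self_sub_floor (r p).1, ← Int.self_sub_floor (r p).2,
        ← Int.self_sub_floor (r q).1, ← Int.self_sub_floor (r q).2]
      push_cast
      linear_combination hp - hq
    change ‖UNI.xx D.a (-(⌊(r p).1⌋ - ⌊(r q).1⌋), -(⌊(r p).2⌋ - ⌊(r q).2⌋)) + θ *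
        UNI.xx D.a (((p.1 : ℕ) : ℤ) - ((q.1 : ℕ) : ℤ), ((p.2 : ℕ) : ℤ) - ((q.2 : ℕ) : ℤ))‖ ≤ _
    rw [e]
    calc ‖((Int.fract (r p).1 - Int.fract (r q).1 : ℝ) : ℂ) +
          ((Int.fract (r p).2 - Int.fract (r q).2 : ℝ) : ℂ) * UNI.om D.a‖
        ≤ |Int.fract (r p).1 - Int.fract (r q).1| +
          |Int.fract (r p).2 - Int.fract (r q).2| * ‖UNI.om D.a‖ := by
          refine (norm_add_le _ _).trans ?_
          rw [norm_mul, Complex.norm_real, Complex.norm_real, Real.norm_eq_abs, Real.norm_eq_abs]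
      _ ≤ 1 / k + 1 / k * ‖UNI.om D.a‖ := by
          have := mul_le_mul_of_nonneg_right h2 hω
          linarith
      _ = (1 + ‖UNI.om D.a‖) * (1 / k) := by ring
      _ ≤ 2 * (1 + ‖UNI.om D.a‖) * (1 / Y) := by
          have h3 : 1 / (k : ℝ) ≤ 1 / Y := one_div_le_one_div_of_le (by linarith) hYk
          have h4 : (0 : ℝ) < 1 / Y := by positivity
          have h5 := mul_le_mul_of_nonneg_left h3 (show (0 : ℝ) ≤ 1 + ‖UNI.om D.a‖ by linarith)
          have h6 := mul_nonneg (show (0 : ℝ) ≤ 1 + ‖UNI.om D.a‖ by linarith) h4.le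
          linarith
      _ = 2 * (1 + ‖UNI.om D.a‖) / Y := by ring

/-- Lagrange's identity -/
private theorem mk_lag (C : Mat) (w : Vec) :
    (‖C.a‖ ^ 2 + ‖C.c‖ ^ 2) * nq (C.act w) =
      ‖((‖C.a‖ ^ 2 + ‖C.c‖ ^ 2 : ℝ) : ℂ) * w.1 +
        (C.b * (starRingEnd ℂ) C.a + C.d * (starRingEnd ℂ) C.c) * w.2‖ ^ 2 +
      ‖C.det‖ ^ 2 * ‖w.2‖ ^ 2 := by
  have hn : ∀ x : ℂ, ((‖x‖ ^ 2 : ℝ) : ℂ) = x * (starRingEnd ℂ) x := by
    intro x
    rw [Complex.mul_conj, Complex.normSq_eq_norm_sq]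
  apply Complex.ofReal_injective
  simp only [nq, act_fst, act_snd, Complex.ofReal_mul, Complex.ofReal_add, hn, Mat.det]
  simp only [map_add, map_mul, map_sub, Complex.conj_conj, ← hn, Complex.conj_ofReal]
  simp only [hn]
  ring

theorem exists_kap (D : OD) : ∃ κ : ℝ, Kap D κ := by
  obtain ⟨c, hc, hdir⟩ := mk_dir D
  refine ⟨4 * c ^ 2, ⟨by nlinarith, ?_⟩⟩
  intro C hC
  -- a nonzero vector
  have hex : ∃ w : Vec, O2 D w ∧ w ≠ 0 ∧ nq (C.act w) ≤ 4 * c ^ 2 / 2 * ‖C.det‖ := by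
    have hΔ : 0 < ‖C.det‖ := norm_pos_iff.2 hC
    obtain ⟨A, hA⟩ : ∃ A : ℝ, A = ‖C.a‖ ^ 2 + ‖C.c‖ ^ 2 := ⟨_, rfl⟩
    have hA0 : 0 < A := by
      rw [hA]
      rcases eq_or_ne C.a 0 with ha | ha
      · have hc0 : C.c ≠ 0 := by
          intro hc0
          apply hC
          simp [Mat.det, ha, hc0]
        have := norm_pos_iff.2 hc0
        positivity
      · have := norm_pos_iff.2 ha
        positivity
    rcases le_total A ‖C.det‖ with hAd | hAd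
    · refine ⟨e1, ⟨D.O.one_mem, D.O.zero_mem⟩, by simp [e1], ?_⟩
      have e : nq (C.act e1) = A := by
        rw [hA]
        simp [nq, e1, Mat.act]
      rw [e]
      have h1 : 1 ≤ c ^ 2 := one_le_pow₀ hc
      have h2 := mul_le_mul_of_nonneg_right h1 hΔ.le
      linarith
    · obtain ⟨w, hw, hw0, h1, h2⟩ := hdir
        ((C.b * (starRingEnd ℂ) C.a + C.d * (starRingEnd ℂ) C.c) / A)
        (Real.sqrt (A / ‖C.det‖)) (by
          rw [Real.one_le_sqrt, one_le_div hΔ]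
          exact hAd)
      refine ⟨w, hw, hw0, ?_⟩
      have hAc : (A : ℂ) ≠ 0 := by exact_mod_cast hA0.ne'
      have hY : 0 < A / ‖C.det‖ := div_pos hA0 hΔ
      have hl := mk_lag C w
      rw [← hA] at hl
      have e : (A : ℂ) * w.1 + (C.b * (starRingEnd ℂ) C.a + C.d * (starRingEnd ℂ) C.c) * w.2 =
          A * (w.1 + (C.b * (starRingEnd ℂ) C.a + C.d * (starRingEnd ℂ) C.c) / A * w.2) := by
        field_simp
      rw [e, norm_mul, Complex.norm_real, Real.norm_of_nonneg hA0.le, mul_pow] at hl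
      have h3 : ‖w.2‖ ^ 2 ≤ c ^ 2 * (A / ‖C.det‖) := by
        have h := pow_le_pow_left₀ (norm_nonneg _) h1 2
        rwa [mul_pow, Real.sq_sqrt hY.le] at h
      have h4 : ‖w.1 + (C.b * (starRingEnd ℂ) C.a + C.d * (starRingEnd ℂ) C.c) / A * w.2‖ ^ 2 ≤
          c ^ 2 / (A / ‖C.det‖) := by
        have h := pow_le_pow_left₀ (norm_nonneg _) h2 2
        rwa [div_pow, Real.sq_sqrt hY.le] at h
      have h5 : A * nq (C.act w) ≤ A * (4 * c ^ 2 / 2 * ‖C.det‖) := by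
        rw [hl]
        have h6 := mul_le_mul_of_nonneg_left h4 (sq_nonneg A)
        have h7 := mul_le_mul_of_nonneg_left h3 (sq_nonneg ‖C.det‖)
        have e1 : A ^ 2 * (c ^ 2 / (A / ‖C.det‖)) = A * (c ^ 2 * ‖C.det‖) := by
          field_simp
        have e2 : ‖C.det‖ ^ 2 * (c ^ 2 * (A / ‖C.det‖)) = A * (c ^ 2 * ‖C.det‖) := by
          field_simp
        rw [e1] at h6
        rw [e2] at h7
        linarith
      exact le_of_mul_le_mul_left h5 hA0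
  obtain ⟨w, hw, hw0, h⟩ := hex
  obtain ⟨g, hg, hg0, w', hw', rfl⟩ := prim_part hw hw0
  refine ⟨w', hw', ?_⟩
  rw [act_smul, nq_smul] at h
  have h1 := nrm_one hg hg0
  have h2 : 1 ≤ ‖g‖ ^ 2 := one_le_pow₀ h1
  have h3 := nq_nonneg (C.act w')
  nlinarith

end RNK
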