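import Pool.Agent.RNK.Tr

/-!
# RNK.TrT: the ideal triangle, sum over the indices

`tri_total`: sum of `tri_t` over the `p + 1` indices `t`: error `(p + 1) C p^{-3/2} (1 + log p) → 0`.
Edge functionals: `E 1 1 f v11` (`‖1‖/‖1‖ = 1`), `E_ut` with `γ = 1`, `(ut 1) e2 = v11`:
`E 1 1 (f ∘ ut 1) e2 = EG 1 1 ((Ah 1).mul (ut (-1))) e1 f v11` (and `Ah 1` is the identity, `ep_congr`),
`E_g3` with `g3 e2 = v11`: `E 1 1 (f ∘ g3) e2 = EG 1 1 g3i e2 f v11`.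
-/

namespace RNK

variable {D : OD}

private theorem Ah_one_mul (g : Mat) : (Ah 1).mul g = g := by
  ext <;> simp [Mat.mul, Ah, dg]

private theorem dg_one_supp {f : Vec → ℂ} (hs : ∀ w, f w ≠ 0 → O2 D w) : SuppIn D 1 1 f :=
  fun w hw => ⟨w, hs w hw, (one_act w).symm⟩

private theorem card_T (π : PD D) : (Finset.univ : Finset π.T).card = π.p + 1 := by
  rw [Finset.card_univ, Fintype.card_option, ZMod.card]

private theorem err_tendsto (C : ℝ) :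
    Filter.Tendsto (fun x : ℝ => 2 * C * (x ^ (-(1 / 2 : ℝ)) * (1 + Real.log x)))
      Filter.atTop (nhds 0) := by
  have h1 : Filter.Tendsto (fun x : ℝ => x ^ (-(1 / 2 : ℝ))) Filter.atTop (nhds 0) :=
    tendsto_rpow_neg_atTop (by norm_num)
  have h2 : Filter.Tendsto (fun x : ℝ => Real.log x / x ^ (1 / 2 : ℝ)) Filter.atTop (nhds 0) :=
    (isLittleO_log_rpow_atTop (by norm_num)).tendsto_div_nhds_zero
  have h3 : Filter.Tendsto (fun x : ℝ => x ^ (-(1 / 2 : ℝ)) + Real.log x / x ^ (1 / 2 : ℝ))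
      Filter.atTop (nhds 0) := by
    have := h1.add h2
    rwa [add_zero] at this
  have h4 := h3.const_mul (2 * C)
  rw [mul_zero] at h4
  refine h4.congr' ?_
  filter_upwards [Filter.eventually_gt_atTop 0] with x hx
  rw [Real.rpow_neg hx.le]
  ring

theorem tri_total (S : Coc D) {κ : ℝ} (hκ : Kap D κ) {M : ℕ} (hM : 0 < M) (V : Finset ℂ)
    (hV : ∀ v ∈ V, v ∈ D.K) {f : Vec → ℂ} (hf : Fn D M V f) :
    Tends0 (fun π : PD D => ∑ t : π.T, S.s (fun w => f w * π.ind t w) e2 e1 v11 v11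
      + (E S κ π 1 1 f v11 - E S κ π 1 1 (fun w => f ((ut 1).act w)) e2
        + E S κ π 1 1 (fun w => f (g3.act w)) e2)) := by
  obtain ⟨C, hC, hb⟩ := tri_t S hκ hM V hV
  intro ε hε
  have hA : AdmE D f := Fn_AdmE hM hV hf
  have hev := (err_tendsto C).eventually (gt_mem_nhds hε)
  obtain ⟨X, hX⟩ := Filter.eventually_atTop.1 hev
  refine ⟨⌈X⌉₊, fun π hπ => ?_⟩
  have hpX : X ≤ (π.p : ℝ) := (Nat.le_ceil X).trans (by exact_mod_cast hπ.le)
  have hL : Lt π 1 1 := ⟨D.O.one_mem, D.O.one_mem, by rw [π.rone]; exact one_ne_zero,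
    by rw [π.rone]; exact one_ne_zero⟩
  have hs : SuppIn D 1 1 f := dg_one_supp hf.supp
  have k2 : K2 D e2 := Cu_e2.1
  have e11 : ‖(1 : ℂ)‖ / ‖(1 : ℂ)‖ = 1 := by simp
  have u1 : (ut 1).act e2 = v11 := by
    ext <;> simp [ut, e2, v11]
  have u2 : g3.act e2 = v11 := by
    ext <;> simp [g3, e2, v11]
  have E1 : E S κ π 1 1 f v11 =
      ∑ t : π.T, ep S κ (π.B 1 1 t) (Ah 1) e1 (fun w => f w * π.ind t w) v11 := by
    unfold E EG
    rw [e11]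
  have E2 : E S κ π 1 1 (fun w => f ((ut 1).act w)) e2 =
      ∑ t : π.T, ep S κ (π.B 1 1 t) (ut (-1)) e1 (fun w => f w * π.ind t w) v11 := by
    rw [E_ut S hκ π hL D.O.one_mem ⟨1, D.O.one_mem, (one_mul _).symm⟩ hA hs k2, u1, e11,
      Ah_one_mul]
    rfl
  have E3 : E S κ π 1 1 (fun w => f (g3.act w)) e2 =
      ∑ t : π.T, ep S κ (π.B 1 1 t) g3i e2 (fun w => f w * π.ind t w) v11 := by
    rw [E_g3 S hκ π hA hf.supp k2, u2]
    rfl
  beta_reduce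
  rw [E1, E2, E3, ← Finset.sum_sub_distrib, ← Finset.sum_add_distrib, ← Finset.sum_add_distrib]
  refine (norm_sum_le _ _).trans ?_
  have hp1 : (1 : ℝ) ≤ π.p := by exact_mod_cast π.hp.one_lt.le
  have hp0 : (0 : ℝ) < π.p := by linarith
  have hlp : 0 ≤ Real.log π.p := Real.log_nonneg hp1
  have hterm : ∀ t ∈ (Finset.univ : Finset π.T),
      ‖S.s (fun w => f w * π.ind t w) e2 e1 v11 v11
        + (ep S κ (π.B 1 1 t) (Ah 1) e1 (fun w => f w * π.ind t w) v11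
        - ep S κ (π.B 1 1 t) (ut (-1)) e1 (fun w => f w * π.ind t w) v11
        + ep S κ (π.B 1 1 t) g3i e2 (fun w => f w * π.ind t w) v11)‖ ≤
        C * ((π.p : ℝ) ^ (-(3 / 2 : ℝ)) * (1 + Real.log π.p)) := by
    intro t _
    have h := hb π f hf t
    have e : S.s (fun w => f w * π.ind t w) e2 e1 v11 v11
        + (ep S κ (π.B 1 1 t) (Ah 1) e1 (fun w => f w * π.ind t w) v11
        - ep S κ (π.B 1 1 t) (ut (-1)) e1 (fun w => f w * π.ind t w) v11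
        + ep S κ (π.B 1 1 t) g3i e2 (fun w => f w * π.ind t w) v11) =
        S.s (fun w => f w * π.ind t w) e2 e1 v11 v11
        + ep S κ (π.B 1 1 t) (Ah 1) e1 (fun w => f w * π.ind t w) v11
        - ep S κ (π.B 1 1 t) (ut (-1)) e1 (fun w => f w * π.ind t w) v11
        + ep S κ (π.B 1 1 t) g3i e2 (fun w => f w * π.ind t w) v11 := by ring
    rw [e]
    exact h
  refine (Finset.sum_le_sum hterm).trans ?_
  rw [Finset.sum_const, card_T, nsmul_eq_mul]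
  refine le_trans ?_ (hX π.p hpX).le
  have h1 : (π.p : ℝ) ^ (-(3 / 2 : ℝ)) = (π.p : ℝ)⁻¹ * (π.p : ℝ) ^ (-(1 / 2 : ℝ)) := by
    rw [← Real.rpow_neg_one, ← Real.rpow_add hp0]
    norm_num
  rw [h1]
  push_cast
  have h2 : 0 ≤ (π.p : ℝ) ^ (-(1 / 2 : ℝ)) := Real.rpow_nonneg hp0.le _
  have h3 : ((π.p : ℝ) + 1) * (π.p : ℝ)⁻¹ ≤ 2 := by
    rw [← div_eq_mul_inv, div_le_iff₀ hp0]
    linarith
  have h4 : 0 ≤ C * ((π.p : ℝ) ^ (-(1 / 2 : ℝ)) * (1 + Real.log π.p)) := by positivity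
  calc ((π.p : ℝ) + 1) * (C * ((π.p : ℝ)⁻¹ * (π.p : ℝ) ^ (-(1 / 2 : ℝ)) * (1 + Real.log π.p)))
      = (((π.p : ℝ) + 1) * (π.p : ℝ)⁻¹) *
        (C * ((π.p : ℝ) ^ (-(1 / 2 : ℝ)) * (1 + Real.log π.p))) := by ring
    _ ≤ 2 * (C * ((π.p : ℝ) ^ (-(1 / 2 : ℝ)) * (1 + Real.log π.p))) := by gcongr
    _ = _ := by ring

end RNK
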