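import Pool.Agent.RNK.PfF

/-!
# RNK.Ts: the sum over `t` of `s (f 1_t)`

`f ∈ Fn D M V`, `M < p`. On `O²`: `Σ_t 1_t = 1 + p 1_{π O²}` (`ind_sum`), so
`Σ_t f 1_t = f + p φ`, `φ w = f w` if `w ∈ π O²`, else `0`; by `inv` (`π.w` is prime to `M`, `PD.cop`)
`φ w = f (π.w⁻¹ w)` for all `w` (if `w = π u`, `u ∈ O²`: `f (π u) = f u`; if `w ∉ π O²` then
`π.w⁻¹ w ∉ O²`, `f = 0`). `equiv` for `g = dg π.w⁻¹ π.w⁻¹`: `φ = f ∘ g`,
`s (f ∘ g) x y z p = |π.w|⁻⁴ s f (g x) (g y) (g z) (g p)`, and `s f (g x) (g y) (g z) (g p) =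
s f x y z (π.w⁻¹ p) = π.w⁻² s f x y z p` (`scal` in all three places, `quad`). `|π.w|² = p`. Additivity by
`add` and `smul` (finite sum over `t`, `AdmE_ind`).
-/

namespace RNK

variable {D : OD}

/-- `scal` in all places and `quad` -/
theorem s_scal (S : Coc D) {f : Vec → ℂ} (hf : AdmE D f) {k : ℂ} (hk : k ∈ D.K) (h0 : k ≠ 0)
    {x y z p : Vec} (hx : Cu D x) (hy : Cu D y) (hz : Cu D z) (hp : K2 D p) :
    S.s f (k • x) (k • y) (k • z) (k • p) = k ^ 2 * S.s f x y z p := by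
  have hkx := Cu_smul hk h0 hx
  have hky := Cu_smul hk h0 hy
  have hkz := Cu_smul hk h0 hz
  have hkp := K2_smul hk hp
  have e1 : S.s f (k • x) (k • y) (k • z) (k • p) = S.s f x (k • y) (k • z) (k • p) :=
    S.scal f hf k hk h0 x (k • y) (k • z) (k • p) hx hky hkz hkp
  have e2 : S.s f x (k • y) (k • z) (k • p) = S.s f x y (k • z) (k • p) := by
    rw [S.a12 f hf (k • y) x (k • z) (k • p) hky hx hkz hkp,
      S.scal f hf k hk h0 y x (k • z) (k • p) hy hx hkz hkp,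
      S.a12 f hf x y (k • z) (k • p) hx hy hkz hkp, neg_neg]
  have e3 : S.s f x y (k • z) (k • p) = S.s f x y z (k • p) := by
    rw [S.a23 f hf x (k • z) y (k • p) hx hkz hy hkp,
      S.a12 f hf (k • z) x y (k • p) hkz hx hy hkp,
      S.scal f hf k hk h0 z x y (k • p) hz hx hy hkp,
      S.a12 f hf x z y (k • p) hx hz hy hkp,
      S.a23 f hf x y z (k • p) hx hy hz hkp]
    ring
  rw [e1, e2, e3]
  obtain ⟨S11, S12, S22, hS⟩ := S.quad f hf x y z hx hy hz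
  rw [hS _ hkp, hS _ hp]
  simp only [Prod.smul_fst, Prod.smul_snd, smul_eq_mul]
  ring

private theorem ts_zero (S : Coc D) {x y z p : Vec} (hx : Cu D x) (hy : Cu D y) (hz : Cu D z)
    (hp : K2 D p) : S.s (fun _ => 0) x y z p = 0 := by
  have h := S.smul (fun _ => 0) (AdmE_zero D) 0 D.K.zero_mem x y z p hx hy hz hp
  simpa only [zero_mul] using h

private theorem ts_sum (S : Coc D) {ι : Type*} (T : Finset ι) (F : ι → Vec → ℂ)
    (hF : ∀ i, AdmE D (F i)) {x y z p : Vec} (hx : Cu D x) (hy : Cu D y) (hz : Cu D z)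
    (hp : K2 D p) :
    ∑ i ∈ T, S.s (F i) x y z p = S.s (fun w => ∑ i ∈ T, F i w) x y z p := by
  classical
  induction T using Finset.induction_on with
  | empty => simp only [Finset.sum_empty]; exact (ts_zero S hx hy hz hp).symm
  | insert i T hi ih =>
    rw [Finset.sum_insert hi, ih]
    have h := S.add (F i) (fun w => ∑ j ∈ T, F j w) (hF i) (AdmE_sum T fun j _ => hF j)
      x y z p hx hy hz hp
    rw [← h]
    congr 1
    funext w
    rw [Finset.sum_insert hi]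

theorem sum_t (S : Coc D) (π : PD D) {M : ℕ} (hM : 0 < M) (hMp : M < π.p) {V : Finset ℂ}
    (hV : ∀ v ∈ V, v ∈ D.K) {f : Vec → ℂ} (hf : Fn D M V f) {x y z p : Vec} (hx : Cu D x)
    (hy : Cu D y) (hz : Cu D z) (hp : K2 D p) :
    ∑ t : π.T, S.s (fun w => f w * π.ind t w) x y z p =
      (1 + 1 / (π.p * π.w ^ 2)) * S.s f x y z p := by
  classical
  have hA : AdmE D f := Fn_AdmE hM hV hf
  have hw0 : π.w ≠ 0 := PD.wne π
  have hwK : π.w⁻¹ ∈ D.K := D.K.inv_mem (O_sub_K π.hw)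
  have hwi : π.w⁻¹ ≠ 0 := inv_ne_zero hw0
  have hg : GK D (dg π.w⁻¹ π.w⁻¹) := GK_dg hwK hwK hwi hwi
  have hgact : ∀ w : Vec, (dg π.w⁻¹ π.w⁻¹).act w = π.w⁻¹ • w := fun w => by
    rw [dg_act]; rfl
  have hcop : Cop D π.w M := PD.cop π hM hMp
  -- the sum of the functions
  have hfun : (fun w => ∑ t : π.T, f w * π.ind t w) =
      fun w => f w + (π.p : ℂ) * f ((dg π.w⁻¹ π.w⁻¹).act w) := by
    funext w
    rw [hgact]
    have hback : ∀ u : Vec, π.w⁻¹ • (π.w • u) = u := fun u => by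
      rw [smul_smul, inv_mul_cancel₀ hw0, one_smul]
    have hforth : ∀ u : Vec, π.w • (π.w⁻¹ • u) = u := fun u => by
      rw [smul_smul, mul_inv_cancel₀ hw0, one_smul]
    by_cases h : f w = 0
    · have h2 : f (π.w⁻¹ • w) = 0 := by
        by_contra hne
        have hO := hf.supp _ hne
        have h3 := hf.inv π.w hcop _ hO
        rw [hforth] at h3
        exact hne (h3.symm.trans h)
      simp [h, h2]
    · have hO := hf.supp _ h
      rw [← Finset.mul_sum, ind_sum π hO]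
      by_cases hu : ∃ u, O2 D u ∧ w = π.w • u
      · rw [if_pos hu]
        obtain ⟨u, hu1, rfl⟩ := hu
        rw [hback, hf.inv π.w hcop _ hu1]
        ring
      · rw [if_neg hu]
        have h2 : f (π.w⁻¹ • w) = 0 := by
          by_contra hne
          exact hu ⟨_, hf.supp _ hne, (hforth w).symm⟩
        rw [h2]
        ring
  rw [ts_sum S Finset.univ (fun t w => f w * π.ind t w) (fun t => AdmE_ind π hA hf.supp t)
    hx hy hz hp, hfun]
  have hAg : AdmE D (fun w => f ((dg π.w⁻¹ π.w⁻¹).act w)) := AdmE_act hg hA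
  have hpK : (π.p : ℂ) ∈ D.K := O_sub_K (nat_O π.p)
  rw [S.add f (fun w => (π.p : ℂ) * f ((dg π.w⁻¹ π.w⁻¹).act w)) hA (AdmE_smul hpK hAg)
    x y z p hx hy hz hp, S.smul _ hAg _ hpK x y z p hx hy hz hp,
    S.equiv f hA _ hg x y z p hx hy hz hp]
  simp only [hgact]
  rw [s_scal S hA hwK hwi hx hy hz hp, det_dg, norm_mul, norm_inv]
  have hns : ((‖π.w‖ : ℝ) : ℂ) ^ 2 = (π.p : ℂ) := by
    have := PD.nsq π
    exact_mod_cast this
  have hp0 : (π.p : ℂ) ≠ 0 := by exact_mod_cast π.hp.ne_zero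
  have hn0 : ((‖π.w‖ : ℝ) : ℂ) ≠ 0 := by
    intro h
    rw [h] at hns
    exact hp0 (by rw [← hns]; ring)
  have e : (((‖π.w‖⁻¹ * ‖π.w‖⁻¹) ^ 2 : ℝ) : ℂ) = ((π.p : ℂ) ^ 2)⁻¹ := by
    push_cast
    rw [← hns]
    field_simp
  rw [e]
  field_simp

end RNK
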