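import Pool.Agent.RNK.In
import Pool.Agent.RNK.TrT
import Pool.Agent.RNK.Ts
import Pool.Agent.RNK.Mk

/-!
# RNK.Ab: the abstract theorem

`κ` from `exists_kap`. `f` is even in `x`, antisymmetric. `tri_total`:
`Σ_t s (f 1_t) e2 e1 v11 v11 + (E f v11 - E (f ∘ ut 1) e2 + E (f ∘ g3) e2) → 0`.
* `f ∘ g3 (x, y) = f (y, x + y) = - f (x + y, y)`, so `E (f ∘ g3) e2 = - E (f ∘ ut 1) e2`.
* `E f v11 = 2 E f e2`: by `EG_quad` `E f p = p₁² S11 + p₁ p₂ S12 + p₂² S22`; `E_neg` with `f ∘ dg (-1) 1 = f`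
  gives `S12 = 0` (compare `v11` and `(-1, 1)`); `E_swp` (`α = β = 1`, `f ∘ swp = -f`):
  `-E f p = -E f (swp p)`, so `S11 = S22`.
* so the edge terms are `2 E g e2`, `g = f - f ∘ ut 1`, which is in the class `Gc D N V J q`
  (`hc`): `E_class` gives `→ 0`.
* `sum_t`: `Σ_t s (f 1_t) = (1 + 1/(p π²)) s f`, and `|1/(p π²)| = p⁻²`.
So `s f e2 e1 v11 v11` is arbitrarily small (there are arbitrarily large primes, `hinf`), so it is `0`.
-/

namespace RNK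

variable {D : OD}

private theorem Ab_g3 {f : Vec → ℂ} (h2 : ∀ x y, f (y, x) = -f (x, y)) :
    (fun w => f (g3.act w)) = fun w => (-1) * f ((ut 1).act w) := by
  funext w
  have e1 : g3.act w = (w.2, w.1 + w.2) := by
    ext
    · simp [g3, Mat.act]
    · simp [g3, Mat.act]
  rw [e1, ut_act, one_mul, neg_one_mul]
  exact h2 _ _

/-- `E f v11 = 2 E f e2` -/
private theorem Ab_v11 (S : Coc D) {κ : ℝ} (hκ : Kap D κ) (π : PD D) {f : Vec → ℂ}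
    (hA : AdmE D f) (hs : SuppIn D 1 1 f) (h1 : ∀ x y, f (-x, y) = f (x, y))
    (h2 : ∀ x y, f (y, x) = -f (x, y)) :
    E S κ π 1 1 f v11 = 2 * E S κ π 1 1 f e2 := by
  have hL := Lt_one π
  have hm : 0 < ‖(1 : ℂ)‖ / ‖(1 : ℂ)‖ := by simp
  have hm1 : (-1 : ℂ) ∈ D.K := D.K.neg_mem D.K.one_mem
  obtain ⟨S11, S12, S22, hq⟩ := EG_quad S hκ π hL (geo_Ah D hm) hA hs
  have hE : ∀ p, K2 D p → E S κ π 1 1 f p = p.1 ^ 2 * S11 + p.1 * p.2 * S12 + p.2 ^ 2 * S22 :=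
    fun p hp => hq p hp
  have k11 : K2 D v11 := ⟨D.K.one_mem, D.K.one_mem⟩
  have k1 : K2 D e1 := ⟨D.K.one_mem, D.K.zero_mem⟩
  have km : K2 D ((-1 : ℂ), (1 : ℂ)) := ⟨hm1, D.K.one_mem⟩
  -- the sign
  have a1 := E_neg S hκ π hL hA hs (p := v11) k11
  have e1' : (fun w => f ((dg (-1) 1).act w)) = f := by
    funext w
    rw [dg_act, neg_one_mul, one_mul]
    exact h1 _ _
  have e2' : (dg (-1) 1).act v11 = ((-1 : ℂ), (1 : ℂ)) := by
    rw [dg_act]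
    simp [v11]
  rw [e1', e2', hE _ k11, hE _ km] at a1
  -- the swap
  have a2 := E_swp S hκ π hL hA hs (p := e2) K2_e2
  have e3' : (fun w => f (swp.act w)) = fun w => (-1) * f w := by
    funext w
    rw [swp_act, neg_one_mul]
    exact h2 _ _
  have e4' : swp.act e2 = e1 := by
    rw [swp_act]
    simp [e1, e2]
  rw [e3', e4', E_smul' S hκ π hL one_ne_zero one_ne_zero hA hs hm1 K2_e2, hE _ K2_e2,
    hE _ k1] at a2
  rw [hE _ k11, hE _ K2_e2]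
  simp only [v11, e1, e2] at a1 a2 ⊢
  linear_combination (1 / 2 : ℂ) * a1 + a2

theorem tri_abs (hinf : ∀ P0 : ℕ, ∃ π : PD D, P0 < π.p) (S : Coc D) {N : ℕ} [NeZero N]
    {V : Finset ℂ} (hV : ∀ v ∈ V, v ∈ D.K) {f : Vec → ℂ} (hf : Fn D N V f)
    (h1 : ∀ x y, f (-x, y) = f (x, y)) (h2 : ∀ x y, f (y, x) = -f (x, y))
    {J : ℕ} {q : Fin J → ℂ} (hq : ∀ j, q j ∈ D.O ∧ q j ≠ 0) {ψ : Fin J → Vec → ℂ}
    (hψ : ∀ j, Fn D N V (ψ j))
    (hav : ∀ j, ∀ y ∈ D.O,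
      ∑ k : ZMod N × ZMod N, ψ j (UNI.xx D.a ((k.1.val : ℤ), (k.2.val : ℤ)), y) = 0)
    {θ : Vec → ℂ} (hθ : Fn D N V θ) (ho : ∀ x y, θ (-x, y) = -θ (x, y))
    (hc : ∀ x y, f (x, y) - f (x + y, y) =
      ∑ j, (Tq (q j) (ψ j) (x, y) - ψ j (x, y)) + θ (x, y)) :
    S.s f e2 e1 v11 v11 = 0 := by
  obtain ⟨κ, hκ⟩ := exists_kap D
  have hN : 0 < N := Nat.pos_of_ne_zero (NeZero.ne N)
  have hA : AdmE D f := Fn_AdmE hN hV hf
  have hs : SuppIn D 1 1 f := supp_one hf.supp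
  have hm1 : (-1 : ℂ) ∈ D.K := D.K.neg_mem D.K.one_mem
  have hu : Fn D N V (fun w => f ((ut 1).act w)) := Fn_GO hf (GO_ut D.O.one_mem)
  have hAu : AdmE D (fun w => f ((ut 1).act w)) := Fn_AdmE hN hV hu
  have hsu : SuppIn D 1 1 (fun w => f ((ut 1).act w)) := supp_one hu.supp
  have k11 : K2 D v11 := ⟨D.K.one_mem, D.K.one_mem⟩
  -- the class
  have hG : Gc D N V J q (fun w => f w - f ((ut 1).act w)) := by
    refine ⟨⟨V, hV, f, hf, 1, D.O.one_mem, fun w => rfl⟩,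
      ⟨ψ, θ, V, hV, hψ, hθ, hav, ho, fun w => ?_⟩⟩
    rw [ut_act, one_mul]
    exact hc w.1 w.2
  have hcl := E_class S hκ V hV hq hG
  have htot := tri_total S hκ hN V hV hf
  -- the edge terms
  have hedge : ∀ π : PD D, E S κ π 1 1 f v11 - E S κ π 1 1 (fun w => f ((ut 1).act w)) e2
        + E S κ π 1 1 (fun w => f (g3.act w)) e2 =
        2 * E S κ π 1 1 (fun w => f w - f ((ut 1).act w)) e2 := by
    intro π
    have hL := Lt_one π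
    rw [Ab_v11 S hκ π hA hs h1 h2, Ab_g3 h2,
      E_smul' S hκ π hL one_ne_zero one_ne_zero hAu hsu hm1 K2_e2,
      E_sub' S hκ π hL one_ne_zero one_ne_zero hA hAu hs hsu K2_e2]
    ring
  -- conclusion
  by_contra hne
  have hpos : 0 < ‖S.s f e2 e1 v11 v11‖ := norm_pos_iff.2 hne
  obtain ⟨P1, hP1⟩ := htot (‖S.s f e2 e1 v11 v11‖ / 8) (by linarith)
  obtain ⟨P2, hP2⟩ := hcl (‖S.s f e2 e1 v11 v11‖ / 8) (by linarith)
  obtain ⟨π, hπ⟩ := hinf (max N (max P1 P2))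
  have b0 : N < π.p := lt_of_le_of_lt (le_max_left _ _) hπ
  have b1 := hP1 π (lt_of_le_of_lt ((le_max_left _ _).trans (le_max_right _ _)) hπ)
  have b2 := hP2 π (lt_of_le_of_lt ((le_max_right _ _).trans (le_max_right _ _)) hπ)
  beta_reduce at b1 b2
  rw [hedge π, sum_t S π hN b0 hV hf Cu_e2 Cu_e1 Cu_v11 k11] at b1
  set s := S.s f e2 e1 v11 v11
  set g := E S κ π 1 1 (fun w => f w - f ((ut 1).act w)) e2
  have hp2 : (2 : ℝ) ≤ π.p := by exact_mod_cast π.hp.two_le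
  have hnw : ‖(1 : ℂ) / (π.p * π.w ^ 2)‖ ≤ 1 / 4 := by
    rw [norm_div, norm_one, norm_mul, norm_pow, π.nsq, Complex.norm_natCast]
    have h4 : (4 : ℝ) ≤ (π.p : ℝ) * π.p := by nlinarith
    exact one_div_le_one_div_of_le (by norm_num) h4
  have e : s = ((1 + 1 / (π.p * π.w ^ 2)) * s + 2 * g) - 1 / (π.p * π.w ^ 2) * s - 2 * g := by
    ring
  have hb : ‖s‖ ≤ ‖s‖ / 8 + 1 / 4 * ‖s‖ + 2 * (‖s‖ / 8) := by
    calc ‖s‖ = ‖((1 + 1 / (π.p * π.w ^ 2)) * s + 2 * g) - 1 / (π.p * π.w ^ 2) * s - 2 * g‖ := by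
          rw [← e]
      _ ≤ ‖((1 + 1 / (π.p * π.w ^ 2)) * s + 2 * g) - 1 / (π.p * π.w ^ 2) * s‖ + ‖2 * g‖ :=
          norm_sub_le _ _
      _ ≤ ‖(1 + 1 / (π.p * π.w ^ 2)) * s + 2 * g‖ + ‖1 / (π.p * π.w ^ 2) * s‖ + ‖2 * g‖ :=
          add_le_add (norm_sub_le _ _) le_rfl
      _ ≤ ‖s‖ / 8 + 1 / 4 * ‖s‖ + 2 * (‖s‖ / 8) := by
          refine add_le_add (add_le_add b1 ?_) ?_
          · rw [norm_mul]
            exact mul_le_mul_of_nonneg_right hnw (norm_nonneg _)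
          · rw [norm_mul, Complex.norm_ofNat]
            exact mul_le_mul_of_nonneg_left b2 (by norm_num)
  linarith

end RNK
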