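import Pool.Agent.RNK.DqS
import Pool.Agent.RNK.FcD

/-!
# RNK.Av: the difference `E (T_q ψ) - E ψ`

`ψ ∈ Fn D N V`, `q ∈ O` not `0`, `Tq q ψ (x, y) = |q|² ψ (x/q, y)` (`RNK.Fc`), `ψq w = ψ (w / q)`.
`Tq_DE`: for `π` large (`r q ≠ 0`; `PD.rne`): by `E_dg`
 `E 1 1 (T_q ψ) e2 = |q|² q² E 1 q ((T_q ψ) ∘ dg 1 q⁻¹) e2` (`E_dg` with `a = 1`, `d = q`, applied to the
 function `F = (T_q ψ) ∘ dg 1 q⁻¹`, `F ∘ dg 1 q = T_q ψ`; `(dg 1 q) e2 = q e2`, and `E .. (q e2) = q² E .. e2`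
 by `EG_quad`), `F (x, y) = |q|² ψ (x/q, y/q) = |q|² ψq`;
 `E 1 1 ψ e2 = |q²|² q² E q q ψq e2` (`a = d = q`). So the difference is
 `|q|⁴ q² (E 1 q ψq e2 - E q q ψq e2) = |q|⁴ q² DE 1 q q q ψq`.
 `Lp2 D 1 q q q` holds. `ψq` is supported on `q O ⊕ q O`, and `ψq ∈ Fn D (N |q|²) V` (period `N q`; `inv`
 for `x` prime to `N |q|²`: if `w ∈ q O²` clear, else `x w ∉ q O²` and both are `0`).

`bdH`: `bdD`. (`Fn` is finite but this is not needed: `C` in `bdD` is uniform in `f`.)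

`avH`: `ψ` is supported on `y` prime to `N` and `Σ_x ψ (x, y) = 0`. `shiftU` with `f = ψq` and `γ`:
`ψq ∘ ut γ = (ψ ∘ ut γ)q`. Let `R` be the `N²` residues `γ_k = UNI.xx a (k.1.val, k.2.val)`. `DE` is additive
in `f` (`EG_add`), `Σ_k ψ ∘ ut γ_k = 0`: at `(x, y) ∈ O²` with `y` prime to `N`:
`Σ_k ψ (x + γ_k y, y) = Σ_k ψ (x_k, y) = 0` (`sum_resid` with `c = y`), at other vectors all terms vanish. So
`N² DE ψq = Σ_k (DE ψq - DE (ψq ∘ ut γ_k)) → 0`.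
-/

namespace RNK

variable {D : OD}

private theorem av_geo {π : PD D} {α β : ℂ} (h : Lt π α β) :
    Geo D (Ah (‖α‖ / ‖β‖)) e1 e2 :=
  geo_Ah D (div_pos (norm_pos_iff.2 (π.ne_of_r h.ra)) (norm_pos_iff.2 (π.ne_of_r h.rb)))

theorem E_add (S : Coc D) {κ : ℝ} (hκ : Kap D κ) (π : PD D) {α β : ℂ} (h1 : Lt π α β)
    {f g : Vec → ℂ} (hf : AdmE D f) (hg : AdmE D g) (hs : SuppIn D α β f)
    (hs' : SuppIn D α β g) {p : Vec} (hp : K2 D p) :
    E S κ π α β (fun w => f w + g w) p = E S κ π α β f p + E S κ π α β g p :=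
  EG_add S hκ π h1 (av_geo h1) hf hg hs hs' hp

theorem E_zero (S : Coc D) {κ : ℝ} (π : PD D) (α β : ℂ) (p : Vec) (hκ : Kap D κ)
    (h1 : Lt π α β) (hp : K2 D p) : E S κ π α β (fun _ => 0) p = 0 := by
  have hs : SuppIn D α β (fun _ : Vec => (0 : ℂ)) := fun w hw => absurd rfl hw
  have h := E_add S hκ π h1 (AdmE_zero D) (AdmE_zero D) hs hs hp
  simp only [add_zero] at h
  exact left_eq_add.1 h

/-- homogeneity in the last argument -/
theorem E_hom (S : Coc D) {κ : ℝ} (hκ : Kap D κ) (π : PD D) {α β : ℂ} (h1 : Lt π α β)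
    {f : Vec → ℂ} (hf : AdmE D f) (hs : SuppIn D α β f) {k : ℂ} (hk : k ∈ D.K) {p : Vec}
    (hp : K2 D p) : E S κ π α β f (k • p) = k ^ 2 * E S κ π α β f p := by
  obtain ⟨a, b, c, h⟩ := EG_quad S hκ π h1 (av_geo h1) hf hs
  unfold E
  rw [h _ (K2_smul hk hp), h _ hp]
  simp only [Prod.smul_fst, Prod.smul_snd, smul_eq_mul]
  ring

private theorem av_smul (S : Coc D) {κ : ℝ} (hκ : Kap D κ) (π : PD D) {α β : ℂ} (h1 : Lt π α β)
    {f : Vec → ℂ} (hf : AdmE D f) (hs : SuppIn D α β f) {k : ℂ} (hk : k ∈ D.K) {p : Vec}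
    (hp : K2 D p) : E S κ π α β (fun w => k * f w) p = k * E S κ π α β f p :=
  EG_smul S hκ π h1 (av_geo h1) hf hs hk hp

theorem Lt_large {α β : ℂ} (ha : α ∈ D.O) (hb : β ∈ D.O) (ha0 : α ≠ 0) (hb0 : β ≠ 0) :
    ∃ P0 : ℕ, ∀ π : PD D, P0 < π.p → Lt π α β := by
  obtain ⟨P0, hP⟩ := exists_nat_gt (max (‖α‖ ^ 2) (‖β‖ ^ 2))
  refine ⟨P0, fun π hπ => ⟨ha, hb, π.rne ha ha0 ?_, π.rne hb hb0 ?_⟩⟩
  · have h1 := le_max_left (‖α‖ ^ 2) (‖β‖ ^ 2)
    have h2 : (P0 : ℝ) < π.p := by exact_mod_cast hπ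
    linarith
  · have h1 := le_max_right (‖α‖ ^ 2) (‖β‖ ^ 2)
    have h2 : (P0 : ℝ) < π.p := by exact_mod_cast hπ
    linarith

/-- `ψ (w / q)` -/
private noncomputable def av_q (q : ℂ) (ψ : Vec → ℂ) (w : Vec) : ℂ := ψ (w.1 / q, w.2 / q)

private theorem av_q_supp {q : ℂ} (h0 : q ≠ 0) {ψ : Vec → ℂ} (hs : ∀ w, ψ w ≠ 0 → O2 D w) :
    SuppIn D q q (av_q q ψ) := by
  intro w hw
  refine ⟨(w.1 / q, w.2 / q), hs _ hw, ?_⟩
  rw [dg_act]
  ext
  · show w.1 = q * (w.1 / q)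
    field_simp
  · show w.2 = q * (w.2 / q)
    field_simp

private theorem av_supp1 {q : ℂ} (hq : q ∈ D.O) {f : Vec → ℂ} (hs : SuppIn D q q f) :
    SuppIn D 1 q f := by
  intro w hw
  obtain ⟨u, hu, rfl⟩ := hs w hw
  refine ⟨(q * u.1, u.2), ⟨D.O.mul_mem hq hu.1, hu.2⟩, ?_⟩
  rw [dg_act, dg_act]
  simp

private theorem av_q_adm {q : ℂ} (hq : q ∈ D.O) (h0 : q ≠ 0) {ψ : Vec → ℂ} (hf : AdmE D ψ) :
    AdmE D (av_q q ψ) := by
  have hK : q⁻¹ ∈ D.K := D.K.inv_mem (O_sub_K hq)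
  have h := AdmE_act (GK_dg hK hK (inv_ne_zero h0) (inv_ne_zero h0)) hf
  refine (congrArg (AdmE D) ?_).mp h
  funext w
  rw [dg_act]
  unfold av_q
  rw [div_eq_inv_mul, div_eq_inv_mul]

private theorem av_q_Fn {N n : ℕ} {V : Finset ℂ} {q : ℂ} (hq : q ∈ D.O) (h0 : q ≠ 0)
    (hn : q * (starRingEnd ℂ) q = n) {ψ : Vec → ℂ} (hψ : Fn D N V ψ) :
    Fn D (N * n) V (av_q q ψ) := by
  refine ⟨fun w hw => hψ.val _ hw, fun w hw => ?_, fun w v hv => ?_, fun x hx w hw => ?_⟩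
  · have h := hψ.supp _ hw
    refine ⟨?_, ?_⟩
    · have h1 := D.O.mul_mem hq h.1
      have e : q * (w.1 / q) = w.1 := by field_simp
      rwa [e] at h1
    · have h1 := D.O.mul_mem hq h.2
      have e : q * (w.2 / q) = w.2 := by field_simp
      rwa [e] at h1
  · unfold av_q
    have h1 : O2 D ((starRingEnd ℂ) q • v) := O2_smul (cj_Ord hq) hv
    have e : (((w + ((N * n : ℕ) : ℂ) • v).1 / q, (w + ((N * n : ℕ) : ℂ) • v).2 / q) : Vec) =
        ((w.1 / q, w.2 / q) : Vec) + (N : ℂ) • ((starRingEnd ℂ) q • v) := by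
      ext
      · simp only [Prod.fst_add, Prod.smul_fst, smul_eq_mul]
        push_cast
        rw [← hn]
        field_simp
      · simp only [Prod.snd_add, Prod.smul_snd, smul_eq_mul]
        push_cast
        rw [← hn]
        field_simp
    rw [e]
    exact hψ.per _ _ h1
  · unfold av_q
    have hxN : Cop D x N := by
      refine cop_dvd hx (nat_O N) ⟨(n : ℂ), nat_O n, ?_⟩
      push_cast
      ring
    have hxq : Cop D x q := by
      refine cop_dvd hx hq ⟨(N : ℂ) * (starRingEnd ℂ) q,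
        D.O.mul_mem (nat_O N) (cj_Ord hq), ?_⟩
      push_cast
      rw [← hn]
      ring
    have e : (((x • w).1 / q, (x • w).2 / q) : Vec) = x • ((w.1 / q, w.2 / q) : Vec) := by
      ext
      · simp only [Prod.smul_fst, smul_eq_mul]
        ring
      · simp only [Prod.smul_snd, smul_eq_mul]
        ring
    rw [e]
    by_cases hO : O2 D ((w.1 / q, w.2 / q) : Vec)
    · exact hψ.inv x hxN _ hO
    · have h1 : ψ ((w.1 / q, w.2 / q) : Vec) = 0 := by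
        by_contra hne
        exact hO (hψ.supp _ hne)
      have h2 : ψ (x • ((w.1 / q, w.2 / q) : Vec)) = 0 := by
        by_contra hne
        have h3 := hψ.supp _ hne
        refine hO ⟨?_, ?_⟩
        · obtain ⟨v, hv, e⟩ := cop_dvd_mul hxq hw.1 ⟨x * (w.1 / q), h3.1, by field_simp⟩
          have e' : w.1 / q = v := by rw [e]; field_simp
          show w.1 / q ∈ D.O
          rw [e']
          exact hv
        · obtain ⟨v, hv, e⟩ := cop_dvd_mul hxq hw.2 ⟨x * (w.2 / q), h3.2, by field_simp⟩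
          have e' : w.2 / q = v := by rw [e]; field_simp
          show w.2 / q ∈ D.O
          rw [e']
          exact hv
      rw [h1, h2]

private theorem av_Lp2 {q : ℂ} (hq : q ∈ D.O) (h0 : q ≠ 0) : Lp2 D 1 q q q where
  a1 := D.O.one_mem
  b1 := hq
  a2 := hq
  b2 := hq
  na1 := one_ne_zero
  nb1 := h0
  na2 := h0
  nb2 := h0
  aa := ⟨q, hq, (one_mul q).symm⟩
  bb := ⟨1, D.O.one_mem, (mul_one q).symm⟩
  ab1 := ⟨q, hq, (one_mul q).symm⟩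
  ab2 := ⟨1, D.O.one_mem, (mul_one q).symm⟩

/-- the factor -/
private noncomputable def av_c (q : ℂ) : ℂ := ((‖q‖ ^ 4 : ℝ) : ℂ) * q ^ 2

private theorem Tq_DE (S : Coc D) {κ : ℝ} (hκ : Kap D κ) (π : PD D) {q : ℂ} (hq : q ∈ D.O)
    (h11 : Lt π 1 1) (h1q : Lt π 1 q) (hqq : Lt π q q) {ψ : Vec → ℂ} (hf : AdmE D ψ)
    (hs : ∀ w, ψ w ≠ 0 → O2 D w) :
    E S κ π 1 1 (Tq q ψ) e2 - E S κ π 1 1 ψ e2 = av_c q * DE S κ π 1 q q q (av_q q ψ) := by
  have h0 : q ≠ 0 := π.ne_of_r h1q.rb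
  have hK := O_sub_K hq
  have hsq := av_q_supp h0 hs
  have hs1 := av_supp1 hq hsq
  have hqa := av_q_adm hq h0 hf
  have hk2 := nsq_K hK
  have ek : K2 D e2 := Cu_e2.1
  -- the first term
  have hF : AdmE D (fun w => ((‖q‖ ^ 2 : ℝ) : ℂ) * av_q q ψ w) := AdmE_smul hk2 hqa
  have hFs : SuppIn D (1 * 1) (q * 1) (fun w => ((‖q‖ ^ 2 : ℝ) : ℂ) * av_q q ψ w) := by
    rw [one_mul, mul_one]
    intro w hw
    exact hs1 w (right_ne_zero_of_mul hw)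
  have e1' := E_dg S hκ π h11 h1q hF hFs ek
  have e2' : (fun w => (fun w => ((‖q‖ ^ 2 : ℝ) : ℂ) * av_q q ψ w) ((dg 1 q).act w)) =
      Tq q ψ := by
    funext w
    rw [dg_act]
    unfold Tq av_q
    have e : q * w.2 / q = w.2 := by field_simp
    simp only [one_mul, e]
  have ea : (dg 1 q).act e2 = q • e2 := by
    rw [dg_act]
    ext <;> simp [e2]
  rw [e2', ea, one_mul, one_mul, mul_one, E_hom S hκ π h1q hF (by
    rwa [one_mul, mul_one] at hFs) hK ek, av_smul S hκ π h1q hqa hs1 hk2 ek] at e1'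
  -- the second term
  have hqs : SuppIn D (q * 1) (q * 1) (av_q q ψ) := by
    rw [mul_one]
    exact hsq
  have e3' := E_dg S hκ π h11 hqq hqa hqs ek
  have e4' : (fun w => av_q q ψ ((dg q q).act w)) = ψ := by
    funext w
    rw [dg_act]
    unfold av_q
    have e : q * w.2 / q = w.2 := by field_simp
    have e' : q * w.1 / q = w.1 := by field_simp
    simp only [e, e']
  have eb : (dg q q).act e2 = q • e2 := by
    rw [dg_act]
    ext <;> simp [e2]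
  rw [e4', eb, mul_one, E_hom S hκ π hqq hqa hsq hK ek] at e3'
  rw [e1', e3']
  unfold DE av_c
  rw [norm_mul]
  push_cast
  ring

private theorem av_c_norm {q : ℂ} (h0 : q ≠ 0) : 0 < ‖av_c q‖ := by
  unfold av_c
  refine norm_pos_iff.2 (mul_ne_zero ?_ (pow_ne_zero _ h0))
  have h : (0 : ℝ) < ‖q‖ ^ 4 := by positivity
  exact_mod_cast h.ne'

private theorem av_large {q : ℂ} (hq : q ∈ D.O) (h0 : q ≠ 0) :
    ∃ P0 : ℕ, ∀ π : PD D, P0 < π.p → Lt π 1 1 ∧ Lt π 1 q ∧ Lt π q q := by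
  obtain ⟨P1, h1⟩ := Lt_large (D := D) D.O.one_mem D.O.one_mem one_ne_zero one_ne_zero
  obtain ⟨P2, h2⟩ := Lt_large (D := D) D.O.one_mem hq one_ne_zero h0
  obtain ⟨P3, h3⟩ := Lt_large (D := D) hq hq h0 h0
  refine ⟨max P1 (max P2 P3), fun π hπ => ⟨h1 π ?_, h2 π ?_, h3 π ?_⟩⟩
  · exact lt_of_le_of_lt (le_max_left _ _) hπ
  · exact lt_of_le_of_lt (le_trans (le_max_left _ _) (le_max_right _ _)) hπ
  · exact lt_of_le_of_lt (le_trans (le_max_right _ _) (le_max_right _ _)) hπ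

private theorem av_n {q : ℂ} (hq : q ∈ D.O) (h0 : q ≠ 0) :
    ∃ n : ℕ, 0 < n ∧ q * (starRingEnd ℂ) q = n := by
  obtain ⟨n, hn⟩ := nrm_Ord hq
  refine ⟨n, Nat.pos_of_ne_zero ?_, hn⟩
  rintro rfl
  rw [Nat.cast_zero] at hn
  exact mul_ne_zero h0 ((map_ne_zero (starRingEnd ℂ)).2 h0) hn

theorem bdH (S : Coc D) {κ : ℝ} (hκ : Kap D κ) {N : ℕ} (hN : 0 < N) (V : Finset ℂ)
    (hV : ∀ v ∈ V, v ∈ D.K) {q : ℂ} (hq : q ∈ D.O) (h0 : q ≠ 0) :
    ∃ C : ℝ, ∃ P0 : ℕ, 0 < C ∧ ∀ π : PD D, P0 < π.p → ∀ ψ : Vec → ℂ, Fn D N V ψ →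
      ‖E S κ π 1 1 (Tq q ψ) e2 - E S κ π 1 1 ψ e2‖ ≤ C := by
  obtain ⟨n, hn0, hn⟩ := av_n hq h0
  obtain ⟨C, hC, hb⟩ := bdD S hκ (Nat.mul_pos hN hn0) V hV (av_Lp2 hq h0)
  obtain ⟨P0, hP⟩ := av_large hq h0
  refine ⟨‖av_c q‖ * C, P0, mul_pos (av_c_norm h0) hC, fun π hπ ψ hψ => ?_⟩
  obtain ⟨h11, h1q, hqq⟩ := hP π hπ
  rw [Tq_DE S hκ π hq h11 h1q hqq (Fn_AdmE hN hV hψ) hψ.supp, norm_mul]
  exact mul_le_mul_of_nonneg_left
    (hb π h1q hqq _ (av_q_Fn hq h0 hn hψ) (av_q_supp h0 hψ.supp)) (norm_nonneg _)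

/-- additivity of `DE` -/
private theorem av_DE_sum (S : Coc D) {κ : ℝ} (hκ : Kap D κ) (π : PD D) {q : ℂ} (hq : q ∈ D.O)
    (h1q : Lt π 1 q) (hqq : Lt π q q) {ι : Type*} (s : Finset ι) (g : ι → Vec → ℂ)
    (hg : ∀ i, AdmE D (g i)) (hs : ∀ i, SuppIn D q q (g i)) :
    DE S κ π 1 q q q (fun w => ∑ i ∈ s, g i w) = ∑ i ∈ s, DE S κ π 1 q q q (g i) := by
  classical
  have ek : K2 D e2 := Cu_e2.1
  induction s using Finset.induction_on with
  | empty =>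
    simp only [Finset.sum_empty]
    unfold DE
    rw [E_zero S π 1 q e2 hκ h1q ek, E_zero S π q q e2 hκ hqq ek, sub_zero]
  | insert i t hi ih =>
    have hst : SuppIn D q q (fun w => ∑ i ∈ t, g i w) := by
      intro w hw
      obtain ⟨j, -, hj⟩ := Finset.exists_ne_zero_of_sum_ne_zero hw
      exact hs j w hj
    have hat : AdmE D (fun w => ∑ i ∈ t, g i w) := AdmE_sum t fun j _ => hg j
    have e : (fun w => ∑ i ∈ insert i t, g i w) = fun w => g i w + ∑ i ∈ t, g i w := by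
      funext w
      rw [Finset.sum_insert hi]
    rw [e, Finset.sum_insert hi, ← ih]
    unfold DE
    rw [E_add S hκ π h1q (hg i) hat (av_supp1 hq (hs i)) (av_supp1 hq hst) ek,
      E_add S hκ π hqq (hg i) hat (hs i) hst ek]
    ring

private theorem av_sum_zero {N : ℕ} [NeZero N] {V : Finset ℂ} {q : ℂ} {ψ : Vec → ℂ}
    (hψ : Fn D N V ψ) (hc : ∀ w, ψ w ≠ 0 → Cop D w.2 N)
    (hav : ∀ y ∈ D.O,
      ∑ k : ZMod N × ZMod N, ψ (UNI.xx D.a ((k.1.val : ℤ), (k.2.val : ℤ)), y) = 0) (w : Vec) :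
    ∑ k : ZMod N × ZMod N,
      av_q q ψ ((ut (UNI.xx D.a ((k.1.val : ℤ), (k.2.val : ℤ)))).act w) = 0 := by
  have e : ∀ γ : ℂ, av_q q ψ ((ut γ).act w) = ψ (w.1 / q + γ * (w.2 / q), w.2 / q) := by
    intro γ
    rw [ut_act]
    unfold av_q
    have e1 : (w.1 + γ * w.2) / q = w.1 / q + γ * (w.2 / q) := by ring
    simp only [e1]
  simp only [e]
  by_cases hy : Cop D (w.2 / q) N
  · by_cases hx : w.1 / q ∈ D.O
    · have h1 := sum_resid D N (fun z => ψ (z, w.2 / q)) (by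
        intro x _ y hy'
        have h2 := hψ.per (x, w.2 / q) (y, 0) ⟨hy', D.O.zero_mem⟩
        simpa using h2) hy hx
      rw [hav _ hy.1] at h1
      rw [← h1]
      refine Finset.sum_congr rfl fun k _ => ?_
      show ψ _ = ψ _
      congr 2
      ring
    · refine Finset.sum_eq_zero fun k _ => ?_
      by_contra hne
      have h2 := (hψ.supp _ hne).1
      apply hx
      have h3 : UNI.xx D.a ((k.1.val : ℤ), (k.2.val : ℤ)) * (w.2 / q) ∈ D.O :=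
        D.O.mul_mem ⟨_, rfl⟩ hy.1
      have h4 := D.O.sub_mem h2 h3
      simpa using h4
  · refine Finset.sum_eq_zero fun k _ => ?_
    by_contra hne
    exact hy (hc _ hne)

private theorem av_ut_supp {q : ℂ} {γ : ℂ} (hγ : γ ∈ D.O) {f : Vec → ℂ}
    (hs : SuppIn D q q f) : SuppIn D q q (fun w => f ((ut γ).act w)) := by
  intro w hw
  obtain ⟨u, hu, e⟩ := hs _ hw
  rw [ut_act, dg_act] at e
  have e1 : w.1 + γ * w.2 = q * u.1 := congrArg Prod.fst e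
  have e2' : w.2 = q * u.2 := congrArg Prod.snd e
  refine ⟨(u.1 - γ * u.2, u.2), ⟨D.O.sub_mem hu.1 (D.O.mul_mem hγ hu.2), hu.2⟩, ?_⟩
  rw [dg_act]
  ext
  · show w.1 = q * (u.1 - γ * u.2)
    rw [e2'] at e1
    linear_combination e1
  · exact e2'

theorem avH (S : Coc D) {κ : ℝ} (hκ : Kap D κ) {N : ℕ} [NeZero N] (V : Finset ℂ)
    (hV : ∀ v ∈ V, v ∈ D.K) {q : ℂ} (hq : q ∈ D.O) (h0 : q ≠ 0) {ψ : Vec → ℂ}
    (hψ : Fn D N V ψ) (hc : ∀ w, ψ w ≠ 0 → Cop D w.2 N)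
    (hav : ∀ y ∈ D.O,
      ∑ k : ZMod N × ZMod N, ψ (UNI.xx D.a ((k.1.val : ℤ), (k.2.val : ℤ)), y) = 0) :
    Tends0 (fun π : PD D => E S κ π 1 1 (Tq q ψ) e2 - E S κ π 1 1 ψ e2) := by
  classical
  have hN : 0 < N := Nat.pos_of_ne_zero (NeZero.ne N)
  obtain ⟨n, hn0, hn⟩ := av_n hq h0
  obtain ⟨P0, hP⟩ := av_large hq h0
  have hqF := av_q_Fn hq h0 hn hψ
  have hqs := av_q_supp h0 hψ.supp
  have hqa := av_q_adm hq h0 (Fn_AdmE hN hV hψ)
  set γ : ZMod N × ZMod N → ℂ := fun k => UNI.xx D.a ((k.1.val : ℤ), (k.2.val : ℤ)) with hγ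
  have hγO : ∀ k, γ k ∈ D.O := fun k => ⟨_, rfl⟩
  intro ε hε
  have hε' : 0 < ε / ‖av_c q‖ := div_pos hε (av_c_norm h0)
  choose Pk hPk using fun k : ZMod N × ZMod N =>
    shiftU S hκ (Nat.mul_pos hN hn0) V hV (av_Lp2 hq h0) (hγO k) hqF hqs _ hε'
  refine ⟨max P0 (Finset.univ.sup Pk), fun π hπ => ?_⟩
  obtain ⟨h11, h1q, hqq⟩ := hP π (lt_of_le_of_lt (le_max_left _ _) hπ)
  show ‖E S κ π 1 1 (Tq q ψ) e2 - E S κ π 1 1 ψ e2‖ ≤ ε
  rw [Tq_DE S hκ π hq h11 h1q hqq (Fn_AdmE hN hV hψ) hψ.supp, norm_mul]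
  have hsum : ∑ k : ZMod N × ZMod N,
      DE S κ π 1 q q q (fun w => av_q q ψ ((ut (γ k)).act w)) = 0 := by
    rw [← av_DE_sum S hκ π hq h1q hqq Finset.univ
      (fun (k : ZMod N × ZMod N) w => av_q q ψ ((ut (γ k)).act w))
      (fun k => AdmE_act (GO_GK (GO_ut (hγO k))) hqa) (fun k => av_ut_supp (hγO k) hqs)]
    have e : (fun w => ∑ k : ZMod N × ZMod N, av_q q ψ ((ut (γ k)).act w)) = fun _ => 0 := by
      funext w
      exact av_sum_zero hψ hc hav w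
    rw [e]
    unfold DE
    rw [E_zero S π 1 q e2 hκ h1q Cu_e2.1, E_zero S π q q e2 hκ hqq Cu_e2.1, sub_zero]
  have hcard : (Fintype.card (ZMod N × ZMod N) : ℝ) = (N : ℝ) ^ 2 := by
    rw [Fintype.card_prod, ZMod.card]
    push_cast
    ring
  have hNr : (0 : ℝ) < (N : ℝ) ^ 2 := by
    have : (0 : ℝ) < N := by exact_mod_cast hN
    positivity
  have hmain : ((N : ℂ) ^ 2) * DE S κ π 1 q q q (av_q q ψ) =
      ∑ k : ZMod N × ZMod N, (DE S κ π 1 q q q (av_q q ψ) -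
        DE S κ π 1 q q q (fun w => av_q q ψ ((ut (γ k)).act w))) := by
    rw [Finset.sum_sub_distrib, hsum, sub_zero, Finset.sum_const, Finset.card_univ,
      Fintype.card_prod, ZMod.card, nsmul_eq_mul]
    push_cast
    ring
  have hbd : ‖((N : ℂ) ^ 2) * DE S κ π 1 q q q (av_q q ψ)‖ ≤ (N : ℝ) ^ 2 * (ε / ‖av_c q‖) := by
    rw [hmain, ← hcard]
    refine (norm_sum_le _ _).trans ?_
    have h1 : ∀ k ∈ (Finset.univ : Finset (ZMod N × ZMod N)),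
        ‖DE S κ π 1 q q q (av_q q ψ) -
          DE S κ π 1 q q q (fun w => av_q q ψ ((ut (γ k)).act w))‖ ≤ ε / ‖av_c q‖ := by
      intro k hk
      refine hPk k π (lt_of_le_of_lt ?_ hπ)
      exact le_trans (Finset.le_sup hk) (le_max_right _ _)
    refine (Finset.sum_le_sum h1).trans ?_
    rw [Finset.sum_const, Finset.card_univ, nsmul_eq_mul]
  have h2 : ‖DE S κ π 1 q q q (av_q q ψ)‖ ≤ ε / ‖av_c q‖ := by
    rw [norm_mul, norm_pow, Complex.norm_natCast] at hbd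
    exact le_of_mul_le_mul_left hbd hNr
  have h3 := mul_le_mul_of_nonneg_left h2 (norm_nonneg (av_c q))
  have h4 : ‖av_c q‖ * (ε / ‖av_c q‖) = ε := by
    have := (av_c_norm h0).ne'
    field_simp
  rw [h4] at h3
  exact h3

end RNK
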