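import Pool.Agent.RNK.Defs

/-!
# RNK.Bas: matrices, vectors, closure properties
-/

namespace RNK

noncomputable section

/-! ### matrices -/

@[simp] theorem act_fst (g : Mat) (w : Vec) : (g.act w).1 = g.a * w.1 + g.b * w.2 := rfl
@[simp] theorem act_snd (g : Mat) (w : Vec) : (g.act w).2 = g.c * w.1 + g.d * w.2 := rfl

theorem act_mul (g h : Mat) (w : Vec) : (g.mul h).act w = g.act (h.act w) := by
  ext
  · simp only [Mat.act, Mat.mul]; ring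
  · simp only [Mat.act, Mat.mul]; ring

theorem det_mul (g h : Mat) : (g.mul h).det = g.det * h.det := by
  simp only [Mat.det, Mat.mul]; ring

theorem mul_assoc' (g h k : Mat) : (g.mul h).mul k = g.mul (h.mul k) := by
  ext <;> simp only [Mat.mul] <;> ring

theorem act_add (g : Mat) (u v : Vec) : g.act (u + v) = g.act u + g.act v := by
  ext
  · simp only [Mat.act, Prod.fst_add, Prod.snd_add]; ring
  · simp only [Mat.act, Prod.fst_add, Prod.snd_add]; ring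

theorem act_smul (g : Mat) (c : ℂ) (u : Vec) : g.act (c • u) = c • g.act u := by
  ext
  · simp only [Mat.act, Prod.smul_fst, Prod.smul_snd, smul_eq_mul]; ring
  · simp only [Mat.act, Prod.smul_fst, Prod.smul_snd, smul_eq_mul]; ring

theorem act_zero (g : Mat) : g.act 0 = 0 := by
  ext <;> simp [Mat.act]

theorem act_neg (g : Mat) (u : Vec) : g.act (-u) = -g.act u := by
  ext
  · simp only [Mat.act, Prod.fst_neg, Prod.snd_neg]; ring
  · simp only [Mat.act, Prod.fst_neg, Prod.snd_neg]; ring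

theorem act_sub (g : Mat) (u v : Vec) : g.act (u - v) = g.act u - g.act v := by
  rw [sub_eq_add_neg, act_add, act_neg, ← sub_eq_add_neg]

theorem inv_act {g : Mat} (h : g.det ≠ 0) (w : Vec) : g.inv.act (g.act w) = w := by
  have h1 : g.det / g.det = 1 := div_self h
  have h2 : (g.a * g.d - g.b * g.c) / g.det = 1 := h1
  ext
  · show g.d / g.det * (g.a * w.1 + g.b * w.2) + -g.b / g.det * (g.c * w.1 + g.d * w.2) = w.1
    linear_combination w.1 * h2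
  · show -g.c / g.det * (g.a * w.1 + g.b * w.2) + g.a / g.det * (g.c * w.1 + g.d * w.2) = w.2
    linear_combination w.2 * h2

theorem act_inv {g : Mat} (h : g.det ≠ 0) (w : Vec) : g.act (g.inv.act w) = w := by
  have h1 : g.det / g.det = 1 := div_self h
  have h2 : (g.a * g.d - g.b * g.c) / g.det = 1 := h1
  ext
  · show g.a * (g.d / g.det * w.1 + -g.b / g.det * w.2) +
      g.b * (-g.c / g.det * w.1 + g.a / g.det * w.2) = w.1
    linear_combination w.1 * h2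
  · show g.c * (g.d / g.det * w.1 + -g.b / g.det * w.2) +
      g.d * (-g.c / g.det * w.1 + g.a / g.det * w.2) = w.2
    linear_combination w.2 * h2

theorem det_inv {g : Mat} (h : g.det ≠ 0) : g.inv.det = g.det⁻¹ := by
  have h2 : (g.a * g.d - g.b * g.c) / g.det = 1 := div_self h
  show g.d / g.det * (g.a / g.det) - -g.b / g.det * (-g.c / g.det) = g.det⁻¹
  linear_combination g.det⁻¹ * h2

theorem act_inj {g : Mat} (h : g.det ≠ 0) : Function.Injective g.act := fun u v huv => by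
  rw [← inv_act h u, huv, inv_act h]

theorem act_eq_zero {g : Mat} (h : g.det ≠ 0) {w : Vec} : g.act w = 0 ↔ w = 0 :=
  ⟨fun e => act_inj h (by rw [e, act_zero]), fun e => by rw [e, act_zero]⟩

theorem det_dg (a d : ℂ) : (dg a d).det = a * d := by simp [Mat.det, dg]
theorem det_ut (γ : ℂ) : (ut γ).det = 1 := by simp [Mat.det, ut]
theorem det_swp : swp.det = -1 := by simp [Mat.det, swp]

theorem dg_act (a d : ℂ) (w : Vec) : (dg a d).act w = (a * w.1, d * w.2) := by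
  simp [Mat.act, dg]

theorem ut_act (γ : ℂ) (w : Vec) : (ut γ).act w = (w.1 + γ * w.2, w.2) := by
  simp [Mat.act, ut]

theorem swp_act (w : Vec) : swp.act w = (w.2, w.1) := by
  simp [Mat.act, swp]

theorem one_act (w : Vec) : (dg 1 1).act w = w := by
  rw [dg_act, one_mul, one_mul]

/-! ### determinants of vectors and norms -/

theorem det2_act (g : Mat) (u v : Vec) : det2 (g.act u) (g.act v) = g.det * det2 u v := by
  simp only [det2, Mat.act, Mat.det]; ring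

theorem det2_swap (u v : Vec) : det2 v u = -det2 u v := by
  simp only [det2]; ring

theorem det2_self (u : Vec) : det2 u u = 0 := by
  simp only [det2]; ring

theorem nq_nonneg (w : Vec) : 0 ≤ nq w := by
  unfold nq; positivity

theorem nq_eq_zero {w : Vec} : nq w = 0 ↔ w = 0 := by
  constructor
  · intro h
    have h1 : ‖w.1‖ ^ 2 = 0 := by unfold nq at h; nlinarith [sq_nonneg ‖w.1‖, sq_nonneg ‖w.2‖]
    have h2 : ‖w.2‖ ^ 2 = 0 := by unfold nq at h; nlinarith [sq_nonneg ‖w.1‖, sq_nonneg ‖w.2‖]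
    ext
    · simpa using h1
    · simpa using h2
  · rintro rfl
    simp [nq]

theorem nq_pos {w : Vec} (h : w ≠ 0) : 0 < nq w :=
  lt_of_le_of_ne (nq_nonneg w) fun e => h (nq_eq_zero.1 e.symm)

theorem nq_smul (c : ℂ) (w : Vec) : nq (c • w) = ‖c‖ ^ 2 * nq w := by
  simp only [nq, Prod.smul_fst, Prod.smul_snd, smul_eq_mul, norm_mul]; ring

theorem nq_neg (w : Vec) : nq (-w) = nq w := by
  simp only [nq, Prod.fst_neg, Prod.snd_neg, norm_neg]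

theorem nq_add_le (u v : Vec) : nq (u + v) ≤ 2 * nq u + 2 * nq v := by
  simp only [nq, Prod.fst_add, Prod.snd_add]
  have h1 := norm_add_le u.1 v.1
  have h2 := norm_add_le u.2 v.2
  have h3 := norm_nonneg (u.1 + v.1)
  have h4 := norm_nonneg (u.2 + v.2)
  nlinarith [sq_nonneg (‖u.1‖ - ‖v.1‖), sq_nonneg (‖u.2‖ - ‖v.2‖),
    mul_self_le_mul_self h3 h1, mul_self_le_mul_self h4 h2]

/-- Hadamard's inequality -/
theorem det2_le (u v : Vec) : ‖det2 u v‖ ^ 2 ≤ nq u * nq v := by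
  have h1 : ‖det2 u v‖ ≤ ‖u.1‖ * ‖v.2‖ + ‖u.2‖ * ‖v.1‖ := by
    unfold det2
    refine (norm_sub_le _ _).trans ?_
    rw [norm_mul, norm_mul]
  have h2 := norm_nonneg (det2 u v)
  have h3 := mul_self_le_mul_self h2 h1
  unfold nq
  nlinarith [sq_nonneg (‖u.1‖ * ‖v.1‖ - ‖u.2‖ * ‖v.2‖)]

theorem nq_Ah {h : ℝ} (hh : 0 < h) (w : Vec) :
    nq ((Ah h).act w) = ‖w.1‖ ^ 2 / h + h * ‖w.2‖ ^ 2 := by
  have h1 := Real.sqrt_pos.2 hh
  have h2 := Real.sq_sqrt hh.le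
  have h3 : nq ((Ah h).act w) =
      ((Real.sqrt h)⁻¹ * ‖w.1‖) ^ 2 + (Real.sqrt h * ‖w.2‖) ^ 2 := by
    simp only [Ah, dg_act, nq, norm_mul, Complex.norm_real, Real.norm_eq_abs,
      abs_of_pos h1, abs_of_pos (inv_pos.2 h1)]
  rw [h3, mul_pow, mul_pow, inv_pow, h2]
  ring

theorem det_Ah {h : ℝ} (hh : 0 < h) : (Ah h).det = 1 := by
  have h1 := (Real.sqrt_pos.2 hh).ne'
  unfold Ah
  rw [det_dg, ← Complex.ofReal_mul, inv_mul_cancel₀ h1, Complex.ofReal_one]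

theorem Ah_mul {h k : ℝ} (hh : 0 < h) : (Ah h).mul (Ah k) = Ah (h * k) := by
  ext
  · simp only [Mat.mul, Ah, dg, mul_zero, add_zero, Real.sqrt_mul hh.le]
    push_cast
    rw [mul_inv]
  · simp [Mat.mul, Ah, dg]
  · simp [Mat.mul, Ah, dg]
  · simp only [Mat.mul, Ah, dg, mul_zero, zero_add, Real.sqrt_mul hh.le]
    push_cast
    ring

theorem det_pt (P : Mat) (k : ℤ) : (pt P k).det = P.det := by
  unfold pt
  rw [det_mul, det_Ah (by positivity), one_mul]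

theorem pt_act (P : Mat) (k : ℤ) (w : Vec) : (pt P k).act w = (Ah ((2 : ℝ) ^ k)).act (P.act w) := by
  unfold pt
  rw [act_mul]

/-! ### closure properties -/

variable {D : OD}

theorem O_sub_K {x : ℂ} (h : x ∈ D.O) : x ∈ D.K := ⟨1, one_pos, by simpa using h⟩

theorem nat_O (n : ℕ) : (n : ℂ) ∈ D.O := natCast_mem _ n

theorem int_O (n : ℤ) : (n : ℂ) ∈ D.O := intCast_mem _ n

theorem cj_K {x : ℂ} (h : x ∈ D.K) : (starRingEnd ℂ) x ∈ D.K := by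
  obtain ⟨n, hn, h⟩ := h
  refine ⟨n, hn, ?_⟩
  have := cj_Ord h
  rw [map_mul, map_natCast] at this
  exact this

/-- squares of absolute values of elements of `K` are in `K` -/
theorem nsq_K {x : ℂ} (h : x ∈ D.K) : ((‖x‖ ^ 2 : ℝ) : ℂ) ∈ D.K := by
  have e : ((‖x‖ ^ 2 : ℝ) : ℂ) = x * (starRingEnd ℂ) x := by
    rw [Complex.mul_conj, Complex.normSq_eq_norm_sq]
  rw [e]
  exact D.K.mul_mem h (cj_K h)

theorem O2_K2 {w : Vec} (h : O2 D w) : K2 D w := ⟨O_sub_K h.1, O_sub_K h.2⟩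

theorem O2_add {u v : Vec} (hu : O2 D u) (hv : O2 D v) : O2 D (u + v) :=
  ⟨D.O.add_mem hu.1 hv.1, D.O.add_mem hu.2 hv.2⟩

theorem O2_neg {u : Vec} (hu : O2 D u) : O2 D (-u) := ⟨D.O.neg_mem hu.1, D.O.neg_mem hu.2⟩

theorem O2_sub {u v : Vec} (hu : O2 D u) (hv : O2 D v) : O2 D (u - v) :=
  ⟨D.O.sub_mem hu.1 hv.1, D.O.sub_mem hu.2 hv.2⟩

theorem O2_zero : O2 D 0 := ⟨D.O.zero_mem, D.O.zero_mem⟩

theorem O2_smul {c : ℂ} (hc : c ∈ D.O) {u : Vec} (hu : O2 D u) : O2 D (c • u) :=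
  ⟨D.O.mul_mem hc hu.1, D.O.mul_mem hc hu.2⟩

theorem K2_add {u v : Vec} (hu : K2 D u) (hv : K2 D v) : K2 D (u + v) :=
  ⟨D.K.add_mem hu.1 hv.1, D.K.add_mem hu.2 hv.2⟩

theorem K2_smul {c : ℂ} (hc : c ∈ D.K) {u : Vec} (hu : K2 D u) : K2 D (c • u) :=
  ⟨D.K.mul_mem hc hu.1, D.K.mul_mem hc hu.2⟩

theorem O2_act {g : Mat} (hg : MO D g) {u : Vec} (hu : O2 D u) : O2 D (g.act u) :=
  ⟨D.O.add_mem (D.O.mul_mem hg.1.1 hu.1) (D.O.mul_mem hg.1.2.1 hu.2),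
    D.O.add_mem (D.O.mul_mem hg.1.2.2.1 hu.1) (D.O.mul_mem hg.1.2.2.2 hu.2)⟩

theorem K2_act {g : Mat} (hg : GK D g) {u : Vec} (hu : K2 D u) : K2 D (g.act u) :=
  ⟨D.K.add_mem (D.K.mul_mem hg.1.1 hu.1) (D.K.mul_mem hg.1.2.1 hu.2),
    D.K.add_mem (D.K.mul_mem hg.1.2.2.1 hu.1) (D.K.mul_mem hg.1.2.2.2 hu.2)⟩

theorem MO_GK {g : Mat} (h : MO D g) : GK D g :=
  ⟨⟨O_sub_K h.1.1, O_sub_K h.1.2.1, O_sub_K h.1.2.2.1, O_sub_K h.1.2.2.2⟩, h.2⟩

theorem GO_GK {g : Mat} (h : GO D g) : GK D g := MO_GK h.1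

theorem GK_mul {g h : Mat} (hg : GK D g) (hh : GK D h) : GK D (g.mul h) := by
  refine ⟨⟨?_, ?_, ?_, ?_⟩, by rw [det_mul]; exact mul_ne_zero hg.2 hh.2⟩
  · exact D.K.add_mem (D.K.mul_mem hg.1.1 hh.1.1) (D.K.mul_mem hg.1.2.1 hh.1.2.2.1)
  · exact D.K.add_mem (D.K.mul_mem hg.1.1 hh.1.2.1) (D.K.mul_mem hg.1.2.1 hh.1.2.2.2)
  · exact D.K.add_mem (D.K.mul_mem hg.1.2.2.1 hh.1.1) (D.K.mul_mem hg.1.2.2.2 hh.1.2.2.1)
  · exact D.K.add_mem (D.K.mul_mem hg.1.2.2.1 hh.1.2.1) (D.K.mul_mem hg.1.2.2.2 hh.1.2.2.2)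

theorem det_K {g : Mat} (hg : GK D g) : g.det ∈ D.K :=
  D.K.sub_mem (D.K.mul_mem hg.1.1 hg.1.2.2.2) (D.K.mul_mem hg.1.2.1 hg.1.2.2.1)

theorem det_O {g : Mat} (hg : MO D g) : g.det ∈ D.O :=
  D.O.sub_mem (D.O.mul_mem hg.1.1 hg.1.2.2.2) (D.O.mul_mem hg.1.2.1 hg.1.2.2.1)

theorem GK_inv {g : Mat} (hg : GK D g) : GK D g.inv := by
  have hd := D.K.inv_mem (det_K hg)
  refine ⟨⟨?_, ?_, ?_, ?_⟩, by rw [det_inv hg.2]; exact inv_ne_zero hg.2⟩
  · exact D.K.div_mem hg.1.2.2.2 (det_K hg)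
  · exact D.K.div_mem (D.K.neg_mem hg.1.2.1) (det_K hg)
  · exact D.K.div_mem (D.K.neg_mem hg.1.2.2.1) (det_K hg)
  · exact D.K.div_mem hg.1.1 (det_K hg)

theorem MO_mul {g h : Mat} (hg : MO D g) (hh : MO D h) : MO D (g.mul h) := by
  refine ⟨⟨?_, ?_, ?_, ?_⟩, by rw [det_mul]; exact mul_ne_zero hg.2 hh.2⟩
  · exact D.O.add_mem (D.O.mul_mem hg.1.1 hh.1.1) (D.O.mul_mem hg.1.2.1 hh.1.2.2.1)
  · exact D.O.add_mem (D.O.mul_mem hg.1.1 hh.1.2.1) (D.O.mul_mem hg.1.2.1 hh.1.2.2.2)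
  · exact D.O.add_mem (D.O.mul_mem hg.1.2.2.1 hh.1.1) (D.O.mul_mem hg.1.2.2.2 hh.1.2.2.1)
  · exact D.O.add_mem (D.O.mul_mem hg.1.2.2.1 hh.1.2.1) (D.O.mul_mem hg.1.2.2.2 hh.1.2.2.2)

theorem GO_mul {g h : Mat} (hg : GO D g) (hh : GO D h) : GO D (g.mul h) := by
  refine ⟨MO_mul hg.1 hh.1, ?_⟩
  rw [det_mul, mul_inv]
  exact D.O.mul_mem hg.2 hh.2

theorem GO_inv {g : Mat} (hg : GO D g) : GO D g.inv := by
  have hd := hg.2
  refine ⟨⟨⟨?_, ?_, ?_, ?_⟩, by rw [det_inv hg.1.2]; exact inv_ne_zero hg.1.2⟩, ?_⟩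
  · exact D.O.mul_mem hg.1.1.2.2.2 hd
  · exact D.O.mul_mem (D.O.neg_mem hg.1.1.2.1) hd
  · exact D.O.mul_mem (D.O.neg_mem hg.1.1.2.2.1) hd
  · exact D.O.mul_mem hg.1.1.1 hd
  · rw [det_inv hg.1.2, inv_inv]
    exact det_O hg.1

theorem Cu_act {g : Mat} (hg : GK D g) {u : Vec} (hu : Cu D u) : Cu D (g.act u) :=
  ⟨K2_act hg hu.1, fun h => hu.2 ((act_eq_zero hg.2).1 h)⟩

theorem Prim_O2 {w : Vec} (h : Prim D w) : O2 D w := ⟨h.1, h.2.1⟩

theorem Prim_ne {w : Vec} (h : Prim D w) : w ≠ 0 := by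
  rintro rfl
  obtain ⟨-, -, u, -, v, -, h⟩ := h
  simp at h

theorem Prim_Cu {w : Vec} (h : Prim D w) : Cu D w := ⟨O2_K2 (Prim_O2 h), Prim_ne h⟩

theorem Prim_act {g : Mat} (hg : GO D g) {w : Vec} (h : Prim D w) : Prim D (g.act w) := by
  obtain ⟨-, -, u, hu, v, hv, e⟩ := id h
  have hw := Prim_O2 h
  refine ⟨(O2_act hg.1 hw).1, (O2_act hg.1 hw).2, ?_⟩
  obtain ⟨⟨⟨ha, hb, hc, hd⟩, h0⟩, h1⟩ := hg
  refine ⟨g.det⁻¹ * (u * g.d - v * g.c), D.O.mul_mem h1 (D.O.sub_mem (D.O.mul_mem hu hd)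
    (D.O.mul_mem hv hc)), g.det⁻¹ * (v * g.a - u * g.b), D.O.mul_mem h1 (D.O.sub_mem
    (D.O.mul_mem hv ha) (D.O.mul_mem hu hb)), ?_⟩
  simp only [act_fst, act_snd]
  have h0' : g.a * g.d - g.b * g.c ≠ 0 := h0
  simp only [Mat.det]
  field_simp
  linear_combination (g.a * g.d - g.b * g.c) * e

theorem Cu_e1 : Cu D e1 := ⟨⟨D.K.one_mem, D.K.zero_mem⟩, by simp [e1]⟩
theorem Cu_e2 : Cu D e2 := ⟨⟨D.K.zero_mem, D.K.one_mem⟩, by simp [e2]⟩
theorem Cu_v11 : Cu D v11 := ⟨⟨D.K.one_mem, D.K.one_mem⟩, by simp [v11]⟩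

theorem Cu_smul {k : ℂ} (hk : k ∈ D.K) (h0 : k ≠ 0) {w : Vec} (h : Cu D w) : Cu D (k • w) :=
  ⟨K2_smul hk h.1, smul_ne_zero h0 h.2⟩

theorem GK_dg {a d : ℂ} (ha : a ∈ D.K) (hd : d ∈ D.K) (ha0 : a ≠ 0) (hd0 : d ≠ 0) :
    GK D (dg a d) :=
  ⟨⟨ha, D.K.zero_mem, D.K.zero_mem, hd⟩, by rw [det_dg]; exact mul_ne_zero ha0 hd0⟩

theorem MO_dg {a d : ℂ} (ha : a ∈ D.O) (hd : d ∈ D.O) (ha0 : a ≠ 0) (hd0 : d ≠ 0) :
    MO D (dg a d) :=
  ⟨⟨ha, D.O.zero_mem, D.O.zero_mem, hd⟩, by rw [det_dg]; exact mul_ne_zero ha0 hd0⟩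

theorem GO_ut {γ : ℂ} (hγ : γ ∈ D.O) : GO D (ut γ) :=
  ⟨⟨⟨D.O.one_mem, hγ, D.O.zero_mem, D.O.one_mem⟩, by rw [det_ut]; exact one_ne_zero⟩,
    by rw [det_ut, inv_one]; exact D.O.one_mem⟩

theorem GO_swp : GO D swp :=
  ⟨⟨⟨D.O.zero_mem, D.O.one_mem, D.O.one_mem, D.O.zero_mem⟩, by rw [det_swp]; norm_num⟩,
    by rw [det_swp, inv_neg, inv_one]; exact D.O.neg_mem D.O.one_mem⟩

/-- vectors of the same line -/
theorem det2_eq_zero {u v : Vec} (hu : Cu D u) (hv : Cu D v) :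
    det2 u v = 0 ↔ ∃ k ∈ D.K, k ≠ 0 ∧ v = k • u := by
  constructor
  · intro h
    have h' : u.1 * v.2 = u.2 * v.1 := by
      unfold det2 at h
      exact sub_eq_zero.1 h
    by_cases h1 : u.1 = 0
    · have h2 : u.2 ≠ 0 := fun h2 => hu.2 (Prod.ext h1 h2)
      have h3 : v.1 = 0 := by
        rw [h1, zero_mul] at h'
        exact (mul_eq_zero.1 h'.symm).resolve_left h2
      have h4 : v.2 ≠ 0 := fun h4 => hv.2 (Prod.ext h3 h4)
      refine ⟨v.2 / u.2, D.K.div_mem hv.1.2 hu.1.2, div_ne_zero h4 h2, Prod.ext ?_ ?_⟩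
      · simp [h1, h3]
      · simp only [Prod.smul_snd, smul_eq_mul]
        field_simp
    · have h3 : v.1 ≠ 0 := by
        intro h3
        rw [h3, mul_zero] at h'
        exact hv.2 (Prod.ext h3 ((mul_eq_zero.1 h').resolve_left h1))
      refine ⟨v.1 / u.1, D.K.div_mem hv.1.1 hu.1.1, div_ne_zero h3 h1, Prod.ext ?_ ?_⟩
      · simp only [Prod.smul_fst, smul_eq_mul]
        field_simp
      · simp only [Prod.smul_snd, smul_eq_mul]
        field_simp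
        linear_combination h'
  · rintro ⟨k, -, -, rfl⟩
    simp only [det2, Prod.smul_fst, Prod.smul_snd, smul_eq_mul]
    ring

end

end RNK
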