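import Pool.Agent.RNK.Sm
import Pool.Agent.RNK.Sl

/-!
# RNK.CiA: the four term relation modulo `K Λ`

Let `F w = f w (KG c2 c3 c4 - KG c1 c3 c4 + KG c1 c2 c4 - KG c1 c2 c3)`.
1. If two of the cusps are on a line (`det2 c_i c_j = 0`, `det2_eq_zero`, `KG_scal`), then `F = 0` termwise
  (e.g. `c2 = k c1`: `KG c1 c3 c4 = KG c2 c3 c4`, `KG_dep` for the others; use alternation for other pairs).
2. Else the four lines are distinct. `F w = 0` unless `w` is on one of them (`KG_coc`). For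
  `w = t c1`, `t ≠ 0`: three terms vanish (`KG_zero`) and `F w = f (t c1) t⁻⁴ t̄⁻² KG c2 c3 c4 p c1`
  (`KG_hom`), `KG c2 c3 c4 p c1 ∈ K` (`KG_K`); similarly for the other lines (with signs).
3. `Σ F` is the sum over the four lines of `line_sum`: the map `t ↦ t c` is injective, the lines meet in `0`
  only and `F 0 = 0`: write `F = F_1 + F_2 + F_3 + F_4` with `F_i` = `F` on the line of `c_i`, `0` elsewhere
  (all summable), `tsum_add`, and `Σ_w F_i w = Σ_t F (t c_i)` (`Function.Injective.tsum_eq`).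
-/

namespace RNK

variable {D : OD}

/-- the four term expression -/
private noncomputable def G4 (c1 c2 c3 c4 p w : Vec) : ℂ :=
  KG c2 c3 c4 p w - KG c1 c3 c4 p w + KG c1 c2 c4 p w - KG c1 c2 c3 p w

private lemma G4_12 (c1 c2 c3 c4 p w : Vec) : G4 c2 c1 c3 c4 p w = -G4 c1 c2 c3 c4 p w := by
  unfold G4
  rw [KG_a12 c1 c2 c4, KG_a12 c1 c2 c3]
  ring

private lemma G4_23 (c1 c2 c3 c4 p w : Vec) : G4 c1 c3 c2 c4 p w = -G4 c1 c2 c3 c4 p w := by
  unfold G4
  rw [KG_a12 c2 c3 c4, KG_a23 c1 c2 c3]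
  ring

private lemma G4_34 (c1 c2 c3 c4 p w : Vec) : G4 c1 c2 c4 c3 p w = -G4 c1 c2 c3 c4 p w := by
  unfold G4
  rw [KG_a23 c2 c3 c4, KG_a23 c1 c3 c4]
  ring

private lemma G4_dep {c1 c2 : Vec} (h1 : Cu D c1) (h2 : Cu D c2) (h : det2 c1 c2 = 0)
    (c3 c4 p w : Vec) : G4 c1 c2 c3 c4 p w = 0 := by
  obtain ⟨k, _, hk0, hk⟩ := (det2_eq_zero h1 h2).1 h
  unfold G4
  rw [KG_dep h c4, KG_dep h c3, hk, KG_scal hk0]
  ring

private lemma det2_cramer (u v w : Vec) : det2 u v • w = det2 w v • u + det2 u w • v := by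
  unfold det2
  ext <;> simp <;> ring

private lemma one_line {u v w : Vec} (huv : det2 u v ≠ 0) (hw : w ≠ 0) (h1 : det2 u w = 0) :
    det2 v w ≠ 0 := by
  intro h2
  have h3 := det2_cramer u v w
  rw [h1, det2_swap v w, h2, neg_zero, zero_smul, zero_smul, zero_add] at h3
  exact (smul_ne_zero huv hw) h3

private lemma line_mem {c w : Vec} (hc : c ≠ 0) (h : det2 c w = 0) : ∃ t : ℂ, t • c = w := by
  unfold det2 at h
  by_cases h1 : c.1 = 0
  · have h2 : c.2 ≠ 0 := fun h2 => hc (Prod.ext h1 h2)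
    have h3 : w.1 = 0 := by
      rw [h1, zero_mul, zero_sub, neg_eq_zero] at h
      exact (mul_eq_zero.1 h).resolve_left h2
    refine ⟨w.2 / c.2, Prod.ext ?_ ?_⟩
    · simp [h1, h3]
    · simp only [Prod.smul_snd, smul_eq_mul]
      field_simp
  · refine ⟨w.1 / c.1, Prod.ext ?_ ?_⟩
    · simp only [Prod.smul_fst, smul_eq_mul]
      field_simp
    · simp only [Prod.smul_snd, smul_eq_mul]
      field_simp
      linear_combination -h

/-- the part of the sum on the line of `c` -/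
private noncomputable def PL (f : Vec → ℂ) (c ca cb cd p w : Vec) : ℂ := by
  classical
  exact if det2 c w = 0 then f w * KG ca cb cd p w else 0

private lemma PL_sum {f : Vec → ℂ} (hf : AdmE D f) {c ca cb cd p : Vec} (hc : Cu D c)
    (ha : Cu D ca) (hb : Cu D cb) (hd : Cu D cd) (hp : K2 D p) :
    Summable (PL f c ca cb cd p) ∧ ∃ k ∈ D.K, ∑' w, PL f c ca cb cd p w = k * Lam D := by
  classical
  have hinj : Function.Injective (fun t : ℂ => t • c) := smul_left_injective ℂ hc.2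
  have hval : ∀ t : ℂ, PL f c ca cb cd p (t • c) =
      KG ca cb cd p c * (f (t • c) * (t ^ 4 * (starRingEnd ℂ) t ^ 2)⁻¹) := by
    intro t
    have h0 : det2 c (t • c) = 0 := by
      unfold det2
      simp only [Prod.smul_snd, Prod.smul_fst, smul_eq_mul]
      ring
    have h1 : PL f c ca cb cd p (t • c) = f (t • c) * KG ca cb cd p (t • c) := by
      unfold PL
      exact if_pos h0
    rw [h1]
    by_cases ht : t = 0
    · subst ht
      rw [zero_smul, KG_zero (Or.inl (by unfold det2; simp))]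
      simp
    · rw [KG_hom ht]
      ring
  have hsupp : Function.support (PL f c ca cb cd p) ⊆ Set.range (fun t : ℂ => t • c) := by
    intro w hw
    have h1 : det2 c w = 0 := by
      by_contra h
      apply hw
      unfold PL
      exact if_neg h
    exact line_mem hc.2 h1
  obtain ⟨hs, k, hk, hsum⟩ := line_sum hf hc
  have hfun : (fun t : ℂ => PL f c ca cb cd p (t • c)) = fun t : ℂ =>
      KG ca cb cd p c * (f (t • c) * (t ^ 4 * (starRingEnd ℂ) t ^ 2)⁻¹) := funext hval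
  constructor
  · refine (Function.Injective.summable_iff hinj ?_).1 ?_
    · intro w hw
      by_contra h
      exact hw (hsupp h)
    · have : (PL f c ca cb cd p ∘ fun t : ℂ => t • c) = fun t : ℂ =>
        KG ca cb cd p c * (f (t • c) * (t ^ 4 * (starRingEnd ℂ) t ^ 2)⁻¹) := hfun
      rw [this]
      exact hs.mul_left _
  · refine ⟨KG ca cb cd p c * k, D.K.mul_mem (KG_K ha.1 hb.1 hd.1 hp hc.1) hk, ?_⟩
    rw [← Function.Injective.tsum_eq hinj hsupp, hfun, tsum_mul_left, hsum]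
    ring

theorem TT_coc {f : Vec → ℂ} (hf : AdmE D f) {c1 c2 c3 c4 p : Vec} (h1 : Cu D c1)
    (h2 : Cu D c2) (h3 : Cu D c3) (h4 : Cu D c4) (hp : K2 D p) :
    ∃ k ∈ D.K, TT f c2 c3 c4 p - TT f c1 c3 c4 p + TT f c1 c2 c4 p - TT f c1 c2 c3 p =
      k * Lam D := by
  classical
  have s1 := TT_summable hf h2 h3 h4 hp
  have s2 := TT_summable hf h1 h3 h4 hp
  have s3 := TT_summable hf h1 h2 h4 hp
  have s4 := TT_summable hf h1 h2 h3 hp
  have hL : TT f c2 c3 c4 p - TT f c1 c3 c4 p + TT f c1 c2 c4 p - TT f c1 c2 c3 p =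
      ∑' w, f w * G4 c1 c2 c3 c4 p w := by
    unfold TT
    rw [← s1.tsum_sub s2, ← (s1.sub s2).tsum_add s3, ← ((s1.sub s2).add s3).tsum_sub s4]
    refine tsum_congr fun w => ?_
    unfold G4
    ring
  rw [hL]
  have hz : (∀ w, G4 c1 c2 c3 c4 p w = 0) → ∃ k ∈ D.K, ∑' w, f w * G4 c1 c2 c3 c4 p w =
      k * Lam D := by
    intro h
    refine ⟨0, D.K.zero_mem, ?_⟩
    simp [h]
  by_cases d12 : det2 c1 c2 = 0
  · exact hz fun w => G4_dep h1 h2 d12 c3 c4 p w
  by_cases d13 : det2 c1 c3 = 0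
  · refine hz fun w => ?_
    have e := G4_dep h1 h3 d13 c2 c4 p w
    rw [G4_23 c1 c2 c3 c4] at e
    exact neg_eq_zero.1 e
  by_cases d14 : det2 c1 c4 = 0
  · refine hz fun w => ?_
    have e := G4_dep h1 h4 d14 c2 c3 p w
    rw [G4_23 c1 c2 c4 c3, G4_34 c1 c2 c3 c4, neg_neg] at e
    exact e
  by_cases d23 : det2 c2 c3 = 0
  · refine hz fun w => ?_
    have e := G4_dep h2 h3 d23 c1 c4 p w
    rw [G4_23 c2 c1 c3 c4, G4_12 c1 c2 c3 c4, neg_neg] at e
    exact e
  by_cases d24 : det2 c2 c4 = 0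
  · refine hz fun w => ?_
    have e := G4_dep h2 h4 d24 c1 c3 p w
    rw [G4_23 c2 c1 c4 c3, G4_12 c1 c2 c4 c3, G4_34 c1 c2 c3 c4, neg_neg] at e
    exact neg_eq_zero.1 e
  by_cases d34 : det2 c3 c4 = 0
  · refine hz fun w => ?_
    have e := G4_dep h3 h4 d34 c1 c2 p w
    rw [G4_23 c3 c1 c4 c2, G4_12 c1 c3 c4 c2, G4_34 c1 c3 c2 c4, G4_23 c1 c2 c3 c4] at e
    simpa using e
  obtain ⟨t1, k1, hk1, e1'⟩ := PL_sum hf (c := c1) h1 h2 h3 h4 hp
  obtain ⟨t2, k2, hk2, e2'⟩ := PL_sum hf (c := c2) h2 h1 h3 h4 hp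
  obtain ⟨t3, k3, hk3, e3'⟩ := PL_sum hf (c := c3) h3 h1 h2 h4 hp
  obtain ⟨t4, k4, hk4, e4'⟩ := PL_sum hf (c := c4) h4 h1 h2 h3 hp
  refine ⟨k1 - k2 + k3 - k4, D.K.sub_mem (D.K.add_mem (D.K.sub_mem hk1 hk2) hk3) hk4, ?_⟩
  have hpt : ∀ w, f w * G4 c1 c2 c3 c4 p w =
      PL f c1 c2 c3 c4 p w - PL f c2 c1 c3 c4 p w + PL f c3 c1 c2 c4 p w -
        PL f c4 c1 c2 c3 p w := by
    intro w
    by_cases hw : w = 0
    · subst hw
      have z : ∀ a b c : Vec, KG a b c p 0 = 0 := fun a b c =>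
        KG_zero (Or.inl (by unfold det2; simp))
      have zP : ∀ a b c d : Vec, PL f a b c d p 0 = 0 := fun a b c d => by
        unfold PL
        rw [z]
        simp
      unfold G4
      rw [z, z, z, z, zP, zP, zP, zP]
      ring
    by_cases l1 : det2 c1 w = 0
    · have n2 := one_line d12 hw l1
      have n3 := one_line d13 hw l1
      have n4 := one_line d14 hw l1
      unfold G4 PL
      rw [if_pos l1, if_neg n2, if_neg n3, if_neg n4,
        KG_zero (c1 := c1) (c2 := c3) (c3 := c4) (Or.inl l1),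
        KG_zero (c1 := c1) (c2 := c2) (c3 := c4) (Or.inl l1),
        KG_zero (c1 := c1) (c2 := c2) (c3 := c3) (Or.inl l1)]
      ring
    by_cases l2 : det2 c2 w = 0
    · have n3 := one_line d23 hw l2
      have n4 := one_line d24 hw l2
      unfold G4 PL
      rw [if_neg l1, if_pos l2, if_neg n3, if_neg n4,
        KG_zero (c1 := c2) (c2 := c3) (c3 := c4) (Or.inl l2),
        KG_zero (c1 := c1) (c2 := c2) (c3 := c4) (Or.inr (Or.inl l2)),
        KG_zero (c1 := c1) (c2 := c2) (c3 := c3) (Or.inr (Or.inl l2))]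
      ring
    by_cases l3 : det2 c3 w = 0
    · have n4 := one_line d34 hw l3
      unfold G4 PL
      rw [if_neg l1, if_neg l2, if_pos l3, if_neg n4,
        KG_zero (c1 := c2) (c2 := c3) (c3 := c4) (Or.inr (Or.inl l3)),
        KG_zero (c1 := c1) (c2 := c3) (c3 := c4) (Or.inr (Or.inl l3)),
        KG_zero (c1 := c1) (c2 := c2) (c3 := c3) (Or.inr (Or.inr l3))]
      ring
    by_cases l4 : det2 c4 w = 0
    · unfold G4 PL
      rw [if_neg l1, if_neg l2, if_neg l3, if_pos l4,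
        KG_zero (c1 := c2) (c2 := c3) (c3 := c4) (Or.inr (Or.inr l4)),
        KG_zero (c1 := c1) (c2 := c3) (c3 := c4) (Or.inr (Or.inr l4)),
        KG_zero (c1 := c1) (c2 := c2) (c3 := c4) (Or.inr (Or.inr l4))]
      ring
    · have e := KG_coc l1 l2 l3 l4 p
      have e' : G4 c1 c2 c3 c4 p w = 0 := e
      unfold PL
      rw [if_neg l1, if_neg l2, if_neg l3, if_neg l4, e']
      ring
  rw [tsum_congr hpt, ((t1.sub t2).add t3).tsum_sub t4, (t1.sub t2).tsum_add t3, t1.tsum_sub t2,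
    e1', e2', e3', e4']
  ring

end RNK
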