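import Pool.Agent.RNK.LpC

/-!
# RNK.Lp: the Lipschitz property of the weights

`lips`: put `C = A B`, `C' = A' B`, `d = |det C| = |det C'|`, `q = q0 C`, `q' = q0 C'`. If `δ ≥ 1/2`:
`ms (μ - μ') ≤ 2 ≤ 4 δ`. If `δ < 1/2`: if `q w ≠ 0` or `q' w ≠ 0` then `nq (C w) ≤ 2 κ d`
(`nq (C w) ≤ nq (C' w) / (1 - δ)`), at most `n0` such `w` (`count` with `κ' = 2 κ`), and
`|q w - q' w| ≤ |nq (C w) - nq (C' w)| / (κ d) ≤ δ nq (C w) / (κ d) ≤ 2 δ`. So
`Σ |q - q'| ≤ 2 n0 δ`. The masses `m, m' ≥ 1/2` (`qq_mass`) satisfy `|m - m'| ≤ 2 n0 δ`, and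
`|q/m - q'/m'| ≤ |q - q'| / m + q' |m - m'| / (m m')`, sum `≤ 4 n0 δ + 4 n0 δ`. `mapDomain` by the
injective `B.act` preserves `ms` of the difference.
-/

namespace RNK

variable {D : OD} {κ : ℝ}

private theorem lp_ms {B A A' : Mat} (hB : GK D B) (T : Finset Vec)
    (hT : ∀ w, rr D κ (A.mul B) w ≠ 0 ∨ rr D κ (A'.mul B) w ≠ 0 → w ∈ T) :
    ms (mu D κ B A - mu D κ B A') =
      ∑ w ∈ T, |rr D κ (A.mul B) w - rr D κ (A'.mul B) w| := by
  classical
  unfold ms
  have hs : (mu D κ B A - mu D κ B A').support ⊆ T.image B.act := by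
    intro x hx
    rw [Finsupp.mem_support_iff, Finsupp.sub_apply] at hx
    rw [Finset.mem_image]
    refine ⟨B.inv.act x, hT _ ?_, act_inv hB.2 x⟩
    by_contra hne
    rw [not_or, not_not, not_not] at hne
    apply hx
    have e : x = B.act (B.inv.act x) := (act_inv hB.2 x).symm
    rw [e, mu_apply hB, mu_apply hB, hne.1, hne.2, sub_zero]
  rw [Finsupp.sum_of_support_subset _ hs _ (fun _ _ => abs_zero),
    Finset.sum_image (fun x _ y _ h => act_inj hB.2 h)]
  refine Finset.sum_congr rfl fun w _ => ?_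
  rw [Finsupp.sub_apply, mu_apply hB, mu_apply hB]

private theorem lp_sum (μ : Ms) (T : Finset Vec) (hT : ∀ w, μ w ≠ 0 → w ∈ T) :
    (μ.sum fun _ a => a) = ∑ w ∈ T, μ w :=
  Finsupp.sum_of_support_subset _ (fun w hw => hT w (Finsupp.mem_support_iff.1 hw)) _
    (fun _ _ => rfl)

private theorem lp_core (T : Finset Vec) (q q' : Vec → ℝ) (m m' δ N : ℝ)
    (hm : m = ∑ w ∈ T, q w) (hm' : m' = ∑ w ∈ T, q' w) (h0 : 1 / 2 ≤ m) (h0' : 1 / 2 ≤ m')
    (hq' : ∀ w, 0 ≤ q' w) (hd : ∀ w ∈ T, |q w - q' w| ≤ 2 * δ) (hN : (T.card : ℝ) ≤ N)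
    (hδ : 0 ≤ δ) :
    ∑ w ∈ T, |m⁻¹ * q w - m'⁻¹ * q' w| ≤ 8 * N * δ := by
  have hmp : 0 < m := by linarith
  have hmp' : 0 < m' := by linarith
  have h1 : ∑ w ∈ T, |q w - q' w| ≤ 2 * N * δ := by
    calc ∑ w ∈ T, |q w - q' w| ≤ ∑ w ∈ T, 2 * δ := Finset.sum_le_sum hd
      _ = T.card * (2 * δ) := by rw [Finset.sum_const, nsmul_eq_mul]
      _ ≤ N * (2 * δ) := mul_le_mul_of_nonneg_right hN (by linarith)
      _ = 2 * N * δ := by ring
  have h2 : |m - m'| ≤ 2 * N * δ := by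
    rw [hm, hm', ← Finset.sum_sub_distrib]
    exact (Finset.abs_sum_le_sum_abs _ _).trans h1
  have h3 : ∀ w, |m⁻¹ * q w - m'⁻¹ * q' w| ≤
      m⁻¹ * |q w - q' w| + m⁻¹ * |m - m'| * (m'⁻¹ * q' w) := by
    intro w
    have e : m⁻¹ * q w - m'⁻¹ * q' w =
        m⁻¹ * (q w - q' w) + m⁻¹ * (m' - m) * (m'⁻¹ * q' w) := by
      field_simp
      ring
    rw [e]
    refine (abs_add_le _ _).trans ?_
    rw [abs_mul, abs_mul, abs_mul, abs_of_pos (inv_pos.2 hmp), abs_sub_comm m' m,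
      abs_of_nonneg (mul_nonneg (inv_pos.2 hmp').le (hq' w))]
  have h4 : ∑ w ∈ T, m'⁻¹ * q' w = 1 := by
    rw [← Finset.mul_sum, ← hm']
    exact inv_mul_cancel₀ hmp'.ne'
  have h5 : m⁻¹ ≤ 2 := by
    rw [inv_le_comm₀ hmp two_pos]
    linarith
  calc ∑ w ∈ T, |m⁻¹ * q w - m'⁻¹ * q' w|
      ≤ ∑ w ∈ T, (m⁻¹ * |q w - q' w| + m⁻¹ * |m - m'| * (m'⁻¹ * q' w)) :=
        Finset.sum_le_sum fun w _ => h3 w
    _ = m⁻¹ * ∑ w ∈ T, |q w - q' w| + m⁻¹ * |m - m'| := by
        rw [Finset.sum_add_distrib, ← Finset.mul_sum, ← Finset.mul_sum, h4, mul_one]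
    _ ≤ 2 * (2 * N * δ) + 2 * (2 * N * δ) := by
        refine add_le_add (mul_le_mul h5 h1 (Finset.sum_nonneg fun _ _ => abs_nonneg _) two_pos.le)
          (mul_le_mul h5 h2 (abs_nonneg _) two_pos.le)
    _ = 8 * N * δ := by ring

theorem lips (hκ : Kap D κ) : ∃ K1 : ℝ, 0 < K1 ∧ ∀ (B A A' : Mat) (δ : ℝ), GK D B →
    A.det ≠ 0 → ‖A'.det‖ = ‖A.det‖ → 0 ≤ δ →
    (∀ w, (1 - δ) * nq (A.act w) ≤ nq (A'.act w) ∧ nq (A'.act w) ≤ (1 + δ) * nq (A.act w)) →
    ms (mu D κ B A - mu D κ B A') ≤ K1 * δ := by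
  classical
  obtain ⟨n0, hn0⟩ := count hκ (2 * κ)
  have hκ0 : 0 < κ := lt_of_lt_of_le one_pos hκ.one
  refine ⟨8 * n0 + 4, by positivity, ?_⟩
  intro B A A' δ hB hA hAA hδ hw
  have hA' : A'.det ≠ 0 := by
    rw [← norm_ne_zero_iff, hAA, norm_ne_zero_iff]
    exact hA
  have hC := det_mul_ne hA hB.2
  have hC' := det_mul_ne hA' hB.2
  have hn : (0 : ℝ) ≤ n0 := Nat.cast_nonneg _
  rcases le_or_gt (1 / 2) δ with h | h
  · have h1 := lp_ms (κ := κ) (A := A) (A' := A') hB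
      ((rr D κ (A.mul B)).support ∪ (rr D κ (A'.mul B)).support) (by
        intro w hw
        rw [Finset.mem_union, Finsupp.mem_support_iff, Finsupp.mem_support_iff]
        exact hw)
    rw [h1]
    have h2 := rr_sum hκ hC
    have h3 := rr_sum hκ hC'
    rw [lp_sum _ ((rr D κ (A.mul B)).support ∪ (rr D κ (A'.mul B)).support) (by
        intro w hw
        rw [Finset.mem_union, Finsupp.mem_support_iff]
        exact Or.inl hw)] at h2
    rw [lp_sum _ ((rr D κ (A.mul B)).support ∪ (rr D κ (A'.mul B)).support) (by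
        intro w hw
        rw [Finset.mem_union, Finsupp.mem_support_iff, Finsupp.mem_support_iff]
        exact Or.inr hw)] at h3
    have h4 : ∑ w ∈ (rr D κ (A.mul B)).support ∪ (rr D κ (A'.mul B)).support,
        |rr D κ (A.mul B) w - rr D κ (A'.mul B) w| ≤
        ∑ w ∈ (rr D κ (A.mul B)).support ∪ (rr D κ (A'.mul B)).support,
          (rr D κ (A.mul B) w + rr D κ (A'.mul B) w) := by
      refine Finset.sum_le_sum fun w _ => ?_
      have a1 := rr_nonneg hκ hC w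
      have a2 := rr_nonneg hκ hC' w
      rw [abs_le]
      constructor <;> linarith
    rw [Finset.sum_add_distrib, h2, h3] at h4
    nlinarith
  · obtain ⟨hf, hc⟩ := hn0 _ hC
    have hd : ‖(A'.mul B).det‖ = ‖(A.mul B).det‖ := by
      rw [det_mul, det_mul, norm_mul, norm_mul, hAA]
    have hd0 : 0 < ‖(A.mul B).det‖ := norm_pos_iff.2 hC
    have hkd : 0 < κ * ‖(A.mul B).det‖ := mul_pos hκ0 hd0
    have hcmp : ∀ w, (1 - δ) * nq ((A.mul B).act w) ≤ nq ((A'.mul B).act w) ∧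
        nq ((A'.mul B).act w) ≤ (1 + δ) * nq ((A.mul B).act w) := by
      intro w
      rw [act_mul, act_mul]
      exact hw _
    have hq0 : ∀ (C : Mat) w, q0 D κ C w ≠ 0 → 0 < κ * ‖C.det‖ →
        Prim D w ∧ nq (C.act w) < κ * ‖C.det‖ := by
      intro C w h1 h2
      unfold q0 at h1
      split_ifs at h1 with h3
      · refine ⟨h3, ?_⟩
        by_contra h4
        apply h1
        apply max_eq_left
        have h5 : 1 ≤ nq (C.act w) / (κ * ‖C.det‖) := by
          rw [one_le_div h2]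
          exact not_lt.1 h4
        linarith
      · exact absurd rfl h1
    have hT : ∀ w, q0 D κ (A.mul B) w ≠ 0 ∨ q0 D κ (A'.mul B) w ≠ 0 → w ∈ hf.toFinset := by
      intro w hw
      rw [Set.Finite.mem_toFinset]
      rcases hw with h1 | h1
      · obtain ⟨h2, h3⟩ := hq0 _ _ h1 hkd
        refine ⟨h2, ?_⟩
        have h4 : κ * ‖(A.mul B).det‖ ≤ 2 * κ * ‖(A.mul B).det‖ := by nlinarith
        exact h3.le.trans h4
      · obtain ⟨h2, h3⟩ := hq0 _ _ h1 (by rw [hd]; exact hkd)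
        refine ⟨h2, ?_⟩
        rw [hd] at h3
        have h4 := (hcmp w).1
        have h5 := nq_nonneg ((A.mul B).act w)
        have h6 : (1 / 2) * nq ((A.mul B).act w) ≤ (1 - δ) * nq ((A.mul B).act w) :=
          mul_le_mul_of_nonneg_right (by linarith) h5
        linarith
    have hq : ∀ w ∈ hf.toFinset, |q0 D κ (A.mul B) w - q0 D κ (A'.mul B) w| ≤ 2 * δ := by
      intro w hwT
      rw [Set.Finite.mem_toFinset] at hwT
      obtain ⟨hP, hwn⟩ := hwT
      unfold q0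
      rw [if_pos hP, if_pos hP, hd]
      have h1 : |max 0 (1 - nq ((A.mul B).act w) / (κ * ‖(A.mul B).det‖)) -
          max 0 (1 - nq ((A'.mul B).act w) / (κ * ‖(A.mul B).det‖))| ≤
          |(1 - nq ((A.mul B).act w) / (κ * ‖(A.mul B).det‖)) -
            (1 - nq ((A'.mul B).act w) / (κ * ‖(A.mul B).det‖))| := by
        rw [max_comm 0, max_comm 0]
        exact abs_max_sub_max_le_abs _ _ _
      refine h1.trans ?_
      have e : (1 - nq ((A.mul B).act w) / (κ * ‖(A.mul B).det‖)) -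
          (1 - nq ((A'.mul B).act w) / (κ * ‖(A.mul B).det‖)) =
          (nq ((A'.mul B).act w) - nq ((A.mul B).act w)) / (κ * ‖(A.mul B).det‖) := by ring
      rw [e, abs_div, abs_of_pos hkd, div_le_iff₀ hkd]
      obtain ⟨h2, h3⟩ := hcmp w
      have h4 : |nq ((A'.mul B).act w) - nq ((A.mul B).act w)| ≤ δ * nq ((A.mul B).act w) := by
        rw [abs_le]
        constructor <;> linarith
      refine h4.trans ?_
      have h5 := mul_le_mul_of_nonneg_left hwn hδ
      refine h5.trans (le_of_eq ?_)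
      ring
    have hrr : ∀ C : Mat, C.det ≠ 0 → ∀ w, rr D κ C w =
        ((qq D κ C).sum fun _ a => a)⁻¹ * q0 D κ C w := by
      intro C hC w
      unfold rr
      rw [Finsupp.smul_apply, smul_eq_mul, qq_apply hκ0 hC]
    have h1 := lp_ms (κ := κ) (A := A) (A' := A') hB hf.toFinset (by
        intro w hw
        apply hT
        rw [hrr _ hC, hrr _ hC'] at hw
        rcases hw with h2 | h2
        · exact Or.inl (right_ne_zero_of_mul h2)
        · exact Or.inr (right_ne_zero_of_mul h2))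
    rw [h1]
    simp only [hrr _ hC, hrr _ hC']
    have h2 := lp_core hf.toFinset (q0 D κ (A.mul B)) (q0 D κ (A'.mul B))
      ((qq D κ (A.mul B)).sum fun _ a => a) ((qq D κ (A'.mul B)).sum fun _ a => a) δ n0
      (by
        rw [lp_sum _ hf.toFinset (fun w hw => hT w (Or.inl (by
          rwa [qq_apply hκ0 hC] at hw)))]
        exact Finset.sum_congr rfl fun w _ => qq_apply hκ0 hC w)
      (by
        rw [lp_sum _ hf.toFinset (fun w hw => hT w (Or.inr (by
          rwa [qq_apply hκ0 hC'] at hw)))]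
        exact Finset.sum_congr rfl fun w _ => qq_apply hκ0 hC' w)
      (qq_mass hκ hC) (qq_mass hκ hC') (fun w => q0_nonneg D κ _ w) hq
      (by
        rw [Set.ncard_eq_toFinset_card _ hf] at hc
        exact_mod_cast hc) hδ
    refine h2.trans ?_
    nlinarith

end RNK
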