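import Pool.Agent.RNK.Rg

/-!
# RNK.Sg: the trilinear extension

Finite sums only: `sg_eq` rewrites `sg` as a triple `Finset.sum` over any finite sets which contain
the supports.
-/

namespace RNK

variable {D : OD}

/-- `sg` as a sum over finite sets which contain the supports -/
private theorem sg_eq (s : Vec → Vec → Vec → ℂ) (μ ν ρ : Ms) {A B C : Finset Vec}
    (hA : μ.support ⊆ A) (hB : ν.support ⊆ B) (hC : ρ.support ⊆ C) :
    sg s μ ν ρ = ∑ x ∈ A, ∑ y ∈ B, ∑ z ∈ C, ((μ x * ν y * ρ z : ℝ) : ℂ) * s x y z := by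
  unfold sg
  rw [Finsupp.sum_of_support_subset μ hA _ (by intro i _; simp [Finsupp.sum])]
  refine Finset.sum_congr rfl fun x _ => ?_
  rw [Finsupp.sum_of_support_subset ν hB _ (by intro i _; simp [Finsupp.sum])]
  refine Finset.sum_congr rfl fun y _ => ?_
  rw [Finsupp.sum_of_support_subset ρ hC _ (by intro i _; simp)]

/-- the same with the supports -/
private theorem sg_eq' (s : Vec → Vec → Vec → ℂ) (μ ν ρ : Ms) :
    sg s μ ν ρ = ∑ x ∈ μ.support, ∑ y ∈ ν.support, ∑ z ∈ ρ.support,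
      ((μ x * ν y * ρ z : ℝ) : ℂ) * s x y z :=
  sg_eq s μ ν ρ subset_rfl subset_rfl subset_rfl

private theorem sg_congr {s s' : Vec → Vec → Vec → ℂ} {μ ν ρ : Ms}
    (h : ∀ x y z, μ x ≠ 0 → ν y ≠ 0 → ρ z ≠ 0 → s x y z = s' x y z) :
    sg s μ ν ρ = sg s' μ ν ρ := by
  rw [sg_eq', sg_eq']
  refine Finset.sum_congr rfl fun x hx => Finset.sum_congr rfl fun y hy =>
    Finset.sum_congr rfl fun z hz => ?_
  rw [h x y z (Finsupp.mem_support_iff.1 hx) (Finsupp.mem_support_iff.1 hy)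
    (Finsupp.mem_support_iff.1 hz)]

theorem sg_sub3 (s : Vec → Vec → Vec → ℂ) (μ ν ρ ρ' : Ms) :
    sg s μ ν (ρ - ρ') = sg s μ ν ρ - sg s μ ν ρ' := by
  classical
  have h0 : (ρ - ρ').support ⊆ ρ.support ∪ ρ'.support := Finsupp.support_sub
  rw [sg_eq s μ ν (ρ - ρ') subset_rfl subset_rfl h0,
    sg_eq s μ ν ρ subset_rfl subset_rfl (Finset.subset_union_left (s₂ := ρ'.support)),
    sg_eq s μ ν ρ' subset_rfl subset_rfl (Finset.subset_union_right (s₁ := ρ.support)),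
    ← Finset.sum_sub_distrib]
  refine Finset.sum_congr rfl fun x _ => ?_
  rw [← Finset.sum_sub_distrib]
  refine Finset.sum_congr rfl fun y _ => ?_
  rw [← Finset.sum_sub_distrib]
  refine Finset.sum_congr rfl fun z _ => ?_
  rw [Finsupp.sub_apply]
  push_cast
  ring

theorem sg_sub2 (s : Vec → Vec → Vec → ℂ) (μ ν ν' ρ : Ms) :
    sg s μ (ν - ν') ρ = sg s μ ν ρ - sg s μ ν' ρ := by
  classical
  have h0 : (ν - ν').support ⊆ ν.support ∪ ν'.support := Finsupp.support_sub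
  rw [sg_eq s μ (ν - ν') ρ subset_rfl h0 subset_rfl,
    sg_eq s μ ν ρ subset_rfl (Finset.subset_union_left (s₂ := ν'.support)) subset_rfl,
    sg_eq s μ ν' ρ subset_rfl (Finset.subset_union_right (s₁ := ν.support)) subset_rfl,
    ← Finset.sum_sub_distrib]
  refine Finset.sum_congr rfl fun x _ => ?_
  rw [← Finset.sum_sub_distrib]
  refine Finset.sum_congr rfl fun y _ => ?_
  rw [← Finset.sum_sub_distrib]
  refine Finset.sum_congr rfl fun z _ => ?_
  rw [Finsupp.sub_apply]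
  push_cast
  ring

theorem sg_sub1 (s : Vec → Vec → Vec → ℂ) (μ μ' ν ρ : Ms) :
    sg s (μ - μ') ν ρ = sg s μ ν ρ - sg s μ' ν ρ := by
  classical
  have h0 : (μ - μ').support ⊆ μ.support ∪ μ'.support := Finsupp.support_sub
  rw [sg_eq s (μ - μ') ν ρ h0 subset_rfl subset_rfl,
    sg_eq s μ ν ρ (Finset.subset_union_left (s₂ := μ'.support)) subset_rfl subset_rfl,
    sg_eq s μ' ν ρ (Finset.subset_union_right (s₁ := μ.support)) subset_rfl subset_rfl,
    ← Finset.sum_sub_distrib]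
  refine Finset.sum_congr rfl fun x _ => ?_
  rw [← Finset.sum_sub_distrib]
  refine Finset.sum_congr rfl fun y _ => ?_
  rw [← Finset.sum_sub_distrib]
  refine Finset.sum_congr rfl fun z _ => ?_
  rw [Finsupp.sub_apply]
  push_cast
  ring

theorem sg_norm_le (s : Vec → Vec → Vec → ℂ) (μ ν ρ : Ms) {c : ℝ} (hc : 0 ≤ c)
    (h : ∀ x y z, μ x ≠ 0 → ν y ≠ 0 → ρ z ≠ 0 → ‖s x y z‖ ≤ c) :
    ‖sg s μ ν ρ‖ ≤ c * ms μ * ms ν * ms ρ := by
  have e : c * ms μ * ms ν * ms ρ = ∑ x ∈ μ.support, ∑ y ∈ ν.support, ∑ z ∈ ρ.support,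
      |μ x| * |ν y| * |ρ z| * c := by
    simp only [ms, Finsupp.sum]
    simp only [← Finset.sum_mul, ← Finset.mul_sum]
    ring
  rw [e, sg_eq']
  refine (norm_sum_le _ _).trans (Finset.sum_le_sum fun x hx => ?_)
  refine (norm_sum_le _ _).trans (Finset.sum_le_sum fun y hy => ?_)
  refine (norm_sum_le _ _).trans (Finset.sum_le_sum fun z hz => ?_)
  rw [norm_mul, Complex.norm_real, Real.norm_eq_abs, abs_mul, abs_mul]
  exact mul_le_mul_of_nonneg_left (h x y z (Finsupp.mem_support_iff.1 hx)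
    (Finsupp.mem_support_iff.1 hy) (Finsupp.mem_support_iff.1 hz)) (by positivity)

theorem ms_nonneg (μ : Ms) : 0 ≤ ms μ :=
  Finset.sum_nonneg fun _ _ => abs_nonneg _

theorem ms_dl (x : Vec) : ms (dl x) = 1 := by
  unfold ms dl
  rw [Finsupp.sum_single_index (by simp)]
  simp

variable (S : Coc D) {f g : Vec → ℂ} {p : Vec} {μ ν ρ τ : Ms}

theorem Sg_a12 (hf : AdmE D f) (hp : K2 D p) (hμ : ∀ w, μ w ≠ 0 → Cu D w)
    (hν : ∀ w, ν w ≠ 0 → Cu D w) (hρ : ∀ w, ρ w ≠ 0 → Cu D w) :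
    S.sg f p ν μ ρ = -S.sg f p μ ν ρ := by
  unfold Coc.sg
  rw [sg_eq', sg_eq', Finset.sum_comm, ← Finset.sum_neg_distrib]
  refine Finset.sum_congr rfl fun x hx => ?_
  rw [← Finset.sum_neg_distrib]
  refine Finset.sum_congr rfl fun y hy => ?_
  rw [← Finset.sum_neg_distrib]
  refine Finset.sum_congr rfl fun z hz => ?_
  rw [S.a12 f hf x y z p (hμ x (Finsupp.mem_support_iff.1 hx))
    (hν y (Finsupp.mem_support_iff.1 hy)) (hρ z (Finsupp.mem_support_iff.1 hz)) hp]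
  push_cast
  ring

theorem Sg_a23 (hf : AdmE D f) (hp : K2 D p) (hμ : ∀ w, μ w ≠ 0 → Cu D w)
    (hν : ∀ w, ν w ≠ 0 → Cu D w) (hρ : ∀ w, ρ w ≠ 0 → Cu D w) :
    S.sg f p μ ρ ν = -S.sg f p μ ν ρ := by
  unfold Coc.sg
  rw [sg_eq', sg_eq', ← Finset.sum_neg_distrib]
  refine Finset.sum_congr rfl fun x hx => ?_
  rw [Finset.sum_comm, ← Finset.sum_neg_distrib]
  refine Finset.sum_congr rfl fun y hy => ?_
  rw [← Finset.sum_neg_distrib]
  refine Finset.sum_congr rfl fun z hz => ?_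
  rw [S.a23 f hf x y z p (hμ x (Finsupp.mem_support_iff.1 hx))
    (hν y (Finsupp.mem_support_iff.1 hy)) (hρ z (Finsupp.mem_support_iff.1 hz)) hp]
  push_cast
  ring

private theorem PM_sum {μ : Ms} (h : PM D μ) : ∑ x ∈ μ.support, (μ x : ℂ) = 1 := by
  have h1 := h.one
  unfold Finsupp.sum at h1
  exact_mod_cast h1

theorem Sg_coc (hf : AdmE D f) (hp : K2 D p) (hμ : PM D μ) (hν : PM D ν) (hρ : PM D ρ)
    (hτ : PM D τ) :
    S.sg f p ν ρ τ - S.sg f p μ ρ τ + S.sg f p μ ν τ - S.sg f p μ ν ρ = 0 := by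
  have e1 : S.sg f p ν ρ τ = ∑ x ∈ μ.support, ∑ y ∈ ν.support, ∑ z ∈ ρ.support,
      ∑ w ∈ τ.support, (μ x * ν y * ρ z * τ w : ℂ) * S.s f y z w p := by
    have h1 : ∀ x ∈ μ.support, (∑ y ∈ ν.support, ∑ z ∈ ρ.support,
        ∑ w ∈ τ.support, (μ x * ν y * ρ z * τ w : ℂ) * S.s f y z w p) =
        (μ x : ℂ) * S.sg f p ν ρ τ := by
      intro x _
      unfold Coc.sg
      rw [sg_eq', Finset.mul_sum]
      refine Finset.sum_congr rfl fun y _ => ?_
      rw [Finset.mul_sum]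
      refine Finset.sum_congr rfl fun z _ => ?_
      rw [Finset.mul_sum]
      refine Finset.sum_congr rfl fun w _ => ?_
      push_cast
      ring
    rw [Finset.sum_congr rfl h1, ← Finset.sum_mul, PM_sum hμ, one_mul]
  have e2 : S.sg f p μ ρ τ = ∑ x ∈ μ.support, ∑ y ∈ ν.support, ∑ z ∈ ρ.support,
      ∑ w ∈ τ.support, (μ x * ν y * ρ z * τ w : ℂ) * S.s f x z w p := by
    unfold Coc.sg
    rw [sg_eq']
    refine Finset.sum_congr rfl fun x _ => ?_
    have h1 : ∀ y ∈ ν.support, (∑ z ∈ ρ.support,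
        ∑ w ∈ τ.support, (μ x * ν y * ρ z * τ w : ℂ) * S.s f x z w p) =
        (ν y : ℂ) * ∑ z ∈ ρ.support, ∑ w ∈ τ.support,
          ((μ x * ρ z * τ w : ℝ) : ℂ) * S.s f x z w p := by
      intro y _
      rw [Finset.mul_sum]
      refine Finset.sum_congr rfl fun z _ => ?_
      rw [Finset.mul_sum]
      refine Finset.sum_congr rfl fun w _ => ?_
      push_cast
      ring
    rw [Finset.sum_congr rfl h1, ← Finset.sum_mul, PM_sum hν, one_mul]
  have e3 : S.sg f p μ ν τ = ∑ x ∈ μ.support, ∑ y ∈ ν.support, ∑ z ∈ ρ.support,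
      ∑ w ∈ τ.support, (μ x * ν y * ρ z * τ w : ℂ) * S.s f x y w p := by
    unfold Coc.sg
    rw [sg_eq']
    refine Finset.sum_congr rfl fun x _ => Finset.sum_congr rfl fun y _ => ?_
    have h1 : ∀ z ∈ ρ.support, (∑ w ∈ τ.support,
        (μ x * ν y * ρ z * τ w : ℂ) * S.s f x y w p) =
        (ρ z : ℂ) * ∑ w ∈ τ.support, ((μ x * ν y * τ w : ℝ) : ℂ) * S.s f x y w p := by
      intro z _
      rw [Finset.mul_sum]
      refine Finset.sum_congr rfl fun w _ => ?_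
      push_cast
      ring
    rw [Finset.sum_congr rfl h1, ← Finset.sum_mul, PM_sum hρ, one_mul]
  have e4 : S.sg f p μ ν ρ = ∑ x ∈ μ.support, ∑ y ∈ ν.support, ∑ z ∈ ρ.support,
      ∑ w ∈ τ.support, (μ x * ν y * ρ z * τ w : ℂ) * S.s f x y z p := by
    unfold Coc.sg
    rw [sg_eq']
    refine Finset.sum_congr rfl fun x _ => Finset.sum_congr rfl fun y _ =>
      Finset.sum_congr rfl fun z _ => ?_
    have h1 : ∀ w ∈ τ.support, (μ x * ν y * ρ z * τ w : ℂ) * S.s f x y z p =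
        (τ w : ℂ) * (((μ x * ν y * ρ z : ℝ) : ℂ) * S.s f x y z p) := by
      intro w _
      push_cast
      ring
    rw [Finset.sum_congr rfl h1, ← Finset.sum_mul, PM_sum hτ, one_mul]
  rw [e1, e2, e3, e4]
  simp only [← Finset.sum_sub_distrib, ← Finset.sum_add_distrib]
  refine Finset.sum_eq_zero fun x hx => Finset.sum_eq_zero fun y hy =>
    Finset.sum_eq_zero fun z hz => Finset.sum_eq_zero fun w hw => ?_
  have h := S.coc f hf x y z w p (hμ.cu x (Finsupp.mem_support_iff.1 hx))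
    (hν.cu y (Finsupp.mem_support_iff.1 hy)) (hρ.cu z (Finsupp.mem_support_iff.1 hz))
    (hτ.cu w (Finsupp.mem_support_iff.1 hw)) hp
  linear_combination (μ x * ν y * ρ z * τ w : ℂ) * h

/-- a probability measure on a line may be replaced by a point mass -/
theorem Sg_line (hf : AdmE D f) (hp : K2 D p) (hμ : PM D μ) {c : Vec} (hc : Cu D c)
    (hl : ∀ x, μ x ≠ 0 → det2 c x = 0) (hν : ∀ w, ν w ≠ 0 → Cu D w)
    (hρ : ∀ w, ρ w ≠ 0 → Cu D w) : S.sg f p μ ν ρ = S.sg f p (dl c) ν ρ := by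
  classical
  have e1 : S.sg f p (dl c) ν ρ = ∑ y ∈ ν.support, ∑ z ∈ ρ.support,
      ((ν y * ρ z : ℝ) : ℂ) * S.s f c y z p := by
    unfold Coc.sg
    rw [sg_eq _ (dl c) ν ρ (A := {c}) Finsupp.support_single_subset subset_rfl subset_rfl,
      Finset.sum_singleton]
    simp only [dl, Finsupp.single_eq_same, one_mul]
  have e2 : S.sg f p μ ν ρ = ∑ x ∈ μ.support, (μ x : ℂ) * S.sg f p (dl c) ν ρ := by
    rw [e1]
    unfold Coc.sg
    rw [sg_eq']
    refine Finset.sum_congr rfl fun x hx => ?_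
    rw [Finset.mul_sum]
    refine Finset.sum_congr rfl fun y hy => ?_
    rw [Finset.mul_sum]
    refine Finset.sum_congr rfl fun z hz => ?_
    obtain ⟨k, hk, hk0, rfl⟩ := (det2_eq_zero hc (hμ.cu x (Finsupp.mem_support_iff.1 hx))).1
      (hl x (Finsupp.mem_support_iff.1 hx))
    rw [S.scal f hf k hk hk0 c y z p hc (hν y (Finsupp.mem_support_iff.1 hy))
      (hρ z (Finsupp.mem_support_iff.1 hz)) hp]
    push_cast
    ring
  rw [e2, ← Finset.sum_mul, PM_sum hμ, one_mul]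

theorem Sg_dl (x y z : Vec) : S.sg f p (dl x) (dl y) (dl z) = S.s f x y z p := by
  classical
  unfold Coc.sg
  rw [sg_eq _ (dl x) (dl y) (dl z) (A := {x}) (B := {y}) (C := {z})
    Finsupp.support_single_subset Finsupp.support_single_subset Finsupp.support_single_subset,
    Finset.sum_singleton, Finset.sum_singleton, Finset.sum_singleton]
  simp [dl]

theorem Sg_add (hf : AdmE D f) (hg : AdmE D g) (hp : K2 D p) (hμ : ∀ w, μ w ≠ 0 → Cu D w)
    (hν : ∀ w, ν w ≠ 0 → Cu D w) (hρ : ∀ w, ρ w ≠ 0 → Cu D w) :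
    S.sg (fun w => f w + g w) p μ ν ρ = S.sg f p μ ν ρ + S.sg g p μ ν ρ := by
  unfold Coc.sg
  rw [sg_eq', sg_eq', sg_eq', ← Finset.sum_add_distrib]
  refine Finset.sum_congr rfl fun x hx => ?_
  rw [← Finset.sum_add_distrib]
  refine Finset.sum_congr rfl fun y hy => ?_
  rw [← Finset.sum_add_distrib]
  refine Finset.sum_congr rfl fun z hz => ?_
  rw [S.add f g hf hg x y z p (hμ x (Finsupp.mem_support_iff.1 hx))
    (hν y (Finsupp.mem_support_iff.1 hy)) (hρ z (Finsupp.mem_support_iff.1 hz)) hp]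
  ring

theorem Sg_smul (hf : AdmE D f) {k : ℂ} (hk : k ∈ D.K) (hp : K2 D p)
    (hμ : ∀ w, μ w ≠ 0 → Cu D w) (hν : ∀ w, ν w ≠ 0 → Cu D w) (hρ : ∀ w, ρ w ≠ 0 → Cu D w) :
    S.sg (fun w => k * f w) p μ ν ρ = k * S.sg f p μ ν ρ := by
  unfold Coc.sg
  rw [sg_eq', sg_eq', Finset.mul_sum]
  refine Finset.sum_congr rfl fun x hx => ?_
  rw [Finset.mul_sum]
  refine Finset.sum_congr rfl fun y hy => ?_
  rw [Finset.mul_sum]
  refine Finset.sum_congr rfl fun z hz => ?_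
  rw [S.smul f hf k hk x y z p (hμ x (Finsupp.mem_support_iff.1 hx))
    (hν y (Finsupp.mem_support_iff.1 hy)) (hρ z (Finsupp.mem_support_iff.1 hz)) hp]
  ring

theorem Sg_act (hf : AdmE D f) {h : Mat} (hh : GK D h) (hp : K2 D p)
    (hμ : ∀ w, μ w ≠ 0 → Cu D w) (hν : ∀ w, ν w ≠ 0 → Cu D w) (hρ : ∀ w, ρ w ≠ 0 → Cu D w) :
    S.sg (fun w => f (h.act w)) p μ ν ρ = ((‖h.det‖ ^ 2 : ℝ) : ℂ) *
      S.sg f (h.act p) (μ.mapDomain h.act) (ν.mapDomain h.act) (ρ.mapDomain h.act) := by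
  have hi := act_inj hh.2
  have e1 : S.sg f (h.act p) (μ.mapDomain h.act) (ν.mapDomain h.act) (ρ.mapDomain h.act) =
      RNK.sg (fun x y z => S.s f (h.act x) (h.act y) (h.act z) (h.act p)) μ ν ρ := by
    unfold Coc.sg RNK.sg
    rw [Finsupp.sum_mapDomain_index_inj hi]
    refine Finset.sum_congr rfl fun x _ => ?_
    beta_reduce
    rw [Finsupp.sum_mapDomain_index_inj hi]
    refine Finset.sum_congr rfl fun y _ => ?_
    beta_reduce
    rw [Finsupp.sum_mapDomain_index_inj hi]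
  rw [e1]
  unfold Coc.sg
  rw [sg_eq', sg_eq', Finset.mul_sum]
  refine Finset.sum_congr rfl fun x hx => ?_
  rw [Finset.mul_sum]
  refine Finset.sum_congr rfl fun y hy => ?_
  rw [Finset.mul_sum]
  refine Finset.sum_congr rfl fun z hz => ?_
  rw [S.equiv f hf h hh x y z p (hμ x (Finsupp.mem_support_iff.1 hx))
    (hν y (Finsupp.mem_support_iff.1 hy)) (hρ z (Finsupp.mem_support_iff.1 hz)) hp]
  ring

theorem Sg_quad (hf : AdmE D f) (hμ : ∀ w, μ w ≠ 0 → Cu D w)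
    (hν : ∀ w, ν w ≠ 0 → Cu D w) (hρ : ∀ w, ρ w ≠ 0 → Cu D w) :
    ∃ S11 S12 S22 : ℂ, ∀ p, K2 D p →
      S.sg f p μ ν ρ = p.1 ^ 2 * S11 + p.1 * p.2 * S12 + p.2 ^ 2 * S22 := by
  classical
  have h1 : ∀ x y z : Vec, ∃ a b c : ℂ, Cu D x → Cu D y → Cu D z → ∀ p, K2 D p →
      S.s f x y z p = p.1 ^ 2 * a + p.1 * p.2 * b + p.2 ^ 2 * c := by
    intro x y z
    by_cases h : Cu D x ∧ Cu D y ∧ Cu D z
    · obtain ⟨a, b, c, h2⟩ := S.quad f hf x y z h.1 h.2.1 h.2.2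
      exact ⟨a, b, c, fun _ _ _ => h2⟩
    · exact ⟨0, 0, 0, fun hx hy hz => absurd ⟨hx, hy, hz⟩ h⟩
  choose a b c h2 using h1
  refine ⟨RNK.sg a μ ν ρ, RNK.sg b μ ν ρ, RNK.sg c μ ν ρ, fun p hp => ?_⟩
  unfold Coc.sg
  rw [sg_eq', sg_eq', sg_eq', sg_eq', Finset.mul_sum, Finset.mul_sum, Finset.mul_sum,
    ← Finset.sum_add_distrib, ← Finset.sum_add_distrib]
  refine Finset.sum_congr rfl fun x hx => ?_
  rw [Finset.mul_sum, Finset.mul_sum, Finset.mul_sum,
    ← Finset.sum_add_distrib, ← Finset.sum_add_distrib]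
  refine Finset.sum_congr rfl fun y hy => ?_
  rw [Finset.mul_sum, Finset.mul_sum, Finset.mul_sum,
    ← Finset.sum_add_distrib, ← Finset.sum_add_distrib]
  refine Finset.sum_congr rfl fun z hz => ?_
  rw [h2 x y z (hμ x (Finsupp.mem_support_iff.1 hx))
    (hν y (Finsupp.mem_support_iff.1 hy)) (hρ z (Finsupp.mem_support_iff.1 hz)) p hp]
  ring

end RNK
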