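import Pool.Agent.RNK.Lo
import Pool.Agent.RNK.Lp
import Pool.Agent.RNK.Sg

/-!
# RNK.Lq: local bounds for measures

`LocM`: all vectors of the support are cusps and local. Everything follows from `local_bound` and
`sg_norm_le`.
* `mu_loc`: `mu_supp`, `k = 1`.
* `loc_pt`: change of the point. `nq (A y) ≤ c nq (A' y)` for all `y`, `|det A'| ≤ c' |det A|`.
* `loc_lat`: change of the lattice, multiply by `n`: `n B₁ u = B₂ u'`.
* `sg_bound`, `sg_polar`: `sg_norm_le` for `s f · · · p` and for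
  `s f · · · (p+q) - s f · · · p - s f · · · q` (note `sg (s₁ - s₂ - s₃) = ...` is linear in `s`).
* `sg_diff`: replace the three measures one after the other (`sg_sub1`, `sg_sub2`, `sg_sub3`); a difference
  `μ - μ'` is supported on local vectors; the masses are `1` (`PM_ms`), the differences have mass `≤ δ`.
-/

namespace RNK

variable {D : OD}

/-- the support of the measure is local -/
def LocM (D : OD) (B A : Mat) (κ' : ℝ) (μ : Ms) : Prop :=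
  ∀ x, μ x ≠ 0 → Cu D x ∧ Loc D B A κ' x

theorem mu_loc {κ : ℝ} (hκ : Kap D κ) {B A : Mat} (hB : GK D B) (hA : A.det ≠ 0) :
    LocM D B A κ (mu D κ B A) := by
  intro x hx
  obtain ⟨u, hu, hxu, hn⟩ := mu_supp hκ hB hA hx
  refine ⟨by rw [hxu]; exact Cu_act hB (Prim_Cu hu), 1, D.K.one_mem, one_ne_zero, u, Prim_O2 hu,
    Prim_ne hu, by rw [one_smul, hxu], ?_⟩
  rw [← hxu]
  exact hn.le

theorem loc_mono {B A : Mat} {κ' κ'' : ℝ} (h : κ' ≤ κ'') {x : Vec} (hx : Loc D B A κ' x) :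
    Loc D B A κ'' x := by
  obtain ⟨k, hk, hk0, u, hu, hu0, he, hn⟩ := hx
  exact ⟨k, hk, hk0, u, hu, hu0, he, hn.trans (mul_le_mul_of_nonneg_right h (norm_nonneg _))⟩

theorem loc_pt {B A A' : Mat} {κ' c c' : ℝ} (hκ' : 0 ≤ κ') (hc : 0 ≤ c)
    (h : ∀ w, nq (A.act w) ≤ c * nq (A'.act w)) (hd : ‖A'.det‖ ≤ c' * ‖A.det‖) {x : Vec}
    (hx : Loc D B A' κ' x) : Loc D B A (c * c' * κ') x := by
  obtain ⟨k, hk, hk0, u, hu, hu0, he, hn⟩ := hx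
  refine ⟨k, hk, hk0, u, hu, hu0, he, ?_⟩
  rw [det_mul, norm_mul] at hn ⊢
  calc nq (A.act (B.act u)) ≤ c * nq (A'.act (B.act u)) := h _
    _ ≤ c * (κ' * (‖A'.det‖ * ‖B.det‖)) := mul_le_mul_of_nonneg_left hn hc
    _ ≤ c * (κ' * ((c' * ‖A.det‖) * ‖B.det‖)) :=
        mul_le_mul_of_nonneg_left (mul_le_mul_of_nonneg_left
          (mul_le_mul_of_nonneg_right hd (norm_nonneg _)) hκ') hc
    _ = c * c' * κ' * (‖A.det‖ * ‖B.det‖) := by ring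

theorem loc_lat {B₁ B₂ A : Mat} {κ' c : ℝ} {n : ℕ} (hn : 0 < n) (hκ' : 0 ≤ κ')
    (hB₁ : GK D B₁) (hB₂ : GK D B₂)
    (h : ∀ u, O2 D u → ∃ u', O2 D u' ∧ (n : ℂ) • B₁.act u = B₂.act u')
    (hd : ‖B₁.det‖ ≤ c * ‖B₂.det‖) {x : Vec} (hx : Loc D B₁ A κ' x) :
    Loc D B₂ A (n ^ 2 * c * κ') x := by
  obtain ⟨k, hk, hk0, u, hu, hu0, he, hn1⟩ := hx
  obtain ⟨u', hu', he'⟩ := h u hu
  have hn0 : (n : ℂ) ≠ 0 := by exact_mod_cast hn.ne'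
  have hne : B₂.act u' ≠ 0 := by
    rw [← he']
    exact smul_ne_zero hn0 fun h0 => hu0 ((act_eq_zero hB₁.2).1 h0)
  refine ⟨(n : ℂ) * k, D.K.mul_mem (O_sub_K (nat_O n)) hk, mul_ne_zero hn0 hk0, u', hu', ?_, ?_, ?_⟩
  · rintro rfl
    exact hne (act_zero _)
  · rw [mul_smul, he, he']
  · rw [← he', act_smul, nq_smul, Complex.norm_natCast]
    rw [det_mul, norm_mul] at hn1 ⊢
    calc (n : ℝ) ^ 2 * nq (A.act (B₁.act u)) ≤ (n : ℝ) ^ 2 * (κ' * (‖A.det‖ * ‖B₁.det‖)) :=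
          mul_le_mul_of_nonneg_left hn1 (by positivity)
      _ ≤ (n : ℝ) ^ 2 * (κ' * (‖A.det‖ * (c * ‖B₂.det‖))) :=
          mul_le_mul_of_nonneg_left (mul_le_mul_of_nonneg_left
            (mul_le_mul_of_nonneg_left hd (norm_nonneg _)) hκ') (by positivity)
      _ = n ^ 2 * c * κ' * (‖A.det‖ * ‖B₂.det‖) := by ring

private theorem locM_sub {B A : Mat} {κ' : ℝ} {μ μ' : Ms} (h : LocM D B A κ' μ) (h' : LocM D B A κ' μ') :
    LocM D B A κ' (μ - μ') := by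
  intro x hx
  by_cases h0 : μ x = 0
  · refine h' x fun h1 => hx ?_
    rw [Finsupp.sub_apply, h0, h1, sub_zero]
  · exact h x h0

private theorem sg_sub0 (s s' : Vec → Vec → Vec → ℂ) (μ ν ρ : Ms) :
    sg (fun x y z => s x y z - s' x y z) μ ν ρ = sg s μ ν ρ - sg s' μ ν ρ := by
  simp only [sg, Finsupp.sum, mul_sub, Finset.sum_sub_distrib]

/-- the local bounds, for measures, their polar form, and the change of the measures -/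
theorem sg_bound (S : Coc D) {M : ℕ} (hM : 0 < M) (V : Finset ℂ) (hV : ∀ v ∈ V, v ∈ D.K)
    (κ' : ℝ) : ∃ K0 : ℝ, 0 < K0 ∧ ∀ (f : Vec → ℂ) (B A : Mat), GK D B → A.det ≠ 0 →
    AdmE D f → Fn D M V (fun w => f (B.act w)) →
    ∀ μ ν ρ : Ms, LocM D B A κ' μ → LocM D B A κ' ν → LocM D B A κ' ρ →
    ∀ p q, K2 D p → K2 D q →
      ‖S.sg f p μ ν ρ‖ ≤ K0 * ((‖B.det‖ ^ 3)⁻¹ * (nq (A.act p) / ‖A.det‖)) *
        (ms μ * ms ν * ms ρ) ∧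
      ‖S.sg f (p + q) μ ν ρ - S.sg f p μ ν ρ - S.sg f q μ ν ρ‖ ≤
        K0 * ((‖B.det‖ ^ 3)⁻¹ * (√(nq (A.act p)) * √(nq (A.act q)) / ‖A.det‖)) *
          (ms μ * ms ν * ms ρ) := by
  obtain ⟨K0, hK0, H⟩ := local_bound S hM V hV κ'
  refine ⟨K0, hK0, ?_⟩
  intro f B A hB hA hf hfn μ ν ρ hμ hν hρ p q hp hq
  have hH := fun x y z hx hy hz => H f B A hB hA hf hfn x y z (hμ x hx).1 (hν y hy).1 (hρ z hz).1
    (hμ x hx).2 (hν y hy).2 (hρ z hz).2 p q hp hq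
  constructor
  · have hc : 0 ≤ K0 * ((‖B.det‖ ^ 3)⁻¹ * (nq (A.act p) / ‖A.det‖)) := by
      have := nq_nonneg (A.act p)
      positivity
    have h1 := sg_norm_le (fun x y z => S.s f x y z p) μ ν ρ hc
      (fun x y z hx hy hz => (hH x y z hx hy hz).1)
    refine h1.trans (le_of_eq ?_)
    ring
  · have hc : 0 ≤ K0 * ((‖B.det‖ ^ 3)⁻¹ * (√(nq (A.act p)) * √(nq (A.act q)) / ‖A.det‖)) := by
      positivity
    have h1 := sg_norm_le (fun x y z => S.s f x y z (p + q) - S.s f x y z p - S.s f x y z q)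
      μ ν ρ hc (fun x y z hx hy hz => (hH x y z hx hy hz).2)
    have h2 : sg (fun x y z => S.s f x y z (p + q) - S.s f x y z p - S.s f x y z q) μ ν ρ =
        S.sg f (p + q) μ ν ρ - S.sg f p μ ν ρ - S.sg f q μ ν ρ := by
      rw [sg_sub0 (fun x y z => S.s f x y z (p + q) - S.s f x y z p) (fun x y z => S.s f x y z q),
        sg_sub0 (fun x y z => S.s f x y z (p + q)) (fun x y z => S.s f x y z p)]
      rfl
    rw [h2] at h1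
    refine h1.trans (le_of_eq ?_)
    ring

theorem sg_diff (S : Coc D) {M : ℕ} (hM : 0 < M) (V : Finset ℂ) (hV : ∀ v ∈ V, v ∈ D.K)
    (κ' : ℝ) : ∃ K0 : ℝ, 0 < K0 ∧ ∀ (f : Vec → ℂ) (B A : Mat), GK D B → A.det ≠ 0 →
    AdmE D f → Fn D M V (fun w => f (B.act w)) →
    ∀ μ ν ρ μ' ν' ρ' : Ms, LocM D B A κ' μ → LocM D B A κ' ν → LocM D B A κ' ρ →
      LocM D B A κ' μ' → LocM D B A κ' ν' → LocM D B A κ' ρ' →
      PM D μ → PM D ν → PM D ρ → PM D μ' → PM D ν' → PM D ρ' →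
    ∀ δ : ℝ, ms (μ - μ') ≤ δ → ms (ν - ν') ≤ δ → ms (ρ - ρ') ≤ δ → ∀ p, K2 D p →
      ‖S.sg f p μ ν ρ - S.sg f p μ' ν' ρ'‖ ≤
        K0 * ((‖B.det‖ ^ 3)⁻¹ * (nq (A.act p) / ‖A.det‖)) * δ := by
  obtain ⟨K0, hK0, H⟩ := sg_bound S hM V hV κ'
  refine ⟨3 * K0, by positivity, ?_⟩
  intro f B A hB hA hf hfn μ ν ρ μ' ν' ρ' hμ hν hρ hμ' hν' hρ' Pμ Pν Pρ Pμ' Pν' Pρ' δ h1 h2 h3 p hp
  set c : ℝ := K0 * ((‖B.det‖ ^ 3)⁻¹ * (nq (A.act p) / ‖A.det‖)) with hcdef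
  have hc : 0 ≤ c := by
    have := nq_nonneg (A.act p)
    rw [hcdef]
    positivity
  have hb := fun μ₁ ν₁ ρ₁ h₁ h₂ h₃ => (H f B A hB hA hf hfn μ₁ ν₁ ρ₁ h₁ h₂ h₃ p p hp hp).1
  have e1 := hb (μ - μ') ν ρ (locM_sub hμ hμ') hν hρ
  have e2 := hb μ' (ν - ν') ρ hμ' (locM_sub hν hν') hρ
  have e3 := hb μ' ν' (ρ - ρ') hμ' hν' (locM_sub hρ hρ')
  rw [PM_ms Pν, PM_ms Pρ, mul_one, mul_one] at e1
  rw [PM_ms Pμ', PM_ms Pρ, mul_one, one_mul] at e2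
  rw [PM_ms Pμ', PM_ms Pν', mul_one, one_mul] at e3
  have g1 : S.sg f p (μ - μ') ν ρ = S.sg f p μ ν ρ - S.sg f p μ' ν ρ := sg_sub1 _ _ _ _ _
  have g2 : S.sg f p μ' (ν - ν') ρ = S.sg f p μ' ν ρ - S.sg f p μ' ν' ρ := sg_sub2 _ _ _ _ _
  have g3 : S.sg f p μ' ν' (ρ - ρ') = S.sg f p μ' ν' ρ - S.sg f p μ' ν' ρ' := sg_sub3 _ _ _ _ _
  have e4 : S.sg f p μ ν ρ - S.sg f p μ' ν' ρ' = S.sg f p (μ - μ') ν ρ +
      S.sg f p μ' (ν - ν') ρ + S.sg f p μ' ν' (ρ - ρ') := by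
    rw [g1, g2, g3]
    ring
  rw [e4]
  have k1 : c * ms (μ - μ') ≤ c * δ := mul_le_mul_of_nonneg_left h1 hc
  have k2 : c * ms (ν - ν') ≤ c * δ := mul_le_mul_of_nonneg_left h2 hc
  have k3 : c * ms (ρ - ρ') ≤ c * δ := mul_le_mul_of_nonneg_left h3 hc
  calc ‖S.sg f p (μ - μ') ν ρ + S.sg f p μ' (ν - ν') ρ + S.sg f p μ' ν' (ρ - ρ')‖
      ≤ ‖S.sg f p (μ - μ') ν ρ‖ + ‖S.sg f p μ' (ν - ν') ρ‖ + ‖S.sg f p μ' ν' (ρ - ρ')‖ :=
        norm_add₃_le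
    _ ≤ c * δ + c * δ + c * δ := add_le_add (add_le_add (e1.trans k1) (e2.trans k2)) (e3.trans k3)
    _ = 3 * K0 * ((‖B.det‖ ^ 3)⁻¹ * (nq (A.act p) / ‖A.det‖)) * δ := by
        rw [hcdef]
        ring

end RNK
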