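import Pool.Agent.RNK.Eg
import Pool.Agent.RNK.Lq

/-!
# RNK.Dq: comparison of two lattices (stub; prove ALL sorries)

`L₁ = α₁ O ⊕ β₁ O ⊇ L₂ = α₂ O ⊕ β₂ O ⊇ supp f`. Points `A_{m₁ 2^k} ut(-γ)` for `L₁`, `A_{m₂ 2^k} ut(-γ)`
for `L₂`, `m_i = |α_i| / |β_i|`; weights `μ_k` (lattice `L₁ₜ`), `ν_k` (lattice `L₂ₜ`), for each `t`; measure
`QD t k γ = Qd (S.sg (f 1_t) p) μ_k μ_{k+1} ν_k ν_{k+1}`.

`DL_quads`: `EG (L₁, line γ) - EG (L₂, line γ) = Σ_t Σ_k QD t k γ` (`RNK.Po.ladder`, for each `t`; the sum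
over `k` has finite support).
-/

namespace RNK

variable {D : OD}

private theorem dq_mono {P : Type*} {σ : P → P → P → ℂ} {n0 n : ℕ} (h : n0 ≤ n) {μ : ℤ → P}
    {x y : P} (H : Ends σ n0 μ x y) : Ends σ n μ x y := by
  intro k
  exact ⟨fun hk => (H k).1 (by omega), fun hk => (H k).2 (by omega)⟩

/-- `α₂ O ⊕ β₂ O ⊆ α₁ O ⊕ β₁ O`, and `ut γ` (`γ ∈ O`) preserves both lattices -/
structure Lp2 (D : OD) (α₁ β₁ α₂ β₂ : ℂ) : Prop where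
  a1 : α₁ ∈ D.O
  b1 : β₁ ∈ D.O
  a2 : α₂ ∈ D.O
  b2 : β₂ ∈ D.O
  na1 : α₁ ≠ 0
  nb1 : β₁ ≠ 0
  na2 : α₂ ≠ 0
  nb2 : β₂ ≠ 0
  aa : ∃ z ∈ D.O, α₂ = α₁ * z
  bb : ∃ z ∈ D.O, β₂ = β₁ * z
  ab1 : ∃ z ∈ D.O, β₁ = α₁ * z
  ab2 : ∃ z ∈ D.O, β₂ = α₂ * z

/-- the difference of the two edge functionals -/
noncomputable def DE (S : Coc D) (κ : ℝ) (π : PD D) (α₁ β₁ α₂ β₂ : ℂ) (f : Vec → ℂ) : ℂ :=
  E S κ π α₁ β₁ f e2 - E S κ π α₂ β₂ f e2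

/-- the quadrangle of the index `t`, number `k`, line `γ` -/
noncomputable def QD (S : Coc D) (κ : ℝ) (π : PD D) (α₁ β₁ α₂ β₂ γ : ℂ) (f : Vec → ℂ)
    (t : π.T) (k : ℤ) (p : Vec) : ℂ :=
  Qd (S.sg (fun w => f w * π.ind t w) p)
    (mu D κ (π.B α₁ β₁ t) (pt ((Ah (‖α₁‖ / ‖β₁‖)).mul (ut (-γ))) k))
    (mu D κ (π.B α₁ β₁ t) (pt ((Ah (‖α₁‖ / ‖β₁‖)).mul (ut (-γ))) (k + 1)))
    (mu D κ (π.B α₂ β₂ t) (pt ((Ah (‖α₂‖ / ‖β₂‖)).mul (ut (-γ))) k))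
    (mu D κ (π.B α₂ β₂ t) (pt ((Ah (‖α₂‖ / ‖β₂‖)).mul (ut (-γ))) (k + 1)))

theorem DL_quads (S : Coc D) {κ : ℝ} (hκ : Kap D κ) (π : PD D) {α₁ β₁ α₂ β₂ : ℂ}
    (h1 : Lt π α₁ β₁) (h2 : Lt π α₂ β₂) {γ : ℂ} (hγ : γ ∈ D.O) {f : Vec → ℂ} (hf : AdmE D f)
    (hs : ∀ w, f w ≠ 0 → O2 D w) {p : Vec} (hp : K2 D p) :
    (∀ t, (Function.support fun k : ℤ => QD S κ π α₁ β₁ α₂ β₂ γ f t k p).Finite) ∧
    EG S κ π α₁ β₁ ((Ah (‖α₁‖ / ‖β₁‖)).mul (ut (-γ))) e1 f p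
      - EG S κ π α₂ β₂ ((Ah (‖α₂‖ / ‖β₂‖)).mul (ut (-γ))) e1 f p =
    ∑ t : π.T, ∑ᶠ k : ℤ, QD S κ π α₁ β₁ α₂ β₂ γ f t k p := by
  have m1 : 0 < ‖α₁‖ / ‖β₁‖ :=
    div_pos (norm_pos_iff.2 (π.ne_of_r h1.ra)) (norm_pos_iff.2 (π.ne_of_r h1.rb))
  have m2 : 0 < ‖α₂‖ / ‖β₂‖ :=
    div_pos (norm_pos_iff.2 (π.ne_of_r h2.ra)) (norm_pos_iff.2 (π.ne_of_r h2.rb))
  have g1 := geo_ut (D := D) m1 hγ
  have g2 := geo_ut (D := D) m2 hγ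
  have key : ∀ t : π.T,
      (Function.support fun k : ℤ => QD S κ π α₁ β₁ α₂ β₂ γ f t k p).Finite ∧
      ep S κ (π.B α₁ β₁ t) ((Ah (‖α₁‖ / ‖β₁‖)).mul (ut (-γ))) e1 (fun w => f w * π.ind t w) p
        - ep S κ (π.B α₂ β₂ t) ((Ah (‖α₂‖ / ‖β₂‖)).mul (ut (-γ))) e1
          (fun w => f w * π.ind t w) p =
      ∑ᶠ k : ℤ, QD S κ π α₁ β₁ α₂ β₂ γ f t k p := by
    intro t
    have hF : AdmE D (fun w => f w * π.ind t w) := AdmE_ind π hf hs t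
    obtain ⟨n1, hn1⟩ := muP_ends hκ (h1.GK_B t) g1 S
    obtain ⟨n2, hn2⟩ := muP_ends hκ (h2.GK_B t) g2 S
    have E1 := dq_mono (le_max_left n1 n2) (hn1 _ hF p hp)
    have E2 := dq_mono (le_max_right n1 n2) (hn2 _ hF p hp)
    have e := ladder (sgP_AC S hF hp) E1 E2
    have q : ∀ k : ℤ, QP (sgP S (fun w => f w * π.ind t w) p)
        (muP hκ (h1.GK_B t) g1.det k) (muP hκ (h1.GK_B t) g1.det (k + 1))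
        (muP hκ (h2.GK_B t) g2.det k) (muP hκ (h2.GK_B t) g2.det (k + 1)) =
        QD S κ π α₁ β₁ α₂ β₂ γ f t k p := by
      intro k
      unfold QP QD Qd sgP muP
      rfl
    simp only [q] at e
    refine ⟨e.1, ?_⟩
    have e2 := e.2
    unfold sgP muP dlP at e2
    unfold ep
    exact e2
  refine ⟨fun t => (key t).1, ?_⟩
  unfold EG
  rw [← Finset.sum_sub_distrib]
  exact Finset.sum_congr rfl fun t _ => (key t).2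

end RNK
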