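import Pool.Agent.RNK.Dq

/-!
# RNK.DqB: bounds for the quadrangles

`QD_bound`: constants depend on `S, κ, M, V, α_i, β_i, γ`, not on `π, t, k, f`; `h = 2^k`.
All weights live in `L₁ₜ ⊇ L₂ₜ ⊇ supp (f 1_t)`; use `sg_bound` for the lattice basis `B = B₂ₜ` (then
`(f 1_t) ∘ B ∈ Fn D M V` by `Fn_B`), `‖det B‖ = √p |α₂ β₂|`; vectors of `L₁ₜ` are local for `B₂ₜ` by
`loc_lat` with a natural number `n` with `n L₁ ⊆ L₂` (e.g. `n = |a b|²` for `α₂ = α₁ a`, `β₂ = β₁ b`;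
`n w ∈ L₂`, `ind t (n w) = 1` by linearity). The points `A_{m_i 2^k} ut(-γ)` and `A_{m_i 2^{k+1}} ut(-γ)`
are comparable to `A_h ut(-γ)` (factors `m_i`, `2`; `loc_pt`).
(1) `‖QD t k γ p‖ ≤ C p^{-3/2} nq (A_h ut(-γ) p)`.
(2) `QD t k γ = 0` if `h > C p`: all four weights are on the line of `e1` (`mu_deep`; both lattices contain
  `π α_i e1`).
(3) for `h ≥ 1`: `‖QD t k γ p - QD t k 0 p‖ ≤ C p^{-3/2} nq (A_h p) / h`: `sg_diff` twice, `lips` with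
  `δ = C / h` (compare `A_{m 2^k}` and `A_{m 2^k} ut(-γ)`: see the computation in `RNK.St`).
(4) for `h ≥ 1`: `‖QD t k 0 (γ, 1) - QD t k 0 e2‖ ≤ C p^{-3/2}`: `(γ, 1) = γ e1 + e2`, polar form in `sg_bound`
  and `nq (A_h (γ e1)) = |γ|²/h`, `nq (A_h e2) = h`.
-/

namespace RNK

variable {D : OD}

namespace DqBx

/-- the points of the lines -/
noncomputable abbrev AG (H : ℝ) (γ : ℂ) : Mat := (Ah H).mul (ut (-γ))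

theorem pt_AG {m : ℝ} (γ : ℂ) (j : ℤ) : pt ((Ah m).mul (ut (-γ))) j = AG ((2 : ℝ) ^ j * m) γ := by
  unfold pt AG
  rw [← mul_assoc', Ah_mul (by positivity)]

theorem det_AG {H : ℝ} (hH : 0 < H) (γ : ℂ) : (AG H γ).det = 1 := by
  unfold AG
  rw [det_mul, det_Ah hH, det_ut, one_mul]

theorem nq_AG {H : ℝ} (hH : 0 < H) (γ : ℂ) (w : Vec) :
    nq ((AG H γ).act w) = ‖w.1 - γ * w.2‖ ^ 2 / H + H * ‖w.2‖ ^ 2 := by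
  unfold AG
  rw [act_mul, nq_Ah hH, ut_act]
  simp only
  rw [neg_mul, ← sub_eq_add_neg]

theorem nq_cmp {h H R : ℝ} (hh : 0 < h) (hH : 0 < H) (h1 : h ≤ R * H) (h2 : H ≤ R * h) (γ : ℂ)
    (w : Vec) : nq ((AG h γ).act w) ≤ R * nq ((AG H γ).act w) := by
  rw [nq_AG hh, nq_AG hH]
  have h3 : ‖w.1 - γ * w.2‖ ^ 2 / h ≤ R * (‖w.1 - γ * w.2‖ ^ 2 / H) := by
    rw [← mul_div_assoc, div_le_div_iff₀ hh hH]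
    have := mul_le_mul_of_nonneg_left h2 (sq_nonneg ‖w.1 - γ * w.2‖)
    nlinarith
  have h4 := mul_le_mul_of_nonneg_right h1 (sq_nonneg ‖w.2‖)
  nlinarith

theorem nq_zero {h : ℝ} (hh : 1 ≤ h) (γ : ℂ) (w : Vec) :
    nq ((AG h 0).act w) ≤ 2 * (1 + ‖γ‖ ^ 2) * nq ((AG h γ).act w) := by
  have hh0 : 0 < h := by linarith
  rw [nq_AG hh0, nq_AG hh0]
  have h1 : ‖w.1 - 0 * w.2‖ ≤ ‖w.1 - γ * w.2‖ + ‖γ‖ * ‖w.2‖ := by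
    have e : w.1 - 0 * w.2 = (w.1 - γ * w.2) + γ * w.2 := by ring
    rw [e]
    refine (norm_add_le _ _).trans ?_
    rw [norm_mul]
  have h2 : ‖w.1 - 0 * w.2‖ ^ 2 ≤ 2 * ‖w.1 - γ * w.2‖ ^ 2 + 2 * (‖γ‖ ^ 2 * ‖w.2‖ ^ 2) := by
    have h3 := norm_nonneg (w.1 - 0 * w.2)
    nlinarith [mul_self_le_mul_self h3 h1, sq_nonneg (‖w.1 - γ * w.2‖ - ‖γ‖ * ‖w.2‖)]
  set X := ‖w.1 - γ * w.2‖ ^ 2 with hX
  set Y := ‖w.2‖ ^ 2 with hY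
  have hX0 : 0 ≤ X := sq_nonneg _
  have hY0 : 0 ≤ Y := sq_nonneg _
  have hG : 0 ≤ ‖γ‖ ^ 2 := sq_nonneg _
  have h4 : ‖w.1 - 0 * w.2‖ ^ 2 / h ≤ (2 * X + 2 * (‖γ‖ ^ 2 * Y)) / h := by
    gcongr
  have h5 : (2 * X + 2 * (‖γ‖ ^ 2 * Y)) / h = 2 * (X / h) + 2 * (‖γ‖ ^ 2 * Y) / h := by
    rw [add_div, mul_div_assoc]
  have h6 : 2 * (‖γ‖ ^ 2 * Y) / h ≤ 2 * (‖γ‖ ^ 2 * Y) * h := by
    rw [div_le_iff₀ hh0]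
    have : 0 ≤ 2 * (‖γ‖ ^ 2 * Y) := by positivity
    nlinarith [mul_le_mul hh hh zero_le_one hh0.le]
  have h7 : 0 ≤ X / h := by positivity
  have h8 : 0 ≤ h * Y := by positivity
  have h9 : 0 ≤ ‖γ‖ ^ 2 * (X / h) := by positivity
  nlinarith

theorem nq_lip {H : ℝ} (hH : 0 < H) (γ : ℂ) (w : Vec) :
    |nq ((AG H γ).act w) - nq ((AG H 0).act w)| ≤
      (‖γ‖ / H + ‖γ‖ ^ 2 / H ^ 2) * nq ((AG H 0).act w) := by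
  rw [nq_AG hH, nq_AG hH, zero_mul, sub_zero]
  have h1 : ‖w.1 - γ * w.2‖ ≤ ‖w.1‖ + ‖γ‖ * ‖w.2‖ := by
    refine (norm_sub_le _ _).trans ?_
    rw [norm_mul]
  have h2 : ‖w.1‖ - ‖γ‖ * ‖w.2‖ ≤ ‖w.1 - γ * w.2‖ := by
    have := norm_sub_norm_le w.1 (γ * w.2)
    rw [norm_mul] at this
    exact this
  have hx := norm_nonneg w.1
  have hy := norm_nonneg w.2
  have hg := norm_nonneg γ
  have hz := norm_nonneg (w.1 - γ * w.2)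
  have h3 : |‖w.1 - γ * w.2‖ ^ 2 - ‖w.1‖ ^ 2| ≤ 2 * (‖γ‖ * (‖w.1‖ * ‖w.2‖)) + ‖γ‖ ^ 2 * ‖w.2‖ ^ 2 := by
    rw [abs_le]
    constructor
    · rcases le_or_gt (‖γ‖ * ‖w.2‖) ‖w.1‖ with hc | hc
      · nlinarith [mul_self_le_mul_self (sub_nonneg.2 hc) h2, mul_nonneg hg hy]
      · nlinarith [mul_nonneg hg hy, mul_nonneg hx (mul_nonneg hg hy), sq_nonneg ‖w.1 - γ * w.2‖,
          mul_nonneg hx (sub_nonneg.2 hc.le)]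
    · nlinarith [mul_self_le_mul_self hz h1]
  have h4 : ‖w.1 - γ * w.2‖ ^ 2 / H + H * ‖w.2‖ ^ 2 - (‖w.1‖ ^ 2 / H + H * ‖w.2‖ ^ 2) =
      (‖w.1 - γ * w.2‖ ^ 2 - ‖w.1‖ ^ 2) / H := by ring
  rw [h4, abs_div, abs_of_pos hH]
  have h5 : 2 * (‖w.1‖ * ‖w.2‖) ≤ ‖w.1‖ ^ 2 / H + H * ‖w.2‖ ^ 2 := by
    rw [← sub_nonneg]
    have e : ‖w.1‖ ^ 2 / H + H * ‖w.2‖ ^ 2 - 2 * (‖w.1‖ * ‖w.2‖) = (‖w.1‖ - H * ‖w.2‖) ^ 2 / H := by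
      field_simp
      ring
    rw [e]
    positivity
  calc |‖w.1 - γ * w.2‖ ^ 2 - ‖w.1‖ ^ 2| / H
      ≤ (2 * (‖γ‖ * (‖w.1‖ * ‖w.2‖)) + ‖γ‖ ^ 2 * ‖w.2‖ ^ 2) / H := by gcongr
    _ = ‖γ‖ / H * (2 * (‖w.1‖ * ‖w.2‖)) + ‖γ‖ ^ 2 / H ^ 2 * (H * ‖w.2‖ ^ 2) := by
        field_simp
    _ ≤ ‖γ‖ / H * (‖w.1‖ ^ 2 / H + H * ‖w.2‖ ^ 2) +
        ‖γ‖ ^ 2 / H ^ 2 * (‖w.1‖ ^ 2 / H + H * ‖w.2‖ ^ 2) := by
        have h6 : H * ‖w.2‖ ^ 2 ≤ ‖w.1‖ ^ 2 / H + H * ‖w.2‖ ^ 2 := by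
          have : 0 ≤ ‖w.1‖ ^ 2 / H := by positivity
          linarith
        gcongr
    _ = (‖γ‖ / H + ‖γ‖ ^ 2 / H ^ 2) * (‖w.1‖ ^ 2 / H + H * ‖w.2‖ ^ 2) := by ring

/-- `n L₁ₜ ⊆ L₂ₜ` -/
theorem lat_incl {α₁ β₁ α₂ β₂ : ℂ} (hL : Lp2 D α₁ β₁ α₂ β₂) : ∃ n : ℕ, 0 < n ∧
    ∀ π : PD D, Lt π α₁ β₁ → Lt π α₂ β₂ → ∀ (t : π.T) (u : Vec), O2 D u →
      ∃ u', O2 D u' ∧ (n : ℂ) • (π.B α₁ β₁ t).act u = (π.B α₂ β₂ t).act u' := by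
  obtain ⟨a, ha, haa⟩ := hL.aa
  obtain ⟨b, hb, hbb⟩ := hL.bb
  obtain ⟨na, hna⟩ := nrm_nat ha
  obtain ⟨nb, hnb⟩ := nrm_nat hb
  obtain ⟨ya, hya, hya'⟩ := dvd_nsq ha
  obtain ⟨yb, hyb, hyb'⟩ := dvd_nsq hb
  have ha0 : a ≠ 0 := by
    rintro rfl
    exact hL.na2 (by rw [haa, mul_zero])
  have hb0 : b ≠ 0 := by
    rintro rfl
    exact hL.nb2 (by rw [hbb, mul_zero])
  have hna0 : 0 < na := by
    have h1 : (0 : ℝ) < na := by rw [← hna]; positivity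
    exact_mod_cast h1
  have hnb0 : 0 < nb := by
    have h1 : (0 : ℝ) < nb := by rw [← hnb]; positivity
    exact_mod_cast h1
  have ea : (na : ℂ) = a * ya := by rw [← hya', hna, Complex.ofReal_natCast]
  have eb : (nb : ℂ) = b * yb := by rw [← hyb', hnb, Complex.ofReal_natCast]
  refine ⟨na * nb, Nat.mul_pos hna0 hnb0, fun π h1 h2 t u hu => ?_⟩
  obtain ⟨⟨v, hv, hv'⟩, hi⟩ := (B_lat π h1.ha h1.hb h1.ra h1.rb t ((π.B α₁ β₁ t).act u)).1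
    ⟨u, hu, rfl⟩
  have hO : O2 D ((π.B α₁ β₁ t).act u) := O2_act (MO_B π h1.ha h1.hb hL.na1 hL.nb1 t) hu
  set x := (π.B α₁ β₁ t).act u with hx
  have hr : ∀ z ∈ D.O, π.r (((na * nb : ℕ) : ℂ) * z) = π.r ((na * nb : ℕ) : ℂ) * π.r z :=
    fun z hz => π.rmul _ (nat_O _) _ hz
  have hind : π.ind t (((na * nb : ℕ) : ℂ) • x) = 1 := by
    cases t with
    | some τ =>
      simp only [PD.ind, Prod.smul_fst, Prod.smul_snd, smul_eq_mul] at hi ⊢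
      have hc : π.r x.1 = τ * π.r x.2 := by
        by_contra hc
        rw [if_neg hc] at hi
        exact zero_ne_one hi
      rw [if_pos]
      rw [hr _ hO.1, hr _ hO.2, hc]
      ring
    | none =>
      simp only [PD.ind, Prod.smul_snd, smul_eq_mul] at hi ⊢
      have hc : π.r x.2 = 0 := by
        by_contra hc
        rw [if_neg hc] at hi
        exact zero_ne_one hi
      rw [if_pos]
      rw [hr _ hO.2, hc, mul_zero]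
  obtain ⟨u', hu', e⟩ := (B_lat π h2.ha h2.hb h2.ra h2.rb t (((na * nb : ℕ) : ℂ) • x)).2
    ⟨⟨(ya * nb * v.1, na * yb * v.2),
      ⟨D.O.mul_mem (D.O.mul_mem hya (nat_O nb)) hv.1,
        D.O.mul_mem (D.O.mul_mem (nat_O na) hyb) hv.2⟩, by
        rw [hv', dg_act, dg_act]
        ext
        · simp only [Prod.smul_fst, smul_eq_mul]
          push_cast
          rw [haa, ea]
          ring
        · simp only [Prod.smul_snd, smul_eq_mul]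
          push_cast
          rw [hbb, eb]
          ring⟩, hind⟩
  exact ⟨u', hu', e⟩

/-- the general local statement -/
theorem locB {κ : ℝ} (hκ : Kap D κ) {B₁ B₂ : Mat} (h1 : GK D B₁) (h2 : GK D B₂) {n : ℕ}
    (hn : 0 < n) (hi : ∀ u, O2 D u → ∃ u', O2 D u' ∧ (n : ℂ) • B₁.act u = B₂.act u')
    (hd : ‖B₁.det‖ ≤ ‖B₂.det‖) {m R : ℝ} (hm : 0 < m) (hR1 : 2 * m ≤ R) (hR2 : 1 / m ≤ R)
    {k j : ℤ} (hj : j = k ∨ j = k + 1) (γ : ℂ) :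
    LocM D B₂ (AG ((2 : ℝ) ^ k) γ) (R * 1 * (n ^ 2 * 1 * κ))
      (mu D κ B₁ (pt ((Ah m).mul (ut (-γ))) j)) := by
  have hk : (0 : ℝ) < (2 : ℝ) ^ k := by positivity
  have hjp : (0 : ℝ) < (2 : ℝ) ^ j := by positivity
  have hκ0 : 0 ≤ κ := by linarith [hκ.one]
  have hR0 : 0 < R := by linarith
  have hH : (0 : ℝ) < (2 : ℝ) ^ j * m := by positivity
  rw [pt_AG]
  intro x hx
  have hA : (AG ((2 : ℝ) ^ j * m) γ).det ≠ 0 := by rw [det_AG hH]; exact one_ne_zero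
  obtain ⟨hc, hl⟩ := mu_loc hκ h1 hA x hx
  refine ⟨hc, ?_⟩
  have hl2 : Loc D B₂ (AG ((2 : ℝ) ^ j * m) γ) (n ^ 2 * 1 * κ) x :=
    loc_lat hn hκ0 h1 h2 hi (by rw [one_mul]; exact hd) hl
  have hm1 : m * (1 / m) = 1 := by field_simp
  have hj2 : (2 : ℝ) ^ k ≤ (2 : ℝ) ^ j ∧ (2 : ℝ) ^ j ≤ 2 * (2 : ℝ) ^ k := by
    rcases hj with rfl | rfl
    · constructor <;> linarith
    · rw [zpow_add₀ two_ne_zero, zpow_one]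
      constructor <;> linarith
  refine loc_pt (by positivity) hR0.le (fun w => nq_cmp hk hH ?_ ?_ γ w) ?_ hl2
  · calc (2 : ℝ) ^ k ≤ (2 : ℝ) ^ j := hj2.1
      _ = (2 : ℝ) ^ j * (m * (1 / m)) := by rw [hm1, mul_one]
      _ ≤ (2 : ℝ) ^ j * (m * R) := by gcongr
      _ = R * ((2 : ℝ) ^ j * m) := by ring
  · calc (2 : ℝ) ^ j * m ≤ (2 * (2 : ℝ) ^ k) * m := by gcongr; exact hj2.2
      _ = (2 * m) * (2 : ℝ) ^ k := by ring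
      _ ≤ R * (2 : ℝ) ^ k := by gcongr
  · rw [det_AG hH, det_AG hk, one_mul]

theorem loc_zero {B : Mat} {κ' : ℝ} (hκ' : 0 ≤ κ') {h : ℝ} (hh : 1 ≤ h) (γ : ℂ) {μ : Ms}
    (hμ : LocM D B (AG h γ) κ' μ) :
    LocM D B (AG h 0) (2 * (1 + ‖γ‖ ^ 2) * 1 * κ') μ := by
  have hh0 : 0 < h := by linarith
  intro x hx
  obtain ⟨hc, hl⟩ := hμ x hx
  refine ⟨hc, loc_pt hκ' (by positivity) (fun w => nq_zero hh γ w) ?_ hl⟩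
  rw [det_AG hh0, det_AG hh0, one_mul]

theorem nw (π : PD D) : ‖π.w‖ = √(π.p : ℝ) := by
  rw [← PD.nsq π, Real.sqrt_sq (norm_nonneg _)]

theorem pone (π : PD D) : (1 : ℝ) ≤ π.p := by
  have := π.hp.one_lt.le
  exact_mod_cast this

/-- near the cusp `e1` the weights live on its line -/
theorem deep {κ : ℝ} (hκ : Kap D κ) (π : PD D) {α β : ℂ} (hα : α ∈ D.O) (hβ : β ∈ D.O)
    (na : α ≠ 0) (nb : β ≠ 0) (t : π.T) (γ : ℂ) {j : ℤ}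
    (hj : κ * (π.p : ℝ) ^ (1 / 2 : ℝ) < (2 : ℝ) ^ j) {x : Vec}
    (hx : mu D κ (π.B α β t) (pt ((Ah (‖α‖ / ‖β‖)).mul (ut (-γ))) j) x ≠ 0) :
    det2 e1 x = 0 := by
  have hjp : (0 : ℝ) < (2 : ℝ) ^ j := by positivity
  have hα0 : 0 < ‖α‖ := norm_pos_iff.2 na
  have hβ0 : 0 < ‖β‖ := norm_pos_iff.2 nb
  have hκ0 : 0 < κ := by linarith [hκ.one]
  have hH : (0 : ℝ) < (2 : ℝ) ^ j * (‖α‖ / ‖β‖) := by positivity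
  have hp1 := pone π
  have hs : 0 < √(π.p : ℝ) := Real.sqrt_pos.2 (by linarith)
  have hss : √(π.p : ℝ) * √(π.p : ℝ) = π.p := Real.mul_self_sqrt (by linarith)
  rw [← Real.sqrt_eq_rpow] at hj
  rw [pt_AG] at hx
  have hB := MO_GK (MO_B π hα hβ na nb t)
  have hA : (AG ((2 : ℝ) ^ j * (‖α‖ / ‖β‖)) γ).det ≠ 0 := by rw [det_AG hH]; exact one_ne_zero
  have hv : Prim D e1 := ⟨D.O.one_mem, D.O.zero_mem, 1, D.O.one_mem, 0, D.O.zero_mem, by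
    simp [e1]⟩
  obtain ⟨c, hc, hcn, hc0⟩ : ∃ c : ℂ, (π.B α β t).act e1 = (c, 0) ∧
      ‖c‖ ^ 2 ≤ π.p * ‖α‖ ^ 2 ∧ c ≠ 0 := by
    rcases B_e1 π hα hβ t with h | h
    · refine ⟨_, h, ?_, mul_ne_zero (PD.wne π) na⟩
      rw [norm_mul, mul_pow, PD.nsq π]
    · refine ⟨_, h, ?_, na⟩
      nlinarith [sq_nonneg ‖α‖]
  have hdeep : κ * nq ((AG ((2 : ℝ) ^ j * (‖α‖ / ‖β‖)) γ).act ((π.B α β t).act e1)) <
      ‖((AG ((2 : ℝ) ^ j * (‖α‖ / ‖β‖)) γ).mul (π.B α β t)).det‖ := by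
    rw [hc, nq_AG hH, det_mul, det_AG hH, one_mul, det_B, norm_mul, norm_mul, nw]
    simp only [mul_zero, sub_zero, norm_zero, ne_eq, OfNat.ofNat_ne_zero, not_false_eq_true,
      zero_pow, add_zero]
    calc κ * (‖c‖ ^ 2 / ((2 : ℝ) ^ j * (‖α‖ / ‖β‖)))
        ≤ κ * ((π.p * ‖α‖ ^ 2) / ((2 : ℝ) ^ j * (‖α‖ / ‖β‖))) := by gcongr
      _ = κ * √(π.p : ℝ) * (√(π.p : ℝ) * ‖α‖ * ‖β‖) / (2 : ℝ) ^ j := by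
          have e : κ * ((√(π.p : ℝ) * √(π.p : ℝ) * ‖α‖ ^ 2) / ((2 : ℝ) ^ j * (‖α‖ / ‖β‖))) =
              κ * √(π.p : ℝ) * (√(π.p : ℝ) * ‖α‖ * ‖β‖) / (2 : ℝ) ^ j := by
            generalize √(π.p : ℝ) = s
            field_simp
          rw [hss] at e
          exact e
      _ < (2 : ℝ) ^ j * (√(π.p : ℝ) * ‖α‖ * ‖β‖) / (2 : ℝ) ^ j := by gcongr
      _ = √(π.p : ℝ) * ‖α‖ * ‖β‖ := by field_simp
  have h1 := mu_deep hκ hB hA hv hdeep hx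
  rw [hc] at h1
  simp only [det2, zero_mul, sub_zero] at h1
  have h2 : x.2 = 0 := (mul_eq_zero.1 h1).resolve_left hc0
  simp [det2, e1, h2]

theorem nq_AG0 {h : ℝ} (hh : 0 < h) (w : Vec) : nq ((AG h 0).act w) = nq ((Ah h).act w) := by
  rw [nq_AG hh, nq_Ah hh, zero_mul, sub_zero]

theorem det_bd (π : PD D) {α β : ℂ} (hα : α ∈ D.O) (hβ : β ∈ D.O)
    (na : α ≠ 0) (nb : β ≠ 0) (t : π.T) :
    (‖(π.B α β t).det‖ ^ 3)⁻¹ ≤ (π.p : ℝ) ^ (-(3 / 2 : ℝ)) := by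
  have hp1 := pone π
  have hp0 : (0 : ℝ) < π.p := by linarith
  have h1 := nrm_one hα na
  have h2 := nrm_one hβ nb
  have hs : 0 < √(π.p : ℝ) := Real.sqrt_pos.2 (by linarith)
  have e : (π.p : ℝ) ^ (-(3 / 2 : ℝ)) = (√(π.p : ℝ) ^ 3)⁻¹ := by
    rw [Real.rpow_neg hp0.le, Real.sqrt_eq_rpow, ← Real.rpow_natCast, ← Real.rpow_mul hp0.le]
    norm_num
  rw [e, det_B, norm_mul, norm_mul, nw]
  have h3 : √(π.p : ℝ) ≤ √(π.p : ℝ) * ‖α‖ * ‖β‖ := by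
    have h4 : 1 ≤ ‖α‖ * ‖β‖ := by nlinarith
    nlinarith
  gcongr

end DqBx

open DqBx

theorem QD_bound (S : Coc D) {κ : ℝ} (hκ : Kap D κ) {M : ℕ} (hM : 0 < M) (V : Finset ℂ)
    (hV : ∀ v ∈ V, v ∈ D.K) {α₁ β₁ α₂ β₂ : ℂ} (hL : Lp2 D α₁ β₁ α₂ β₂) {γ : ℂ}
    (hγ : γ ∈ D.O) : ∃ C : ℝ, 0 < C ∧ ∀ (π : PD D), Lt π α₁ β₁ → Lt π α₂ β₂ →
    ∀ f : Vec → ℂ, Fn D M V f → SuppIn D α₂ β₂ f → ∀ (t : π.T) (k : ℤ),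
      (∀ p, K2 D p → ‖QD S κ π α₁ β₁ α₂ β₂ γ f t k p‖ ≤
        C * ((π.p : ℝ) ^ (-(3 / 2 : ℝ)) * nq ((Ah ((2 : ℝ) ^ k)).act ((ut (-γ)).act p)))) ∧
      (C * (π.p : ℝ) ^ (1 / 2 : ℝ) < (2 : ℝ) ^ k → ∀ p, K2 D p →
        QD S κ π α₁ β₁ α₂ β₂ γ f t k p = 0) ∧
      (0 ≤ k → ∀ p, K2 D p →
        ‖QD S κ π α₁ β₁ α₂ β₂ γ f t k p - QD S κ π α₁ β₁ α₂ β₂ 0 f t k p‖ ≤
          C * ((π.p : ℝ) ^ (-(3 / 2 : ℝ)) * (nq ((Ah ((2 : ℝ) ^ k)).act p) / (2 : ℝ) ^ k))) ∧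
      (0 ≤ k → ‖QD S κ π α₁ β₁ α₂ β₂ 0 f t k (γ, 1) - QD S κ π α₁ β₁ α₂ β₂ 0 f t k e2‖ ≤
          C * (π.p : ℝ) ^ (-(3 / 2 : ℝ))) := by
  obtain ⟨n, hn, hinc⟩ := lat_incl hL
  have ha1 : 0 < ‖α₁‖ := norm_pos_iff.2 hL.na1
  have hb1 : 0 < ‖β₁‖ := norm_pos_iff.2 hL.nb1
  have ha2 : 0 < ‖α₂‖ := norm_pos_iff.2 hL.na2
  have hb2 : 0 < ‖β₂‖ := norm_pos_iff.2 hL.nb2
  have hκ0 : 0 < κ := by linarith [hκ.one]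
  obtain ⟨m₁, hm1⟩ : ∃ m₁, m₁ = ‖α₁‖ / ‖β₁‖ := ⟨_, rfl⟩
  obtain ⟨m₂, hm2⟩ : ∃ m₂, m₂ = ‖α₂‖ / ‖β₂‖ := ⟨_, rfl⟩
  have hm10 : 0 < m₁ := by rw [hm1]; positivity
  have hm20 : 0 < m₂ := by rw [hm2]; positivity
  obtain ⟨R, hR⟩ : ∃ R, R = 2 * (m₁ + m₂) + 1 / m₁ + 1 / m₂ := ⟨_, rfl⟩
  have hi1 : 0 < 1 / m₁ := by positivity
  have hi2 : 0 < 1 / m₂ := by positivity
  have hR0 : 0 < R := by rw [hR]; positivity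
  obtain ⟨κ', hκ'⟩ : ∃ κ', κ' = R * 1 * (n ^ 2 * 1 * κ) := ⟨_, rfl⟩
  have hκ'0 : 0 ≤ κ' := by rw [hκ']; positivity
  obtain ⟨K0, hK0, hbd⟩ := sg_bound S hM V hV κ'
  obtain ⟨K2', hK2, hdf⟩ := sg_diff S hM V hV (2 * (1 + ‖γ‖ ^ 2) * 1 * κ')
  obtain ⟨K1, hK1, hlp⟩ := lips hκ
  obtain ⟨Δ, hΔ⟩ : ∃ Δ, Δ = ‖γ‖ / m₁ + ‖γ‖ ^ 2 / m₁ ^ 2 + (‖γ‖ / m₂ + ‖γ‖ ^ 2 / m₂ ^ 2) :=
    ⟨_, rfl⟩
  have hΔ1 : 0 ≤ ‖γ‖ / m₁ + ‖γ‖ ^ 2 / m₁ ^ 2 := by positivity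
  have hΔ2 : 0 ≤ ‖γ‖ / m₂ + ‖γ‖ ^ 2 / m₂ ^ 2 := by positivity
  have hΔ0 : 0 ≤ Δ := by rw [hΔ]; positivity
  obtain ⟨C, hC⟩ : ∃ C, C = 2 * K0 + κ + 2 * (K2' * (K1 * Δ)) + 2 * (K0 * (‖γ‖ + ‖γ‖ ^ 2)) :=
    ⟨_, rfl⟩
  have hc1 : 0 ≤ 2 * (K2' * (K1 * Δ)) := by positivity
  have hc2 : 0 ≤ 2 * (K0 * (‖γ‖ + ‖γ‖ ^ 2)) := by positivity
  refine ⟨C, by rw [hC]; positivity, ?_⟩
  intro π hl1 hl2 f hf hs t k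
  -- the data which do not depend on `γ`
  have hp1 := pone π
  have hp0 : (0 : ℝ) < π.p := by linarith
  have hMO1 := MO_B π hL.a1 hL.b1 hL.na1 hL.nb1 t
  have hMO2 := MO_B π hL.a2 hL.b2 hL.na2 hL.nb2 t
  have hG1 := MO_GK hMO1
  have hG2 := MO_GK hMO2
  have hsO : ∀ w, f w ≠ 0 → O2 D w := hf.supp
  have hAdm : AdmE D (fun w => f w * π.ind t w) := AdmE_ind π (Fn_AdmE hM hV hf) hsO t
  have hFn := Fn_B π hf hL.a2 hL.b2 hl2.ra hl2.rb hs t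
  have hdet : ‖(π.B α₁ β₁ t).det‖ ≤ ‖(π.B α₂ β₂ t).det‖ := by
    obtain ⟨z, hz, hz'⟩ := hL.aa
    obtain ⟨y, hy, hy'⟩ := hL.bb
    have hz0 : z ≠ 0 := by
      rintro rfl
      exact hL.na2 (by rw [hz', mul_zero])
    have hy0 : y ≠ 0 := by
      rintro rfl
      exact hL.nb2 (by rw [hy', mul_zero])
    rw [det_B, det_B, norm_mul, norm_mul, norm_mul, norm_mul, hz', hy', norm_mul, norm_mul]
    have h3 := nrm_one hz hz0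
    have h4 := nrm_one hy hy0
    have h5 : ‖π.w‖ * ‖α₁‖ ≤ ‖π.w‖ * (‖α₁‖ * ‖z‖) := by
      gcongr
      nlinarith
    have h6 : ‖β₁‖ ≤ ‖β₁‖ * ‖y‖ := by nlinarith
    exact mul_le_mul h5 h6 (norm_nonneg _) (by positivity)
  have hI1 := hinc π hl1 hl2 t
  have hI2 : ∀ u, O2 D u → ∃ u', O2 D u' ∧ (n : ℂ) • (π.B α₂ β₂ t).act u =
      (π.B α₂ β₂ t).act u' := fun u hu =>
    ⟨(n : ℂ) • u, O2_smul (nat_O n) hu, by rw [act_smul]⟩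
  have hkp : (0 : ℝ) < (2 : ℝ) ^ k := by positivity
  have hloc1 : ∀ (γ' : ℂ) (j : ℤ), (j = k ∨ j = k + 1) →
      LocM D (π.B α₂ β₂ t) (AG ((2 : ℝ) ^ k) γ') κ'
        (mu D κ (π.B α₁ β₁ t) (pt ((Ah (‖α₁‖ / ‖β₁‖)).mul (ut (-γ'))) j)) := by
    intro γ' j hj
    rw [hκ', ← hm1]
    exact locB hκ hG1 hG2 hn hI1 hdet hm10 (by linarith) (by linarith) hj γ'
  have hloc2 : ∀ (γ' : ℂ) (j : ℤ), (j = k ∨ j = k + 1) →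
      LocM D (π.B α₂ β₂ t) (AG ((2 : ℝ) ^ k) γ') κ'
        (mu D κ (π.B α₂ β₂ t) (pt ((Ah (‖α₂‖ / ‖β₂‖)).mul (ut (-γ'))) j)) := by
    intro γ' j hj
    rw [hκ', ← hm2]
    exact locB hκ hG2 hG2 hn hI2 le_rfl hm20 (by linarith) (by linarith) hj γ'
  have hP1 : ∀ γ' : ℂ, ((Ah (‖α₁‖ / ‖β₁‖)).mul (ut (-γ'))).det ≠ 0 := by
    intro γ'
    rw [← hm1, det_AG hm10]
    exact one_ne_zero
  have hP2 : ∀ γ' : ℂ, ((Ah (‖α₂‖ / ‖β₂‖)).mul (ut (-γ'))).det ≠ 0 := by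
    intro γ'
    rw [← hm2, det_AG hm20]
    exact one_ne_zero
  have hPM1 : ∀ (γ' : ℂ) (j : ℤ),
      PM D (mu D κ (π.B α₁ β₁ t) (pt ((Ah (‖α₁‖ / ‖β₁‖)).mul (ut (-γ'))) j)) := fun γ' j =>
    mu_PM hκ hG1 (by rw [det_pt]; exact hP1 γ')
  have hPM2 : ∀ (γ' : ℂ) (j : ℤ),
      PM D (mu D κ (π.B α₂ β₂ t) (pt ((Ah (‖α₂‖ / ‖β₂‖)).mul (ut (-γ'))) j)) := fun γ' j =>
    mu_PM hκ hG2 (by rw [det_pt]; exact hP2 γ')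
  have hD3 := det_bd π hL.a2 hL.b2 hL.na2 hL.nb2 t
  have hrp : 0 < (π.p : ℝ) ^ (-(3 / 2 : ℝ)) := Real.rpow_pos_of_pos hp0 _
  have hdA : ∀ γ' : ℂ, ‖(AG ((2 : ℝ) ^ k) γ').det‖ = 1 := fun γ' => by
    rw [det_AG hkp, norm_one]
  have hdA0 : ∀ γ' : ℂ, (AG ((2 : ℝ) ^ k) γ').det ≠ 0 := fun γ' => by
    rw [det_AG hkp]
    exact one_ne_zero
  -- the bounds for one symbol
  have hone : ∀ (γ' : ℂ) (μ ν ρ : Ms), LocM D (π.B α₂ β₂ t) (AG ((2 : ℝ) ^ k) γ') κ' μ →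
      LocM D (π.B α₂ β₂ t) (AG ((2 : ℝ) ^ k) γ') κ' ν →
      LocM D (π.B α₂ β₂ t) (AG ((2 : ℝ) ^ k) γ') κ' ρ → PM D μ → PM D ν → PM D ρ →
      ∀ p q, K2 D p → K2 D q →
      ‖S.sg (fun w => f w * π.ind t w) p μ ν ρ‖ ≤
        K0 * ((π.p : ℝ) ^ (-(3 / 2 : ℝ)) * nq ((AG ((2 : ℝ) ^ k) γ').act p)) ∧
      ‖S.sg (fun w => f w * π.ind t w) (p + q) μ ν ρ - S.sg (fun w => f w * π.ind t w) p μ ν ρ -
        S.sg (fun w => f w * π.ind t w) q μ ν ρ‖ ≤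
        K0 * ((π.p : ℝ) ^ (-(3 / 2 : ℝ)) * (√(nq ((AG ((2 : ℝ) ^ k) γ').act p)) *
          √(nq ((AG ((2 : ℝ) ^ k) γ').act q)))) := by
    intro γ' μ ν ρ hμ hν hρ pμ pν pρ p q hp hq
    obtain ⟨h1, h2⟩ := hbd _ _ _ hG2 (hdA0 γ') hAdm hFn μ ν ρ hμ hν hρ p q hp hq
    rw [PM_ms pμ, PM_ms pν, PM_ms pρ, mul_one, mul_one, mul_one, hdA, div_one] at h1 h2
    constructor
    · refine h1.trans ?_
      have := nq_nonneg ((AG ((2 : ℝ) ^ k) γ').act p)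
      gcongr
    · refine h2.trans ?_
      gcongr
  refine ⟨?_, ?_, ?_, ?_⟩
  · -- (1)
    intro p hp
    have e : nq ((Ah ((2 : ℝ) ^ k)).act ((ut (-γ)).act p)) = nq ((AG ((2 : ℝ) ^ k) γ).act p) := by
      rw [act_mul]
    rw [e]
    unfold QD Qd
    refine (norm_add_le _ _).trans ?_
    have h1 := (hone γ _ _ _ (hloc1 γ k (Or.inl rfl)) (hloc1 γ (k + 1) (Or.inr rfl))
      (hloc2 γ (k + 1) (Or.inr rfl)) (hPM1 γ k) (hPM1 γ (k + 1)) (hPM2 γ (k + 1)) p p hp hp).1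
    have h2 := (hone γ _ _ _ (hloc1 γ k (Or.inl rfl)) (hloc2 γ (k + 1) (Or.inr rfl))
      (hloc2 γ k (Or.inl rfl)) (hPM1 γ k) (hPM2 γ (k + 1)) (hPM2 γ k) p p hp hp).1
    refine (add_le_add h1 h2).trans ?_
    have h3 : 0 ≤ (π.p : ℝ) ^ (-(3 / 2 : ℝ)) * nq ((AG ((2 : ℝ) ^ k) γ).act p) :=
      mul_nonneg hrp.le (nq_nonneg _)
    have h4 : 2 * K0 ≤ C := by rw [hC]; linarith
    nlinarith [mul_le_mul_of_nonneg_right h4 h3]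
  · -- (2)
    intro hk p hp
    have hκC : κ ≤ C := by rw [hC]; linarith
    have hsp : 0 ≤ (π.p : ℝ) ^ (1 / 2 : ℝ) := Real.rpow_nonneg hp0.le _
    have hk1 : κ * (π.p : ℝ) ^ (1 / 2 : ℝ) < (2 : ℝ) ^ k :=
      (mul_le_mul_of_nonneg_right hκC hsp).trans_lt hk
    have hk2 : κ * (π.p : ℝ) ^ (1 / 2 : ℝ) < (2 : ℝ) ^ (k + 1) := by
      refine hk1.trans_le ?_
      rw [zpow_add₀ two_ne_zero, zpow_one]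
      linarith
    have hAC := sgP_AC S hAdm hp
    have hq := quad_zero hAC (m0 := muP hκ hG1 (hP1 γ) k) (m1 := muP hκ hG1 (hP1 γ) (k + 1))
      (n0 := muP hκ hG2 (hP2 γ) k) (n1 := muP hκ hG2 (hP2 γ) (k + 1)) (y := dlP (Cu_e1 (D := D)))
      (eqv_line S hAdm hp Cu_e1 fun x hx => deep hκ π hL.a1 hL.b1 hL.na1 hL.nb1 t γ hk1 hx)
      (eqv_line S hAdm hp Cu_e1 fun x hx => deep hκ π hL.a1 hL.b1 hL.na1 hL.nb1 t γ hk2 hx)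
      (eqv_line S hAdm hp Cu_e1 fun x hx => deep hκ π hL.a2 hL.b2 hL.na2 hL.nb2 t γ hk1 hx)
      (eqv_line S hAdm hp Cu_e1 fun x hx => deep hκ π hL.a2 hL.b2 hL.na2 hL.nb2 t γ hk2 hx)
    exact hq
  · -- (3)
    intro hk p hp
    have hk1 : (1 : ℝ) ≤ (2 : ℝ) ^ k := one_le_zpow₀ (by norm_num) hk
    have hj2 : ∀ j : ℤ, (j = k ∨ j = k + 1) → (2 : ℝ) ^ k ≤ (2 : ℝ) ^ j := by
      rintro j (rfl | rfl)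
      · exact le_rfl
      · rw [zpow_add₀ two_ne_zero, zpow_one]
        linarith
    have hδ0 : 0 ≤ K1 * (Δ / (2 : ℝ) ^ k) := by positivity
    have hms : ∀ (B : Mat), GK D B → ∀ m : ℝ, 0 < m → ‖γ‖ / m + ‖γ‖ ^ 2 / m ^ 2 ≤ Δ →
        ∀ j : ℤ, (j = k ∨ j = k + 1) →
        ms (mu D κ B (pt ((Ah m).mul (ut (-0))) j) - mu D κ B (pt ((Ah m).mul (ut (-γ))) j)) ≤
          K1 * (Δ / (2 : ℝ) ^ k) := by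
      intro B hB m hm hmΔ j hj
      have hjp : (0 : ℝ) < (2 : ℝ) ^ j := by positivity
      have hj1 : (1 : ℝ) ≤ (2 : ℝ) ^ j := hk1.trans (hj2 j hj)
      have hH : (0 : ℝ) < (2 : ℝ) ^ j * m := by positivity
      rw [pt_AG, pt_AG]
      refine (hlp B (AG ((2 : ℝ) ^ j * m) 0) (AG ((2 : ℝ) ^ j * m) γ)
        (‖γ‖ / ((2 : ℝ) ^ j * m) + ‖γ‖ ^ 2 / ((2 : ℝ) ^ j * m) ^ 2) hB
        (by rw [det_AG hH]; exact one_ne_zero) (by rw [det_AG hH, det_AG hH]) (by positivity)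
        (fun w => ?_)).trans ?_
      · have h1 := abs_le.1 (nq_lip hH γ w)
        constructor <;> nlinarith [h1.1, h1.2]
      · refine mul_le_mul_of_nonneg_left ?_ hK1.le
        have h2 : ‖γ‖ / ((2 : ℝ) ^ j * m) ≤ ‖γ‖ / m / (2 : ℝ) ^ k := by
          rw [div_div, mul_comm m]
          have := hj2 j hj
          gcongr
        have h3 : ‖γ‖ ^ 2 / ((2 : ℝ) ^ j * m) ^ 2 ≤ ‖γ‖ ^ 2 / m ^ 2 / (2 : ℝ) ^ k := by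
          rw [div_div, mul_comm (m ^ 2), mul_pow]
          have h4 : (2 : ℝ) ^ k ≤ ((2 : ℝ) ^ j) ^ 2 := by nlinarith [hj2 j hj]
          gcongr
        calc ‖γ‖ / ((2 : ℝ) ^ j * m) + ‖γ‖ ^ 2 / ((2 : ℝ) ^ j * m) ^ 2
            ≤ ‖γ‖ / m / (2 : ℝ) ^ k + ‖γ‖ ^ 2 / m ^ 2 / (2 : ℝ) ^ k := add_le_add h2 h3
          _ = (‖γ‖ / m + ‖γ‖ ^ 2 / m ^ 2) / (2 : ℝ) ^ k := by rw [add_div]
          _ ≤ Δ / (2 : ℝ) ^ k := by gcongr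
    have hms1 : ∀ j : ℤ, (j = k ∨ j = k + 1) →
        ms (mu D κ (π.B α₁ β₁ t) (pt ((Ah (‖α₁‖ / ‖β₁‖)).mul (ut (-0))) j) -
          mu D κ (π.B α₁ β₁ t) (pt ((Ah (‖α₁‖ / ‖β₁‖)).mul (ut (-γ))) j)) ≤
          K1 * (Δ / (2 : ℝ) ^ k) := by
      intro j hj
      rw [← hm1]
      exact hms _ hG1 m₁ hm10 (by rw [hΔ]; linarith) j hj
    have hms2 : ∀ j : ℤ, (j = k ∨ j = k + 1) →
        ms (mu D κ (π.B α₂ β₂ t) (pt ((Ah (‖α₂‖ / ‖β₂‖)).mul (ut (-0))) j) -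
          mu D κ (π.B α₂ β₂ t) (pt ((Ah (‖α₂‖ / ‖β₂‖)).mul (ut (-γ))) j)) ≤
          K1 * (Δ / (2 : ℝ) ^ k) := by
      intro j hj
      rw [← hm2]
      exact hms _ hG2 m₂ hm20 (by rw [hΔ]; linarith) j hj
    have hz : ∀ μ : Ms, LocM D (π.B α₂ β₂ t) (AG ((2 : ℝ) ^ k) 0) κ' μ →
        LocM D (π.B α₂ β₂ t) (AG ((2 : ℝ) ^ k) 0) (2 * (1 + ‖γ‖ ^ 2) * 1 * κ') μ := by
      intro μ hμ x hx
      obtain ⟨h1, h2⟩ := hμ x hx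
      exact ⟨h1, loc_mono (by nlinarith [sq_nonneg ‖γ‖]) h2⟩
    have key : ∀ μ ν ρ μ' ν' ρ' : Ms,
        LocM D (π.B α₂ β₂ t) (AG ((2 : ℝ) ^ k) 0) κ' μ →
        LocM D (π.B α₂ β₂ t) (AG ((2 : ℝ) ^ k) 0) κ' ν →
        LocM D (π.B α₂ β₂ t) (AG ((2 : ℝ) ^ k) 0) κ' ρ →
        LocM D (π.B α₂ β₂ t) (AG ((2 : ℝ) ^ k) γ) κ' μ' →
        LocM D (π.B α₂ β₂ t) (AG ((2 : ℝ) ^ k) γ) κ' ν' →
        LocM D (π.B α₂ β₂ t) (AG ((2 : ℝ) ^ k) γ) κ' ρ' →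
        PM D μ → PM D ν → PM D ρ → PM D μ' → PM D ν' → PM D ρ' →
        ms (μ - μ') ≤ K1 * (Δ / (2 : ℝ) ^ k) → ms (ν - ν') ≤ K1 * (Δ / (2 : ℝ) ^ k) →
        ms (ρ - ρ') ≤ K1 * (Δ / (2 : ℝ) ^ k) →
        ‖S.sg (fun w => f w * π.ind t w) p μ' ν' ρ' -
          S.sg (fun w => f w * π.ind t w) p μ ν ρ‖ ≤
          K2' * (K1 * Δ) * ((π.p : ℝ) ^ (-(3 / 2 : ℝ)) *
            (nq ((Ah ((2 : ℝ) ^ k)).act p) / (2 : ℝ) ^ k)) := by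
      intro μ ν ρ μ' ν' ρ' l1 l2 l3 l1' l2' l3' p1 p2 p3 p1' p2' p3' d1 d2 d3
      rw [norm_sub_rev]
      have h1 := hdf _ _ _ hG2 (hdA0 0) hAdm hFn μ ν ρ μ' ν' ρ' (hz μ l1) (hz ν l2) (hz ρ l3)
        (loc_zero hκ'0 hk1 γ l1') (loc_zero hκ'0 hk1 γ l2') (loc_zero hκ'0 hk1 γ l3')
        p1 p2 p3 p1' p2' p3' _ d1 d2 d3 p hp
      rw [hdA, div_one, nq_AG0 hkp] at h1
      refine h1.trans ?_
      have h2 := nq_nonneg ((Ah ((2 : ℝ) ^ k)).act p)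
      calc K2' * ((‖(π.B α₂ β₂ t).det‖ ^ 3)⁻¹ * nq ((Ah ((2 : ℝ) ^ k)).act p)) *
            (K1 * (Δ / (2 : ℝ) ^ k))
          ≤ K2' * ((π.p : ℝ) ^ (-(3 / 2 : ℝ)) * nq ((Ah ((2 : ℝ) ^ k)).act p)) *
            (K1 * (Δ / (2 : ℝ) ^ k)) := by gcongr
        _ = _ := by ring
    have e : QD S κ π α₁ β₁ α₂ β₂ γ f t k p - QD S κ π α₁ β₁ α₂ β₂ 0 f t k p =
        (S.sg (fun w => f w * π.ind t w) p
          (mu D κ (π.B α₁ β₁ t) (pt ((Ah (‖α₁‖ / ‖β₁‖)).mul (ut (-γ))) k))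
          (mu D κ (π.B α₁ β₁ t) (pt ((Ah (‖α₁‖ / ‖β₁‖)).mul (ut (-γ))) (k + 1)))
          (mu D κ (π.B α₂ β₂ t) (pt ((Ah (‖α₂‖ / ‖β₂‖)).mul (ut (-γ))) (k + 1))) -
        S.sg (fun w => f w * π.ind t w) p
          (mu D κ (π.B α₁ β₁ t) (pt ((Ah (‖α₁‖ / ‖β₁‖)).mul (ut (-0))) k))
          (mu D κ (π.B α₁ β₁ t) (pt ((Ah (‖α₁‖ / ‖β₁‖)).mul (ut (-0))) (k + 1)))
          (mu D κ (π.B α₂ β₂ t) (pt ((Ah (‖α₂‖ / ‖β₂‖)).mul (ut (-0))) (k + 1)))) +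
        (S.sg (fun w => f w * π.ind t w) p
          (mu D κ (π.B α₁ β₁ t) (pt ((Ah (‖α₁‖ / ‖β₁‖)).mul (ut (-γ))) k))
          (mu D κ (π.B α₂ β₂ t) (pt ((Ah (‖α₂‖ / ‖β₂‖)).mul (ut (-γ))) (k + 1)))
          (mu D κ (π.B α₂ β₂ t) (pt ((Ah (‖α₂‖ / ‖β₂‖)).mul (ut (-γ))) k)) -
        S.sg (fun w => f w * π.ind t w) p
          (mu D κ (π.B α₁ β₁ t) (pt ((Ah (‖α₁‖ / ‖β₁‖)).mul (ut (-0))) k))
          (mu D κ (π.B α₂ β₂ t) (pt ((Ah (‖α₂‖ / ‖β₂‖)).mul (ut (-0))) (k + 1)))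
          (mu D κ (π.B α₂ β₂ t) (pt ((Ah (‖α₂‖ / ‖β₂‖)).mul (ut (-0))) k))) := by
      unfold QD Qd
      ring
    rw [e]
    refine (norm_add_le _ _).trans ?_
    have hL1 : (k = k ∨ k = k + 1) := Or.inl rfl
    have hL2 : (k + 1 = k ∨ k + 1 = k + 1) := Or.inr rfl
    have k1 := key _ _ _ _ _ _ (hloc1 0 k hL1) (hloc1 0 (k + 1) hL2) (hloc2 0 (k + 1) hL2)
      (hloc1 γ k hL1) (hloc1 γ (k + 1) hL2) (hloc2 γ (k + 1) hL2) (hPM1 0 k) (hPM1 0 (k + 1))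
      (hPM2 0 (k + 1)) (hPM1 γ k) (hPM1 γ (k + 1)) (hPM2 γ (k + 1)) (hms1 k hL1)
      (hms1 (k + 1) hL2) (hms2 (k + 1) hL2)
    have k2 := key _ _ _ _ _ _ (hloc1 0 k hL1) (hloc2 0 (k + 1) hL2) (hloc2 0 k hL1)
      (hloc1 γ k hL1) (hloc2 γ (k + 1) hL2) (hloc2 γ k hL1) (hPM1 0 k) (hPM2 0 (k + 1))
      (hPM2 0 k) (hPM1 γ k) (hPM2 γ (k + 1)) (hPM2 γ k) (hms1 k hL1)
      (hms2 (k + 1) hL2) (hms2 k hL1)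
    refine (add_le_add k1 k2).trans ?_
    have h3 : 0 ≤ (π.p : ℝ) ^ (-(3 / 2 : ℝ)) * (nq ((Ah ((2 : ℝ) ^ k)).act p) / (2 : ℝ) ^ k) := by
      have := nq_nonneg ((Ah ((2 : ℝ) ^ k)).act p)
      positivity
    have h4 : 2 * (K2' * (K1 * Δ)) ≤ C := by rw [hC]; linarith
    nlinarith [mul_le_mul_of_nonneg_right h4 h3]
  · -- (4)
    intro hk
    have hk1 : (1 : ℝ) ≤ (2 : ℝ) ^ k := one_le_zpow₀ (by norm_num) hk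
    have hKe2 : K2 D e2 := (Cu_e2 (D := D)).1
    have hKg : K2 D ((γ, 0) : Vec) := ⟨O_sub_K hγ, D.K.zero_mem⟩
    have hsum : ((γ, 1) : Vec) = e2 + (γ, 0) := by
      ext <;> simp [e2]
    have n1 : nq ((AG ((2 : ℝ) ^ k) 0).act e2) = (2 : ℝ) ^ k := by
      rw [nq_AG hkp]
      simp [e2]
    have n2 : nq ((AG ((2 : ℝ) ^ k) 0).act ((γ, 0) : Vec)) = ‖γ‖ ^ 2 / (2 : ℝ) ^ k := by
      rw [nq_AG hkp]
      simp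
    have n3 : √((2 : ℝ) ^ k) * √(‖γ‖ ^ 2 / (2 : ℝ) ^ k) = ‖γ‖ := by
      rw [← Real.sqrt_mul hkp.le, mul_div_cancel₀ _ hkp.ne', Real.sqrt_sq (norm_nonneg _)]
    have n4 : ‖γ‖ ^ 2 / (2 : ℝ) ^ k ≤ ‖γ‖ ^ 2 := div_le_self (sq_nonneg _) hk1
    have key : ∀ μ ν ρ : Ms,
        LocM D (π.B α₂ β₂ t) (AG ((2 : ℝ) ^ k) 0) κ' μ →
        LocM D (π.B α₂ β₂ t) (AG ((2 : ℝ) ^ k) 0) κ' ν →
        LocM D (π.B α₂ β₂ t) (AG ((2 : ℝ) ^ k) 0) κ' ρ →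
        PM D μ → PM D ν → PM D ρ →
        ‖S.sg (fun w => f w * π.ind t w) (γ, 1) μ ν ρ -
          S.sg (fun w => f w * π.ind t w) e2 μ ν ρ‖ ≤
          K0 * (‖γ‖ + ‖γ‖ ^ 2) * (π.p : ℝ) ^ (-(3 / 2 : ℝ)) := by
      intro μ ν ρ l1 l2 l3 p1 p2 p3
      have h1 := (hone 0 μ ν ρ l1 l2 l3 p1 p2 p3 e2 (γ, 0) hKe2 hKg).2
      have h2 := (hone 0 μ ν ρ l1 l2 l3 p1 p2 p3 (γ, 0) (γ, 0) hKg hKg).1
      rw [← hsum, n1, n2, n3] at h1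
      rw [n2] at h2
      have h3 : S.sg (fun w => f w * π.ind t w) (γ, 1) μ ν ρ -
          S.sg (fun w => f w * π.ind t w) e2 μ ν ρ =
          (S.sg (fun w => f w * π.ind t w) (γ, 1) μ ν ρ -
          S.sg (fun w => f w * π.ind t w) e2 μ ν ρ -
          S.sg (fun w => f w * π.ind t w) (γ, 0) μ ν ρ) +
          S.sg (fun w => f w * π.ind t w) (γ, 0) μ ν ρ := by ring
      rw [h3]
      refine (norm_add_le _ _).trans ((add_le_add h1 h2).trans ?_)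
      have h5 : K0 * ((π.p : ℝ) ^ (-(3 / 2 : ℝ)) * (‖γ‖ ^ 2 / (2 : ℝ) ^ k)) ≤
          K0 * ((π.p : ℝ) ^ (-(3 / 2 : ℝ)) * ‖γ‖ ^ 2) := by gcongr
      calc K0 * ((π.p : ℝ) ^ (-(3 / 2 : ℝ)) * ‖γ‖) +
            K0 * ((π.p : ℝ) ^ (-(3 / 2 : ℝ)) * (‖γ‖ ^ 2 / (2 : ℝ) ^ k))
          ≤ K0 * ((π.p : ℝ) ^ (-(3 / 2 : ℝ)) * ‖γ‖) +
            K0 * ((π.p : ℝ) ^ (-(3 / 2 : ℝ)) * ‖γ‖ ^ 2) := by gcongr
        _ = _ := by ring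
    have e : QD S κ π α₁ β₁ α₂ β₂ 0 f t k (γ, 1) - QD S κ π α₁ β₁ α₂ β₂ 0 f t k e2 =
        (S.sg (fun w => f w * π.ind t w) (γ, 1)
          (mu D κ (π.B α₁ β₁ t) (pt ((Ah (‖α₁‖ / ‖β₁‖)).mul (ut (-0))) k))
          (mu D κ (π.B α₁ β₁ t) (pt ((Ah (‖α₁‖ / ‖β₁‖)).mul (ut (-0))) (k + 1)))
          (mu D κ (π.B α₂ β₂ t) (pt ((Ah (‖α₂‖ / ‖β₂‖)).mul (ut (-0))) (k + 1))) -
        S.sg (fun w => f w * π.ind t w) e2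
          (mu D κ (π.B α₁ β₁ t) (pt ((Ah (‖α₁‖ / ‖β₁‖)).mul (ut (-0))) k))
          (mu D κ (π.B α₁ β₁ t) (pt ((Ah (‖α₁‖ / ‖β₁‖)).mul (ut (-0))) (k + 1)))
          (mu D κ (π.B α₂ β₂ t) (pt ((Ah (‖α₂‖ / ‖β₂‖)).mul (ut (-0))) (k + 1)))) +
        (S.sg (fun w => f w * π.ind t w) (γ, 1)
          (mu D κ (π.B α₁ β₁ t) (pt ((Ah (‖α₁‖ / ‖β₁‖)).mul (ut (-0))) k))
          (mu D κ (π.B α₂ β₂ t) (pt ((Ah (‖α₂‖ / ‖β₂‖)).mul (ut (-0))) (k + 1)))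
          (mu D κ (π.B α₂ β₂ t) (pt ((Ah (‖α₂‖ / ‖β₂‖)).mul (ut (-0))) k)) -
        S.sg (fun w => f w * π.ind t w) e2
          (mu D κ (π.B α₁ β₁ t) (pt ((Ah (‖α₁‖ / ‖β₁‖)).mul (ut (-0))) k))
          (mu D κ (π.B α₂ β₂ t) (pt ((Ah (‖α₂‖ / ‖β₂‖)).mul (ut (-0))) (k + 1)))
          (mu D κ (π.B α₂ β₂ t) (pt ((Ah (‖α₂‖ / ‖β₂‖)).mul (ut (-0))) k))) := by
      unfold QD Qd
      ring
    rw [e]
    refine (norm_add_le _ _).trans ?_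
    have hL1 : (k = k ∨ k = k + 1) := Or.inl rfl
    have hL2 : (k + 1 = k ∨ k + 1 = k + 1) := Or.inr rfl
    have k1 := key _ _ _ (hloc1 0 k hL1) (hloc1 0 (k + 1) hL2) (hloc2 0 (k + 1) hL2)
      (hPM1 0 k) (hPM1 0 (k + 1)) (hPM2 0 (k + 1))
    have k2 := key _ _ _ (hloc1 0 k hL1) (hloc2 0 (k + 1) hL2) (hloc2 0 k hL1)
      (hPM1 0 k) (hPM2 0 (k + 1)) (hPM2 0 k)
    refine (add_le_add k1 k2).trans ?_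
    have h4 : 2 * (K0 * (‖γ‖ + ‖γ‖ ^ 2)) ≤ C := by rw [hC]; linarith
    nlinarith [mul_le_mul_of_nonneg_right h4 hrp.le]

end RNK
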