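import Mathlib

/-!
# RNK.Po: polygons for an alternating cocycle

Pure algebra. `σ` alternating with the four term relation. `Eqv σ x y`: `x` may be replaced by `y`.
* `edge_fin`: for `k ≥ n0`: `σ y (μ k) (μ (k+1)) = σ y y _ = 0` (`Eqv` in the second place by
  alternation); for `k + 1 ≤ -n0`: `σ y (μ k) (μ (k+1)) = σ y x x = 0`.
* base change: `coc` for `(c, c', μ k, μ (k+1))` gives
  `σ c (μ k) (μ (k+1)) - σ c' (μ k) (μ (k+1)) = σ c c' (μ (k+1)) - σ c c' (μ k)`: telescoping, the ends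
  `σ x y y`, `σ x y x` are `0`.
* ladder: `Q_k = σ (μ k) (μ (k+1)) (ν (k+1)) + σ (μ k) (ν (k+1)) (ν k)
   = σ c (μ k) (μ (k+1)) - σ c (ν k) (ν (k+1)) + σ c (μ (k+1)) (ν (k+1)) - σ c (μ k) (ν k)`
  for every `c` (cone over the closed quadrangle, two uses of `coc`), then telescoping with `c = y`.
* triangle: the three strips and the middle triangle are coned from `y`; the edge `l` is then moved from
  the base point `y` to the base point `x` by the base change.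
-/

namespace RNK

variable {P : Type*}

/-- alternating cocycle -/
structure AC (σ : P → P → P → ℂ) : Prop where
  a12 : ∀ x y z, σ y x z = -σ x y z
  a23 : ∀ x y z, σ x z y = -σ x y z
  coc : ∀ x y z w, σ y z w - σ x z w + σ x y w - σ x y z = 0

/-- `x` may be replaced by `y` -/
def Eqv (σ : P → P → P → ℂ) (x y : P) : Prop := ∀ a b, σ x a b = σ y a b

/-- the quadrangle -/
def QP (σ : P → P → P → ℂ) (m0 m1 n0 n1 : P) : ℂ := σ m0 m1 n1 + σ m0 n1 n0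

/-- `μ k` is equivalent to `y` for large `k` and to `x` for small `k` -/
def Ends (σ : P → P → P → ℂ) (n0 : ℕ) (μ : ℤ → P) (x y : P) : Prop :=
  ∀ k : ℤ, ((n0 : ℤ) ≤ k → Eqv σ (μ k) y) ∧ (k ≤ -(n0 : ℤ) → Eqv σ (μ k) x)

/-! ### sums over the integers -/

theorem po_supp {F : ℤ → ℂ} {N : ℕ} (h1 : ∀ k : ℤ, (N : ℤ) ≤ k → F k = 0)
    (h2 : ∀ k : ℤ, k + 1 ≤ -(N : ℤ) → F k = 0) : (Function.support F).Finite := by
  refine (Set.finite_Icc (-(N : ℤ)) (N : ℤ)).subset fun k hk => ?_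
  rw [Function.mem_support] at hk
  constructor
  · by_contra h
    exact hk (h2 k (by omega))
  · by_contra h
    exact hk (h1 k (by omega))

theorem po_sum {F : ℤ → ℂ} (N : ℕ) (h1 : ∀ k : ℤ, (N : ℤ) ≤ k → F k = 0)
    (h2 : ∀ k : ℤ, k + 1 ≤ -(N : ℤ) → F k = 0) :
    ∑ᶠ k : ℤ, F k = ∑ k ∈ Finset.range N, (F (k : ℤ) + F (-(k + 1 : ℤ))) := by
  have e1 : ∑ᶠ k : ℤ, F k = ∑ k ∈ Finset.Ico (-(N : ℤ)) (N : ℤ), F k := by
    refine finsum_eq_sum_of_support_subset F fun k hk => ?_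
    rw [Function.mem_support] at hk
    rw [Finset.coe_Ico, Set.mem_Ico]
    constructor
    · by_contra h
      exact hk (h2 k (by omega))
    · by_contra h
      exact hk (h1 k (by omega))
  rw [e1]
  clear e1 h1 h2
  induction N with
  | zero => simp
  | succ N ih =>
    rw [Finset.sum_range_succ, ← ih]
    have e2 : Finset.Ico (-((N + 1 : ℕ) : ℤ)) ((N + 1 : ℕ) : ℤ) =
        insert (N : ℤ) (insert (-((N : ℤ) + 1)) (Finset.Ico (-(N : ℤ)) (N : ℤ))) := by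
      ext k
      simp only [Finset.mem_insert, Finset.mem_Ico]
      push_cast
      omega
    rw [e2, Finset.sum_insert, Finset.sum_insert]
    · ring
    · simp only [Finset.mem_Ico]
      omega
    · simp only [Finset.mem_insert, Finset.mem_Ico]
      omega

/-- telescoping -/
theorem po_tel (G : ℤ → ℂ) (N : ℕ) :
    ∑ k ∈ Finset.range N, ((G ((k : ℤ) + 1) - G (k : ℤ)) +
      (G (-(k + 1 : ℤ) + 1) - G (-(k + 1 : ℤ)))) = G (N : ℤ) - G (-(N : ℤ)) := by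
  induction N with
  | zero => simp
  | succ N ih =>
    rw [Finset.sum_range_succ, ih]
    have e : -((N : ℤ) + 1) + 1 = -(N : ℤ) := by ring
    rw [e]
    push_cast
    ring

variable {σ : P → P → P → ℂ} (hσ : AC σ)

include hσ

/-! ### alternation -/

theorem AC.xxy (x y : P) : σ x x y = 0 := by
  have h := hσ.a12 x x y
  linear_combination h / 2

theorem AC.xyy (x y : P) : σ x y y = 0 := by
  have h := hσ.a23 x y y
  linear_combination h / 2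

theorem AC.xyx (x y : P) : σ x y x = 0 := by
  have h := hσ.a12 x y x
  rw [hσ.xyy] at h
  linear_combination h

theorem Eqv.snd {x y : P} (h : Eqv σ x y) (a b : P) : σ a x b = σ a y b := by
  rw [hσ.a12 x a b, hσ.a12 y a b, h]

theorem Eqv.trd {x y : P} (h : Eqv σ x y) (a b : P) : σ a b x = σ a b y := by
  rw [hσ.a23 a x b, hσ.a23 a y b, h.snd hσ]

/-- cone over a triangle -/
theorem AC.cone (c x y z : P) : σ x y z = σ c x y + σ c y z - σ c x z := by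
  linear_combination hσ.coc c x y z

/-- cone over a quadrangle -/
theorem AC.quad (c m0 m1 n0 n1 : P) :
    QP σ m0 m1 n0 n1 = σ c m0 m1 - σ c n0 n1 + (σ c m1 n1 - σ c m0 n0) := by
  unfold QP
  rw [hσ.cone c m0 m1 n1, hσ.cone c m0 n1 n0, hσ.a23 c n0 n1]
  ring

theorem Ends.zero {n0 : ℕ} {μ : ℤ → P} {x y : P} (h : Ends σ n0 μ x y) (c : P) :
    (∀ k : ℤ, (n0 : ℤ) ≤ k → σ c (μ k) (μ (k + 1)) = 0) ∧
      ∀ k : ℤ, k + 1 ≤ -(n0 : ℤ) → σ c (μ k) (μ (k + 1)) = 0 := by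
  constructor
  · intro k hk
    rw [((h k).1 hk).snd hσ, ((h (k + 1)).1 (by omega)).trd hσ, hσ.xyy]
  · intro k hk
    rw [((h k).2 (by omega)).snd hσ, ((h (k + 1)).2 hk).trd hσ, hσ.xyy]

theorem edge_fin {n0 : ℕ} {μ : ℤ → P} {x y : P} (h : Ends σ n0 μ x y) :
    (Function.support fun k : ℤ => σ y (μ k) (μ (k + 1))).Finite :=
  po_supp (h.zero hσ y).1 (h.zero hσ y).2

/-- the edge as a finite sum, with any base point -/
theorem edge_sum {n0 n : ℕ} (hn : n0 ≤ n) {μ : ℤ → P} {x y : P} (h : Ends σ n0 μ x y) (c : P) :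
    ∑ᶠ k : ℤ, σ c (μ k) (μ (k + 1)) =
      ∑ k ∈ Finset.range n, (σ c (μ (k : ℤ)) (μ (k + 1 : ℤ)) +
        σ c (μ (-(k + 1 : ℤ))) (μ (-(k + 1 : ℤ) + 1))) :=
  po_sum (F := fun k : ℤ => σ c (μ k) (μ (k + 1))) n
    (fun k hk => (h.zero hσ c).1 k (by omega)) (fun k hk => (h.zero hσ c).2 k (by omega))

/-- change of the base point -/
theorem edge_change {n0 : ℕ} {μ : ℤ → P} {x y : P} (h : Ends σ n0 μ x y) (c c' : P) :
    ∑ᶠ k : ℤ, σ c (μ k) (μ (k + 1)) - ∑ᶠ k : ℤ, σ c' (μ k) (μ (k + 1)) =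
      σ c c' y - σ c c' x := by
  rw [edge_sum hσ le_rfl h c, edge_sum hσ le_rfl h c', ← Finset.sum_sub_distrib]
  have e := po_tel (fun k : ℤ => σ c c' (μ k)) n0
  rw [((h (n0 : ℤ)).1 le_rfl).trd hσ, ((h (-(n0 : ℤ))).2 le_rfl).trd hσ] at e
  rw [← e]
  refine Finset.sum_congr rfl fun k _ => ?_
  linear_combination -(hσ.coc c c' (μ (k : ℤ)) (μ (k + 1 : ℤ))) -
    hσ.coc c c' (μ (-(k + 1 : ℤ))) (μ (-(k + 1 : ℤ) + 1))

theorem edge_base {n0 : ℕ} {μ : ℤ → P} {x y : P} (h : Ends σ n0 μ x y) :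
    ∑ᶠ k : ℤ, σ x (μ k) (μ (k + 1)) = ∑ᶠ k : ℤ, σ y (μ k) (μ (k + 1)) := by
  have e := edge_change hσ h x y
  rw [hσ.xyy, hσ.xyx] at e
  linear_combination e

theorem edge_rev {n0 : ℕ} {μ : ℤ → P} {x y : P} (h : Ends σ n0 μ x y) :
    ∑ᶠ k : ℤ, σ y (μ (-k)) (μ (-(k + 1))) = -∑ᶠ k : ℤ, σ y (μ k) (μ (k + 1)) := by
  rw [← finsum_neg_distrib]
  have e : ∀ k : ℤ, σ y (μ (-k)) (μ (-(k + 1))) =
      (fun j : ℤ => -σ y (μ j) (μ (j + 1))) ((Equiv.subLeft (-1 : ℤ)) k) := by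
    intro k
    simp only [Equiv.subLeft_apply]
    have e1 : (-1 : ℤ) - k = -(k + 1) := by ring
    have e2 : (-(k + 1) : ℤ) + 1 = -k := by ring
    rw [e1, e2, hσ.a23]
  rw [finsum_congr e]
  exact finsum_comp_equiv (Equiv.subLeft (-1 : ℤ)) (f := fun j : ℤ => -σ y (μ j) (μ (j + 1)))

theorem ladder {n0 : ℕ} {μ ν : ℤ → P} {x y : P} (h : Ends σ n0 μ x y) (h' : Ends σ n0 ν x y) :
    (Function.support fun k : ℤ => QP σ (μ k) (μ (k + 1)) (ν k) (ν (k + 1))).Finite ∧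
    ∑ᶠ k : ℤ, σ y (μ k) (μ (k + 1)) - ∑ᶠ k : ℤ, σ y (ν k) (ν (k + 1)) =
      ∑ᶠ k : ℤ, QP σ (μ k) (μ (k + 1)) (ν k) (ν (k + 1)) := by
  have z1 : ∀ k : ℤ, (n0 : ℤ) ≤ k → QP σ (μ k) (μ (k + 1)) (ν k) (ν (k + 1)) = 0 := by
    intro k hk
    unfold QP
    rw [((h k).1 hk), ((h k).1 hk), ((h (k + 1)).1 (by omega)).snd hσ,
      ((h' (k + 1)).1 (by omega)).snd hσ, hσ.xxy, hσ.xxy, add_zero]
  have z2 : ∀ k : ℤ, k + 1 ≤ -(n0 : ℤ) → QP σ (μ k) (μ (k + 1)) (ν k) (ν (k + 1)) = 0 := by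
    intro k hk
    unfold QP
    rw [((h k).2 (by omega)), ((h k).2 (by omega)), ((h (k + 1)).2 hk).snd hσ,
      ((h' (k + 1)).2 hk).snd hσ, hσ.xxy, hσ.xxy, add_zero]
  refine ⟨po_supp z1 z2, ?_⟩
  rw [edge_sum hσ le_rfl h y, edge_sum hσ le_rfl h' y, po_sum n0 z1 z2, ← Finset.sum_sub_distrib]
  have e := po_tel (fun k : ℤ => σ y (μ k) (ν k)) n0
  rw [((h (n0 : ℤ)).1 le_rfl).snd hσ, ((h (-(n0 : ℤ))).2 le_rfl).snd hσ,
    ((h' (-(n0 : ℤ))).2 le_rfl).trd hσ, hσ.xxy, hσ.xyy, sub_zero] at e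
  rw [← sub_eq_zero, ← Finset.sum_sub_distrib, ← neg_eq_zero, ← Finset.sum_neg_distrib]
  rw [← e]
  refine Finset.sum_congr rfl fun k _ => ?_
  rw [hσ.quad y (μ (k : ℤ)), hσ.quad y (μ (-(k + 1 : ℤ)))]
  ring

/-- a quadrangle with four equivalent vertices -/
theorem quad_zero {m0 m1 n0 n1 y : P} (h0 : Eqv σ m0 y) (h1 : Eqv σ m1 y) (h2 : Eqv σ n0 y)
    (h3 : Eqv σ n1 y) : QP σ m0 m1 n0 n1 = 0 := by
  unfold QP
  rw [h0, h0, h1.snd hσ, h3.snd hσ, hσ.xxy, hσ.xxy, add_zero]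

/-- the ideal triangle with cusps `x, y, z` -/
theorem triangle {n0 n : ℕ} (hn : n0 ≤ n) {μ ν l : ℤ → P} {x y z : P} (h1 : Ends σ n0 μ x y)
    (h2 : Ends σ n0 ν z y) (h3 : Ends σ n0 l z x) :
    σ x y z + ∑ᶠ k : ℤ, σ y (μ k) (μ (k + 1)) - ∑ᶠ k : ℤ, σ y (ν k) (ν (k + 1))
      + ∑ᶠ k : ℤ, σ x (l k) (l (k + 1)) =
    σ (μ 0) (ν 0) (l 0) + ∑ k ∈ Finset.range n,
      (QP σ (μ (k : ℤ)) (μ (k + 1 : ℤ)) (ν (k : ℤ)) (ν (k + 1 : ℤ))
        + QP σ (ν (-(k : ℤ))) (ν (-(k + 1 : ℤ))) (l (-(k : ℤ))) (l (-(k + 1 : ℤ)))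
        + QP σ (l (k : ℤ)) (l (k + 1 : ℤ)) (μ (-(k : ℤ))) (μ (-(k + 1 : ℤ)))) := by
  have hc := edge_change hσ h3 y x
  rw [hσ.xyy] at hc
  have hyx : σ y x z = -σ x y z := hσ.a12 x y z
  -- the strips
  have key : ∀ m : ℕ, σ (μ 0) (ν 0) (l 0) + ∑ k ∈ Finset.range m,
      (QP σ (μ (k : ℤ)) (μ (k + 1 : ℤ)) (ν (k : ℤ)) (ν (k + 1 : ℤ))
        + QP σ (ν (-(k : ℤ))) (ν (-(k + 1 : ℤ))) (l (-(k : ℤ))) (l (-(k + 1 : ℤ)))
        + QP σ (l (k : ℤ)) (l (k + 1 : ℤ)) (μ (-(k : ℤ))) (μ (-(k + 1 : ℤ)))) =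
      ∑ k ∈ Finset.range m, (σ y (μ (k : ℤ)) (μ (k + 1 : ℤ)) +
        σ y (μ (-(k + 1 : ℤ))) (μ (-(k + 1 : ℤ) + 1)))
      - ∑ k ∈ Finset.range m, (σ y (ν (k : ℤ)) (ν (k + 1 : ℤ)) +
        σ y (ν (-(k + 1 : ℤ))) (ν (-(k + 1 : ℤ) + 1)))
      + ∑ k ∈ Finset.range m, (σ y (l (k : ℤ)) (l (k + 1 : ℤ)) +
        σ y (l (-(k + 1 : ℤ))) (l (-(k + 1 : ℤ) + 1)))
      + (σ y (μ (m : ℤ)) (ν (m : ℤ)) + σ y (ν (-(m : ℤ))) (l (-(m : ℤ)))
        + σ y (l (m : ℤ)) (μ (-(m : ℤ)))) := by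
    intro m
    induction m with
    | zero =>
      simp only [Finset.range_zero, Finset.sum_empty, Nat.cast_zero, neg_zero]
      rw [hσ.cone y (μ 0) (ν 0) (l 0), hσ.a23 y (μ 0) (l 0)]
      ring
    | succ m ih =>
      simp only [Finset.sum_range_succ]
      rw [← add_assoc, ih, hσ.quad y (μ (m : ℤ)), hσ.quad y (ν (-(m : ℤ))), hσ.quad y (l (m : ℤ))]
      have e : -((m : ℤ) + 1) + 1 = -(m : ℤ) := by ring
      rw [e, hσ.a23 y (ν (-(m : ℤ) )) (ν (-((m : ℤ) + 1))),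
        hσ.a23 y (l (-(m : ℤ))) (l (-((m : ℤ) + 1))),
        hσ.a23 y (μ (-(m : ℤ))) (μ (-((m : ℤ) + 1)))]
      push_cast
      ring
  rw [key n]
  have w1 : σ y (μ (n : ℤ)) (ν (n : ℤ)) = 0 := by
    rw [((h1 (n : ℤ)).1 (by omega)).snd hσ, hσ.xxy]
  have w2 : σ y (ν (-(n : ℤ))) (l (-(n : ℤ))) = 0 := by
    rw [((h2 (-(n : ℤ))).2 (by omega)).snd hσ, ((h3 (-(n : ℤ))).2 (by omega)).trd hσ, hσ.xyy]
  have w3 : σ y (l (n : ℤ)) (μ (-(n : ℤ))) = 0 := by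
    rw [((h3 (n : ℤ)).1 (by omega)).snd hσ, ((h1 (-(n : ℤ))).2 (by omega)).trd hσ, hσ.xyy]
  rw [w1, w2, w3, ← edge_sum hσ hn h1 y, ← edge_sum hσ hn h2 y, ← edge_sum hσ hn h3 y]
  linear_combination -hc + hyx

end RNK
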