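import Pool.Agent.RNK.Fc
import Pool.Agent.RNK.WtM
import Pool.Agent.RNK.Sg
import Pool.Agent.RNK.Po

/-!
# RNK.Ed: the edge functional

`ep S κ B P c f p = Σ_k S.sg f p (dl c) (mu B (pt P k)) (mu B (pt P (k+1)))`.
`Geo D P c c'`: the geodesic `k ↦ A_{2^k} P` goes from the cusp `c'` (`k → -∞`) to `c` (`k → ∞`).
The type `{μ // PM D μ}` with `sgP` is an alternating cocycle (`Sg_a12`, `Sg_a23`, `Sg_coc`), and
`mu_end` with `Sg_line` gives `Ends`; then `edge_fin`, `edge_base`, `edge_rev` of `RNK.Po`.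
* `ep_act`: termwise `Sg_act`; `(mu B (pt P k)).mapDomain g.act = mu (g B) (pt P' k)` by `mu_congr`
  (`mu B (pt P k) = mu B ((pt P' k).mul g)`) and `mu_map`; `(dl c).mapDomain g.act = dl (g c)`.
* `ep_lat`: `mu_lat`.
* `ep_congr`: `mu_congr`.
-/

namespace RNK

variable {D : OD}

/-- probability measures on cusps -/
abbrev PMs (D : OD) : Type := {μ : Ms // PM D μ}

/-- `S.sg f p` on probability measures -/
noncomputable def sgP (S : Coc D) (f : Vec → ℂ) (p : Vec) (μ ν ρ : PMs D) : ℂ :=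
  S.sg f p μ.1 ν.1 ρ.1

/-- the geodesic of `P` joins the cusps `c'` and `c` -/
structure Geo (D : OD) (P : Mat) (c c' : Vec) : Prop where
  det : P.det ≠ 0
  cu : Cu D c
  cu' : Cu D c'
  h : (P.act c).2 = 0
  h' : (P.act c').1 = 0

/-- the point mass at a cusp -/
noncomputable def dlP {x : Vec} (hx : Cu D x) : PMs D := ⟨dl x, PM_dl hx⟩

/-- the weight as an element of `PMs` -/
noncomputable def muP {κ : ℝ} (hκ : Kap D κ) {B P : Mat} (hB : GK D B) (hP : P.det ≠ 0)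
    (k : ℤ) : PMs D :=
  ⟨mu D κ B (pt P k), mu_PM hκ hB (by rw [det_pt]; exact hP)⟩

theorem sgP_AC (S : Coc D) {f : Vec → ℂ} (hf : AdmE D f) {p : Vec} (hp : K2 D p) :
    AC (sgP S f p) := by
  refine ⟨fun x y z => ?_, fun x y z => ?_, fun x y z w => ?_⟩
  · exact Sg_a12 S hf hp x.2.cu y.2.cu z.2.cu
  · exact Sg_a23 S hf hp x.2.cu y.2.cu z.2.cu
  · exact Sg_coc S hf hp x.2 y.2 z.2 w.2

/-- a measure on the line of a cusp is equivalent to the cusp -/
theorem eqv_line (S : Coc D) {f : Vec → ℂ} (hf : AdmE D f) {p : Vec} (hp : K2 D p) {c : Vec}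
    (hc : Cu D c) {μ : PMs D} (h : ∀ x, μ.1 x ≠ 0 → det2 c x = 0) :
    Eqv (sgP S f p) μ (dlP hc) := by
  intro a b
  exact Sg_line S hf hp μ.2 hc h a.2.cu b.2.cu

theorem muP_ends {κ : ℝ} (hκ : Kap D κ) {B P : Mat} (hB : GK D B) {c c' : Vec}
    (hP : Geo D P c c') (S : Coc D) : ∃ n0 : ℕ, ∀ f, AdmE D f → ∀ p, K2 D p →
      Ends (sgP S f p) n0 (muP hκ hB hP.det) (dlP hP.cu') (dlP hP.cu) := by
  obtain ⟨n0, hn⟩ := mu_end hκ hB hP.det hP.cu hP.cu' hP.h hP.h'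
  refine ⟨n0, fun f hf p hp k => ⟨fun hk => ?_, fun hk => ?_⟩⟩
  · exact eqv_line S hf hp hP.cu ((hn k).1 hk)
  · exact eqv_line S hf hp hP.cu' ((hn k).2 hk)

variable (S : Coc D) {κ : ℝ} (hκ : Kap D κ) {B P : Mat} (hB : GK D B) {c c' : Vec}
  (hP : Geo D P c c') {f g : Vec → ℂ} (hf : AdmE D f) (hg : AdmE D g) {p : Vec} (hp : K2 D p)

include hκ hB

include hP hf hp in
theorem ep_fin : (Function.support fun k : ℤ =>
    S.sg f p (dl c) (mu D κ B (pt P k)) (mu D κ B (pt P (k + 1)))).Finite := by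
  obtain ⟨n0, h⟩ := muP_ends hκ hB hP S
  have e := edge_fin (sgP_AC S hf hp) (h f hf p hp)
  exact e

include hP hf hp in
theorem ep_base : ep S κ B P c f p = ep S κ B P c' f p := by
  obtain ⟨n0, h⟩ := muP_ends hκ hB hP S
  exact (edge_base (sgP_AC S hf hp) (h f hf p hp)).symm

include hP hf hp in
/-- reversal: `pt P' k` and `pt P (-k)` are the same point -/
theorem ep_rev {P' : Mat} {c0 : ℝ} (hc0 : 0 < c0)
    (h : ∀ k w, nq ((pt P' k).act w) = c0 * nq ((pt P (-k)).act w))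
    (hd : ‖P'.det‖ = c0 * ‖P.det‖) : ep S κ B P' c f p = -ep S κ B P c f p := by
  obtain ⟨n0, hn⟩ := muP_ends hκ hB hP S
  have hm : ∀ k : ℤ, mu D κ B (pt P' k) = mu D κ B (pt P (-k)) := fun k =>
    mu_congr hc0 (h k) (by rw [det_pt, det_pt]; exact hd)
  have e := edge_rev (sgP_AC S hf hp) (hn f hf p hp)
  unfold ep
  rw [finsum_congr fun k : ℤ => by rw [hm k, hm (k + 1)]]
  exact e

include hP hf hg hp in
theorem ep_add : ep S κ B P c (fun w => f w + g w) p = ep S κ B P c f p + ep S κ B P c g p := by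
  have h1 := ep_fin S hκ hB hP hf hp
  have h2 := ep_fin S hκ hB hP hg hp
  have hm : ∀ k : ℤ, PM D (mu D κ B (pt P k)) := fun k =>
    mu_PM hκ hB (by rw [det_pt]; exact hP.det)
  unfold ep
  rw [← finsum_add_distrib h1 h2]
  exact finsum_congr fun k => Sg_add S hf hg hp (PM_dl hP.cu).cu (hm k).cu (hm (k + 1)).cu

include hP hf hp in
theorem ep_smul {k : ℂ} (hk : k ∈ D.K) : ep S κ B P c (fun w => k * f w) p =
    k * ep S κ B P c f p := by
  have hm : ∀ k : ℤ, PM D (mu D κ B (pt P k)) := fun k =>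
    mu_PM hκ hB (by rw [det_pt]; exact hP.det)
  unfold ep
  rw [mul_finsum]
  exact finsum_congr fun j => Sg_smul S hf hk hp (PM_dl hP.cu).cu (hm j).cu (hm (j + 1)).cu

include hP hf in
theorem ep_quad : ∃ S11 S12 S22 : ℂ, ∀ p, K2 D p →
    ep S κ B P c f p = p.1 ^ 2 * S11 + p.1 * p.2 * S12 + p.2 ^ 2 * S22 := by
  have hm : ∀ k : ℤ, PM D (mu D κ B (pt P k)) := fun k =>
    mu_PM hκ hB (by rw [det_pt]; exact hP.det)
  obtain ⟨n0, hn⟩ := muP_ends hκ hB hP S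
  choose a b d hq using fun k : ℤ =>
    Sg_quad S hf (PM_dl hP.cu).cu (hm k).cu (hm (k + 1)).cu
  refine ⟨∑ k ∈ Finset.range n0, (a (k : ℤ) + a (-(k + 1 : ℤ))),
    ∑ k ∈ Finset.range n0, (b (k : ℤ) + b (-(k + 1 : ℤ))),
    ∑ k ∈ Finset.range n0, (d (k : ℤ) + d (-(k + 1 : ℤ))), fun p hp => ?_⟩
  have e := edge_sum (sgP_AC S hf hp) le_rfl (hn f hf p hp) (dlP hP.cu)
  have e' : ep S κ B P c f p = ∑ k ∈ Finset.range n0,
      (S.sg f p (dl c) (mu D κ B (pt P (k : ℤ))) (mu D κ B (pt P ((k : ℤ) + 1))) +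
        S.sg f p (dl c) (mu D κ B (pt P (-(k + 1 : ℤ)))) (mu D κ B (pt P (-(k + 1 : ℤ) + 1)))) :=
    e
  rw [e', Finset.mul_sum, Finset.mul_sum, Finset.mul_sum, ← Finset.sum_add_distrib,
    ← Finset.sum_add_distrib]
  refine Finset.sum_congr rfl fun k _ => ?_
  rw [hq (k : ℤ) p hp, hq (-(k + 1 : ℤ)) p hp]
  ring

include hP hf hp in
theorem ep_act {g : Mat} (hg : GK D g) {P' : Mat} {c0 : ℝ} (hc0 : 0 < c0)
    (h : ∀ k w, nq ((pt P k).act w) = c0 * nq ((pt P' k).act (g.act w)))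
    (hd : ‖P.det‖ = c0 * ‖P'.det * g.det‖) :
    ep S κ B P c (fun w => f (g.act w)) p =
      ((‖g.det‖ ^ 2 : ℝ) : ℂ) * ep S κ (g.mul B) P' (g.act c) f (g.act p) := by
  have hm : ∀ k : ℤ, PM D (mu D κ B (pt P k)) := fun k =>
    mu_PM hκ hB (by rw [det_pt]; exact hP.det)
  have hk : ∀ k : ℤ, (mu D κ B (pt P k)).mapDomain g.act = mu D κ (g.mul B) (pt P' k) := by
    intro k
    have e : mu D κ B (pt P k) = mu D κ B ((pt P' k).mul g) :=
      mu_congr hc0 (fun w => by rw [act_mul]; exact h k w)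
        (by rw [det_pt, det_mul, det_pt]; exact hd)
    rw [e, mu_map]
  have hc : (dl c).mapDomain g.act = dl (g.act c) := by
    unfold dl
    exact Finsupp.mapDomain_single
  unfold ep
  rw [← smul_eq_mul, smul_finsum]
  refine finsum_congr fun k => ?_
  rw [Sg_act S hf hg hp (PM_dl hP.cu).cu (hm k).cu (hm (k + 1)).cu, hk, hk, hc, smul_eq_mul]

theorem ep_lat {B' : Mat} (hB' : GK D B') (hP : P.det ≠ 0)
    (h : ∀ w, (∃ u, O2 D u ∧ w = B.act u) ↔ (∃ u, O2 D u ∧ w = B'.act u)) (c : Vec)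
    (f : Vec → ℂ) (p : Vec) : ep S κ B P c f p = ep S κ B' P c f p := by
  have hm : ∀ k : ℤ, mu D κ B (pt P k) = mu D κ B' (pt P k) := fun k =>
    mu_lat (lt_of_lt_of_le one_pos hκ.one) hB hB' (by rw [det_pt]; exact hP) h
  unfold ep
  exact finsum_congr fun k => by rw [hm k, hm (k + 1)]

theorem ep_congr {P' : Mat} {c0 : ℝ} (hc0 : 0 < c0)
    (h : ∀ k w, nq ((pt P' k).act w) = c0 * nq ((pt P k).act w))
    (hd : ‖P'.det‖ = c0 * ‖P.det‖) (c : Vec) (f : Vec → ℂ) (p : Vec) :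
    ep S κ B P' c f p = ep S κ B P c f p := by
  have hm : ∀ k : ℤ, mu D κ B (pt P' k) = mu D κ B (pt P k) := fun k =>
    mu_congr hc0 (h k) (by rw [det_pt, det_pt]; exact hd)
  unfold ep
  exact finsum_congr fun k => by rw [hm k, hm (k + 1)]

end RNK
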