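import Pool.Agent.RNK.EgA

/-!
# RNK.Eg: equivariance of the edge functionals (proved)

All from `EG_act`.
* `E_dg`: `g = dg a d`, `P = A_m`, `P' = A_{m'}`, `m = |α|/|β|`, `m' = |aα|/|dβ|`:
  `nq (A_{2^k} A_{m'} (a x, d y)) = |a x|²/(2^k m') + 2^k m' |d y|² = |a d| nq (A_{2^k} A_m (x, y))`.
* `E_swp`: `swp` maps `β O ⊕ α O` to `α O ⊕ β O`; `EG_act` for the geodesic
  `P = A_{|β|/|α|}`, `c = e1`, with `P'` such that `pt P' k (swp w) = pt P k w` up to unitary matrices, e.g.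
  `P' = A_{|β|/|α|} swp` (`nq` is the same), `g c = e2`. Then `pt P' k` and `pt (A_{|α|/|β|}) (-k)` are the
  same point (`nq (A_h swp w) = nq (A_{1/h} w)`), so `ep_rev`-type reversal and `ep_base` for the geodesic
  `A_{|α|/|β|}` from `e2` to `e1` give the sign.
* `E_neg`: `g = dg (-1) 1` maps `α O ⊕ β O` to itself: `EG_act` with `α' = α`.
* `E_ut`: `g = ut γ` maps `α O ⊕ β O` to itself if `γ β ∈ α O`; `P' = A_m ut (-γ)`, `g e1 = e1`.
* `E_g3`: `g3 = ⟨0, 1, 1, 1⟩`, `g3⁻¹ = ⟨-1, 1, 1, 0⟩`, `L = O²`: `P = A_1`, `P' = A_1 g3⁻¹`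
  (`nq` of `A_1 = 1`: use `P' = ⟨-1, 1, 1, 0⟩`), `g3 e1 = e2`.
-/

namespace RNK

variable {D : OD}

/-- the matrix with columns `e2`, `(1, 1)` -/
noncomputable def g3 : Mat := ⟨0, 1, 1, 1⟩

/-- its inverse -/
noncomputable def g3i : Mat := ⟨-1, 1, 1, 0⟩

/-- the standard geodesic -/
theorem geo_Ah (D : OD) {m : ℝ} (hm : 0 < m) : Geo D (Ah m) e1 e2 := by
  refine ⟨by rw [det_Ah hm]; exact one_ne_zero, Cu_e1, Cu_e2, ?_, ?_⟩
  · simp [Ah, dg, e1]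
  · simp [Ah, dg, e2]

theorem geo_ut {m : ℝ} (hm : 0 < m) {γ : ℂ} (hγ : γ ∈ D.O) :
    Geo D ((Ah m).mul (ut (-γ))) e1 (γ, 1) := by
  refine ⟨by rw [det_mul, det_Ah hm, det_ut]; norm_num, Cu_e1,
    ⟨⟨O_sub_K hγ, D.K.one_mem⟩, fun h => ?_⟩, ?_, ?_⟩
  · have h1 := congrArg Prod.snd h
    simp at h1
  · rw [act_mul, ut_act]
    simp [Ah, dg, e1]
  · rw [act_mul, ut_act]
    simp [Ah, dg]

theorem geo_g3i (D : OD) : Geo D g3i e2 v11 := by
  refine ⟨?_, Cu_e2, Cu_v11, ?_, ?_⟩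
  · simp [Mat.det, g3i]
  · simp [g3i, e2]
  · simp [g3i, v11]

/-- the ratio is positive -/
private theorem eg_pos {π : PD D} {α β : ℂ} (h : Lt π α β) : 0 < ‖α‖ / ‖β‖ :=
  div_pos (norm_pos_iff.2 (π.ne_of_r h.ra)) (norm_pos_iff.2 (π.ne_of_r h.rb))

/-- the points of the standard geodesic -/
private theorem eg_nq {m : ℝ} (hm : 0 < m) (k : ℤ) (w : Vec) :
    nq ((pt (Ah m) k).act w) = ‖w.1‖ ^ 2 / ((2 : ℝ) ^ k * m) + (2 : ℝ) ^ k * m * ‖w.2‖ ^ 2 := by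
  have h2 : (0 : ℝ) < (2 : ℝ) ^ k := by positivity
  unfold pt
  rw [Ah_mul h2, nq_Ah (mul_pos h2 hm)]

variable (S : Coc D) {κ : ℝ} (hκ : Kap D κ) (π : PD D)

include hκ

/-- the cusp may be replaced by the other end -/
private theorem eg_base {α β : ℂ} (h1 : Lt π α β) {P : Mat} {c c' : Vec} (hP : Geo D P c c')
    {f : Vec → ℂ} (hf : AdmE D f) (hs : SuppIn D α β f) {p : Vec} (hp : K2 D p) :
    EG S κ π α β P c f p = EG S κ π α β P c' f p := by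
  unfold EG
  exact Finset.sum_congr rfl fun t _ => ep_base S hκ (h1.GK_B t) hP (h1.AdmE hf hs t) hp

/-- multiples of `e1` -/
private theorem eg_e1 {α β : ℂ} (h1 : Lt π α β) {m : ℝ} (hm : 0 < m) {x : ℂ} (hx : x ∈ D.K)
    (hx0 : x ≠ 0) {f : Vec → ℂ} (hf : AdmE D f) (hs : SuppIn D α β f) {p : Vec} (hp : K2 D p) :
    EG S κ π α β (Ah m) (x, 0) f p = EG S κ π α β (Ah m) e1 f p := by
  have h2 : Geo D (Ah m) (x, 0) e2 := by
    refine ⟨(geo_Ah D hm).det, ⟨⟨hx, D.K.zero_mem⟩, fun h => hx0 ?_⟩, Cu_e2, ?_,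
      (geo_Ah D hm).h'⟩
    · have h3 := congrArg Prod.fst h
      simpa using h3
    · simp [Ah, dg]
  rw [eg_base S hκ π h1 h2 hf hs hp, eg_base S hκ π h1 (geo_Ah D hm) hf hs hp]

theorem E_dg {α β a d : ℂ} (h1 : Lt π α β) (h2 : Lt π a d) {f : Vec → ℂ} (hf : AdmE D f)
    (hs : SuppIn D (a * α) (d * β) f) {p : Vec} (hp : K2 D p) :
    E S κ π α β (fun w => f ((dg a d).act w)) p =
      ((‖a * d‖ ^ 2 : ℝ) : ℂ) * E S κ π (a * α) (d * β) f ((dg a d).act p) := by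
  have h3 : Lt π (a * α) (d * β) := by
    refine ⟨D.O.mul_mem h2.ha h1.ha, D.O.mul_mem h2.hb h1.hb, ?_, ?_⟩
    · rw [π.rmul a h2.ha α h1.ha]
      exact mul_ne_zero h2.ra h1.ra
    · rw [π.rmul d h2.hb β h1.hb]
      exact mul_ne_zero h2.rb h1.rb
  have ha := π.ne_of_r h2.ra
  have hd := π.ne_of_r h2.rb
  have hα := norm_pos_iff.2 (π.ne_of_r h1.ra)
  have hβ := norm_pos_iff.2 (π.ne_of_r h1.rb)
  have ha' := norm_pos_iff.2 ha
  have hd' := norm_pos_iff.2 hd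
  have hg : MO D (dg a d) := MO_dg h2.ha h2.hb ha hd
  have hgK : GK D (dg a d) := MO_GK hg
  have hr : π.r (dg a d).det ≠ 0 := by
    rw [det_dg, π.rmul a h2.ha d h2.hb]
    exact mul_ne_zero h2.ra h2.rb
  have hL : ∀ w, (∃ u, O2 D u ∧ w = (dg (a * α) (d * β)).act u) ↔
      (∃ u, O2 D u ∧ w = (dg a d).act ((dg α β).act u)) := by
    intro w
    have e : ∀ u : Vec, (dg (a * α) (d * β)).act u = (dg a d).act ((dg α β).act u) := by
      intro u
      rw [dg_act, dg_act, dg_act]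
      simp only [mul_assoc]
    simp only [e]
  have hc0 : (0 : ℝ) < (‖a‖ * ‖d‖)⁻¹ := by positivity
  have e := EG_act S hκ π h1 h3 hg hr hL hf hs (geo_Ah D (eg_pos h1))
    (P' := Ah (‖a * α‖ / ‖d * β‖)) hc0 (fun k w => by
      have h2k : (0 : ℝ) < (2 : ℝ) ^ k := by positivity
      rw [eg_nq (eg_pos h1), eg_nq (eg_pos h3), dg_act]
      simp only [norm_mul]
      field_simp) (by
      rw [det_Ah (eg_pos h1), det_Ah (eg_pos h3), det_dg, one_mul, norm_mul, norm_one]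
      field_simp) hp
  have e1' : (dg a d).act e1 = (a, 0) := by
    rw [dg_act]
    simp [e1]
  unfold E
  rw [e, det_dg, e1', eg_e1 S hκ π h3 (eg_pos h3) (O_sub_K h2.ha) ha hf hs (K2_act hgK hp)]

theorem E_swp {α β : ℂ} (h1 : Lt π α β) {f : Vec → ℂ} (hf : AdmE D f)
    (hs : SuppIn D α β f) {p : Vec} (hp : K2 D p) :
    E S κ π β α (fun w => f (swp.act w)) p = -E S κ π α β f (swp.act p) := by
  have h2 : Lt π β α := ⟨h1.hb, h1.ha, h1.rb, h1.ra⟩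
  have hα := norm_pos_iff.2 (π.ne_of_r h1.ra)
  have hβ := norm_pos_iff.2 (π.ne_of_r h1.rb)
  have hg : MO D swp := GO_swp.1
  have hr : π.r swp.det ≠ 0 := by
    rw [det_swp, π.rneg D.O.one_mem, π.rone]
    exact neg_ne_zero.2 one_ne_zero
  have hL : ∀ w, (∃ u, O2 D u ∧ w = (dg α β).act u) ↔
      (∃ u, O2 D u ∧ w = swp.act ((dg β α).act u)) := by
    intro w
    constructor
    · rintro ⟨u, hu, rfl⟩
      refine ⟨(u.2, u.1), ⟨hu.2, hu.1⟩, ?_⟩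
      rw [dg_act, dg_act, swp_act]
    · rintro ⟨u, hu, rfl⟩
      refine ⟨(u.2, u.1), ⟨hu.2, hu.1⟩, ?_⟩
      rw [dg_act, dg_act, swp_act]
  have hss : ∀ w : Vec, swp.act (swp.act w) = w := by
    intro w
    rw [swp_act, swp_act]
  have e := EG_act S hκ π h2 h1 hg hr hL hf hs (geo_Ah D (eg_pos h2))
    (P' := (Ah (‖β‖ / ‖α‖)).mul swp) one_pos (fun k w => by
      rw [one_mul, pt_act, pt_act, act_mul, hss]) (by
      rw [det_mul, det_swp, det_Ah (eg_pos h2)]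
      simp) hp
  have e1' : swp.act e1 = e2 := by
    rw [swp_act]
    rfl
  have hpK : K2 D (swp.act p) := K2_act (MO_GK hg) hp
  have hP' : Geo D ((Ah (‖β‖ / ‖α‖)).mul swp) e2 e1 := by
    refine ⟨?_, Cu_e2, Cu_e1, ?_, ?_⟩
    · rw [det_mul, det_swp, det_Ah (eg_pos h2)]
      norm_num
    · rw [act_mul, swp_act]
      simp [Ah, dg, e2]
    · rw [act_mul, swp_act]
      simp [Ah, dg, e1]
  unfold E
  rw [e, e1', det_swp, eg_base S hκ π h1 hP' hf hs hpK]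
  have h3 : EG S κ π α β ((Ah (‖β‖ / ‖α‖)).mul swp) e1 f (swp.act p) =
      -EG S κ π α β (Ah (‖α‖ / ‖β‖)) e1 f (swp.act p) := by
    unfold EG
    rw [← Finset.sum_neg_distrib]
    refine Finset.sum_congr rfl fun t _ => ?_
    refine ep_rev S hκ (h1.GK_B t) (geo_Ah D (eg_pos h1)) (h1.AdmE hf hs t) hpK one_pos ?_ ?_
    · intro k w
      have h2k : (0 : ℝ) < (2 : ℝ) ^ k := by positivity
      have e3 : nq ((pt ((Ah (‖β‖ / ‖α‖)).mul swp) k).act w) =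
          nq ((pt (Ah (‖β‖ / ‖α‖)) k).act (swp.act w)) := by
        rw [pt_act, pt_act, act_mul]
      rw [e3, eg_nq (eg_pos h2), eg_nq (eg_pos h1), swp_act, one_mul, zpow_neg]
      simp only
      field_simp
      ring
    · rw [det_mul, det_swp, det_Ah (eg_pos h2), det_Ah (eg_pos h1)]
      simp
  rw [h3]
  simp

theorem E_neg {α β : ℂ} (h1 : Lt π α β) {f : Vec → ℂ} (hf : AdmE D f)
    (hs : SuppIn D α β f) {p : Vec} (hp : K2 D p) :
    E S κ π α β (fun w => f ((dg (-1) 1).act w)) p = E S κ π α β f ((dg (-1) 1).act p) := by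
  have hg : MO D (dg (-1) 1) := MO_dg (D.O.neg_mem D.O.one_mem) D.O.one_mem
    (neg_ne_zero.2 one_ne_zero) one_ne_zero
  have hr : π.r (dg (-1) 1).det ≠ 0 := by
    rw [det_dg, mul_one, π.rneg D.O.one_mem, π.rone]
    exact neg_ne_zero.2 one_ne_zero
  have hL : ∀ w, (∃ u, O2 D u ∧ w = (dg α β).act u) ↔
      (∃ u, O2 D u ∧ w = (dg (-1) 1).act ((dg α β).act u)) := by
    intro w
    constructor
    · rintro ⟨u, hu, rfl⟩
      refine ⟨(-u.1, u.2), ⟨D.O.neg_mem hu.1, hu.2⟩, ?_⟩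
      rw [dg_act, dg_act, dg_act]
      simp
    · rintro ⟨u, hu, rfl⟩
      refine ⟨(-u.1, u.2), ⟨D.O.neg_mem hu.1, hu.2⟩, ?_⟩
      rw [dg_act, dg_act, dg_act]
      simp
  have e := EG_act S hκ π h1 h1 hg hr hL hf hs (geo_Ah D (eg_pos h1))
    (P' := Ah (‖α‖ / ‖β‖)) one_pos (fun k w => by
      rw [eg_nq (eg_pos h1), eg_nq (eg_pos h1), dg_act]
      simp) (by
      rw [det_dg, det_Ah (eg_pos h1)]
      simp) hp
  have e1' : (dg (-1) 1).act e1 = (-1, 0) := by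
    rw [dg_act]
    simp [e1]
  unfold E
  rw [e, e1', eg_e1 S hκ π h1 (eg_pos h1) (D.K.neg_mem D.K.one_mem)
    (neg_ne_zero.2 one_ne_zero) hf hs (K2_act (MO_GK hg) hp), det_dg]
  simp

theorem E_ut {α β : ℂ} (h1 : Lt π α β) {γ : ℂ} (hγ : γ ∈ D.O)
    (hdiv : ∃ z ∈ D.O, β = α * z) {f : Vec → ℂ} (hf : AdmE D f) (hs : SuppIn D α β f)
    {p : Vec} (hp : K2 D p) :
    E S κ π α β (fun w => f ((ut γ).act w)) p =
      EG S κ π α β ((Ah (‖α‖ / ‖β‖)).mul (ut (-γ))) e1 f ((ut γ).act p) := by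
  obtain ⟨z, hz, hβ⟩ := hdiv
  have hg : MO D (ut γ) := (GO_ut hγ).1
  have hr : π.r (ut γ).det ≠ 0 := by
    rw [det_ut, π.rone]
    exact one_ne_zero
  have hL : ∀ w, (∃ u, O2 D u ∧ w = (dg α β).act u) ↔
      (∃ u, O2 D u ∧ w = (ut γ).act ((dg α β).act u)) := by
    intro w
    constructor
    · rintro ⟨u, hu, rfl⟩
      refine ⟨(u.1 - γ * (z * u.2), u.2),
        ⟨D.O.sub_mem hu.1 (D.O.mul_mem hγ (D.O.mul_mem hz hu.2)), hu.2⟩, ?_⟩
      rw [dg_act, dg_act, ut_act]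
      refine Prod.ext ?_ rfl
      show α * u.1 = α * (u.1 - γ * (z * u.2)) + γ * (β * u.2)
      rw [hβ]
      ring
    · rintro ⟨u, hu, rfl⟩
      refine ⟨(u.1 + γ * (z * u.2), u.2),
        ⟨D.O.add_mem hu.1 (D.O.mul_mem hγ (D.O.mul_mem hz hu.2)), hu.2⟩, ?_⟩
      rw [dg_act, dg_act, ut_act]
      refine Prod.ext ?_ rfl
      show α * u.1 + γ * (β * u.2) = α * (u.1 + γ * (z * u.2))
      rw [hβ]
      ring
  have hcan : ∀ w : Vec, (ut (-γ)).act ((ut γ).act w) = w := by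
    intro w
    rw [ut_act, ut_act]
    refine Prod.ext ?_ rfl
    show w.1 + γ * w.2 + -γ * w.2 = w.1
    ring
  have e := EG_act S hκ π h1 h1 hg hr hL hf hs (geo_Ah D (eg_pos h1))
    (P' := (Ah (‖α‖ / ‖β‖)).mul (ut (-γ))) one_pos (fun k w => by
      rw [one_mul, pt_act, pt_act, act_mul, hcan]) (by
      rw [det_mul, det_ut, det_ut, mul_one, mul_one, one_mul]) hp
  have e1' : (ut γ).act e1 = e1 := by
    rw [ut_act]
    simp [e1]
  unfold E
  rw [e, e1', det_ut]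
  simp

theorem E_g3 {f : Vec → ℂ} (hf : AdmE D f) (hs : ∀ w, f w ≠ 0 → O2 D w) {p : Vec}
    (hp : K2 D p) :
    E S κ π 1 1 (fun w => f (g3.act w)) p = EG S κ π 1 1 g3i e2 f (g3.act p) := by
  have h11 : Lt π 1 1 := by
    refine ⟨D.O.one_mem, D.O.one_mem, ?_, ?_⟩
    · rw [π.rone]
      exact one_ne_zero
    · rw [π.rone]
      exact one_ne_zero
  have hs' : SuppIn D 1 1 f := fun w hw => ⟨w, hs w hw, by rw [one_act]⟩
  have hdet : g3.det = -1 := by simp [Mat.det, g3]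
  have hg : MO D g3 := ⟨⟨D.O.zero_mem, D.O.one_mem, D.O.one_mem, D.O.one_mem⟩, by
    rw [hdet]; norm_num⟩
  have hr : π.r g3.det ≠ 0 := by
    rw [hdet, π.rneg D.O.one_mem, π.rone]
    exact neg_ne_zero.2 one_ne_zero
  have hga : ∀ w : Vec, g3.act w = (w.2, w.1 + w.2) := by
    intro w
    simp [Mat.act, g3]
  have hgi : ∀ w : Vec, g3i.act w = (-w.1 + w.2, w.1) := by
    intro w
    simp [Mat.act, g3i]
  have hL : ∀ w, (∃ u, O2 D u ∧ w = (dg 1 1).act u) ↔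
      (∃ u, O2 D u ∧ w = g3.act ((dg 1 1).act u)) := by
    intro w
    constructor
    · rintro ⟨u, hu, rfl⟩
      refine ⟨(-u.1 + u.2, u.1), ⟨D.O.add_mem (D.O.neg_mem hu.1) hu.2, hu.1⟩, ?_⟩
      rw [one_act, one_act, hga]
      refine Prod.ext rfl ?_
      show u.2 = -u.1 + u.2 + u.1
      ring
    · rintro ⟨u, hu, rfl⟩
      exact ⟨g3.act u, O2_act hg hu, by rw [one_act, one_act]⟩
  have hcan : ∀ w : Vec, g3i.act (g3.act w) = w := by
    intro w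
    rw [hgi, hga]
    refine Prod.ext ?_ rfl
    show -w.2 + (w.1 + w.2) = w.1
    ring
  have hA1 : ∀ w : Vec, (Ah (‖(1 : ℂ)‖ / ‖(1 : ℂ)‖)).act w = w := by
    intro w
    rw [norm_one, div_one]
    unfold Ah
    rw [Real.sqrt_one, inv_one, Complex.ofReal_one, one_act]
  have e := EG_act S hκ π h11 h11 hg hr hL hf hs' (geo_Ah D (eg_pos h11))
    (P' := g3i) one_pos (fun k w => by
      rw [one_mul, pt_act, pt_act, hcan, hA1]) (by
      rw [det_Ah (eg_pos h11), hdet]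
      simp [Mat.det, g3i]) hp
  have e1' : g3.act e1 = e2 := by
    rw [hga]
    simp [e1, e2]
  unfold E
  rw [e, e1', hdet]
  simp

end RNK
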