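import Pool.Agent.RNK.Pf
import Pool.Agent.RNK.Fc

/-!
# RNK.PfF: the functions `f 1_t` (stub; prove ALL sorries)

* `Fn_B`: `F w = f (B w) ind t (B w)`, `B = B_t`. Support: if `F w ≠ 0` then `B w ∈ L_t` (`B_lat`, `SuppIn`), so
  `B w = B u` with `u ∈ O²`, `w = u`. Period: `f (B w + M B v) = f (B w)`; if this is not `0` then
  `B w ∈ O²` and `ind_add` (`B v ∈ L_t`, so is `M B v`). `inv`: `w, x w ∈ O²`, both `ind` are `1`.
* `AdmE_ind`: modulus `m p`. For `w ∈ O²` and `x` prime to `m p`: `r x ≠ 0` (`x u + m p v = 1`), `ind_smul`. For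
  `w ∉ O²`, `m p w ∈ O²`: `f w = 0`, and `x w ∉ O²` (`cop_O2`), so `f (x w) = 0`.
-/

namespace RNK

variable {D : OD} (π : PD D)

private theorem pff_r0 : π.r 0 = 0 := by
  have h := π.rint 0
  simpa using h

private theorem pff_ne {x : ℂ} (h : π.r x ≠ 0) : x ≠ 0 := by
  rintro rfl
  exact h (pff_r0 π)

/-- the vectors of the lattice -/
private theorem pff_ind_B {α β : ℂ} (hα : α ∈ D.O) (hβ : β ∈ D.O) (h1 : π.r α ≠ 0)
    (h2 : π.r β ≠ 0) (t : π.T) {u : Vec} (hu : O2 D u) :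
    π.ind t ((π.B α β t).act u) = 1 :=
  ((B_lat π hα hβ h1 h2 t _).1 ⟨u, hu, rfl⟩).2

/-- `f 1_t` in the basis of `L_t` -/
theorem Fn_B {M : ℕ} {V : Finset ℂ} {f : Vec → ℂ} (hf : Fn D M V f) {α β : ℂ} (hα : α ∈ D.O)
    (hβ : β ∈ D.O) (h1 : π.r α ≠ 0) (h2 : π.r β ≠ 0) (hs : SuppIn D α β f) (t : π.T) :
    Fn D M V (fun w => f ((π.B α β t).act w) * π.ind t ((π.B α β t).act w)) := by
  have hMO : MO D (π.B α β t) := MO_B π hα hβ (pff_ne π h1) (pff_ne π h2) t
  refine ⟨?_, ?_, ?_, ?_⟩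
  · intro w hw
    rcases ind_01 π t ((π.B α β t).act w) with h | h
    · exfalso
      apply hw
      rw [h, mul_zero]
    · rw [h, mul_one] at hw ⊢
      exact hf.val _ hw
  · intro w hw
    rcases ind_01 π t ((π.B α β t).act w) with h | h
    · exfalso
      apply hw
      rw [h, mul_zero]
    · rw [h, mul_one] at hw
      obtain ⟨u, hu, e⟩ := (B_lat π hα hβ h1 h2 t ((π.B α β t).act w)).2 ⟨hs _ hw, h⟩
      have e1 : w = u := act_inj hMO.2 e
      rw [e1]
      exact hu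
  · intro w v hv
    have e1 : (π.B α β t).act (w + (M : ℂ) • v) =
        (π.B α β t).act w + (M : ℂ) • (π.B α β t).act v := by
      rw [act_add, act_smul]
    have e2 : f ((π.B α β t).act w + (M : ℂ) • (π.B α β t).act v) = f ((π.B α β t).act w) :=
      hf.per _ _ (O2_act hMO hv)
    rw [e1, e2]
    by_cases h0 : f ((π.B α β t).act w) = 0
    · rw [h0, zero_mul, zero_mul]
    · have e3 : (M : ℂ) • (π.B α β t).act v = (π.B α β t).act ((M : ℂ) • v) := by
        rw [act_smul]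
      have hMv : O2 D ((M : ℂ) • v) := O2_smul (nat_O M) hv
      have e4 : π.ind t ((π.B α β t).act ((M : ℂ) • v)) = 1 :=
        pff_ind_B π hα hβ h1 h2 t hMv
      rw [e3, ind_add π t (hf.supp _ h0) (O2_act hMO hMv) e4]
  · intro x hx w hw
    have hxw : O2 D (x • w) := O2_smul hx.1 hw
    rw [pff_ind_B π hα hβ h1 h2 t hw, pff_ind_B π hα hβ h1 h2 t hxw, act_smul,
      hf.inv x hx _ (O2_act hMO hw)]

/-- the first vector of `L_t` on the line `y = 0` -/
theorem B_e1 {α β : ℂ} (hα : α ∈ D.O) (hβ : β ∈ D.O) (t : π.T) :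
    (π.B α β t).act e1 = (π.w * α, 0) ∨ (π.B α β t).act e1 = (α, 0) := by
  rcases t with _ | τ
  · right
    simp [PD.B, Mat.act, e1]
  · left
    simp [PD.B, Mat.act, e1]

private theorem pff_ind_zero (t : π.T) {v : Vec} (h1 : π.r v.1 = 0) (h2 : π.r v.2 = 0) :
    π.ind t v = 1 := by
  rcases t with _ | τ
  · simp [PD.ind, h2]
  · simp [PD.ind, h1, h2]

private theorem pff_r_mp (m : ℕ) {x : ℂ} (hx : x ∈ D.O) :
    π.r (((m * π.p : ℕ) : ℂ) * x) = 0 := by
  rw [π.rmul _ (nat_O _) _ hx, π.rnat]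
  push_cast
  simp

/-- `f 1_t` is admissible -/
theorem AdmE_ind {f : Vec → ℂ} (hf : AdmE D f) (hs : ∀ w, f w ≠ 0 → O2 D w) (t : π.T) :
    AdmE D (fun w => f w * π.ind t w) := by
  obtain ⟨m, hm⟩ := hf
  have hp : 0 < π.p := π.hp.pos
  refine ⟨m * π.p, Nat.mul_pos hm.pos hp, ?_, ?_, ?_, ?_⟩
  · intro w
    rcases ind_01 π t w with h | h
    · rw [h, mul_zero]
      exact D.K.zero_mem
    · rw [h, mul_one]
      exact hm.val w
  · intro w hw
    exact O2_smul (nat_O _) (hs w (left_ne_zero_of_mul hw))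
  · intro w v hv
    have hpv : O2 D ((π.p : ℂ) • v) := O2_smul (nat_O _) hv
    have e1 : ((m * π.p : ℕ) : ℂ) • v = (m : ℂ) • (π.p : ℂ) • v := by
      rw [smul_smul]
      push_cast
      rfl
    have e2 : f (w + ((m * π.p : ℕ) : ℂ) • v) = f w := by
      rw [e1]
      exact hm.per w _ hpv
    rw [e2]
    by_cases h0 : f w = 0
    · rw [h0, zero_mul, zero_mul]
    · have e3 : π.ind t (((m * π.p : ℕ) : ℂ) • v) = 1 := by
        apply pff_ind_zero
        · show π.r (((m * π.p : ℕ) : ℂ) * v.1) = 0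
          exact pff_r_mp π m hv.1
        · show π.r (((m * π.p : ℕ) : ℂ) * v.2) = 0
          exact pff_r_mp π m hv.2
      rw [ind_add π t (hs w h0) (O2_smul (nat_O _) hv) e3]
  · intro x hx w hw
    by_cases hO : O2 D w
    · have hxm : Cop D x m := by
        apply cop_dvd hx (nat_O m)
        refine ⟨(π.p : ℂ), nat_O _, ?_⟩
        push_cast
        rfl
      have hrx : π.r x ≠ 0 := by
        obtain ⟨hx0, -, u, hu, v, hv, e⟩ := hx
        intro hr
        have h1 : π.r (u * x + v * ((m * π.p : ℕ) : ℂ)) = 1 := by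
          rw [e]
          exact π.rone
        rw [π.radd _ (D.O.mul_mem hu hx0) _ (D.O.mul_mem hv (nat_O _)), π.rmul _ hu _ hx0,
          hr, mul_zero, zero_add, mul_comm v, pff_r_mp π m hv] at h1
        exact zero_ne_one h1
      rw [hm.inv x hxm w (O2_smul (nat_O m) hO), ind_smul π t hx.1 hrx hO]
    · have e1 : f w = 0 := by
        by_contra h
        exact hO (hs w h)
      have e2 : f (x • w) = 0 := by
        by_contra h
        exact hO (cop_O2 hx (hs _ h) hw)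
      rw [e1, e2, zero_mul, zero_mul]

end RNK
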