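import Pool.Agent.RNK.InB

/-!
# RNK.In: the edge functional of a closed function tends to `0` 

Induction. Let `Q` be the finite set of nonunits of `O` dividing `N` (`fin_div`), `A ⊆ Q`. Claim: if `g` is in
  the class and supported on vectors with `c ∤ y` for all `c ∈ A`, then `E 1 1 g e2 → 0`. Induction on
  `|Q \ A|`. If `A = Q` then `y` is prime to `N` on the support (`not_cop`), `E_base`. Else choose
  `c ∈ Q \ A`; `g = cutn c g + cutd c g`; the first by induction (`A ∪ {c}`); second: `E_step` and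
  `g₁ = dil c g` is again in the class with the same `V, J, q`, and supported on `c' ∤ y` for `c' ∈ A`. So
  `limsup |E g| ≤ |c|⁻⁴ limsup |E g₁| ≤ ... ≤ |c|⁻⁴ⁿ C` with `C` of `E_bound`, `|c|² ≥ 2` (`nonunit`): `0`.
  (To write this: prove by induction on `n` for all such `g`:
  `∀ ε > 0, ∃ P0, ∀ π, P0 < p → ‖E g‖ ≤ 4⁻ⁿ C + ε`.)
-/

namespace RNK

variable {D : OD}

open Classical in
/-- the nonunits dividing `N` -/
noncomputable def divs (D : OD) (N : ℕ) (hN : 0 < N) : Finset ℂ :=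
  (fin_div D hN).toFinset.filter fun c => ¬ ∃ y ∈ D.O, c * y = 1

theorem mem_divs {N : ℕ} (hN : 0 < N) {c : ℂ} :
    c ∈ divs D N hN ↔ (c ∈ D.O ∧ ∃ z ∈ D.O, (N : ℂ) = c * z) ∧ ¬ ∃ y ∈ D.O, c * y = 1 := by
  classical
  unfold divs
  rw [Finset.mem_filter, Set.Finite.mem_toFinset, Set.mem_ofPred_eq]

theorem cutn_ne {c : ℂ} {f : Vec → ℂ} {w : Vec} (h : cutn D c f w ≠ 0) :
    (¬ ∃ z ∈ D.O, w.2 = c * z) ∧ f w ≠ 0 := by
  unfold cutn at h
  split_ifs at h with h1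
  · exact absurd rfl h
  · exact ⟨h1, h⟩

theorem dil_ne {c : ℂ} {f : Vec → ℂ} {w : Vec} (h : dil D c f w ≠ 0) :
    f (w.1, c * w.2) ≠ 0 := by
  unfold dil cutd at h
  rw [dg_act, one_mul] at h
  split_ifs at h with h1
  · exact h
  · exact absurd rfl h

theorem E_split (S : Coc D) {κ : ℝ} (hκ : Kap D κ) {N : ℕ} [NeZero N] {V : Finset ℂ}
    {J : ℕ} {q : Fin J → ℂ} {g : Vec → ℂ} (hg : Gc D N V J q g) {c : ℂ} (hc : c ∈ D.O)
    (hd : ∃ z ∈ D.O, (N : ℂ) = c * z) (π : PD D) :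
    E S κ π 1 1 g e2 = E S κ π 1 1 (cutd D c g) e2 + E S κ π 1 1 (cutn D c g) e2 := by
  have hN : 0 < N := Nat.pos_of_ne_zero (NeZero.ne N)
  obtain ⟨V1, hV1, hg1⟩ := Gc_Fn hg
  have h1 := Fn_cutd hg1 hc hd
  have h2 := Fn_cutn hg1 hc hd
  rw [← E_add S hκ π (Lt_one π) (Fn_AdmE hN hV1 h1) (Fn_AdmE hN hV1 h2) (supp_one h1.supp)
    (supp_one h2.supp) K2_e2, cut_add]

theorem E_iter (S : Coc D) {κ : ℝ} (hκ : Kap D κ) {N : ℕ} [NeZero N] (V : Finset ℂ)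
    (hV : ∀ v ∈ V, v ∈ D.K) {J : ℕ} {q : Fin J → ℂ} (hq : ∀ j, q j ∈ D.O ∧ q j ≠ 0)
    {c : ℂ} (hc : c ∈ D.O) (h0 : c ≠ 0) (hd : ∃ z ∈ D.O, (N : ℂ) = c * z)
    (hu : ¬ ∃ y ∈ D.O, c * y = 1) (Pr : (Vec → ℂ) → Prop)
    (hn : ∀ g, Gc D N V J q g → Pr g → Tends0 (fun π : PD D => E S κ π 1 1 (cutn D c g) e2))
    (hdil : ∀ g, Gc D N V J q g → Pr g → Pr (dil D c g)) {g : Vec → ℂ}
    (hg : Gc D N V J q g) (hPg : Pr g) : Tends0 (fun π : PD D => E S κ π 1 1 g e2) := by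
  obtain ⟨C, P0, hC, hb⟩ := E_bound S hκ (N := N) V hV hq
  have hr : ‖(((‖c‖ ^ 2 : ℝ) : ℂ) * c ^ 2)⁻¹‖ ≤ 1 / 4 := by
    have h2 := nonunit hc h0 hu
    rw [norm_inv, norm_mul, norm_pow, Complex.norm_real, Real.norm_eq_abs,
      abs_of_nonneg (by positivity)]
    rw [one_div]
    apply inv_anti₀ (by norm_num)
    nlinarith
  have key : ∀ m : ℕ, ∀ g, Gc D N V J q g → Pr g → ∀ ε : ℝ, 0 < ε → ∃ P1 : ℕ, ∀ π : PD D,
      P1 < π.p → ‖E S κ π 1 1 g e2‖ ≤ (1 / 4) ^ m * C + ε := by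
    intro m
    induction m with
    | zero =>
      intro g hg _ ε hε
      refine ⟨P0, fun π hπ => ?_⟩
      have := hb g hg π hπ
      simp only [pow_zero, one_mul]
      linarith
    | succ m ih =>
      intro g hg hPg ε hε
      obtain ⟨P1, h1⟩ := hn g hg hPg (ε / 4) (by linarith)
      obtain ⟨P2, h2⟩ := E_step S hκ V hg hc h0 hd (ε / 4) (by linarith)
      obtain ⟨P3, h3⟩ := ih (dil D c g) (Gc_dil hg hc h0 hd) (hdil g hg hPg) (ε / 4)
        (by linarith)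
      refine ⟨max P1 (max P2 P3), fun π hπ => ?_⟩
      have a1 := h1 π (lt_of_le_of_lt (le_max_left _ _) hπ)
      have a2 := h2 π (lt_of_le_of_lt ((le_max_left _ _).trans (le_max_right _ _)) hπ)
      have a3 := h3 π (lt_of_le_of_lt ((le_max_right _ _).trans (le_max_right _ _)) hπ)
      have e1 : E S κ π 1 1 g e2 = E S κ π 1 1 (cutn D c g) e2 +
          (E S κ π 1 1 (cutd D c g) e2 -
            (((‖c‖ ^ 2 : ℝ) : ℂ) * c ^ 2)⁻¹ * E S κ π 1 1 (dil D c g) e2) +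
          (((‖c‖ ^ 2 : ℝ) : ℂ) * c ^ 2)⁻¹ * E S κ π 1 1 (dil D c g) e2 := by
        rw [E_split S hκ hg hc hd π]
        ring
      have a4 : ‖(((‖c‖ ^ 2 : ℝ) : ℂ) * c ^ 2)⁻¹ * E S κ π 1 1 (dil D c g) e2‖ ≤
          1 / 4 * ((1 / 4) ^ m * C + ε / 4) := by
        rw [norm_mul]
        exact mul_le_mul hr a3 (norm_nonneg _) (by norm_num)
      have a5 : ‖E S κ π 1 1 g e2‖ ≤ ε / 4 + ε / 4 + 1 / 4 * ((1 / 4) ^ m * C + ε / 4) := by
        rw [e1]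
        refine (norm_add_le _ _).trans (add_le_add ((norm_add_le _ _).trans ?_) a4)
        exact add_le_add a1 a2
      have e2' : (1 / 4 : ℝ) ^ (m + 1) * C = 1 / 4 * ((1 / 4) ^ m * C) := by
        rw [pow_succ]
        ring
      rw [e2']
      linarith
  intro ε hε
  obtain ⟨m, hm⟩ := exists_pow_lt_of_lt_one (show 0 < ε / (2 * C) by positivity)
    (show (1 / 4 : ℝ) < 1 by norm_num)
  obtain ⟨P1, h1⟩ := key m g hg hPg (ε / 2) (by linarith)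
  refine ⟨P1, fun π hπ => (h1 π hπ).trans ?_⟩
  have h2 : (1 / 4 : ℝ) ^ m * C ≤ ε / (2 * C) * C := mul_le_mul_of_nonneg_right hm.le hC.le
  have h3 : ε / (2 * C) * C = ε / 2 := by
    field_simp
  linarith

theorem E_ind (S : Coc D) {κ : ℝ} (hκ : Kap D κ) {N : ℕ} [NeZero N] (hN : 0 < N)
    (V : Finset ℂ)
    (hV : ∀ v ∈ V, v ∈ D.K) {J : ℕ} {q : Fin J → ℂ} (hq : ∀ j, q j ∈ D.O ∧ q j ≠ 0)
    (B : Finset ℂ) : B ⊆ divs D N hN →
    ∀ g : Vec → ℂ, Gc D N V J q g →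
    (∀ c ∈ divs D N hN, c ∉ B → ∀ w, g w ≠ 0 → ¬ ∃ z ∈ D.O, w.2 = c * z) →
    Tends0 (fun π : PD D => E S κ π 1 1 g e2) := by
  classical
  induction B using Finset.induction_on with
  | empty =>
    intro _ g hg hs
    refine E_base S hκ V hV hq hg fun w hw => ?_
    by_contra h
    obtain ⟨V1, hV1, hg1⟩ := Gc_Fn hg
    obtain ⟨c, hc, hu, hx, hd⟩ := not_cop (hg1.supp w hw).2 hN h
    exact hs c ((mem_divs hN).2 ⟨⟨hc, hd⟩, hu⟩) (Finset.notMem_empty c) w hw hx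
  | insert c B hcB ih =>
    intro hB g hg hs
    have hcm : c ∈ divs D N hN := hB (Finset.mem_insert_self c B)
    obtain ⟨⟨hc, hd⟩, hu⟩ := (mem_divs hN).1 hcm
    have h0 : c ≠ 0 := by
      rintro rfl
      obtain ⟨z, _, hz⟩ := hd
      rw [zero_mul] at hz
      exact hN.ne' (by exact_mod_cast hz)
    refine E_iter S hκ V hV hq hc h0 hd hu
      (fun g => ∀ c' ∈ divs D N hN, c' ∉ insert c B → ∀ w, g w ≠ 0 →
        ¬ ∃ z ∈ D.O, w.2 = c' * z) ?_ ?_ hg hs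
    · intro g hg hPg
      refine ih (fun x hx => hB (Finset.mem_insert_of_mem hx)) _ (Gc_cutn hg hc h0 hd) ?_
      intro c' hc' hcB' w hw
      obtain ⟨h1, h2⟩ := cutn_ne hw
      by_cases he : c' = c
      · rw [he]
        exact h1
      · refine hPg c' hc' ?_ w h2
        rw [Finset.mem_insert]
        rintro (h | h)
        · exact he h
        · exact hcB' h
    · intro g hg hPg c' hc' hcB' w hw
      rintro ⟨z, hz, hz'⟩
      refine hPg c' hc' hcB' (w.1, c * w.2) (dil_ne hw) ⟨c * z, D.O.mul_mem hc hz, ?_⟩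
      show c * w.2 = c' * (c * z)
      rw [hz']
      ring

theorem E_class (S : Coc D) {κ : ℝ} (hκ : Kap D κ) {N : ℕ} [NeZero N] (V : Finset ℂ)
    (hV : ∀ v ∈ V, v ∈ D.K) {J : ℕ} {q : Fin J → ℂ} (hq : ∀ j, q j ∈ D.O ∧ q j ≠ 0)
    {g : Vec → ℂ} (hg : Gc D N V J q g) :
    Tends0 (fun π : PD D => E S κ π 1 1 g e2) := by
  have hN : 0 < N := Nat.pos_of_ne_zero (NeZero.ne N)
  refine E_ind S hκ hN V hV hq (divs D N hN) (Finset.Subset.refl _) g hg ?_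
  intro c hc hc'
  exact absurd hc hc'

end RNK
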