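import Pool.Agent.RNK.InC

/-!
# RNK.InB: three steps for the class 

`E_theta`: `E 1 1 θ e2 = 0` (`E_neg`: `θ ∘ dg (-1) 1 = -θ`, `dg (-1) 1 e2 = e2`).
`E_rel`: `E 1 1 g e2 = Σ_j (E (T_{q_j} ψ_j) e2 - E ψ_j e2)` if `g = Σ_j (T_{q_j} ψ_j - ψ_j) + θ` (`E_add`,
`EG_smul` with `-1`).
(a) `E_base`: if `g` is in the class and supported on vectors with `y` prime to `N`, then
  `E 1 1 g e2 → 0`: `Gc_cop`, `avH`.
(b) `E_bound`: `bdH` for each `q j`, `E_theta`.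
(c) `E_step`: for `c ∈ O` dividing `N`: `E 1 1 (cutd c g) e2 - |c|⁻² c⁻² E 1 1 (dil c g) e2 → 0`:
  `E 1 1 (cutd c g) e2 = DE 1 1 1 c (cutd c g) + E 1 c (cutd c g) e2`; `DE` tends to `0` by `shiftU`
  (`cutd c g = f' - f' ∘ ut γ` with `f' = cutd c f`, `SuppIn D 1 c f'`, `DE` is additive, `Lp2 D 1 1 1 c`), and
  `E 1 1 (dil c g) e2 = |c|² c² E 1 c (cutd c g) e2` by `E_dg` (`a = 1`, `d = c`) and `E_hom`
  (`(dg 1 c) e2 = c e2`).
-/

namespace RNK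

variable {D : OD}

theorem Lt_one (π : PD D) : Lt π 1 1 := by
  have h : π.r 1 ≠ 0 := by
    rw [π.rone]
    exact one_ne_zero
  exact ⟨D.O.one_mem, D.O.one_mem, h, h⟩

theorem supp_one {f : Vec → ℂ} (h : ∀ w, f w ≠ 0 → O2 D w) : SuppIn D 1 1 f := by
  intro w hw
  exact ⟨w, h w hw, (one_act w).symm⟩

theorem K2_e2 : K2 D e2 := ⟨D.K.zero_mem, D.K.one_mem⟩

theorem E_smul' (S : Coc D) {κ : ℝ} (hκ : Kap D κ) (π : PD D) {α β : ℂ} (h1 : Lt π α β)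
    (ha : α ≠ 0) (hb : β ≠ 0)
    {f : Vec → ℂ} (hf : AdmE D f) (hs : SuppIn D α β f) {k : ℂ} (hk : k ∈ D.K) {p : Vec}
    (hp : K2 D p) :
    E S κ π α β (fun w => k * f w) p = k * E S κ π α β f p := by
  have hm : 0 < ‖α‖ / ‖β‖ := div_pos (norm_pos_iff.2 ha) (norm_pos_iff.2 hb)
  exact EG_smul S hκ π h1 (geo_Ah D hm) hf hs hk hp

theorem E_sub' (S : Coc D) {κ : ℝ} (hκ : Kap D κ) (π : PD D) {α β : ℂ} (h1 : Lt π α β)
    (ha : α ≠ 0) (hb : β ≠ 0)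
    {f g : Vec → ℂ} (hf : AdmE D f) (hg : AdmE D g) (hs : SuppIn D α β f)
    (hs' : SuppIn D α β g) {p : Vec} (hp : K2 D p) :
    E S κ π α β (fun w => f w - g w) p = E S κ π α β f p - E S κ π α β g p := by
  have hm1 : (-1 : ℂ) ∈ D.K := D.K.neg_mem D.K.one_mem
  have e1 : (fun w => f w - g w) = fun w => f w + (-1) * g w := by
    funext w
    ring
  rw [e1, E_add S hκ π h1 hf (AdmE_smul hm1 hg) hs ?_ hp,
    E_smul' S hκ π h1 ha hb hg hs' hm1 hp]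
  · ring
  · intro w hw
    exact hs' w (right_ne_zero_of_mul hw)

theorem E_sum' (S : Coc D) {κ : ℝ} (hκ : Kap D κ) (π : PD D) {α β : ℂ} (h1 : Lt π α β)
    {ι : Type*} (s : Finset ι) {F : ι → Vec → ℂ} (hF : ∀ i ∈ s, AdmE D (F i))
    (hs : ∀ i ∈ s, SuppIn D α β (F i)) {p : Vec} (hp : K2 D p) :
    E S κ π α β (fun w => ∑ i ∈ s, F i w) p = ∑ i ∈ s, E S κ π α β (F i) p := by
  classical
  induction s using Finset.induction_on with
  | empty =>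
    simp only [Finset.sum_empty]
    exact E_zero S π α β p hκ h1 hp
  | insert a s ha ih =>
    have e1 : (fun w => ∑ i ∈ insert a s, F i w) = fun w => F a w + ∑ i ∈ s, F i w := by
      funext w
      rw [Finset.sum_insert ha]
    rw [e1, Finset.sum_insert ha,
      E_add S hκ π h1 (hF a (Finset.mem_insert_self a s))
        (AdmE_sum s fun i hi => hF i (Finset.mem_insert_of_mem hi))
        (hs a (Finset.mem_insert_self a s)) ?_ hp,
      ih (fun i hi => hF i (Finset.mem_insert_of_mem hi))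
        (fun i hi => hs i (Finset.mem_insert_of_mem hi))]
    intro w hw
    obtain ⟨i, hi, hi'⟩ := Finset.exists_ne_zero_of_sum_ne_zero hw
    exact hs i (Finset.mem_insert_of_mem hi) w hi'

theorem T0_congr {e e' : PD D → ℂ} (h : ∃ P0 : ℕ, ∀ π : PD D, P0 < π.p → e π = e' π)
    (h' : Tends0 e') : Tends0 e := by
  intro ε hε
  obtain ⟨P0, h0⟩ := h
  obtain ⟨P1, h1⟩ := h' ε hε
  refine ⟨max P0 P1, fun π hπ => ?_⟩
  rw [h0 π (lt_of_le_of_lt (le_max_left _ _) hπ)]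
  exact h1 π (lt_of_le_of_lt (le_max_right _ _) hπ)

theorem T0_add {e e' : PD D → ℂ} (h : Tends0 e) (h' : Tends0 e') :
    Tends0 (fun π => e π + e' π) := by
  intro ε hε
  obtain ⟨P0, h0⟩ := h (ε / 2) (by linarith)
  obtain ⟨P1, h1⟩ := h' (ε / 2) (by linarith)
  refine ⟨max P0 P1, fun π hπ => ?_⟩
  have a0 := h0 π (lt_of_le_of_lt (le_max_left _ _) hπ)
  have a1 := h1 π (lt_of_le_of_lt (le_max_right _ _) hπ)
  calc ‖e π + e' π‖ ≤ ‖e π‖ + ‖e' π‖ := norm_add_le _ _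
    _ ≤ ε / 2 + ε / 2 := add_le_add a0 a1
    _ = ε := by ring

theorem T0_sum {ι : Type*} (s : Finset ι) {e : ι → PD D → ℂ} (h : ∀ i ∈ s, Tends0 (e i)) :
    Tends0 (fun π => ∑ i ∈ s, e i π) := by
  classical
  induction s using Finset.induction_on with
  | empty =>
    intro ε hε
    refine ⟨0, fun π _ => ?_⟩
    simpa using hε.le
  | insert a s ha ih =>
    have e1 : (fun π => ∑ i ∈ insert a s, e i π) = fun π => e a π + ∑ i ∈ s, e i π := by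
      funext π
      rw [Finset.sum_insert ha]
    rw [e1]
    exact T0_add (h a (Finset.mem_insert_self a s))
      (ih fun i hi => h i (Finset.mem_insert_of_mem hi))

theorem E_theta (S : Coc D) {κ : ℝ} (hκ : Kap D κ) {N : ℕ} (hN : 0 < N) {V : Finset ℂ}
    (hV : ∀ v ∈ V, v ∈ D.K) {θ : Vec → ℂ} (hθ : Fn D N V θ)
    (ho : ∀ x y, θ (-x, y) = -θ (x, y)) (π : PD D) : E S κ π 1 1 θ e2 = 0 := by
  have hA := Fn_AdmE hN hV hθ
  have hs : SuppIn D 1 1 θ := supp_one hθ.supp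
  have hm1 : (-1 : ℂ) ∈ D.K := D.K.neg_mem D.K.one_mem
  have h1 := E_neg S hκ π (Lt_one π) hA hs (p := e2) K2_e2
  have e3 : (dg (-1) 1).act e2 = e2 := by
    rw [dg_act]
    simp [e2]
  have e4 : (fun w => θ ((dg (-1) 1).act w)) = fun w => (-1) * θ w := by
    funext w
    rw [dg_act, one_mul, neg_one_mul, ho]
    ring
  rw [e3, e4, E_smul' S hκ π (Lt_one π) one_ne_zero one_ne_zero hA hs hm1 K2_e2] at h1
  linear_combination (-1 / 2 : ℂ) * h1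

theorem E_rel (S : Coc D) {κ : ℝ} (hκ : Kap D κ) {N : ℕ} (hN : 0 < N) {V V' : Finset ℂ}
    (hV : ∀ v ∈ V, v ∈ D.K) (hV' : ∀ v ∈ V', v ∈ D.K) {J : ℕ} {q : Fin J → ℂ}
    (hq : ∀ j, q j ∈ D.O ∧ q j ≠ 0) {ψ : Fin J → Vec → ℂ} (hψ : ∀ j, Fn D N V (ψ j))
    {θ : Vec → ℂ} (hθ : Fn D N V' θ) (ho : ∀ x y, θ (-x, y) = -θ (x, y)) (π : PD D) :
    E S κ π 1 1 (fun w => ∑ j, (Tq (q j) (ψ j) w - ψ j w) + θ w) e2 =
      ∑ j, (E S κ π 1 1 (Tq (q j) (ψ j)) e2 - E S κ π 1 1 (ψ j) e2) := by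
  have hA : ∀ j, AdmE D (ψ j) := fun j => Fn_AdmE hN hV (hψ j)
  have hT : ∀ j, AdmE D (Tq (q j) (ψ j)) := fun j => TqE (hA j) (hq j).1 (hq j).2
  have hs : ∀ j, SuppIn D 1 1 (ψ j) := fun j => supp_one (hψ j).supp
  have hsT : ∀ j, SuppIn D 1 1 (Tq (q j) (ψ j)) := fun j =>
    supp_one (Tq_supp (hψ j).supp (hq j).1 (hq j).2)
  have hm1 : (-1 : ℂ) ∈ D.K := D.K.neg_mem D.K.one_mem
  have hD : ∀ j, AdmE D (fun w => Tq (q j) (ψ j) w - ψ j w) := by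
    intro j
    have := AdmE_add (hT j) (AdmE_smul hm1 (hA j))
    have e1 : (fun w => Tq (q j) (ψ j) w + (-1) * ψ j w) =
        fun w => Tq (q j) (ψ j) w - ψ j w := by
      funext w
      ring
    rwa [e1] at this
  have hsD : ∀ j, SuppIn D 1 1 (fun w => Tq (q j) (ψ j) w - ψ j w) := by
    intro j w hw
    by_cases h : ψ j w = 0
    · refine hsT j w fun h' => hw ?_
      simp only [h, h', sub_zero]
    · exact hs j w h
  have hA' := Fn_AdmE hN hV' hθ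
  rw [E_add S hκ π (Lt_one π) (AdmE_sum Finset.univ fun j _ => hD j) hA' ?_
    (supp_one hθ.supp) K2_e2, E_theta S hκ hN hV' hθ ho π, add_zero,
    E_sum' S hκ π (Lt_one π) Finset.univ (fun j _ => hD j) (fun j _ => hsD j) K2_e2]
  · refine Finset.sum_congr rfl fun j _ => ?_
    exact E_sub' S hκ π (Lt_one π) one_ne_zero one_ne_zero (hT j) (hA j) (hsT j) (hs j) K2_e2
  · intro w hw
    obtain ⟨i, _, hi'⟩ := Finset.exists_ne_zero_of_sum_ne_zero hw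
    exact hsD i w hi'

theorem E_bound (S : Coc D) {κ : ℝ} (hκ : Kap D κ) {N : ℕ} [NeZero N] (V : Finset ℂ)
    (hV : ∀ v ∈ V, v ∈ D.K) {J : ℕ} {q : Fin J → ℂ} (hq : ∀ j, q j ∈ D.O ∧ q j ≠ 0) :
    ∃ C : ℝ, ∃ P0 : ℕ, 0 < C ∧ ∀ g : Vec → ℂ, Gc D N V J q g → ∀ π : PD D, P0 < π.p →
      ‖E S κ π 1 1 g e2‖ ≤ C := by
  have hN : 0 < N := Nat.pos_of_ne_zero (NeZero.ne N)
  choose C P0 hC hb using fun j => bdH S hκ hN V hV (hq j).1 (hq j).2
  refine ⟨∑ j, C j + 1, ∑ j, P0 j, ?_, ?_⟩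
  · have : 0 ≤ ∑ j, C j := Finset.sum_nonneg fun j _ => (hC j).le
    linarith
  · intro g hg π hπ
    obtain ⟨ψ, θ, V'', hV'', hψ, hθ, _, ho, he⟩ := hg.rel
    have e1 : g = fun w => ∑ j, (Tq (q j) (ψ j) w - ψ j w) + θ w := funext he
    rw [e1, E_rel S hκ hN hV hV'' hq hψ hθ ho π]
    have h1 : ‖∑ j, (E S κ π 1 1 (Tq (q j) (ψ j)) e2 - E S κ π 1 1 (ψ j) e2)‖ ≤ ∑ j, C j := by
      refine (norm_sum_le _ _).trans (Finset.sum_le_sum fun j _ => ?_)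
      refine hb j π (lt_of_le_of_lt ?_ hπ) (ψ j) (hψ j)
      exact Finset.single_le_sum (f := P0) (fun i _ => Nat.zero_le _) (Finset.mem_univ j)
    linarith

theorem E_base (S : Coc D) {κ : ℝ} (hκ : Kap D κ) {N : ℕ} [NeZero N] (V : Finset ℂ)
    (hV : ∀ v ∈ V, v ∈ D.K) {J : ℕ} {q : Fin J → ℂ} (hq : ∀ j, q j ∈ D.O ∧ q j ≠ 0)
    {g : Vec → ℂ} (hg : Gc D N V J q g) (hs : ∀ w, g w ≠ 0 → Cop D w.2 N) :
    Tends0 (fun π : PD D => E S κ π 1 1 g e2) := by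
  have hN : 0 < N := Nat.pos_of_ne_zero (NeZero.ne N)
  obtain ⟨ψ, θ, V'', hV'', hψ, hθ, hc, hav, ho, he⟩ := Gc_cop hg hs
  have e1 : g = fun w => ∑ j, (Tq (q j) (ψ j) w - ψ j w) + θ w := funext he
  have e2' : (fun π : PD D => E S κ π 1 1 g e2) = fun π : PD D =>
      ∑ j, (E S κ π 1 1 (Tq (q j) (ψ j)) e2 - E S κ π 1 1 (ψ j) e2) := by
    funext π
    rw [e1, E_rel S hκ hN hV hV'' hq hψ hθ ho π]
  rw [e2']
  exact T0_sum Finset.univ fun j _ =>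
    avH S hκ V hV (hq j).1 (hq j).2 (hψ j) (hc j) (hav j)

theorem cutd_supp {f : Vec → ℂ} (hf : ∀ w, f w ≠ 0 → O2 D w) (c : ℂ) :
    SuppIn D 1 c (cutd D c f) := by
  intro w hw
  unfold cutd at hw
  split_ifs at hw with h
  · obtain ⟨z, hz, hz'⟩ := h
    have h2 := hf w hw
    refine ⟨(w.1, z), ⟨h2.1, hz⟩, ?_⟩
    rw [dg_act]
    ext
    · simp
    · simpa using hz'
  · exact absurd rfl hw

open Classical in
theorem cutd_ut (c γ : ℂ) (f : Vec → ℂ) (w : Vec) :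
    cutd D c f ((ut γ).act w) = if (∃ z ∈ D.O, w.2 = c * z) then f ((ut γ).act w) else 0 := by
  unfold cutd
  rw [ut_act]

theorem E_step (S : Coc D) {κ : ℝ} (hκ : Kap D κ) {N : ℕ} [NeZero N] (V : Finset ℂ)
    {J : ℕ} {q : Fin J → ℂ} {g : Vec → ℂ} (hg : Gc D N V J q g) {c : ℂ} (hc : c ∈ D.O)
    (h0 : c ≠ 0) (hd : ∃ z ∈ D.O, (N : ℂ) = c * z) :
    Tends0 (fun π : PD D => E S κ π 1 1 (cutd D c g) e2 -
      (((‖c‖ ^ 2 : ℝ) : ℂ) * c ^ 2)⁻¹ * E S κ π 1 1 (dil D c g) e2) := by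
  have hN : 0 < N := Nat.pos_of_ne_zero (NeZero.ne N)
  obtain ⟨V1, hV1, hg1⟩ := Gc_Fn hg
  obtain ⟨V', hV', f, hf, γ, hγ, he⟩ := hg.shift
  have hcg : Fn D N V1 (cutd D c g) := Fn_cutd hg1 hc hd
  have hcf : Fn D N V' (cutd D c f) := Fn_cutd hf hc hd
  have hAg : AdmE D (cutd D c g) := Fn_AdmE hN hV1 hcg
  have hAf : AdmE D (cutd D c f) := Fn_AdmE hN hV' hcf
  have hcu : Fn D N V' (fun w => cutd D c f ((ut γ).act w)) := Fn_GO hcf (GO_ut hγ)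
  have hAu : AdmE D (fun w => cutd D c f ((ut γ).act w)) := Fn_AdmE hN hV' hcu
  have hsg : SuppIn D 1 c (cutd D c g) := cutd_supp hg1.supp c
  have hsf : SuppIn D 1 c (cutd D c f) := cutd_supp hf.supp c
  have hsu : SuppIn D 1 c (fun w => cutd D c f ((ut γ).act w)) := by
    intro w hw
    have h2 := hcu.supp w hw
    simp only [cutd_ut] at hw
    split_ifs at hw with h
    · obtain ⟨z, hz, hz'⟩ := h
      refine ⟨(w.1, z), ⟨h2.1, hz⟩, ?_⟩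
      rw [dg_act]
      ext
      · simp
      · simpa using hz'
    · exact absurd rfl hw
  have eg : cutd D c g = fun w => cutd D c f w - cutd D c f ((ut γ).act w) := by
    funext w
    rw [cutd_ut]
    unfold cutd
    split_ifs with h
    · exact he w
    · simp
  have hL : Lp2 D 1 1 1 c :=
    ⟨D.O.one_mem, D.O.one_mem, D.O.one_mem, hc, one_ne_zero, one_ne_zero, one_ne_zero, h0,
      ⟨1, D.O.one_mem, by ring⟩, ⟨c, hc, by ring⟩, ⟨1, D.O.one_mem, by ring⟩,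
      ⟨c, hc, by ring⟩⟩
  refine T0_congr ?_ (shiftU S hκ hN V' hV' hL hγ hcf hsf)
  obtain ⟨P0, hP0⟩ := Lt_large (D := D) D.O.one_mem hc one_ne_zero h0
  refine ⟨P0, fun π hπ => ?_⟩
  have hLt := hP0 π hπ
  -- the second term
  have hdg := E_dg S hκ π (Lt_one π) hLt (f := cutd D c g) hAg
    (by rw [mul_one, mul_one]; exact hsg) (p := e2) K2_e2
  have ec : (dg 1 c).act e2 = c • e2 := by
    rw [dg_act]
    ext
    · simp [e2]
    · simp [e2]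
  rw [ec, one_mul, mul_one, mul_one, E_hom S hκ π hLt hAg hsg (O_sub_K hc) K2_e2] at hdg
  have ed : E S κ π 1 1 (dil D c g) e2 =
      ((‖c‖ ^ 2 : ℝ) : ℂ) * (c ^ 2 * E S κ π 1 c (cutd D c g) e2) := hdg
  have hnz : ((‖c‖ ^ 2 : ℝ) : ℂ) * c ^ 2 ≠ 0 := by
    refine mul_ne_zero ?_ (pow_ne_zero 2 h0)
    exact_mod_cast pow_ne_zero 2 (norm_ne_zero_iff.2 h0)
  have ee : (((‖c‖ ^ 2 : ℝ) : ℂ) * c ^ 2)⁻¹ * E S κ π 1 1 (dil D c g) e2 =
      E S κ π 1 c (cutd D c g) e2 := by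
    rw [ed, ← mul_assoc ((‖c‖ ^ 2 : ℝ) : ℂ), ← mul_assoc, inv_mul_cancel₀ hnz, one_mul]
  rw [ee]
  -- additivity
  have s1 : SuppIn D 1 1 (cutd D c f) := supp_one hcf.supp
  have s2 : SuppIn D 1 1 (fun w => cutd D c f ((ut γ).act w)) := supp_one hcu.supp
  have a1 : E S κ π 1 1 (cutd D c g) e2 = E S κ π 1 1 (cutd D c f) e2 -
      E S κ π 1 1 (fun w => cutd D c f ((ut γ).act w)) e2 := by
    rw [eg]
    exact E_sub' S hκ π (Lt_one π) one_ne_zero one_ne_zero hAf hAu s1 s2 K2_e2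
  have a2 : E S κ π 1 c (cutd D c g) e2 = E S κ π 1 c (cutd D c f) e2 -
      E S κ π 1 c (fun w => cutd D c f ((ut γ).act w)) e2 := by
    rw [eg]
    exact E_sub' S hκ π hLt one_ne_zero h0 hAf hAu hsf hsu K2_e2
  rw [a1, a2]
  unfold DE
  ring

end RNK
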