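import Pool.Agent.RNK.WtM

/-!
# RNK.LpC: the number of short primitive vectors

`count`: let `κ'` be given (enlarge it: `κ' ≥ κ`), `d = |det C|`. Let `w1` be a primitive vector with
`nq (C w1)` minimal (exists: finitely many `w` with `nq (C w)` bounded, `fin_ball2`), so
`m = nq (C w1) ≤ κ' d`. For primitive `w` with `nq (C w) ≤ κ' d`: `δ = det2 w1 w ∈ O` and
`|δ|² d² ≤ m κ' d` (`det2_act`, `det2_le`), so `|δ| ≤ κ'`: finitely many `δ` (`fin_ball`). If `δ = 0` then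
`w = x w1`, `x` a unit (`prim_line` both ways, `norm_unit`), `‖x‖ ≤ 1`. If `δ ≠ 0` occurs then
`d² ≤ |δ|² d² ≤ m κ' d`, so `m ≥ d / κ'`, and two vectors `w, w'` with the same `δ` differ by `t w1`,
`t ∈ O` (`prim_line`), `|t|² m = nq (C (w - w')) ≤ 4 κ' d`, so `|t|² ≤ 4 κ'²`. So at most
`#{x : |x| ≤ 1} + #{δ : |δ| ≤ κ'} · #{t : |t| ≤ 2 κ'}` vectors.
-/

namespace RNK

variable {D : OD} {κ : ℝ}

private theorem lpc_act_le (g : Mat) (w : Vec) :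
    nq (g.act w) ≤ 2 * (‖g.a‖ ^ 2 + ‖g.b‖ ^ 2 + ‖g.c‖ ^ 2 + ‖g.d‖ ^ 2) * nq w := by
  have h1 : ‖g.a * w.1 + g.b * w.2‖ ≤ ‖g.a‖ * ‖w.1‖ + ‖g.b‖ * ‖w.2‖ := by
    refine (norm_add_le _ _).trans ?_
    rw [norm_mul, norm_mul]
  have h2 : ‖g.c * w.1 + g.d * w.2‖ ≤ ‖g.c‖ * ‖w.1‖ + ‖g.d‖ * ‖w.2‖ := by
    refine (norm_add_le _ _).trans ?_
    rw [norm_mul, norm_mul]
  have h3 := mul_self_le_mul_self (norm_nonneg _) h1
  have h4 := mul_self_le_mul_self (norm_nonneg _) h2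
  simp only [nq, act_fst, act_snd]
  nlinarith [sq_nonneg (‖g.a‖ * ‖w.1‖ - ‖g.b‖ * ‖w.2‖), sq_nonneg (‖g.c‖ * ‖w.1‖ - ‖g.d‖ * ‖w.2‖),
    sq_nonneg (‖g.a‖ * ‖w.2‖), sq_nonneg (‖g.b‖ * ‖w.1‖), sq_nonneg (‖g.c‖ * ‖w.2‖),
    sq_nonneg (‖g.d‖ * ‖w.1‖)]

private theorem lpc_sq {a b : ℝ} (h : a ^ 2 ≤ b ^ 2) (hb : 0 ≤ b) : a ≤ b :=
  le_of_abs_le ((sq_le_sq.1 h).trans (le_of_eq (abs_of_nonneg hb)))

private theorem lpc_fin (D : OD) (K : ℝ) {C : Mat} (hC : C.det ≠ 0) :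
    {w | Prim D w ∧ nq (C.act w) ≤ K * ‖C.det‖}.Finite := by
  refine (fin_ball2 D (2 * (‖C.inv.a‖ ^ 2 + ‖C.inv.b‖ ^ 2 + ‖C.inv.c‖ ^ 2 + ‖C.inv.d‖ ^ 2) *
    (K * ‖C.det‖))).subset ?_
  rintro w ⟨hw, hn⟩
  refine ⟨Prim_O2 hw, ?_⟩
  have h1 := lpc_act_le C.inv (C.act w)
  rw [inv_act hC] at h1
  exact h1.trans (mul_le_mul_of_nonneg_left hn (by positivity))

private theorem lpc_main (hκ : Kap D κ) {K : ℝ} (hK : κ ≤ K) : ∃ n0 : ℕ, ∀ C : Mat, C.det ≠ 0 →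
    {w | Prim D w ∧ nq (C.act w) ≤ K * ‖C.det‖}.ncard ≤ n0 := by
  classical
  have hA := fin_ball D 1
  have hB := fin_ball D K
  have hT := fin_ball D (2 * K)
  refine ⟨hA.toFinset.card + hB.toFinset.card * hT.toFinset.card, fun C hC => ?_⟩
  have hK1 : 1 ≤ K := hκ.one.trans hK
  have hK0 : 0 < K := lt_of_lt_of_le one_pos hK1
  have hκ0 : 0 < κ := lt_of_lt_of_le one_pos hκ.one
  have hSf := lpc_fin D K hC
  have hd0 : 0 < ‖C.det‖ := norm_pos_iff.2 hC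
  obtain ⟨v, hv, hvn⟩ := hκ.mink C hC
  have hSn : {w | Prim D w ∧ nq (C.act w) ≤ K * ‖C.det‖}.Nonempty := by
    refine ⟨v, hv, hvn.trans ?_⟩
    exact mul_le_mul_of_nonneg_right (by linarith) hd0.le
  obtain ⟨w1, ⟨hw1, hw1n⟩, -⟩ := Set.exists_min_image _ (fun w => nq (C.act w)) hSf hSn
  have hm0 : 0 < nq (C.act w1) := nq_pos fun h => Prim_ne hw1 ((act_eq_zero hC).1 h)
  -- the determinant with the shortest vector
  have hO : ∀ w, Prim D w → det2 w1 w ∈ D.O := fun w hw =>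
    D.O.sub_mem (D.O.mul_mem (Prim_O2 hw1).1 (Prim_O2 hw).2)
      (D.O.mul_mem (Prim_O2 hw1).2 (Prim_O2 hw).1)
  have hdet : ∀ w, nq (C.act w) ≤ K * ‖C.det‖ →
      (‖C.det‖ * ‖det2 w1 w‖) ^ 2 ≤ nq (C.act w1) * (K * ‖C.det‖) := by
    intro w hw
    have h1 := det2_le (C.act w1) (C.act w)
    rw [det2_act, norm_mul] at h1
    exact h1.trans (mul_le_mul_of_nonneg_left hw hm0.le)
  have hδ : ∀ w, nq (C.act w) ≤ K * ‖C.det‖ → ‖det2 w1 w‖ ≤ K := by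
    intro w hw
    have h1 := hdet w hw
    have h2 : nq (C.act w1) * (K * ‖C.det‖) ≤ (‖C.det‖ * K) ^ 2 := by
      have h3 := mul_le_mul_of_nonneg_right hw1n (mul_pos hK0 hd0).le
      refine h3.trans (le_of_eq ?_)
      ring
    have h4 : ‖C.det‖ * ‖det2 w1 w‖ ≤ ‖C.det‖ * K :=
      lpc_sq (h1.trans h2) (mul_pos hd0 hK0).le
    exact le_of_mul_le_mul_left h4 hd0
  -- vectors with the same determinant
  have hex : ∀ δ : ℂ, ∃ c : Vec, ∀ w, Prim D w → nq (C.act w) ≤ K * ‖C.det‖ → det2 w1 w = δ →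
      δ ≠ 0 → ∃ t ∈ hT.toFinset, w = c + t • w1 := by
    intro δ
    by_cases h : ∃ c, Prim D c ∧ nq (C.act c) ≤ K * ‖C.det‖ ∧ det2 w1 c = δ
    · obtain ⟨c, hc, hcn, hcd⟩ := h
      refine ⟨c, fun w hw hwn hwd h0 => ?_⟩
      have h1 : det2 w1 (w - c) = 0 := by
        have e : det2 w1 (w - c) = det2 w1 w - det2 w1 c := by
          simp only [det2, Prod.fst_sub, Prod.snd_sub]
          ring
        rw [e, hwd, hcd, sub_self]
      obtain ⟨t, ht, e⟩ := prim_line hw1 (O2_sub (Prim_O2 hw) (Prim_O2 hc)) h1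
      refine ⟨t, ?_, by rw [← e]; abel⟩
      rw [Set.Finite.mem_toFinset]
      refine ⟨ht, ?_⟩
      have h2 : ‖t‖ ^ 2 * nq (C.act w1) ≤ 4 * K * ‖C.det‖ := by
        have h3 : ‖t‖ ^ 2 * nq (C.act w1) = nq (C.act w + -C.act c) := by
          rw [← nq_smul, ← act_smul, ← e, act_sub, sub_eq_add_neg]
        rw [h3]
        refine (nq_add_le _ _).trans ?_
        rw [nq_neg]
        linarith
      have h4 : 1 ≤ ‖det2 w1 w‖ := nrm_one (hO w hw) (by rw [hwd]; exact h0)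
      have h5 : ‖C.det‖ ≤ nq (C.act w1) * K := by
        have h6 : ‖C.det‖ ^ 2 ≤ (‖C.det‖ * ‖det2 w1 w‖) ^ 2 :=
          pow_le_pow_left₀ hd0.le (le_mul_of_one_le_right hd0.le h4) 2
        have h7 := h6.trans (hdet w hwn)
        have h8 : ‖C.det‖ * ‖C.det‖ ≤ (nq (C.act w1) * K) * ‖C.det‖ := by
          calc ‖C.det‖ * ‖C.det‖ = ‖C.det‖ ^ 2 := by ring
            _ ≤ _ := h7
            _ = _ := by ring
        exact le_of_mul_le_mul_right h8 hd0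
      have h6 : ‖t‖ ^ 2 * nq (C.act w1) ≤ (2 * K) ^ 2 * nq (C.act w1) := by
        calc ‖t‖ ^ 2 * nq (C.act w1) ≤ 4 * K * ‖C.det‖ := h2
          _ ≤ 4 * K * (nq (C.act w1) * K) := mul_le_mul_of_nonneg_left h5 (by linarith)
          _ = (2 * K) ^ 2 * nq (C.act w1) := by ring
      exact lpc_sq (le_of_mul_le_mul_right h6 hm0) (by linarith)
    · refine ⟨0, fun w hw hwn hwd _ => ?_⟩
      exact absurd ⟨w, hw, hwn, hwd⟩ h
  choose c hc using hex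
  have hsub : {w | Prim D w ∧ nq (C.act w) ≤ K * ‖C.det‖} ⊆
      ((hA.toFinset.image (fun x => x • w1) ∪
        (hB.toFinset ×ˢ hT.toFinset).image (fun q => c q.1 + q.2 • w1) : Finset Vec) :
        Set Vec) := by
    rintro w ⟨hw, hwn⟩
    rw [Finset.coe_union]
    by_cases h0 : det2 w1 w = 0
    · left
      obtain ⟨x, hx, e⟩ := prim_line hw1 (Prim_O2 hw) h0
      obtain ⟨y, hy, e'⟩ := prim_line hw (Prim_O2 hw1) (by rw [det2_swap, h0, neg_zero])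
      have h1 : x * y = 1 := by
        have h2 : w1 = (y * x) • w1 := by rw [← smul_smul, ← e, ← e']
        have h3 : (1 - y * x) • w1 = 0 := by rw [sub_smul, one_smul, ← h2, sub_self]
        have h4 := (smul_eq_zero.1 h3).resolve_right (Prim_ne hw1)
        linear_combination -h4
      rw [Finset.mem_coe, Finset.mem_image]
      refine ⟨x, ?_, e.symm⟩
      rw [Set.Finite.mem_toFinset]
      exact ⟨hx, (norm_unit hx hy h1).le⟩
    · right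
      obtain ⟨t, ht, e⟩ := hc _ w hw hwn rfl h0
      rw [Finset.mem_coe, Finset.mem_image]
      refine ⟨(det2 w1 w, t), ?_, e.symm⟩
      rw [Finset.mem_product]
      refine ⟨?_, ht⟩
      rw [Set.Finite.mem_toFinset]
      exact ⟨hO w hw, hδ w hwn⟩
  refine (Set.ncard_le_ncard hsub (Finset.finite_toSet _)).trans ?_
  rw [Set.ncard_coe_finset]
  refine (Finset.card_union_le _ _).trans ?_
  refine Nat.add_le_add Finset.card_image_le (Finset.card_image_le.trans ?_)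
  rw [Finset.card_product]

theorem count (hκ : Kap D κ) (κ' : ℝ) : ∃ n0 : ℕ, ∀ C : Mat, C.det ≠ 0 →
    {w | Prim D w ∧ nq (C.act w) ≤ κ' * ‖C.det‖}.Finite ∧
    {w | Prim D w ∧ nq (C.act w) ≤ κ' * ‖C.det‖}.ncard ≤ n0 := by
  obtain ⟨n0, h⟩ := lpc_main hκ (le_max_right κ' κ)
  refine ⟨n0, fun C hC => ⟨lpc_fin D κ' hC, ?_⟩⟩
  refine le_trans (Set.ncard_le_ncard ?_ (lpc_fin D _ hC)) (h C hC)
  rintro w ⟨hw, hn⟩
  exact ⟨hw, hn.trans (mul_le_mul_of_nonneg_right (le_max_left κ' κ) (norm_nonneg _))⟩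

end RNK
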