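import Pool.Agent.RNK.Pf

/-!
# RNK.PfP: the permutation of the indices

* `perm`: the reduction of `g` is invertible over `F_p` and permutes the lines
  `{(τ, 1)}`, `{(1, 0)}` of `F_p²`; `e` is the induced bijection (injective on a finite type).
  The map `O² → F_p²`, `w ↦ (r w₁, r w₂)`, commutes with `g`.
-/

namespace RNK

variable {D : OD} (π : PD D)

/-- the direction of the line with index `t` -/
def dirT {p : ℕ} (t : Option (ZMod p)) : ZMod p × ZMod p :=
  match t with
  | some τ => (τ, 1)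
  | none => (1, 0)

/-- the cross product with the direction -/
def crT {p : ℕ} (t : Option (ZMod p)) (u : ZMod p × ZMod p) : ZMod p :=
  u.1 * (dirT t).2 - u.2 * (dirT t).1

theorem ind_cr (t : π.T) (w : Vec) :
    π.ind t w = if crT t (π.r w.1, π.r w.2) = 0 then 1 else 0 := by
  rcases t with _ | τ
  · have h : crT (none : π.T) (π.r w.1, π.r w.2) = 0 ↔ π.r w.2 = 0 := by
      simp [crT, dirT]
    simp only [PD.ind, h]
  · have h : crT (some τ : π.T) (π.r w.1, π.r w.2) = 0 ↔ π.r w.1 = τ * π.r w.2 := by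
      simp only [crT, dirT, mul_one]
      rw [sub_eq_zero, mul_comm]
    simp only [PD.ind, h]

theorem crT_self {p : ℕ} (t : Option (ZMod p)) : crT t (dirT t) = 0 := by
  simp only [crT]
  ring

theorem crT_inj {p : ℕ} {s t : Option (ZMod p)} (hp : (1 : ZMod p) ≠ 0)
    (h : crT s (dirT t) = 0) : s = t := by
  rcases s with _ | σ <;> rcases t with _ | τ
  · rfl
  · exfalso
    apply hp
    simpa [crT, dirT] using h
  · exfalso
    apply hp
    simpa [crT, dirT] using h
  · have : τ - σ = 0 := by simpa [crT, dirT] using h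
    rw [sub_eq_zero.1 this]

/-- the index of the line of a vector -/
def idxT {p : ℕ} [Fact p.Prime] (u : ZMod p × ZMod p) : Option (ZMod p) :=
  if u.2 = 0 then none else some (u.1 / u.2)

theorem idxT_dir {p : ℕ} [Fact p.Prime] {u : ZMod p × ZMod p} (hu : u ≠ 0) :
    ∃ c : ZMod p, c ≠ 0 ∧ u = (c * (dirT (idxT u)).1, c * (dirT (idxT u)).2) := by
  by_cases h : u.2 = 0
  · refine ⟨u.1, ?_, ?_⟩
    · intro h1
      exact hu (Prod.ext h1 h)
    · have e : idxT u = none := by simp [idxT, h]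
      rw [e]
      ext
      · simp [dirT]
      · simp [dirT, h]
  · refine ⟨u.2, h, ?_⟩
    have e : idxT u = some (u.1 / u.2) := by simp [idxT, h]
    rw [e]
    ext
    · simp only [dirT]
      field_simp
    · simp [dirT]

/-- the action on `F_p²` -/
def actF {p : ℕ} (a b c d : ZMod p) (u : ZMod p × ZMod p) : ZMod p × ZMod p :=
  (a * u.1 + b * u.2, c * u.1 + d * u.2)

theorem dirT_ne {p : ℕ} [Fact p.Prime] (t : Option (ZMod p)) : dirT t ≠ 0 := by
  intro h
  rcases t with _ | τ
  · have h1 := congrArg Prod.fst h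
    simp [dirT] at h1
  · have h1 := congrArg Prod.snd h
    simp [dirT] at h1

theorem actF_ne {p : ℕ} [Fact p.Prime] {a b c d : ZMod p} (h : a * d - b * c ≠ 0)
    {u : ZMod p × ZMod p} (hu : u ≠ 0) : actF a b c d u ≠ 0 := by
  intro h0
  have h1 : a * u.1 + b * u.2 = 0 := congrArg Prod.fst h0
  have h2 : c * u.1 + d * u.2 = 0 := congrArg Prod.snd h0
  apply hu
  have h3 : (a * d - b * c) * u.1 = 0 := by linear_combination d * h1 - b * h2
  have h4 : (a * d - b * c) * u.2 = 0 := by linear_combination a * h2 - c * h1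
  ext
  · simpa using (mul_eq_zero.1 h3).resolve_left h
  · simpa using (mul_eq_zero.1 h4).resolve_left h

theorem crT_act {p : ℕ} [Fact p.Prime] {a b c d : ZMod p} (h : a * d - b * c ≠ 0)
    (t : Option (ZMod p)) (u : ZMod p × ZMod p) :
    crT (idxT (actF a b c d (dirT t))) (actF a b c d u) = 0 ↔ crT t u = 0 := by
  obtain ⟨k, hk, hk1⟩ := idxT_dir (actF_ne h (dirT_ne t))
  have e1 : a * (dirT t).1 + b * (dirT t).2 =
      k * (dirT (idxT (actF a b c d (dirT t)))).1 := congrArg Prod.fst hk1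
  have e2 : c * (dirT t).1 + d * (dirT t).2 =
      k * (dirT (idxT (actF a b c d (dirT t)))).2 := congrArg Prod.snd hk1
  have e3 : k * crT (idxT (actF a b c d (dirT t))) (actF a b c d u) =
      (a * d - b * c) * crT t u := by
    simp only [crT]
    have e4 : (actF a b c d u).1 = a * u.1 + b * u.2 := rfl
    have e5 : (actF a b c d u).2 = c * u.1 + d * u.2 := rfl
    rw [e4, e5]
    linear_combination (c * u.1 + d * u.2) * e1 - (a * u.1 + b * u.2) * e2
  constructor
  · intro h0
    rw [h0, mul_zero] at e3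
    exact (mul_eq_zero.1 e3.symm).resolve_left h
  · intro h0
    rw [h0, mul_zero] at e3
    exact (mul_eq_zero.1 e3).resolve_left hk

/-- an element of `M₂(O)` with invertible reduction permutes the indices -/
theorem perm {g : Mat} (hg : MO D g) (h : π.r g.det ≠ 0) :
    ∃ e : π.T ≃ π.T, ∀ t w, O2 D w → π.ind t w = π.ind (e t) (g.act w) := by
  obtain ⟨⟨ha, hb, hc, hd⟩, -⟩ := hg
  have hdet : π.r g.a * π.r g.d - π.r g.b * π.r g.c ≠ 0 := by
    have e0 : π.r g.det = π.r g.a * π.r g.d - π.r g.b * π.r g.c := by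
      have e1 : π.r (g.a * g.d - g.b * g.c + g.b * g.c) =
          π.r (g.a * g.d - g.b * g.c) + π.r (g.b * g.c) :=
        π.radd _ (D.O.sub_mem (D.O.mul_mem ha hd) (D.O.mul_mem hb hc)) _ (D.O.mul_mem hb hc)
      rw [sub_add_cancel, π.rmul _ ha _ hd, π.rmul _ hb _ hc] at e1
      show π.r (g.a * g.d - g.b * g.c) = _
      rw [e1]
      ring
    rwa [← e0]
  let e : π.T → π.T := fun t => idxT (actF (π.r g.a) (π.r g.b) (π.r g.c) (π.r g.d) (dirT t))
  have hinj : Function.Injective e := by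
    intro s t hst
    have h1 : crT (e t) (actF (π.r g.a) (π.r g.b) (π.r g.c) (π.r g.d) (dirT s)) = 0 := by
      rw [← hst]
      exact (crT_act hdet s _).2 (crT_self s)
    have h2 := (crT_act hdet t (dirT s)).1 h1
    exact (crT_inj one_ne_zero h2).symm
  have hbij : Function.Bijective e := Finite.injective_iff_bijective.1 hinj
  refine ⟨Equiv.ofBijective e hbij, ?_⟩
  intro t w hw
  rw [ind_cr, ind_cr]
  have h1 : π.r (g.act w).1 = π.r g.a * π.r w.1 + π.r g.b * π.r w.2 := by
    rw [act_fst, π.radd _ (D.O.mul_mem ha hw.1) _ (D.O.mul_mem hb hw.2), π.rmul _ ha _ hw.1,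
      π.rmul _ hb _ hw.2]
  have h2 : π.r (g.act w).2 = π.r g.c * π.r w.1 + π.r g.d * π.r w.2 := by
    rw [act_snd, π.radd _ (D.O.mul_mem hc hw.1) _ (D.O.mul_mem hd hw.2), π.rmul _ hc _ hw.1,
      π.rmul _ hd _ hw.2]
  rw [h1, h2]
  have h3 : crT (Equiv.ofBijective e hbij t) (π.r g.a * π.r w.1 + π.r g.b * π.r w.2,
      π.r g.c * π.r w.1 + π.r g.d * π.r w.2) = 0 ↔ crT t (π.r w.1, π.r w.2) = 0 :=
    crT_act hdet t (π.r w.1, π.r w.2)
  by_cases hz : crT t (π.r w.1, π.r w.2) = 0
  · rw [if_pos hz, if_pos (h3.2 hz)]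
  · rw [if_neg hz, if_neg fun h => hz (h3.1 h)]

end RNK
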