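import Pool.Agent.RNK.Kn
import Pool.Agent.RNK.Fc
import Pool.Agent.UNL.PartC
import Pool.Agent.UNI.PartC

/-!
# RNK.Sm: summability

`TT_summable`: `Σ f(w) KG(c1, c2, c3; p; w)` converges absolutely.
1. `f` has finitely many values (periodic on `(1/m) O²`, `reps`) so it is bounded; its support is in
  `(1/m) O²`, the image of the injective map `(ℤ²)² → Vec`, `w = (xx x₁ / m, xx x₂ / m)`.
2. Standard case `c = (e2, e1, v11)`, `p = v11`: `KG_std` and `UNI.KK_summable` with `KG_hom`.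
3. Standard cusps, `p = e1`, `p = e2`: moves by `GL₂(ℤ)`.
4. Standard cusps, general `p`: `KG_quad`.
5. General cusps: `KG_dep` or a matrix in `GL₂(K)`.
-/

namespace RNK

variable {D : OD}

theorem AdmE_bdd {f : Vec → ℂ} (hf : AdmE D f) : ∃ C : ℝ, ∀ w, ‖f w‖ ≤ C := by
  obtain ⟨m, hm⟩ := hf
  have hm0 : 0 < m := hm.pos
  have hmC : (m : ℂ) ≠ 0 := by exact_mod_cast hm0.ne'
  obtain ⟨S, hS, hS2⟩ := reps D (N := m ^ 2) (by positivity)
  refine ⟨∑ r ∈ S ×ˢ S, ‖f ((m : ℂ)⁻¹ • (r : Vec))‖, fun w => ?_⟩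
  by_cases h0 : f w = 0
  · rw [h0, norm_zero]
    exact Finset.sum_nonneg fun _ _ => norm_nonneg _
  · obtain ⟨h1, h2⟩ := hm.supp w h0
    obtain ⟨r1, hr1, y1, hy1, e1'⟩ := hS2 _ h1
    obtain ⟨r2, hr2, y2, hy2, e2'⟩ := hS2 _ h2
    have hw : w = (m : ℂ)⁻¹ • ((r1, r2) : Vec) + (m : ℂ) • ((y1, y2) : Vec) := by
      simp only [Prod.smul_fst, Prod.smul_snd, smul_eq_mul] at e1' e2'
      push_cast at e1' e2'
      ext
      · simp only [Prod.fst_add, Prod.smul_fst, smul_eq_mul]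
        field_simp
        linear_combination e1'
      · simp only [Prod.snd_add, Prod.smul_snd, smul_eq_mul]
        field_simp
        linear_combination e2'
    have hfw : f w = f ((m : ℂ)⁻¹ • ((r1, r2) : Vec)) := by
      rw [hw]
      exact hm.per _ _ ⟨hy1, hy2⟩
    rw [hfw]
    exact Finset.single_le_sum (f := fun r : Vec => ‖f ((m : ℂ)⁻¹ • r)‖)
      (fun _ _ => norm_nonneg _) (Finset.mem_product.2 ⟨hr1, hr2⟩)

private def SumK (D : OD) (c1 c2 c3 p : Vec) : Prop :=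
  ∀ f : Vec → ℂ, AdmE D f → Summable (fun w => f w * KG c1 c2 c3 p w)

private lemma xx_inj (a : UNI.Par) : Function.Injective (UNI.xx a) := by
  intro x y h
  have h1 := UNI.om_im_pos a
  have h2 : (UNI.xx a x).im = (UNI.xx a y).im := by rw [h]
  have h3 : (UNI.xx a x).re = (UNI.xx a y).re := by rw [h]
  simp only [UNI.xx, Complex.add_im, Complex.mul_im, Complex.add_re, Complex.mul_re,
    Complex.intCast_im, Complex.intCast_re, zero_add, zero_mul, add_zero, sub_zero] at h2 h3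
  have h4 : (x.2 : ℝ) = y.2 := mul_right_cancel₀ h1.ne' h2
  have h5 : (x.1 : ℝ) = y.1 := by
    rw [h4] at h3
    linarith
  ext
  · exact_mod_cast h5
  · exact_mod_cast h4

private lemma sum_std (D : OD) : SumK D e2 e1 v11 v11 := by
  intro f hf
  obtain ⟨C, hC⟩ := AdmE_bdd hf
  obtain ⟨m, hm⟩ := hf
  have hm0 : 0 < m := hm.pos
  have hmC : (m : ℂ) ≠ 0 := by exact_mod_cast hm0.ne'
  let φ : (ℤ × ℤ) × (ℤ × ℤ) → Vec := fun x =>
    (m : ℂ)⁻¹ • ((UNI.xx D.a x.1, UNI.xx D.a x.2) : Vec)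
  have hφ : Function.Injective φ := by
    intro x y h
    have h1 : ((UNI.xx D.a x.1, UNI.xx D.a x.2) : Vec) = (UNI.xx D.a y.1, UNI.xx D.a y.2) :=
      smul_right_injective Vec (inv_ne_zero hmC) h
    have h2 := Prod.mk.inj h1
    exact Prod.ext (xx_inj _ h2.1) (xx_inj _ h2.2)
  refine (Function.Injective.summable_iff hφ ?_).1 ?_
  · intro w hw
    by_contra h
    have h0 : f w ≠ 0 := fun h' => h (by rw [h', zero_mul])
    obtain ⟨⟨x1, hx1⟩, ⟨x2, hx2⟩⟩ := hm.supp w h0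
    apply hw
    refine ⟨(x1, x2), ?_⟩
    simp only [Prod.smul_fst, Prod.smul_snd, smul_eq_mul] at hx1 hx2
    simp only [φ]
    rw [← hx1, ← hx2]
    ext
    · simp only [Prod.smul_fst, smul_eq_mul]
      field_simp
    · simp only [Prod.smul_snd, smul_eq_mul]
      field_simp
  · set T : ℂ := ((m : ℂ)⁻¹ ^ 4 * (starRingEnd ℂ) (m : ℂ)⁻¹ ^ 2)⁻¹ with hT
    refine Summable.of_norm_bounded
      (g := fun x : (ℤ × ℤ) × (ℤ × ℤ) => (C * ‖T‖) * ‖UNI.KK (UNI.xx D.a x.1) (UNI.xx D.a x.2)‖)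
      ((UNI.KK_summable D.a).mul_left _) ?_
    intro x
    have h1 : KG e2 e1 v11 v11 (φ x) = T * -(starRingEnd ℂ)
        (UNI.KK (UNI.xx D.a x.1) (UNI.xx D.a x.2)) := by
      have := KG_hom (inv_ne_zero hmC) e2 e1 v11 v11 ((UNI.xx D.a x.1, UNI.xx D.a x.2) : Vec)
      rw [KG_std (UNI.xx D.a x.1)] at this
      exact this
    simp only [Function.comp_apply]
    rw [h1, norm_mul, norm_mul, norm_neg, RCLike.norm_conj]
    calc ‖f (φ x)‖ * (‖T‖ * ‖UNI.KK (UNI.xx D.a x.1) (UNI.xx D.a x.2)‖)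
        ≤ C * (‖T‖ * ‖UNI.KK (UNI.xx D.a x.1) (UNI.xx D.a x.2)‖) :=
          mul_le_mul_of_nonneg_right (hC _) (by positivity)
      _ = _ := by ring

private lemma sum_act {g : Mat} (hg : GK D g) {c1 c2 c3 p : Vec} (h : SumK D c1 c2 c3 p) :
    SumK D (g.act c1) (g.act c2) (g.act c3) (g.act p) := by
  intro f hf
  have h1 := h _ (AdmE_act hg hf)
  let e : Vec ≃ Vec := ⟨g.act, g.inv.act, inv_act hg.2, act_inv hg.2⟩
  rw [← e.summable_iff]
  have h2 := h1.mul_left (((‖g.det‖ ^ 2 : ℝ) : ℂ)⁻¹)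
  refine h2.congr fun w => ?_
  simp only [Function.comp_apply, e, Equiv.coe_fn_mk]
  rw [KG_act hg.2]
  ring

private lemma sum_12 {c1 c2 c3 p : Vec} (h : SumK D c1 c2 c3 p) : SumK D c2 c1 c3 p := by
  intro f hf
  refine (h f hf).neg.congr fun w => ?_
  rw [KG_a12 c1 c2]
  ring

private lemma sum_23 {c1 c2 c3 p : Vec} (h : SumK D c1 c2 c3 p) : SumK D c1 c3 c2 p := by
  intro f hf
  refine (h f hf).neg.congr fun w => ?_
  rw [KG_a23 c1 c2]
  ring

private lemma sum_scal {k : ℂ} (hk : k ≠ 0) {c1 c2 c3 p : Vec} (h : SumK D (k • c1) c2 c3 p) :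
    SumK D c1 c2 c3 p := by
  intro f hf
  refine (h f hf).congr fun w => ?_
  rw [KG_scal hk]

private lemma sum_quad {c1 c2 c3 : Vec} (h1 : SumK D c1 c2 c3 e1) (h2 : SumK D c1 c2 c3 e2)
    (h3 : SumK D c1 c2 c3 v11) (p : Vec) : SumK D c1 c2 c3 p := by
  intro f hf
  obtain ⟨k11, k12, k22, hk⟩ := KG_quad c1 c2 c3
  have s1 := (h1 f hf).mul_left (p.1 ^ 2 - p.1 * p.2)
  have s2 := (h2 f hf).mul_left (p.2 ^ 2 - p.1 * p.2)
  have s3 := (h3 f hf).mul_left (p.1 * p.2)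
  refine ((s1.add s2).add s3).congr fun w => ?_
  rw [hk p w, hk e1 w, hk e2 w, hk v11 w]
  simp only [e1, e2, v11]
  ring

private lemma sum_std1 (D : OD) : SumK D e2 e1 v11 e1 := by
  let g : Mat := ⟨1, 0, 1, -1⟩
  have hg : GK D g := by
    refine ⟨⟨D.K.one_mem, D.K.zero_mem, D.K.one_mem, D.K.neg_mem D.K.one_mem⟩, ?_⟩
    simp [Mat.det, g]
  have h := sum_act hg (sum_std D)
  have a1 : g.act e2 = (-1 : ℂ) • e2 := by ext <;> simp [Mat.act, g, e2]
  have a2 : g.act e1 = v11 := by ext <;> simp [Mat.act, g, e1, v11]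
  have a3 : g.act v11 = e1 := by ext <;> simp [Mat.act, g, e1, v11]
  rw [a1, a2, a3] at h
  exact sum_23 (sum_scal (neg_ne_zero.2 one_ne_zero) h)

private lemma sum_std2 (D : OD) : SumK D e2 e1 v11 e2 := by
  have hg : GK D swp := GO_GK GO_swp
  have h := sum_act hg (sum_std1 D)
  have a1 : swp.act e2 = e1 := by ext <;> simp [Mat.act, swp, e1, e2]
  have a2 : swp.act e1 = e2 := by ext <;> simp [Mat.act, swp, e1, e2]
  have a3 : swp.act v11 = v11 := by ext <;> simp [Mat.act, swp, v11]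
  rw [a1, a2, a3] at h
  exact sum_12 h

private lemma sum_dep {c1 c2 : Vec} (h : det2 c1 c2 = 0) (c3 p : Vec) : SumK D c1 c2 c3 p := by
  intro f _
  have : (fun w => f w * KG c1 c2 c3 p w) = fun _ => 0 := by
    funext w
    rw [KG_dep h, mul_zero]
  rw [this]
  exact summable_zero

theorem TT_summable {f : Vec → ℂ} (hf : AdmE D f) {c1 c2 c3 p : Vec} (h1 : Cu D c1)
    (h2 : Cu D c2) (h3 : Cu D c3) (hp : K2 D p) :
    Summable (fun w => f w * KG c1 c2 c3 p w) := by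
  have _ := hp
  suffices H : SumK D c1 c2 c3 p from H f hf
  by_cases d12 : det2 c1 c2 = 0
  · exact sum_dep d12 c3 p
  by_cases d23 : det2 c2 c3 = 0
  · exact sum_12 (sum_23 (sum_dep d23 c1 p))
  by_cases d13 : det2 c1 c3 = 0
  · exact sum_23 (sum_dep d13 c2 p)
  set α : ℂ := det2 c1 c3 / det2 c1 c2 with hα
  set β : ℂ := -(det2 c2 c3) / det2 c1 c2 with hβ
  have dK : ∀ {u v : Vec}, Cu D u → Cu D v → det2 u v ∈ D.K := fun hu hv =>
    D.K.sub_mem (D.K.mul_mem hu.1.1 hv.1.2) (D.K.mul_mem hu.1.2 hv.1.1)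
  have hαK : α ∈ D.K := D.K.div_mem (dK h1 h3) (dK h1 h2)
  have hβK : β ∈ D.K := D.K.div_mem (D.K.neg_mem (dK h2 h3)) (dK h1 h2)
  have hα0 : α ≠ 0 := div_ne_zero d13 d12
  have hβ0 : β ≠ 0 := div_ne_zero (neg_ne_zero.2 d23) d12
  let g : Mat := ⟨α * c2.1, β * c1.1, α * c2.2, β * c1.2⟩
  have hgd : g.det = -(α * β) * det2 c1 c2 := by
    simp only [Mat.det, g, det2]
    ring
  have hg : GK D g := by
    refine ⟨⟨D.K.mul_mem hαK h2.1.1, D.K.mul_mem hβK h1.1.1, D.K.mul_mem hαK h2.1.2,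
      D.K.mul_mem hβK h1.1.2⟩, ?_⟩
    rw [hgd]
    exact mul_ne_zero (neg_ne_zero.2 (mul_ne_zero hα0 hβ0)) d12
  have a1 : g.act e2 = β • c1 := by ext <;> simp [Mat.act, g, e2]
  have a2 : g.act e1 = α • c2 := by ext <;> simp [Mat.act, g, e1]
  have a3 : g.act v11 = c3 := by
    have d12' := d12
    simp only [det2] at d12'
    ext
    · simp only [Mat.act, g, v11, hα, hβ, det2, mul_one]
      field_simp
      ring
    · simp only [Mat.act, g, v11, hα, hβ, det2, mul_one]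
      field_simp
      ring
  have h := sum_act hg (sum_quad (sum_std1 D) (sum_std2 D) (sum_std D) (g.inv.act p))
  rw [a1, a2, a3, act_inv hg.2] at h
  exact sum_12 (sum_scal hα0 (sum_12 (sum_scal hβ0 h)))

end RNK
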