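import Pool.Agent.UNL.AMain

/-!
# RNK.Wk: the constants of the distribution relations

`UNL.dist a M d d'` (`de d * de d' = M`) gives a constant `C_M(d)`. Everything up to roots of unity (`Ru`):
(2) `∏_{d k = 0, k ≠ 0} kl (tp k) 0 = C_M(d) de d`.
We work at the level `M = N ^ 4` (`M2.card_ker`, `M2.exists_pre` apply to `d` and `e`).
1. `C_M(d)` does not depend on `M`: `lif k = N³ k` is a bijection of the kernels with
  `tp (lif k) = tp k`.
2. `{k : d e k = 0}` is grouped by `m = e k ∈ ker d` (every `m ∈ ker d` is in the image of `e`):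
  with `κ x = co hat x`, `c_d = κ C(d)`
  `Σ_{d e k = 0} g(k) = Σ_{d m = 0} (g(m) + c_e + [m = 0] κ (de e))
   = c_d + κ (de d) + N(d) c_e + κ (de e)`,
  `N(d) = |de d|²` the number of elements of `ker d`. By symmetry
  `N(d) c_e + c_d = N(e) c_d + c_e`.
-/

namespace RNK

noncomputable section

/-- the norm of `de a d` -/
def Nd (a : UNL.Par) (d : ℤ × ℤ) : ℤ := d.1 ^ 2 + a.B * d.1 * d.2 + a.A * a.C * d.2 ^ 2

open Classical in
/-- the constant of the distribution relation of `d` -/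
def Cst {a : UNL.Par} {N : ℕ} [NeZero N] {R : Type*} [Ring R] [Algebra ℚ R]
    (hat : Additive (UNL.Gn a N → ℂˣ) →+ R) (d : ℤ × ℤ) : R :=
  ∑ k ∈ Finset.univ.filter (fun k : UNL.G N => UNL.sm a d k = 0), UNL.gc hat k
    - UNL.co hat (fun _ _ => UNL.de a d)

/-! ### the norm -/

private theorem Nd_eq (a : UNL.Par) (d : ℤ × ℤ) :
    ((Nd a d : ℤ) : ℂ) = UNL.de a d * (starRingEnd ℂ) (UNL.de a d) := by
  have h1 : UNL.alp a * (starRingEnd ℂ) (UNL.alp a) = (a.A * a.C : ℤ) := UNL.alp_norm a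
  have h2 : UNL.alp a + (starRingEnd ℂ) (UNL.alp a) = a.B := UNL.alp_trace a
  simp only [Nd, UNL.de, map_add, map_mul, map_intCast]
  push_cast at h1 ⊢
  linear_combination (-(d.2 : ℂ) ^ 2) * h1 - ((d.1 : ℂ) * d.2) * h2

private theorem Nd_pos {a : UNL.Par} {d : ℤ × ℤ} (h : UNL.de a d ≠ 0) : 0 < Nd a d := by
  have h1 := Nd_eq a d
  rw [Complex.mul_conj] at h1
  have h2 : ((Nd a d : ℤ) : ℝ) = Complex.normSq (UNL.de a d) := by exact_mod_cast h1
  have h3 : (0 : ℝ) < ((Nd a d : ℤ) : ℝ) := by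
    rw [h2]
    exact Complex.normSq_pos.2 h
  exact_mod_cast h3

private theorem de_ne {a : UNL.Par} {N : ℕ} [NeZero N] {d d' : ℤ × ℤ}
    (hd : UNL.de a d * UNL.de a d' = N) : UNL.de a d ≠ 0 := fun h => by
  rw [h, zero_mul] at hd
  exact Nat.cast_ne_zero.2 (NeZero.ne N) hd.symm

private theorem Nd_mul {a : UNL.Par} {N : ℕ} {d d' : ℤ × ℤ}
    (hd : UNL.de a d * UNL.de a d' = N) : Nd a d * Nd a d' = (N : ℤ) ^ 2 := by
  have h1 : ((Nd a d * Nd a d' : ℤ) : ℂ) = (((N : ℤ) ^ 2 : ℤ) : ℂ) := by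
    push_cast
    rw [Nd_eq, Nd_eq]
    have h2 : (starRingEnd ℂ) (UNL.de a d) * (starRingEnd ℂ) (UNL.de a d') = N := by
      rw [← map_mul, hd, map_natCast]
    linear_combination ((starRingEnd ℂ) (UNL.de a d) * (starRingEnd ℂ) (UNL.de a d')) * hd +
      (N : ℂ) * h2
  exact_mod_cast h1

/-- the coordinates of `d d' = N` -/
private theorem coord {a : UNL.Par} {N : ℕ} {d d' : ℤ × ℤ}
    (hd : UNL.de a d * UNL.de a d' = N) :
    d.1 * d'.1 - a.A * a.C * d.2 * d'.2 = N ∧ d.1 * d'.2 + d.2 * d'.1 + a.B * d.2 * d'.2 = 0 := by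
  have hs : UNL.alp a ^ 2 = a.B * UNL.alp a - (a.A * a.C : ℤ) := UNL.alp_sq a
  have h1 : (((d.1 * d'.1 - a.A * a.C * d.2 * d'.2 : ℤ)) : ℂ) +
      ((d.1 * d'.2 + d.2 * d'.1 + a.B * d.2 * d'.2 : ℤ) : ℂ) * UNL.alp a = N := by
    rw [← hd]
    simp only [UNL.de]
    push_cast at hs ⊢
    linear_combination (-(d.2 : ℂ) * d'.2) * hs
  have him := UNL.alp_im_pos a
  generalize (d.1 * d'.1 - a.A * a.C * d.2 * d'.2 : ℤ) = x at h1
  generalize (d.1 * d'.2 + d.2 * d'.1 + a.B * d.2 * d'.2 : ℤ) = y at h1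
  have h2 := congrArg Complex.im h1
  simp only [Complex.add_im, Complex.mul_im, Complex.intCast_im, Complex.intCast_re, zero_mul,
    add_zero, zero_add, Complex.natCast_im] at h2
  have h3 : (y : ℝ) = 0 := (mul_eq_zero.1 h2).resolve_right him.ne'
  have h4 : y = 0 := by exact_mod_cast h3
  subst h4
  rw [Int.cast_zero, zero_mul, add_zero] at h1
  exact ⟨by exact_mod_cast h1, rfl⟩

/-! ### the matrix of `d` -/

private def mat (a : UNL.Par) (d : ℤ × ℤ) : UNL.M2 :=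
  ⟨d.1, -(a.C * d.2), a.A * d.2, d.1 + a.B * d.2⟩

private theorem mat_az (a : UNL.Par) (d : ℤ × ℤ) {M : ℕ} (k : UNL.G M) :
    (mat a d).az k = UNL.sm a d k := by
  refine Prod.ext ?_ ?_
  · simp only [mat, UNL.M2.az, UNL.sm]
    push_cast
    ring
  · simp only [mat, UNL.M2.az, UNL.sm]
    push_cast
    ring

private theorem mat_det (a : UNL.Par) (d : ℤ × ℤ) : (mat a d).det = Nd a d := by
  simp only [mat, UNL.M2.det, Nd]
  ring

private theorem Nd_ker {a : UNL.Par} {d : ℤ × ℤ} {M : ℕ} {k : UNL.G M}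
    (h : UNL.sm a d k = 0) : (Nd a d).natAbs • k = 0 := by
  have h1 := congrArg Prod.fst h
  have h2 := congrArg Prod.snd h
  simp only [UNL.sm, Prod.fst_zero, Prod.snd_zero] at h1 h2
  have h3 : (Nd a d) • k = 0 := by
    refine Prod.ext ?_ ?_
    · rw [Prod.smul_fst, zsmul_eq_mul, Prod.fst_zero, Nd]
      push_cast
      linear_combination ((d.1 : ZMod M) + a.B * d.2) * h1 + ((a.C : ZMod M) * d.2) * h2
    · rw [Prod.smul_snd, zsmul_eq_mul, Prod.snd_zero, Nd]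
      push_cast
      linear_combination (-(a.A : ZMod M) * d.2) * h1 + (d.1 : ZMod M) * h2
  rcases Int.natAbs_eq (Nd a d) with h4 | h4
  · rw [h4, natCast_zsmul] at h3
    exact h3
  · rw [h4, neg_smul, natCast_zsmul, neg_eq_zero] at h3
    exact h3

open Classical in
private theorem card_sm {a : UNL.Par} {d : ℤ × ℤ} {M : ℕ} [NeZero M] (h0 : 0 < Nd a d)
    (h : Nd a d ∣ (M : ℤ)) :
    (((Finset.univ.filter (fun k : UNL.G M => UNL.sm a d k = 0)).card : ℕ) : ℤ) = Nd a d := by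
  have h1 := (mat a d).card_ker (N := M) (by rw [mat_det]; exact h0) (by rw [mat_det]; exact h)
  have h2 : (Finset.univ.filter (fun k : UNL.G M => UNL.sm a d k = 0)).card =
      Nat.card ((mat a d).azh M).ker := by
    rw [Nat.card_eq_fintype_card, ← Fintype.card_subtype]
    refine Fintype.card_congr (Equiv.subtypeEquivRight fun k => ?_)
    rw [AddMonoidHom.mem_ker, UNL.M2.azh_apply, mat_az]
  rw [h2, h1, mat_det]
  exact Int.natAbs_of_nonneg h0.le

/-! ### the kernels of the levels `N` and `N ^ 4` -/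

private def lif {N : ℕ} (k : UNL.G N) : UNL.G (N ^ 4) :=
  (((N ^ 3 * k.1.val : ℕ) : ZMod (N ^ 4)), ((N ^ 3 * k.2.val : ℕ) : ZMod (N ^ 4)))

private theorem lif_val {N : ℕ} [NeZero N] (x : ZMod N) :
    (((N ^ 3 * x.val : ℕ) : ZMod (N ^ 4))).val = N ^ 3 * x.val := by
  refine ZMod.val_natCast_of_lt ?_
  rw [pow_succ N 3]
  exact Nat.mul_lt_mul_of_pos_left (ZMod.val_lt x) (pow_pos (Nat.pos_of_ne_zero (NeZero.ne N)) 3)

private theorem tp_lif (a : UNL.Par) {N : ℕ} [NeZero N] (k : UNL.G N) :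
    UNL.tp a (lif k) = UNL.tp a k := by
  have hN : (N : ℂ) ≠ 0 := Nat.cast_ne_zero.2 (NeZero.ne N)
  simp only [UNL.tp, lif]
  rw [lif_val, lif_val]
  push_cast
  field_simp

private theorem lif_inj {N : ℕ} [NeZero N] {k l : UNL.G N} (h : lif k = lif l) : k = l := by
  have hN : 0 < N ^ 3 := pow_pos (Nat.pos_of_ne_zero (NeZero.ne N)) 3
  have key : ∀ x y : ZMod N, ((N ^ 3 * x.val : ℕ) : ZMod (N ^ 4)) =
      ((N ^ 3 * y.val : ℕ) : ZMod (N ^ 4)) → x = y := by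
    intro x y hxy
    have h1 := congrArg ZMod.val hxy
    rw [lif_val, lif_val] at h1
    exact ZMod.val_injective N (Nat.eq_of_mul_eq_mul_left hN h1)
  exact Prod.ext (key _ _ (congrArg Prod.fst h)) (key _ _ (congrArg Prod.snd h))

private theorem lif_zero {N : ℕ} [NeZero N] : lif (0 : UNL.G N) = 0 := by
  refine Prod.ext ?_ ?_ <;> simp [lif]

/-- an integer combination vanishes mod `N` if and only if `N ^ 3` times it vanishes mod `N ^ 4` -/
private theorem zero_iff {N : ℕ} [NeZero N] (x : ℤ) :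
    (((N : ℤ) ^ 3 * x : ℤ) : ZMod (N ^ 4)) = 0 ↔ ((x : ℤ) : ZMod N) = 0 := by
  rw [ZMod.intCast_zmod_eq_zero_iff_dvd, ZMod.intCast_zmod_eq_zero_iff_dvd]
  have hN : ((N : ℤ) ^ 3) ≠ 0 := pow_ne_zero 3 (by exact_mod_cast NeZero.ne N)
  have e : ((N ^ 4 : ℕ) : ℤ) = (N : ℤ) ^ 3 * N := by push_cast; ring
  rw [e]
  exact mul_dvd_mul_iff_left hN

private theorem sm_lif {a : UNL.Par} {N : ℕ} [NeZero N] {d : ℤ × ℤ} {k : UNL.G N} :
    UNL.sm a d (lif k) = 0 ↔ UNL.sm a d k = 0 := by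
  have e1 : ∀ x : ZMod N, ((((x.val : ℕ) : ℤ)) : ZMod N) = x := by
    intro x
    rw [Int.cast_natCast, ZMod.natCast_zmod_val]
  have h1 : (UNL.sm a d (lif k)).1 = (((N : ℤ) ^ 3 * (d.1 * ((k.1.val : ℕ) : ℤ) -
      a.C * d.2 * ((k.2.val : ℕ) : ℤ)) : ℤ) : ZMod (N ^ 4)) := by
    simp only [UNL.sm, lif]
    push_cast
    ring
  have h2 : (UNL.sm a d (lif k)).2 = (((N : ℤ) ^ 3 * (d.1 * ((k.2.val : ℕ) : ℤ) +
      d.2 * (a.A * ((k.1.val : ℕ) : ℤ) + a.B * ((k.2.val : ℕ) : ℤ))) : ℤ) : ZMod (N ^ 4)) := by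
    simp only [UNL.sm, lif]
    push_cast
    ring
  have h3 : (UNL.sm a d k).1 = ((d.1 * ((k.1.val : ℕ) : ℤ) -
      a.C * d.2 * ((k.2.val : ℕ) : ℤ) : ℤ) : ZMod N) := by
    simp only [UNL.sm, Int.cast_sub, Int.cast_mul, e1]
  have h4 : (UNL.sm a d k).2 = ((d.1 * ((k.2.val : ℕ) : ℤ) +
      d.2 * (a.A * ((k.1.val : ℕ) : ℤ) + a.B * ((k.2.val : ℕ) : ℤ)) : ℤ) : ZMod N) := by
    simp only [UNL.sm, Int.cast_add, Int.cast_mul, e1]
  constructor
  · intro h
    have g1 := congrArg Prod.fst h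
    have g2 := congrArg Prod.snd h
    rw [h1, Prod.fst_zero, zero_iff, ← h3] at g1
    rw [h2, Prod.snd_zero, zero_iff, ← h4] at g2
    exact Prod.ext g1 g2
  · intro h
    have g1 := congrArg Prod.fst h
    have g2 := congrArg Prod.snd h
    rw [h3, Prod.fst_zero, ← zero_iff, ← h1] at g1
    rw [h4, Prod.snd_zero, ← zero_iff, ← h2] at g2
    exact Prod.ext g1 g2

private theorem lif_surj {a : UNL.Par} {N : ℕ} [NeZero N] {d d' : ℤ × ℤ}
    (hd : UNL.de a d * UNL.de a d' = N) {y : UNL.G (N ^ 4)} (hy : UNL.sm a d y = 0) :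
    ∃ k : UNL.G N, lif k = y := by
  haveI : NeZero (N ^ 4) := ⟨pow_ne_zero _ (NeZero.ne N)⟩
  obtain ⟨c1, c2⟩ := coord hd
  have c1' : (d.1 : ZMod (N ^ 4)) * d'.1 - a.A * a.C * d.2 * d'.2 = N := by
    have := congrArg (fun x : ℤ => (x : ZMod (N ^ 4))) c1
    push_cast at this
    exact this
  have c2' : (d.1 : ZMod (N ^ 4)) * d'.2 + d.2 * d'.1 + a.B * d.2 * d'.2 = 0 := by
    have := congrArg (fun x : ℤ => (x : ZMod (N ^ 4))) c2
    push_cast at this
    exact this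
  have h1 := congrArg Prod.fst hy
  have h2 := congrArg Prod.snd hy
  simp only [UNL.sm, Prod.fst_zero, Prod.snd_zero] at h1 h2
  have y1 : (N : ZMod (N ^ 4)) * y.1 = 0 := by
    linear_combination (d'.1 : ZMod (N ^ 4)) * h1 - ((a.C : ZMod (N ^ 4)) * d'.2) * h2 -
      y.1 * c1' + ((a.C : ZMod (N ^ 4)) * y.2) * c2'
  have y2 : (N : ZMod (N ^ 4)) * y.2 = 0 := by
    linear_combination (d'.1 : ZMod (N ^ 4)) * h2 + ((d'.2 : ZMod (N ^ 4)) * a.A) * h1 +
      ((d'.2 : ZMod (N ^ 4)) * a.B) * h2 - y.2 * c1' -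
      ((a.A : ZMod (N ^ 4)) * y.1 + a.B * y.2) * c2'
  have key : ∀ z : ZMod (N ^ 4), (N : ZMod (N ^ 4)) * z = 0 →
      ∃ x : ZMod N, ((N ^ 3 * x.val : ℕ) : ZMod (N ^ 4)) = z := by
    intro z hz
    have hN : 0 < N := Nat.pos_of_ne_zero (NeZero.ne N)
    have g1 : ((N * z.val : ℕ) : ZMod (N ^ 4)) = 0 := by
      push_cast
      rw [ZMod.natCast_zmod_val]
      exact hz
    rw [ZMod.natCast_eq_zero_iff] at g1
    have g2 : N * N ^ 3 ∣ N * z.val := by
      have : N * N ^ 3 = N ^ 4 := by ring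
      rw [this]
      exact g1
    obtain ⟨v, hv⟩ := (Nat.mul_dvd_mul_iff_left hN).1 g2
    have g3 : v < N := by
      have g4 := ZMod.val_lt z
      rw [hv, pow_succ N 3] at g4
      exact lt_of_mul_lt_mul_left g4 (Nat.zero_le _)
    refine ⟨(v : ZMod N), ?_⟩
    rw [ZMod.val_natCast_of_lt g3, ← hv, ZMod.natCast_zmod_val]
  obtain ⟨x1, hx1⟩ := key _ y1
  obtain ⟨x2, hx2⟩ := key _ y2
  exact ⟨(x1, x2), Prod.ext hx1 hx2⟩

/-! ### the relations at the level `M` -/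

section

variable {a : UNL.Par} {N : ℕ} [NeZero N] {R : Type*} [Ring R] [Algebra ℚ R]

/-- the constants of level `M` -/
private def gM (hat : Additive (UNL.Gn a N → ℂˣ) →+ R) {M : ℕ} (k : UNL.G M) : R :=
  if k = 0 then 0 else UNL.co hat (fun _ _ => UNL.kl a (UNL.tp a k) 0)

open Classical in
private theorem dist_gM (hat : Additive (UNL.Gn a N → ℂˣ) →+ R) {M : ℕ} [NeZero M]
    (d d' : ℤ × ℤ) (hd : UNL.de a d * UNL.de a d' = M) :
    ∃ CA : R, ∀ l : UNL.G M, (∃ k, UNL.sm a d k = l) →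
      ∑ k ∈ Finset.univ.filter (fun k : UNL.G M => UNL.sm a d k = l), gM hat k =
        gM hat l + CA + if l = 0 then UNL.co hat (fun _ _ => UNL.de a d) else 0 := by
  have hM : 0 < M := Nat.pos_of_ne_zero (NeZero.ne M)
  have hde : UNL.de a d ≠ 0 := de_ne hd
  obtain ⟨C, hC, h1, e0, he0, h2⟩ := UNL.dist a M d d' hd
  have hkl : ∀ k : UNL.G M, k ≠ 0 → UNL.kl a (UNL.tp a k) 0 ≠ 0 := by
    intro k hk
    refine UNL.kl_ne a ?_
    rw [zero_sub]
    exact UNL.ofl_neg' (UNL.ofl_tp a hM hk)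
  have hgc : ∀ k : UNL.G M, k ≠ 0 → gM hat k = UNL.co hat (fun _ _ => UNL.kl a (UNL.tp a k) 0) := by
    intro k hk
    rw [gM, if_neg hk]
  have gM0 : gM hat (0 : UNL.G M) = 0 := by rw [gM, if_pos rfl]
  refine ⟨UNL.co hat (fun _ _ => C), fun l hl => ?_⟩
  by_cases hl0 : l = 0
  · subst hl0
    rw [if_pos rfl, gM0, zero_add]
    have a1 : ∑ k ∈ Finset.univ.filter (fun k : UNL.G M => UNL.sm a d k = 0), gM hat k =
        ∑ k ∈ (Finset.univ.filter (fun k : UNL.G M => UNL.sm a d k = 0)).erase 0, gM hat k :=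
      (Finset.sum_erase _ gM0).symm
    rw [a1]
    have a2 : ∑ k ∈ (Finset.univ.filter (fun k : UNL.G M => UNL.sm a d k = 0)).erase 0, gM hat k =
        UNL.co hat (fun _ _ => ∏ k ∈ (Finset.univ.filter
          (fun k : UNL.G M => UNL.sm a d k = 0)).erase 0, UNL.kl a (UNL.tp a k) 0) := by
      rw [UNL.co_prod hat _ (f := fun k _ _ => UNL.kl a (UNL.tp a k) 0)
        (fun k hk _ => hkl k (Finset.mem_erase.1 hk).1)]
      exact Finset.sum_congr rfl (fun k hk => hgc k (Finset.mem_erase.1 hk).1)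
    have a3 : ∏ k ∈ (Finset.univ.filter (fun k : UNL.G M => UNL.sm a d k = 0)).erase 0,
        UNL.kl a (UNL.tp a k) 0 = e0 * C * UNL.de a d := by
      convert h2
    rw [a2, a3, UNL.co_const_mul hat (mul_ne_zero (UNL.ru_ne he0) hC) hde,
      UNL.co_const_mul hat (UNL.ru_ne he0) hC, UNL.co_ru hat he0, zero_add]
  · rw [if_neg hl0, add_zero]
    obtain ⟨e, he, h3⟩ := h1 l hl0 hl
    have hk0 : ∀ k ∈ Finset.univ.filter (fun k : UNL.G M => UNL.sm a d k = l), k ≠ 0 := by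
      rintro k hk rfl
      have h4 := (Finset.mem_filter.1 hk).2
      apply hl0
      rw [← h4]
      refine Prod.ext ?_ ?_ <;> simp [UNL.sm]
    have a2 : ∑ k ∈ Finset.univ.filter (fun k : UNL.G M => UNL.sm a d k = l), gM hat k =
        UNL.co hat (fun _ _ => ∏ k ∈ Finset.univ.filter (fun k : UNL.G M => UNL.sm a d k = l),
          UNL.kl a (UNL.tp a k) 0) := by
      rw [UNL.co_prod hat _ (f := fun k _ _ => UNL.kl a (UNL.tp a k) 0)
        (fun k hk _ => hkl k (hk0 k hk))]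
      exact Finset.sum_congr rfl (fun k hk => hgc k (hk0 k hk))
    have a3 : ∏ k ∈ Finset.univ.filter (fun k : UNL.G M => UNL.sm a d k = l),
        UNL.kl a (UNL.tp a k) 0 = e * C * UNL.kl a (UNL.tp a l) 0 := by
      convert h3
    rw [a2, a3, UNL.co_const_mul hat (mul_ne_zero (UNL.ru_ne he) hC) (hkl l hl0),
      UNL.co_const_mul hat (UNL.ru_ne he) hC, UNL.co_ru hat he, zero_add, hgc l hl0, add_comm]

open Classical in
/-- the kernels of the levels `N` and `N ^ 4` give the same sum -/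
private theorem ker_sum (hat : Additive (UNL.Gn a N → ℂˣ) →+ R) (d d' : ℤ × ℤ)
    (hd : UNL.de a d * UNL.de a d' = N) :
    haveI : NeZero (N ^ 4) := ⟨pow_ne_zero _ (NeZero.ne N)⟩
    ∑ k ∈ Finset.univ.filter (fun k : UNL.G N => UNL.sm a d k = 0), UNL.gc hat k =
      ∑ k ∈ Finset.univ.filter (fun k : UNL.G (N ^ 4) => UNL.sm a d k = 0), gM hat k := by
  refine Finset.sum_bij (fun k _ => lif k) ?_ ?_ ?_ ?_
  · intro k hk
    rw [Finset.mem_filter] at hk ⊢
    exact ⟨Finset.mem_univ _, sm_lif.2 hk.2⟩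
  · intro k _ l _ h
    exact lif_inj h
  · intro y hy
    obtain ⟨k, rfl⟩ := lif_surj hd (Finset.mem_filter.1 hy).2
    refine ⟨k, ?_, rfl⟩
    rw [Finset.mem_filter] at hy ⊢
    exact ⟨Finset.mem_univ _, sm_lif.1 hy.2⟩
  · intro k _
    by_cases hk : k = 0
    · subst hk
      rw [lif_zero, gM, if_pos rfl, UNL.gc, if_pos rfl]
    · have hk' : lif k ≠ 0 := by
        intro h
        apply hk
        apply lif_inj
        rw [h, lif_zero]
      rw [gM, if_neg hk', UNL.gc, if_neg hk, tp_lif]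

private theorem sm_comm (a : UNL.Par) {M : ℕ} (d e : ℤ × ℤ) (k : UNL.G M) :
    UNL.sm a d (UNL.sm a e k) = UNL.sm a e (UNL.sm a d k) := by
  refine Prod.ext ?_ ?_
  · simp only [UNL.sm]
    ring
  · simp only [UNL.sm]
    ring

private theorem de_N (a : UNL.Par) (n : ℤ) (d : ℤ × ℤ) :
    UNL.de a (n * d.1, n * d.2) = n * UNL.de a d := by
  simp only [UNL.de]
  push_cast
  ring

private theorem pre {M : ℕ} [NeZero M] {d e : ℤ × ℤ} (h : Nd a d * Nd a e ∣ (M : ℤ))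
    (h0 : 0 < Nd a d) {y : UNL.G M} (hy : UNL.sm a d y = 0) : ∃ k, UNL.sm a e k = y := by
  obtain ⟨k, hk⟩ := (mat a e).exists_pre (N := M) (c := (Nd a d).natAbs)
    (by rw [mat_det, Int.natAbs_of_nonneg h0.le]; exact h) (Nd_ker hy)
  exact ⟨k, by rw [← mat_az]; exact hk⟩

open Classical in
/-- the sum over the kernel of `d e` -/
private theorem sum_de (hat : Additive (UNL.Gn a N → ℂˣ) →+ R) {M : ℕ} [NeZero M]
    {d e : ℤ × ℤ} (h : Nd a d * Nd a e ∣ (M : ℤ)) (h0 : 0 < Nd a d) {Cd Ce : R}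
    (hd : ∀ l : UNL.G M, (∃ k, UNL.sm a d k = l) →
      ∑ k ∈ Finset.univ.filter (fun k : UNL.G M => UNL.sm a d k = l), gM hat k =
        gM hat l + Cd + if l = 0 then UNL.co hat (fun _ _ => UNL.de a d) else 0)
    (he : ∀ l : UNL.G M, (∃ k, UNL.sm a e k = l) →
      ∑ k ∈ Finset.univ.filter (fun k : UNL.G M => UNL.sm a e k = l), gM hat k =
        gM hat l + Ce + if l = 0 then UNL.co hat (fun _ _ => UNL.de a e) else 0) :
    ∑ k ∈ Finset.univ.filter (fun k : UNL.G M => UNL.sm a d (UNL.sm a e k) = 0), gM hat k =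
      Cd + Nd a d • Ce + (UNL.co hat (fun _ _ => UNL.de a d) +
        UNL.co hat (fun _ _ => UNL.de a e)) := by
  have hz : ∀ f : ℤ × ℤ, UNL.sm a f (0 : UNL.G M) = 0 := by
    intro f
    refine Prod.ext ?_ ?_ <;> simp [UNL.sm]
  have h1 : ∑ k ∈ Finset.univ.filter (fun k : UNL.G M => UNL.sm a d (UNL.sm a e k) = 0),
      gM hat k = ∑ m ∈ Finset.univ.filter (fun m : UNL.G M => UNL.sm a d m = 0),
        ∑ k ∈ Finset.univ.filter (fun k : UNL.G M => UNL.sm a e k = m), gM hat k := by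
    rw [← Finset.sum_fiberwise_of_maps_to (g := fun k : UNL.G M => UNL.sm a e k)
      (t := Finset.univ.filter (fun m : UNL.G M => UNL.sm a d m = 0))]
    · refine Finset.sum_congr rfl fun m hm => ?_
      refine Finset.sum_congr ?_ fun _ _ => rfl
      ext k
      simp only [Finset.mem_filter, Finset.mem_univ, true_and]
      constructor
      · exact fun hk => hk.2
      · intro hk
        refine ⟨?_, hk⟩
        rw [hk]
        exact (Finset.mem_filter.1 hm).2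
    · intro k hk
      rw [Finset.mem_filter] at hk ⊢
      exact ⟨Finset.mem_univ _, hk.2⟩
  have h2 : ∀ m ∈ Finset.univ.filter (fun m : UNL.G M => UNL.sm a d m = 0),
      ∑ k ∈ Finset.univ.filter (fun k : UNL.G M => UNL.sm a e k = m), gM hat k =
        gM hat m + Ce + if m = 0 then UNL.co hat (fun _ _ => UNL.de a e) else 0 := by
    intro m hm
    exact he m (pre h h0 (Finset.mem_filter.1 hm).2)
  rw [h1, Finset.sum_congr rfl h2, Finset.sum_add_distrib, Finset.sum_add_distrib,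
    hd 0 ⟨0, hz d⟩, Finset.sum_const, Finset.sum_ite_eq']
  have h3 : (0 : UNL.G M) ∈ Finset.univ.filter (fun m : UNL.G M => UNL.sm a d m = 0) := by
    rw [Finset.mem_filter]
    exact ⟨Finset.mem_univ _, hz d⟩
  rw [if_pos h3, if_pos rfl, ← card_sm h0 ((Dvd.intro _ rfl).trans h), natCast_zsmul]
  have h4 : gM hat (0 : UNL.G M) = 0 := by rw [gM, if_pos rfl]
  rw [h4]
  abel

end

theorem const_rel {a : UNL.Par} {N : ℕ} [NeZero N] {R : Type*} [Ring R] [Algebra ℚ R]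
    (hat : Additive (UNL.Gn a N → ℂˣ) →+ R) (d d' e e' : ℤ × ℤ)
    (hd : UNL.de a d * UNL.de a d' = N) (he : UNL.de a e * UNL.de a e' = N) :
    (Nd a d - 1) • Cst hat e = (Nd a e - 1) • Cst hat d := by
  classical
  haveI : NeZero (N ^ 4) := ⟨pow_ne_zero _ (NeZero.ne N)⟩
  have hd4 : UNL.de a d * UNL.de a ((N : ℤ) ^ 3 * d'.1, (N : ℤ) ^ 3 * d'.2) = ((N ^ 4 : ℕ) : ℂ) := by
    rw [de_N]
    push_cast
    linear_combination ((N : ℂ) ^ 3) * hd
  have he4 : UNL.de a e * UNL.de a ((N : ℤ) ^ 3 * e'.1, (N : ℤ) ^ 3 * e'.2) = ((N ^ 4 : ℕ) : ℂ) := by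
    rw [de_N]
    push_cast
    linear_combination ((N : ℂ) ^ 3) * he
  obtain ⟨Cd, hCd⟩ := dist_gM hat d _ hd4
  obtain ⟨Ce, hCe⟩ := dist_gM hat e _ he4
  have hz : ∀ f : ℤ × ℤ, UNL.sm a f (0 : UNL.G (N ^ 4)) = 0 := by
    intro f
    refine Prod.ext ?_ ?_ <;> simp [UNL.sm]
  have gM0 : gM hat (0 : UNL.G (N ^ 4)) = 0 := by rw [gM, if_pos rfl]
  have k1 : Cst hat d = Cd := by
    unfold Cst
    have := ker_sum hat d d' hd
    rw [this, hCd 0 ⟨0, hz d⟩, if_pos rfl, gM0]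
    abel
  have k2 : Cst hat e = Ce := by
    unfold Cst
    have := ker_sum hat e e' he
    rw [this, hCe 0 ⟨0, hz e⟩, if_pos rfl, gM0]
    abel
  have hNd := Nd_pos (de_ne hd)
  have hNe := Nd_pos (de_ne he)
  have hdv : Nd a d * Nd a e ∣ (((N ^ 4 : ℕ)) : ℤ) := by
    refine ⟨Nd a d' * Nd a e', ?_⟩
    push_cast
    linear_combination (-(Nd a e * Nd a e')) * Nd_mul hd - ((N : ℤ) ^ 2) * Nd_mul he
  have s1 := sum_de hat hdv hNd hCd hCe
  have s2 := sum_de hat (by rw [mul_comm]; exact hdv) hNe hCe hCd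
  have s3 : ∑ k ∈ Finset.univ.filter (fun k : UNL.G (N ^ 4) => UNL.sm a d (UNL.sm a e k) = 0),
      gM hat k = ∑ k ∈ Finset.univ.filter (fun k : UNL.G (N ^ 4) =>
        UNL.sm a e (UNL.sm a d k) = 0), gM hat k := by
    refine Finset.sum_congr ?_ fun _ _ => rfl
    ext k
    rw [Finset.mem_filter, Finset.mem_filter, sm_comm]
  rw [s1, s2] at s3
  rw [k1, k2, sub_smul, sub_smul, one_smul, one_smul]
  have s4 : Cd + Nd a d • Ce = Ce + Nd a e • Cd := by
    have h5 : Cd + Nd a d • Ce + (UNL.co hat (fun _ _ => UNL.de a d) +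
        UNL.co hat (fun _ _ => UNL.de a e)) = Ce + Nd a e • Cd +
        (UNL.co hat (fun _ _ => UNL.de a d) + UNL.co hat (fun _ _ => UNL.de a e)) := by
      rw [s3]
      abel
    exact add_right_cancel h5
  rw [sub_eq_sub_iff_add_eq_add, add_comm, s4, add_comm]

end

end RNK
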