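import Pool.Agent.RNK.RgP

/-!
# RNK.Wt: the weights

`q0 D κ C w = max 0 (1 - |C w|² / (κ |det C|))` for primitive `w`, `rr` its normalisation (a
probability measure on primitive vectors), `mu D κ B A = B_* rr (A B)`.
* `q0_fin`: `C⁻¹` is bounded, so `nq (C w) < κ |det C|` bounds `nq w`; `fin_ball2`.
* `qq_mass`: the vector of `Kap.mink` has `q0 ≥ 1/2`.
* `rr_congr`: `q0` only depends on `nq (C w) / |det C|`.
* `rr_GO`: `q0 (C g) w = q0 C (g w)` since `Prim (g w) ↔ Prim w` (`Prim_act`, `GO_inv`) and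
  `|det g| = 1` (`norm_unit`); the total masses agree (`Finsupp.sum` under the bijection `g.act`).
-/

namespace RNK

variable {D : OD} {κ : ℝ}

private theorem nq_act_le' (g : Mat) (w : Vec) :
    nq (g.act w) ≤ 2 * (‖g.a‖ ^ 2 + ‖g.b‖ ^ 2 + ‖g.c‖ ^ 2 + ‖g.d‖ ^ 2) * nq w := by
  have h1 : ‖g.a * w.1 + g.b * w.2‖ ≤ ‖g.a‖ * ‖w.1‖ + ‖g.b‖ * ‖w.2‖ := by
    refine (norm_add_le _ _).trans ?_
    rw [norm_mul, norm_mul]
  have h2 : ‖g.c * w.1 + g.d * w.2‖ ≤ ‖g.c‖ * ‖w.1‖ + ‖g.d‖ * ‖w.2‖ := by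
    refine (norm_add_le _ _).trans ?_
    rw [norm_mul, norm_mul]
  have h3 := mul_self_le_mul_self (norm_nonneg _) h1
  have h4 := mul_self_le_mul_self (norm_nonneg _) h2
  simp only [nq, act_fst, act_snd]
  nlinarith [sq_nonneg (‖g.a‖ * ‖w.1‖ - ‖g.b‖ * ‖w.2‖), sq_nonneg (‖g.c‖ * ‖w.1‖ - ‖g.d‖ * ‖w.2‖),
    sq_nonneg (‖g.a‖ * ‖w.2‖), sq_nonneg (‖g.b‖ * ‖w.1‖), sq_nonneg (‖g.c‖ * ‖w.2‖),
    sq_nonneg (‖g.d‖ * ‖w.1‖)]

private theorem q0_ne {C : Mat} {w : Vec} (h : q0 D κ C w ≠ 0) :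
    Prim D w ∧ 0 < 1 - nq (C.act w) / (κ * ‖C.det‖) := by
  unfold q0 at h
  split_ifs at h with h1
  · refine ⟨h1, ?_⟩
    by_contra h2
    exact h (max_eq_left (not_lt.1 h2))
  · exact absurd rfl h

theorem q0_nonneg (D : OD) (κ : ℝ) (C : Mat) (w : Vec) : 0 ≤ q0 D κ C w := by
  unfold q0
  split_ifs
  · exact le_max_left _ _
  · exact le_rfl

private theorem q0_lt (hκ : 0 < κ) {C : Mat} (hC : C.det ≠ 0) {w : Vec} (h : q0 D κ C w ≠ 0) :
    nq (C.act w) < κ * ‖C.det‖ := by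
  have h1 := (q0_ne h).2
  have h2 : 0 < κ * ‖C.det‖ := mul_pos hκ (norm_pos_iff.2 hC)
  have h3 : nq (C.act w) / (κ * ‖C.det‖) < 1 := by linarith
  rwa [div_lt_one h2] at h3

theorem q0_fin (hκ : 0 < κ) {C : Mat} (hC : C.det ≠ 0) :
    (Function.support (q0 D κ C)).Finite := by
  refine (fin_ball2 D (2 * (‖C.inv.a‖ ^ 2 + ‖C.inv.b‖ ^ 2 + ‖C.inv.c‖ ^ 2 + ‖C.inv.d‖ ^ 2) *
    (κ * ‖C.det‖))).subset ?_
  intro w hw
  have hw' : q0 D κ C w ≠ 0 := hw
  refine ⟨Prim_O2 (q0_ne hw').1, ?_⟩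
  have h1 := nq_act_le' C.inv (C.act w)
  rw [inv_act hC] at h1
  refine h1.trans ?_
  exact mul_le_mul_of_nonneg_left (q0_lt hκ hC hw').le (by positivity)

theorem qq_apply (hκ : 0 < κ) {C : Mat} (hC : C.det ≠ 0) (w : Vec) :
    qq D κ C w = q0 D κ C w := by
  unfold qq
  rw [dif_pos (q0_fin hκ hC)]
  rfl

private theorem kpos (hκ : Kap D κ) : 0 < κ := lt_of_lt_of_le one_pos hκ.one

theorem qq_mass (hκ : Kap D κ) {C : Mat} (hC : C.det ≠ 0) :
    1 / 2 ≤ (qq D κ C).sum fun _ a => a := by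
  obtain ⟨w, hw, hn⟩ := hκ.mink C hC
  have hk := kpos hκ
  have h2 : 0 < κ * ‖C.det‖ := mul_pos hk (norm_pos_iff.2 hC)
  have h3 : nq (C.act w) / (κ * ‖C.det‖) ≤ 1 / 2 := by
    rw [div_le_iff₀ h2]
    linarith
  have h4 : 1 / 2 ≤ q0 D κ C w := by
    unfold q0
    rw [if_pos hw]
    exact le_trans (by linarith) (le_max_right _ _)
  have h5 : w ∈ (qq D κ C).support := by
    rw [Finsupp.mem_support_iff, qq_apply hk hC]
    linarith
  refine h4.trans ?_
  rw [← qq_apply hk hC, Finsupp.sum]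
  exact Finset.single_le_sum (f := fun v => qq D κ C v)
    (fun v _ => by rw [qq_apply hk hC]; exact q0_nonneg D κ C v) h5

theorem rr_nonneg (hκ : Kap D κ) {C : Mat} (hC : C.det ≠ 0) (w : Vec) : 0 ≤ rr D κ C w := by
  have h1 := qq_mass hκ hC
  unfold rr
  rw [Finsupp.smul_apply, smul_eq_mul, qq_apply (kpos hκ) hC]
  exact mul_nonneg (inv_nonneg.2 (by linarith)) (q0_nonneg D κ C w)

theorem rr_sum (hκ : Kap D κ) {C : Mat} (hC : C.det ≠ 0) :
    ((rr D κ C).sum fun _ a => a) = 1 := by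
  have h1 := qq_mass hκ hC
  unfold rr
  rw [Finsupp.sum_smul_index' (fun _ => rfl)]
  simp only [smul_eq_mul]
  rw [Finsupp.sum, ← Finset.mul_sum]
  change ((qq D κ C).sum fun _ a => a)⁻¹ * ((qq D κ C).sum fun _ a => a) = 1
  exact inv_mul_cancel₀ (by linarith)

theorem rr_supp (hκ : Kap D κ) {C : Mat} (hC : C.det ≠ 0) {w : Vec} (h : rr D κ C w ≠ 0) :
    Prim D w ∧ nq (C.act w) < κ * ‖C.det‖ := by
  have h1 : q0 D κ C w ≠ 0 := by
    intro h2
    apply h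
    unfold rr
    rw [Finsupp.smul_apply, smul_eq_mul, qq_apply (kpos hκ) hC, h2, mul_zero]
  exact ⟨(q0_ne h1).1, q0_lt (kpos hκ) hC h1⟩

open Classical in
private theorem qq_key (f f' : Vec → ℝ) (h : f = f') :
    (if h : (Function.support f).Finite then Finsupp.ofSupportFinite f h else (0 : Ms)) =
      if h : (Function.support f').Finite then Finsupp.ofSupportFinite f' h else 0 := by
  subst h
  rfl

theorem rr_congr {C C' : Mat} {c : ℝ} (hc : 0 < c)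
    (h : ∀ w, nq (C.act w) = c * nq (C'.act w)) (hd : ‖C.det‖ = c * ‖C'.det‖) :
    rr D κ C = rr D κ C' := by
  have h1 : q0 D κ C = q0 D κ C' := by
    funext w
    have h2 : nq (C.act w) / (κ * ‖C.det‖) = nq (C'.act w) / (κ * ‖C'.det‖) := by
      rw [h, hd, mul_left_comm, mul_div_mul_left _ _ hc.ne']
    unfold q0
    rw [h2]
  have h2 : qq D κ C = qq D κ C' := qq_key _ _ h1
  unfold rr
  rw [h2]

theorem rr_GO (hκ : 0 < κ) {C g : Mat} (hC : C.det ≠ 0) (hg : GO D g) (w : Vec) :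
    rr D κ (C.mul g) w = rr D κ C (g.act w) := by
  have hg0 : g.det ≠ 0 := hg.1.2
  have hn : ‖g.det‖ = 1 := norm_unit (det_O hg.1) hg.2 (mul_inv_cancel₀ hg0)
  have hCg : (C.mul g).det ≠ 0 := by rw [det_mul]; exact mul_ne_zero hC hg0
  have hP : ∀ v, Prim D v ↔ Prim D (g.act v) := by
    intro v
    constructor
    · exact Prim_act hg
    · intro h
      have := Prim_act (GO_inv hg) h
      rwa [inv_act hg0] at this
  have h1 : ∀ v, q0 D κ (C.mul g) v = q0 D κ C (g.act v) := by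
    intro v
    unfold q0
    rw [act_mul, det_mul, norm_mul, hn, mul_one]
    by_cases h : Prim D v
    · rw [if_pos h, if_pos ((hP v).1 h)]
    · rw [if_neg h, if_neg fun h' => h ((hP v).2 h')]
  have h2 : ((qq D κ (C.mul g)).sum fun _ a => a) = (qq D κ C).sum fun _ a => a := by
    simp only [Finsupp.sum]
    refine Finset.sum_nbij' g.act g.inv.act ?_ ?_ ?_ ?_ ?_
    · intro v hv
      rw [Finsupp.mem_support_iff, qq_apply hκ hCg, h1] at hv
      rw [Finsupp.mem_support_iff, qq_apply hκ hC]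
      exact hv
    · intro v hv
      rw [Finsupp.mem_support_iff, qq_apply hκ hC] at hv
      rw [Finsupp.mem_support_iff, qq_apply hκ hCg, h1, act_inv hg0]
      exact hv
    · intro v _
      exact inv_act hg0 v
    · intro v _
      exact act_inv hg0 v
    · intro v _
      rw [qq_apply hκ hCg, qq_apply hκ hC, h1]
  unfold rr
  rw [Finsupp.smul_apply, Finsupp.smul_apply, h2, qq_apply hκ hCg, qq_apply hκ hC, h1]

end RNK
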